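import Pool.Agent.Work.MP_56b8f5_nt.UV.Stmts

/-!
MP_56b8f5_nt, block UV, item Bd (points with large local mass).  Author: helper91.
-/

set_option autoImplicit false

open MeasureTheory Set Filter Topology

noncomputable section

namespace Pool.Agent.Work.MP_56b8f5_nt.UV

open Pool.Agent.Work.MP_56b8f5_nt.UB

namespace Bd_aux

lemma cont_ee : Continuous ee := by
  unfold ee
  fun_prop

lemma cont_SS (X N : ℝ) (a : ℕ → ℂ) : Continuous (SS X N a) := by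
  unfold SS
  refine continuous_finsetSum _ fun n _ => continuous_const.mul ?_
  exact cont_ee.comp (continuous_id.mul continuous_const)

/-- The local mass. -/
def rho (A : Set ℝ) (Δ y : ℝ) : ℝ := Rr (A ∩ Icc (y - Δ) (y + Δ))

lemma meas_rho {A : Set ℝ} (hA : MeasurableSet A) (Δ : ℝ) : Measurable (rho A Δ) := by
  have hs : MeasurableSet {p : ℝ × ℝ | p.2 ∈ A ∧ p.1 - Δ ≤ p.2 ∧ p.2 ≤ p.1 + Δ} := by
    refine (measurable_snd hA).inter ?_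
    refine (measurableSet_le (measurable_fst.sub_const Δ) measurable_snd).inter ?_
    exact measurableSet_le measurable_snd (measurable_fst.add_const Δ)
  have h := measurable_measure_prodMk_left (ν := (volume : Measure ℝ)) hs
  exact h.ennreal_toReal

lemma rho_le {A : Set ℝ} {Δ : ℝ} (hΔ : 0 < Δ) (y : ℝ) : rho A Δ y ≤ 2 * Δ := by
  unfold rho Rr
  have h1 : volume (A ∩ Icc (y - Δ) (y + Δ)) ≤ ENNReal.ofReal (2 * Δ) := by
    refine (measure_mono inter_subset_right).trans ?_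
    rw [Real.volume_Icc]
    apply le_of_eq
    congr 1
    ring
  exact ENNReal.toReal_le_of_le_ofReal (by linarith) h1

lemma fin {A : Set ℝ} {a b : ℝ} (h : A ⊆ Icc a b) : volume A ≠ ⊤ :=
  ((measure_mono h).trans_lt (by rw [Real.volume_Icc]; exact ENNReal.ofReal_lt_top)).ne

lemma Rr_mono {A B : Set ℝ} {a b : ℝ} (h : A ⊆ B) (hB : B ⊆ Icc a b) : Rr A ≤ Rr B :=
  ENNReal.toReal_mono (fin hB) (measure_mono h)

lemma Rr_union {A B : Set ℝ} {a b : ℝ} (hA : A ⊆ Icc a b) (hB : B ⊆ Icc a b) :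
    Rr (A ∪ B) ≤ Rr A + Rr B := by
  unfold Rr
  rw [← ENNReal.toReal_add (fin hA) (fin hB)]
  exact ENNReal.toReal_mono (ENNReal.add_ne_top.2 ⟨fin hA, fin hB⟩) (measure_union_le _ _)

lemma Rr_cover {A : Set ℝ} {a b : ℝ} (K : ℕ) (B : ℕ → Set ℝ) (hB : ∀ k, B k ⊆ Icc a b)
    (h : A ⊆ ⋃ k ∈ Finset.range K, B k) (c : ℝ) (hc : ∀ k < K, Rr (B k) ≤ c) : Rr A ≤ K * c := by
  have h1 : Rr A ≤ ∑ k ∈ Finset.range K, Rr (B k) := by
    unfold Rr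
    rw [← ENNReal.toReal_sum (fun k _ => fin (hB k))]
    refine ENNReal.toReal_mono (ENNReal.sum_ne_top.2 fun k _ => fin (hB k)) ?_
    exact (measure_mono h).trans (measure_biUnion_finset_le _ _)
  refine h1.trans ?_
  calc ∑ k ∈ Finset.range K, Rr (B k) ≤ ∑ _k ∈ Finset.range K, c :=
        Finset.sum_le_sum fun k hk => hc k (Finset.mem_range.1 hk)
    _ = K * c := by simp

lemma half {W A : Set ℝ} {Δ τ : ℝ} (hτ : 0 < τ) (hAW : A ⊆ W)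
    (hA : ∀ x ∈ A, rho W Δ x ≤ 2 * τ) (u : ℝ) :
    Rr (A ∩ Icc u (u + Δ)) ≤ 2 * τ := by
  by_cases h : (A ∩ Icc u (u + Δ)).Nonempty
  · obtain ⟨x, hxA, hx⟩ := h
    refine le_trans (Rr_mono (a := x - Δ) (b := x + Δ) ?_ inter_subset_right) (hA x hxA)
    intro z hz
    refine ⟨hAW hz.1, ?_, ?_⟩
    · linarith [hz.2.1, hx.2]
    · linarith [hz.2.2, hx.1]
  · rw [Set.not_nonempty_iff_eq_empty] at h
    rw [h]
    have : Rr (∅ : Set ℝ) = 0 := by simp [Rr]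
    rw [this]
    linarith

lemma whole {W A : Set ℝ} {Δ τ : ℝ} (hΔ : 0 < Δ) (hτ : 0 < τ) (hAW : A ⊆ W)
    (hA : ∀ x ∈ A, rho W Δ x ≤ 2 * τ) (y : ℝ) :
    Rr (A ∩ Icc (y - Δ) (y + Δ)) ≤ 4 * τ := by
  have h1 : A ∩ Icc (y - Δ) (y + Δ) ⊆
      (A ∩ Icc (y - Δ) (y - Δ + Δ)) ∪ (A ∩ Icc y (y + Δ)) := by
    intro z hz
    rcases le_total z y with h | h
    · exact Or.inl ⟨hz.1, hz.2.1, by linarith⟩
    · exact Or.inr ⟨hz.1, h, hz.2.2⟩
  have s1 : A ∩ Icc (y - Δ) (y - Δ + Δ) ⊆ Icc (y - Δ) (y + Δ) := fun z hz =>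
    ⟨hz.2.1, by linarith [hz.2.2]⟩
  have s2 : A ∩ Icc y (y + Δ) ⊆ Icc (y - Δ) (y + Δ) := fun z hz =>
    ⟨by linarith [hz.2.1], hz.2.2⟩
  have h2 := Rr_union s1 s2
  have h3 := Rr_mono h1 (union_subset s1 s2)
  have h4 := half hτ hAW hA (y - Δ)
  have h5 := half hτ hAW hA y
  linarith

lemma lms {X N V Δ : ℝ} {a : ℕ → ℂ} {W : Set ℝ} (hV : 0 < V) (hΔ : 0 < Δ)
    (hW : MeasurableSet W) (hWV : ∀ x ∈ W, V ≤ ‖SS X N a x‖) (x : ℝ) :
    V ^ 2 * rho W Δ x ≤ ∫ h in (-Δ)..Δ, ‖SS X N a (x + h)‖ ^ 2 := by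
  have hc : Continuous fun y => ‖SS X N a y‖ ^ 2 := (cont_SS X N a).norm.pow 2
  rw [intervalIntegral.integral_comp_add_left (fun y => ‖SS X N a y‖ ^ 2) x,
    intervalIntegral.integral_of_le (by linarith), ← integral_Icc_eq_integral_Ioc]
  have h1 : x + -Δ = x - Δ := by ring
  rw [h1]
  have hi : IntegrableOn (fun y => ‖SS X N a y‖ ^ 2) (Icc (x - Δ) (x + Δ)) :=
    hc.continuousOn.integrableOn_compact isCompact_Icc
  calc V ^ 2 * rho W Δ x = ∫ _y in W ∩ Icc (x - Δ) (x + Δ), V ^ 2 := by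
        rw [setIntegral_const, smul_eq_mul, mul_comm]
        rfl
    _ ≤ ∫ y in W ∩ Icc (x - Δ) (x + Δ), ‖SS X N a y‖ ^ 2 := by
        refine setIntegral_mono_on ?_ (hi.mono_set inter_subset_right)
          (hW.inter measurableSet_Icc) ?_
        · exact integrableOn_const (fin inter_subset_right)
        · intro y hy
          exact pow_le_pow_left₀ hV.le (hWV y hy.1) 2
    _ ≤ ∫ y in Icc (x - Δ) (x + Δ), ‖SS X N a y‖ ^ 2 := by
        refine setIntegral_mono_set hi ?_ (Eventually.of_forall inter_subset_right)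
        exact Eventually.of_forall fun y => by positivity

/-- one scale -/
lemma scale {C1 : ℝ} (hC1 : 1 ≤ C1)
    (hVH : ∀ (X N M V Δ τ b η : ℝ) (a : ℕ → ℂ) (A : Set ℝ), 1 ≤ N → 0 < X →
      C1 * N ≤ X ^ 2 → 1 ≤ M → 0 < V → η = N * Real.sqrt N / V ^ 2 → 1 ≤ Δ * Real.sqrt N →
      Δ ≤ Real.sqrt N / 64 →
      0 < τ → C1 * (N * Real.sqrt M) ≤ V ^ 2 * τ → (∀ n, ‖a n‖ ≤ 1) → MeasurableSet A →
      A ⊆ Icc b (b + M * Real.sqrt N) → (∀ x ∈ A, V ≤ ‖SS X N a x‖) →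
      (∀ x ∈ A, V ^ 2 * τ ≤ ∫ h in (-Δ)..Δ, ‖SS X N a (x + h)‖ ^ 2) →
      (∀ y, Rr (A ∩ Icc (y - Δ) (y + Δ)) ≤ 4 * τ) →
      Rr A ≤ C1 * (η + η ^ 3 * Δ ^ 2 / τ ^ 2))
    {X N M V Δ τ η : ℝ} {a : ℕ → ℂ} {W A : Set ℝ} (hN : 1 ≤ N) (hX : 0 < X)
    (hNX : C1 * N ≤ X ^ 2) (hM : 1 ≤ M) (hV : 0 < V) (hη : η = N * Real.sqrt N / V ^ 2)
    (hΔ1 : 1 ≤ Δ * Real.sqrt N) (hΔ2 : Δ ≤ Real.sqrt N / 64) (hΔ : 0 < Δ) (hτ : 0 < τ)
    (hητ : C1 * η ≤ Real.sqrt N * τ) (ha : ∀ n, ‖a n‖ ≤ 1) (hW : MeasurableSet W)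
    (hWI : W ⊆ Icc 0 (M * Real.sqrt N)) (hWV : ∀ x ∈ W, V ≤ ‖SS X N a x‖)
    (hA : MeasurableSet A) (hAW : A ⊆ W)
    (hA1 : ∀ x ∈ A, τ ≤ rho W Δ x) (hA2 : ∀ x ∈ A, rho W Δ x ≤ 2 * τ) :
    Rr A ≤ 2 * C1 ^ 3 * ((1 + M * η ^ 2 / (N * τ ^ 2)) * (η + η ^ 3 * Δ ^ 2 / τ ^ 2)) := by
  have hN0 : 0 < N := by linarith
  have hsN : 0 < Real.sqrt N := Real.sqrt_pos.2 hN0
  have hC0 : 0 < C1 := by linarith
  have hη0 : 0 < η := by rw [hη]; positivity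
  have hVτ : C1 * N ≤ V ^ 2 * τ := by
    have h1 : C1 * η * V ^ 2 ≤ Real.sqrt N * τ * V ^ 2 := by gcongr
    have h2 : C1 * η * V ^ 2 = C1 * N * Real.sqrt N := by
      rw [hη]
      field_simp
    rw [h2] at h1
    have h3 : Real.sqrt N * (C1 * N) ≤ Real.sqrt N * (V ^ 2 * τ) := by linarith
    exact le_of_mul_le_mul_left h3 hsN
  obtain ⟨M', hM'⟩ : ∃ M', M' = (V ^ 2 * τ / (C1 * N)) ^ 2 := ⟨_, rfl⟩
  have hb1 : 1 ≤ V ^ 2 * τ / (C1 * N) := by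
    rw [le_div_iff₀ (by positivity)]
    linarith
  have hM'1 : 1 ≤ M' := by
    rw [hM']
    exact one_le_pow₀ hb1
  obtain ⟨M2, hM2⟩ : ∃ M2, M2 = min M M' := ⟨_, rfl⟩
  have hM21 : 1 ≤ M2 := by rw [hM2]; exact le_min hM hM'1
  have hM20 : 0 < M2 := by linarith
  have hsM2 : C1 * (N * Real.sqrt M2) ≤ V ^ 2 * τ := by
    have h1 : Real.sqrt M2 ≤ V ^ 2 * τ / (C1 * N) := by
      rw [Real.sqrt_le_left (by linarith)]
      rw [hM2, ← hM']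
      exact min_le_right _ _
    calc C1 * (N * Real.sqrt M2) ≤ C1 * (N * (V ^ 2 * τ / (C1 * N))) := by gcongr
      _ = V ^ 2 * τ := by field_simp
  obtain ⟨L, hL⟩ : ∃ L, L = M2 * Real.sqrt N := ⟨_, rfl⟩
  have hL0 : 0 < L := by rw [hL]; positivity
  have hMM : M / M2 ≤ 1 + M / M' := by
    rcases le_total M M' with h | h
    · rw [hM2, min_eq_left h, div_self (by linarith)]
      have : 0 ≤ M / M' := by positivity
      linarith
    · rw [hM2, min_eq_right h]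
      linarith
  have hMM' : M / M' = C1 ^ 2 * (M * η ^ 2 / (N * τ ^ 2)) := by
    have hs2 : Real.sqrt N ^ 2 = N := Real.sq_sqrt hN0.le
    rw [hM', hη]
    have e1 : (N * Real.sqrt N / V ^ 2) ^ 2 = N ^ 3 / V ^ 4 := by
      rw [div_pow, mul_pow, hs2]
      ring
    rw [e1]
    field_simp
  have hq : 0 ≤ M * η ^ 2 / (N * τ ^ 2) := by positivity
  obtain ⟨J, hJ⟩ : ∃ J : ℕ, J = ⌊M / M2⌋₊ + 1 := ⟨_, rfl⟩
  have hJ1 : (J : ℝ) ≤ 2 * C1 ^ 2 * (1 + M * η ^ 2 / (N * τ ^ 2)) := by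
    have h1 : (J : ℝ) ≤ M / M2 + 1 := by
      rw [hJ]
      push_cast
      have := Nat.floor_le (show 0 ≤ M / M2 by positivity)
      linarith
    have h2 : (1 : ℝ) ≤ C1 ^ 2 := one_le_pow₀ hC1
    have h3 : 0 ≤ C1 ^ 2 * (M * η ^ 2 / (N * τ ^ 2)) := by positivity
    calc (J : ℝ) ≤ M / M2 + 1 := h1
      _ ≤ 2 + C1 ^ 2 * (M * η ^ 2 / (N * τ ^ 2)) := by rw [← hMM']; linarith
      _ ≤ 2 * C1 ^ 2 * (1 + M * η ^ 2 / (N * τ ^ 2)) := by linarith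
  have hcov : A ⊆ ⋃ j ∈ Finset.range J, (fun j : ℕ => A ∩ Icc (j * L) (j * L + L)) j := by
    intro x hx
    have hx1 := hWI (hAW hx)
    simp only [mem_iUnion, Finset.mem_range]
    have hx0 : 0 ≤ x / L := div_nonneg hx1.1 hL0.le
    refine ⟨⌊x / L⌋₊, ?_, hx, ?_, ?_⟩
    · rw [hJ]
      refine Nat.lt_succ_of_le (Nat.floor_le_floor ?_)
      rw [div_le_div_iff₀ hL0 hM20, hL]
      calc x * M2 ≤ M * Real.sqrt N * M2 := by gcongr; exact hx1.2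
        _ = M * (M2 * Real.sqrt N) := by ring
    · have h1 := Nat.floor_le hx0
      rwa [le_div_iff₀ hL0] at h1
    · have h1 := Nat.lt_floor_add_one (x / L)
      rw [div_lt_iff₀ hL0] at h1
      linarith
  have hwin : ∀ j < J, Rr ((fun j : ℕ => A ∩ Icc (j * L) (j * L + L)) j) ≤
      C1 * (η + η ^ 3 * Δ ^ 2 / τ ^ 2) := by
    intro j _
    refine hVH X N M2 V Δ τ (j * L) η a _ hN hX hNX hM21 hV hη hΔ1 hΔ2 hτ hsM2 ha
      (hA.inter measurableSet_Icc) ?_ ?_ ?_ ?_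
    · rw [hL]
      exact inter_subset_right
    · intro x hx
      exact hWV x (hAW hx.1)
    · intro x hx
      refine le_trans ?_ (lms hV hΔ hW hWV x)
      exact mul_le_mul_of_nonneg_left (hA1 x hx.1) (by positivity)
    · intro y
      exact whole hΔ hτ (inter_subset_left.trans hAW) (fun x hx => hA2 x hx.1) y
  have hsub : ∀ j : ℕ, (fun j : ℕ => A ∩ Icc (j * L) (j * L + L)) j ⊆
      Icc 0 (M * Real.sqrt N) := fun j => inter_subset_left.trans (hAW.trans hWI)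
  have hfin := Rr_cover J _ hsub hcov _ hwin
  have hp : 0 ≤ C1 * (η + η ^ 3 * Δ ^ 2 / τ ^ 2) := by positivity
  calc Rr A ≤ J * (C1 * (η + η ^ 3 * Δ ^ 2 / τ ^ 2)) := hfin
    _ ≤ (2 * C1 ^ 2 * (1 + M * η ^ 2 / (N * τ ^ 2))) * (C1 * (η + η ^ 3 * Δ ^ 2 / τ ^ 2)) := by
        gcongr
    _ = _ := by ring

/-- the number of scales -/
lemma scales {N : ℝ} (hN : 1 ≤ N) : ∃ K : ℕ, (K : ℝ) ≤ 3 * Lq N ∧ N ≤ 2 ^ K := by
  have hl : 1 ≤ Lq N := by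
    unfold Lq
    rw [Real.le_log_iff_exp_le (by linarith)]
    have := Real.exp_one_lt_d9
    linarith
  have h2 : 1 / 2 ≤ Real.log 2 := by
    have := Real.log_two_gt_d9
    linarith
  have h20 : 0 < Real.log 2 := by linarith
  refine ⟨⌈Lq N / Real.log 2⌉₊, ?_, ?_⟩
  · have h1 := (Nat.ceil_lt_add_one (show 0 ≤ Lq N / Real.log 2 by positivity)).le
    have h3 : Lq N / Real.log 2 ≤ 2 * Lq N := by
      rw [div_le_iff₀ h20]
      nlinarith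
    linarith
  · have h1 := Nat.le_ceil (Lq N / Real.log 2)
    rw [div_le_iff₀ h20] at h1
    have h3 : Real.log (2 + N) ≤ Real.log ((2 : ℝ) ^ ⌈Lq N / Real.log 2⌉₊) := by
      rw [Real.log_pow]
      exact h1
    have h4 := (Real.log_le_log_iff (by linarith) (by positivity)).1 h3
    linarith

lemma dyadic {τ0 r : ℝ} (K : ℕ) (h1 : τ0 < r) (h2 : r ≤ 2 ^ K * τ0) :
    ∃ k < K, 2 ^ k * τ0 < r ∧ r ≤ 2 * (2 ^ k * τ0) := by
  induction K with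
  | zero => simp at h2; linarith
  | succ K ih =>
    rcases le_or_gt r (2 ^ K * τ0) with h | h
    · obtain ⟨k, hk, h3, h4⟩ := ih h
      exact ⟨k, by omega, h3, h4⟩
    · refine ⟨K, by omega, h, ?_⟩
      calc r ≤ 2 ^ (K + 1) * τ0 := h2
        _ = 2 * (2 ^ K * τ0) := by ring

end Bd_aux

open Bd_aux in
/-- Item Bd. -/
theorem iBd (hVH : StVH) : StBd := by
  obtain ⟨C1, hC1, h⟩ := hVH
  have hC0 : 0 < C1 := by linarith
  have hC3 : C1 ≤ 6 * C1 ^ 3 := by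
    have h1 : C1 ≤ C1 ^ 3 := le_self_pow₀ hC1 (by norm_num)
    have h2 : 0 < C1 ^ 3 := by positivity
    linarith
  refine ⟨6 * C1 ^ 3, by linarith, ?_⟩
  intro X N M V Δ τ0 η a W hN hX hNX hM hV hη hΔ1 hΔ2 hτ0 hNτ hητ ha hW hWI hWV
  have hN0 : 0 < N := by linarith
  have hsN : 0 < Real.sqrt N := Real.sqrt_pos.2 hN0
  have hΔ : 0 < Δ := by
    by_contra hc
    have : Δ * Real.sqrt N ≤ 0 := mul_nonpos_of_nonpos_of_nonneg (not_lt.1 hc) hsN.le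
    linarith
  have hη0 : 0 < η := by rw [hη]; positivity
  have hset : {x | x ∈ W ∧ τ0 < Rr (W ∩ Icc (x - Δ) (x + Δ))} = W ∩ {x | τ0 < rho W Δ x} := rfl
  have hmeas : Measurable (rho W Δ) := meas_rho hW Δ
  refine ⟨?_, ?_⟩
  · rw [hset]
    exact hW.inter (measurableSet_lt measurable_const hmeas)
  · obtain ⟨K, hK1, hK2⟩ := scales hN
    have hss : Real.sqrt N * Real.sqrt N = N := Real.mul_self_sqrt hN0.le
    have h2Δ : 2 * Δ ≤ 2 ^ K * τ0 := by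
      have e1 : 2 * Δ ≤ N * τ0 := by
        have e2 : 2 * Δ ≤ Real.sqrt N := by linarith
        calc 2 * Δ ≤ Real.sqrt N * 1 := by linarith
          _ ≤ Real.sqrt N * (Real.sqrt N * τ0) := by gcongr
          _ = N * τ0 := by rw [← mul_assoc, hss]
      calc 2 * Δ ≤ N * τ0 := e1
        _ ≤ 2 ^ K * τ0 := by gcongr
    rw [hset]
    have hcov : W ∩ {x | τ0 < rho W Δ x} ⊆ ⋃ k ∈ Finset.range K,
        (fun k : ℕ => W ∩ {x | 2 ^ k * τ0 < rho W Δ x ∧ rho W Δ x ≤ 2 * (2 ^ k * τ0)}) k := by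
      rintro x ⟨hx, hx2⟩
      obtain ⟨k, hk, h3, h4⟩ := dyadic K hx2 ((rho_le hΔ x).trans h2Δ)
      simp only [mem_iUnion, Finset.mem_range]
      exact ⟨k, hk, hx, h3, h4⟩
    have hk : ∀ k < K, Rr ((fun k : ℕ => W ∩ {x | 2 ^ k * τ0 < rho W Δ x ∧
        rho W Δ x ≤ 2 * (2 ^ k * τ0)}) k) ≤
        2 * C1 ^ 3 * ((1 + M * η ^ 2 / (N * τ0 ^ 2)) * (η + η ^ 3 * Δ ^ 2 / τ0 ^ 2)) := by
      intro k _
      have h2k : (1 : ℝ) ≤ 2 ^ k := one_le_pow₀ (by norm_num)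
      have hττ : τ0 ≤ 2 ^ k * τ0 := by nlinarith
      have hτ : 0 < 2 ^ k * τ0 := by linarith
      have hητ' : C1 * η ≤ Real.sqrt N * (2 ^ k * τ0) := by
        calc C1 * η ≤ 6 * C1 ^ 3 * η := by gcongr
          _ ≤ Real.sqrt N * τ0 := hητ
          _ ≤ Real.sqrt N * (2 ^ k * τ0) := by gcongr
      have hb := scale hC1 h (X := X) (N := N) (M := M) (V := V) (Δ := Δ) (τ := 2 ^ k * τ0)
        (η := η) (a := a) (W := W)
        (A := W ∩ {x | 2 ^ k * τ0 < rho W Δ x ∧ rho W Δ x ≤ 2 * (2 ^ k * τ0)}) hN hX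
        (le_trans (by gcongr) hNX) hM hV hη hΔ1 hΔ2 hΔ hτ hητ' ha hW hWI hWV
        (hW.inter ((measurableSet_lt measurable_const hmeas).inter
          (measurableSet_le hmeas measurable_const))) inter_subset_left
        (fun x hx => hx.2.1.le) (fun x hx => hx.2.2)
      refine le_trans hb ?_
      gcongr
    have hsub : ∀ k : ℕ, (fun k : ℕ => W ∩ {x | 2 ^ k * τ0 < rho W Δ x ∧
        rho W Δ x ≤ 2 * (2 ^ k * τ0)}) k ⊆ Icc 0 (M * Real.sqrt N) :=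
      fun k => inter_subset_left.trans hWI
    have hfin := Rr_cover K _ hsub hcov _ hk
    have hp : 0 ≤ 2 * C1 ^ 3 * ((1 + M * η ^ 2 / (N * τ0 ^ 2)) *
        (η + η ^ 3 * Δ ^ 2 / τ0 ^ 2)) := by positivity
    calc Rr (W ∩ {x | τ0 < rho W Δ x}) ≤ K * (2 * C1 ^ 3 * ((1 + M * η ^ 2 / (N * τ0 ^ 2)) *
        (η + η ^ 3 * Δ ^ 2 / τ0 ^ 2))) := hfin
      _ ≤ (3 * Lq N) * (2 * C1 ^ 3 * ((1 + M * η ^ 2 / (N * τ0 ^ 2)) *
        (η + η ^ 3 * Δ ^ 2 / τ0 ^ 2))) := by gcongr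
      _ = _ := by ring

end Pool.Agent.Work.MP_56b8f5_nt.UV
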