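import Pool.Agent.Work.MP_56b8f5_nt.UV.I_MS

/-!
MP_56b8f5_nt, block UV, item Bk (quadratic form of the kernel, block decomposition).
-/

set_option autoImplicit false

open MeasureTheory Set Filter Topology

noncomputable section

namespace Pool.Agent.Work.MP_56b8f5_nt.UV

open Pool.Agent.Work.MP_56b8f5_nt.UB

namespace Bk_aux

/-- the block number `k` -/
def Sk (b Δ : ℝ) (k : ℕ) : Set ℝ := Ico (b + k * Δ) (b + (k + 1) * Δ)

lemma meas_Sk (b Δ : ℝ) (k : ℕ) : MeasurableSet (Sk b Δ k) := measurableSet_Ico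

/-- the part of `g` on the block number `k` -/
def gk (g : ℝ → ℂ) (b Δ : ℝ) (k : ℕ) : ℝ → ℂ := (Sk b Δ k).indicator g

/-- every point lies in exactly one block -/
lemma part {E : Type*} [AddCommMonoid E] (f : ℝ → E) {b Δ : ℝ} {K : ℕ} (hΔ : 0 < Δ)
    (hf : ∀ x, x ∉ Ico b (b + K * Δ) → f x = 0) (x : ℝ) :
    ∑ k ∈ Finset.range K, (Sk b Δ k).indicator f x = f x := by
  by_cases hx : x ∈ Ico b (b + K * Δ)
  · have h0 : 0 ≤ (x - b) / Δ := div_nonneg (by linarith [hx.1]) hΔ.le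
    have hm : ∀ k : ℕ, x ∈ Sk b Δ k ↔ ⌊(x - b) / Δ⌋₊ = k := by
      intro k
      rw [Nat.floor_eq_iff h0, le_div_iff₀ hΔ, div_lt_iff₀ hΔ]
      unfold Sk
      rw [mem_Ico]
      constructor
      · rintro ⟨h1, h2⟩
        constructor <;> linarith
      · rintro ⟨h1, h2⟩
        constructor <;> linarith
    rw [Finset.sum_eq_single ⌊(x - b) / Δ⌋₊]
    · rw [indicator_of_mem ((hm _).2 rfl)]
    · intro k _ hk
      rw [indicator_of_notMem]
      intro h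
      exact hk ((hm k).1 h).symm
    · intro h
      exfalso
      apply h
      rw [Finset.mem_range, Nat.floor_lt h0, div_lt_iff₀ hΔ]
      linarith [hx.2]
  · have h1 : f x = 0 := hf x hx
    rw [h1]
    refine Finset.sum_eq_zero fun k _ => ?_
    by_cases h : x ∈ Sk b Δ k
    · rw [indicator_of_mem h, h1]
    · rw [indicator_of_notMem h]

lemma int_g {g : ℝ → ℂ} {b Δ B : ℝ} {K : ℕ} (hg : Measurable g) (hB : ∀ x, ‖g x‖ ≤ B)
    (hs : ∀ x, x ∉ Ico b (b + K * Δ) → g x = 0) : Integrable g := by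
  have hsupp : Function.support g ⊆ Icc b (b + K * Δ) := by
    intro x hx
    by_contra hc
    exact hx (hs x fun h => hc ⟨h.1, h.2.le⟩)
  rw [← integrableOn_iff_integrable_of_support_subset hsupp]
  exact Measure.integrableOn_of_bounded (M := B) measure_Icc_lt_top.ne hg.aestronglyMeasurable
    (Eventually.of_forall hB)

lemma int_gk {g : ℝ → ℂ} (hg : Integrable g) (b Δ : ℝ) (k : ℕ) : Integrable (gk g b Δ k) :=
  hg.indicator (meas_Sk b Δ k)

/-- integrability of the products -/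
lemma int2 {X N : ℝ} (hN : 1 ≤ N) {f1 f2 : ℝ → ℂ} (h1 : Integrable f1) (h2 : Integrable f2) :
    Integrable (fun p : ℝ × ℝ => f1 p.1 * (starRingEnd ℂ) (f2 p.2) * KS X N (p.1 - p.2))
      ((volume : Measure ℝ).prod volume) := by
  have hc : Continuous fun p : ℝ × ℝ => KS X N (p.1 - p.2) :=
    (MS_aux.cont_KS hN).comp (continuous_fst.sub continuous_snd)
  have h3 : Integrable (fun y => (starRingEnd ℂ) (f2 y)) :=
    Complex.conjLIE.toContinuousLinearEquiv.toContinuousLinearMap.integrable_comp h2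
  have h4 : Integrable (fun p : ℝ × ℝ => f1 p.1 * (starRingEnd ℂ) (f2 p.2))
      ((volume : Measure ℝ).prod volume) := h1.mul_prod h3
  refine (h4.norm.mul_const (∑ n ∈ VA_aux.FR N, om ((n : ℝ) / N))).mono'
    (h4.aestronglyMeasurable.mul hc.aestronglyMeasurable) (Eventually.of_forall fun p => ?_)
  rw [norm_mul]
  exact mul_le_mul_of_nonneg_left (MS_aux.norm_KS_le hN _) (norm_nonneg _)

lemma norm_gk (g : ℝ → ℂ) (b Δ : ℝ) (k : ℕ) (x : ℝ) :
    ‖gk g b Δ k x‖ = (Sk b Δ k).indicator (fun x => ‖g x‖) x := by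
  unfold gk
  rw [norm_indicator_eq_indicator_norm]

/-- the near part -/
lemma near {X N Δ b B C : ℝ} {K : ℕ} {g : ℝ → ℂ} (hN : 1 ≤ N)
    (hNr : ∀ (L B : ℝ) (g : ℝ → ℝ), Measurable g → (∀ x, 0 ≤ g x ∧ g x ≤ B) →
      (∀ x, L < |x| → g x = 0) →
      ∫ x, ∫ y, (if |x - y| ≤ Real.sqrt N / 4 then g x * g y * ‖KS X N (x - y)‖ else 0) ≤
        C * Real.sqrt N * ∫ x, g x ^ 2)
    (hΔ : 0 < Δ) (hΔ2 : Δ ≤ Real.sqrt N / 64) (hg : Measurable g) (hB : ∀ x, ‖g x‖ ≤ B)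
    (hs : ∀ x, x ∉ Ico b (b + K * Δ) → g x = 0) (P : Finset (ℕ × ℕ))
    (hP : P ⊆ Finset.range K ×ˢ Finset.range K)
    (hP2 : ∀ p ∈ P, |(p.1 : ℝ) - p.2| * Δ ≤ Real.sqrt N / 8) :
    ‖∑ p ∈ P, ∫ z : ℝ × ℝ, gk g b Δ p.1 z.1 * (starRingEnd ℂ) (gk g b Δ p.2 z.2) *
      KS X N (z.1 - z.2) ∂((volume : Measure ℝ).prod volume)‖ ≤
        C * Real.sqrt N * ∫ x, ‖g x‖ ^ 2 := by
  have hgi := int_g hg hB hs
  have hsum : ∀ x, ∑ k ∈ Finset.range K, ‖gk g b Δ k x‖ = ‖g x‖ := by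
    intro x
    simp only [norm_gk]
    exact part (fun x => ‖g x‖) hΔ (fun x hx => by rw [hs x hx, norm_zero]) x
  have hS4 : MeasurableSet {z : ℝ × ℝ | |z.1 - z.2| ≤ Real.sqrt N / 4} :=
    measurableSet_le ((measurable_fst.sub measurable_snd).abs) measurable_const
  have hi : Integrable (fun z : ℝ × ℝ => if |z.1 - z.2| ≤ Real.sqrt N / 4 then
      ‖g z.1‖ * ‖g z.2‖ * ‖KS X N (z.1 - z.2)‖ else 0) ((volume : Measure ℝ).prod volume) := by
    have h1 := ((int2 (X := X) hN hgi hgi).norm).indicator hS4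
    refine h1.congr (Eventually.of_forall fun z => ?_)
    simp only [Set.indicator_apply, mem_setOf_eq]
    split_ifs
    · rw [norm_mul, norm_mul, RCLike.norm_conj]
    · rfl
  rw [← integral_finsetSum _ fun p _ => int2 hN (int_gk hgi b Δ p.1) (int_gk hgi b Δ p.2)]
  refine (norm_integral_le_of_norm_le hi (Eventually.of_forall fun z => ?_)).trans ?_
  · refine (norm_sum_le _ _).trans ?_
    split_ifs with hz
    · have h1 : ∑ p ∈ P, ‖gk g b Δ p.1 z.1 * (starRingEnd ℂ) (gk g b Δ p.2 z.2) *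
          KS X N (z.1 - z.2)‖ ≤ ∑ p ∈ Finset.range K ×ˢ Finset.range K,
          ‖gk g b Δ p.1 z.1 * (starRingEnd ℂ) (gk g b Δ p.2 z.2) * KS X N (z.1 - z.2)‖ :=
        Finset.sum_le_sum_of_subset_of_nonneg hP fun _ _ _ => norm_nonneg _
      refine h1.trans (le_of_eq ?_)
      rw [← hsum z.1, ← hsum z.2, Finset.sum_mul_sum, Finset.sum_mul, Finset.sum_product]
      refine Finset.sum_congr rfl fun k _ => ?_
      rw [Finset.sum_mul]
      refine Finset.sum_congr rfl fun l _ => ?_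
      rw [norm_mul, norm_mul, RCLike.norm_conj]
    · refine le_of_eq (Finset.sum_eq_zero fun p hp => ?_)
      rw [norm_eq_zero]
      by_cases h1 : z.1 ∈ Sk b Δ p.1
      · by_cases h2 : z.2 ∈ Sk b Δ p.2
        · exfalso
          apply hz
          have h3 := hP2 p hp
          obtain ⟨a1, a2⟩ := h1
          obtain ⟨a3, a4⟩ := h2
          have h4 : |((p.1 : ℝ) - p.2) * Δ| ≤ Real.sqrt N / 8 := by
            rw [abs_mul, abs_of_pos hΔ]
            exact h3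
          obtain ⟨h5, h6⟩ := abs_le.mp h4
          have h7 : 0 ≤ Real.sqrt N := Real.sqrt_nonneg N
          rw [abs_le]
          constructor <;> nlinarith
        · unfold gk
          rw [indicator_of_notMem h2]
          simp
      · unfold gk
        rw [indicator_of_notMem h1]
        simp
  · rw [integral_prod _ hi]
    refine hNr (|b| + K * Δ) B (fun x => ‖g x‖) hg.norm (fun x => ⟨norm_nonneg _, hB x⟩) ?_
    intro x hx
    rw [hs x, norm_zero]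
    rintro ⟨h1, h2⟩
    have h3 : 0 ≤ (K : ℝ) * Δ := by positivity
    have h4 : |x| ≤ |b| + K * Δ := by
      rw [abs_le]
      constructor
      · linarith [neg_abs_le b]
      · linarith [le_abs_self b]
    linarith

/-- the `L²` norm of the shifted block -/
lemma norm_blk {g : ℝ → ℂ} {b Δ : ℝ} (hΔ : 0 < Δ) (k : ℕ) :
    Real.sqrt (∫ h, ‖gk g b Δ k (b + k * Δ + h)‖ ^ 2) = GB g b Δ k := by
  unfold GB
  congr 1
  rw [integral_add_left_eq_self (fun x => ‖gk g b Δ k x‖ ^ 2) (b + k * Δ),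
    intervalIntegral.integral_of_le (by nlinarith), ← integral_Ico_eq_integral_Ioc,
    ← integral_indicator measurableSet_Ico]
  congr 1
  funext x
  unfold gk Sk
  by_cases h : x ∈ Ico (b + k * Δ) (b + (k + 1) * Δ)
  · rw [indicator_of_mem h, indicator_of_mem h]
  · rw [indicator_of_notMem h, indicator_of_notMem h]
    simp

/-- one far pair -/
lemma far {X N M Δ b B C : ℝ} {K : ℕ} {g : ℝ → ℂ} (hN : 1 ≤ N) (hC : 0 ≤ C)
    (hOp : ∀ (z0 B : ℝ) (φ ψ : ℝ → ℂ), Real.sqrt N / 16 ≤ |z0| → Measurable φ → Measurable ψ →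
      (∀ x, ‖φ x‖ ≤ B ∧ ‖ψ x‖ ≤ B) → (∀ x, Δ < |x| → φ x = 0 ∧ ψ x = 0) →
      ‖∫ x, ∫ y, φ x * (starRingEnd ℂ) (ψ y) * KS X N (z0 + x - y)‖ ≤
        C * (Δ * Real.sqrt N * Real.sqrt (Real.sqrt N / |z0|) + Real.sqrt (|z0| / Real.sqrt N)) *
          (Real.sqrt (∫ x, ‖φ x‖ ^ 2) * Real.sqrt (∫ x, ‖ψ x‖ ^ 2)))
    (hM : 1 ≤ M) (hΔ : 0 < Δ) (hK : K * Δ ≤ 4 * (M * Real.sqrt N))
    (hg : Measurable g) (hB : ∀ x, ‖g x‖ ≤ B)
    (hs : ∀ x, x ∉ Ico b (b + K * Δ) → g x = 0) {k l : ℕ} (hk : k < K) (hl : l < K)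
    (hkl : Real.sqrt N / 8 < |(k : ℝ) - l| * Δ) :
    ‖∫ z : ℝ × ℝ, gk g b Δ k z.1 * (starRingEnd ℂ) (gk g b Δ l z.2) *
      KS X N (z.1 - z.2) ∂((volume : Measure ℝ).prod volume)‖ ≤
        C * (Δ * Real.sqrt N) * (Real.sqrt (Real.sqrt N / (|(k : ℝ) - l| * Δ)) *
          (GB g b Δ k * GB g b Δ l)) + 2 * C * Real.sqrt M * (GB g b Δ k * GB g b Δ l) := by
  have hgi := int_g hg hB hs
  have hsN : 0 < Real.sqrt N := Real.sqrt_pos.mpr (by linarith)
  have hB0 : 0 ≤ B := (norm_nonneg _).trans (hB 0)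
  rw [integral_prod _ (int2 hN (int_gk hgi b Δ k) (int_gk hgi b Δ l))]
  set φ : ℝ → ℂ := fun h => gk g b Δ k (b + k * Δ + h) with hφ
  set ψ : ℝ → ℂ := fun h => gk g b Δ l (b + l * Δ + h) with hψ
  have e1 : ∫ x, ∫ y, gk g b Δ k x * (starRingEnd ℂ) (gk g b Δ l y) * KS X N (x - y) =
      ∫ x, ∫ y, φ x * (starRingEnd ℂ) (ψ y) * KS X N (((k : ℝ) - l) * Δ + x - y) := by
    rw [← integral_add_left_eq_self (fun x => ∫ y, gk g b Δ k x *
      (starRingEnd ℂ) (gk g b Δ l y) * KS X N (x - y)) (b + k * Δ)]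
    congr 1
    funext x
    rw [← integral_add_left_eq_self (fun y => gk g b Δ k (b + k * Δ + x) *
      (starRingEnd ℂ) (gk g b Δ l y) * KS X N (b + k * Δ + x - y)) (b + l * Δ)]
    congr 1
    funext y
    rw [hφ, hψ]
    simp only
    congr 2
    ring
  rw [e1]
  have hz : |((k : ℝ) - l) * Δ| = |(k : ℝ) - l| * Δ := by rw [abs_mul, abs_of_pos hΔ]
  have hmk : ∀ m : ℕ, Measurable (fun h => gk g b Δ m (b + m * Δ + h)) := by
    intro m
    exact (hg.indicator (meas_Sk b Δ m)).comp (measurable_const_add _)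
  have hbk : ∀ (m : ℕ) (x : ℝ), ‖gk g b Δ m x‖ ≤ B := by
    intro m x
    unfold gk
    refine (norm_indicator_le_norm_self g x).trans (hB x)
  have hsk : ∀ (m : ℕ) (h : ℝ), Δ < |h| → gk g b Δ m (b + m * Δ + h) = 0 := by
    intro m h hh
    unfold gk Sk
    rw [indicator_of_notMem]
    rintro ⟨h1, h2⟩
    have h3 : |h| ≤ Δ := by
      rw [abs_le]
      constructor <;> nlinarith
    linarith
  have h := hOp (((k : ℝ) - l) * Δ) B φ ψ (by rw [hz]; linarith) (hmk k) (hmk l)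
    (fun x => ⟨hbk k _, hbk l _⟩) (fun x hx => ⟨hsk k x hx, hsk l x hx⟩)
  refine h.trans ?_
  rw [hφ, hψ]
  simp only
  rw [norm_blk hΔ k, norm_blk hΔ l, hz]
  have hGk : 0 ≤ GB g b Δ k := Real.sqrt_nonneg _
  have hGl : 0 ≤ GB g b Δ l := Real.sqrt_nonneg _
  have hG : 0 ≤ GB g b Δ k * GB g b Δ l := mul_nonneg hGk hGl
  have h1 : |(k : ℝ) - l| ≤ K := by
    have hk' : (k : ℝ) < K := by exact_mod_cast hk
    have hl' : (l : ℝ) < K := by exact_mod_cast hl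
    have hk0 : (0 : ℝ) ≤ k := Nat.cast_nonneg k
    have hl0 : (0 : ℝ) ≤ l := Nat.cast_nonneg l
    rw [abs_le]
    constructor <;> linarith
  have h2 : |(k : ℝ) - l| * Δ / Real.sqrt N ≤ 2 ^ 2 * M := by
    rw [div_le_iff₀ hsN]
    have := mul_le_mul_of_nonneg_right h1 hΔ.le
    linarith
  have h3 : Real.sqrt (|(k : ℝ) - l| * Δ / Real.sqrt N) ≤ 2 * Real.sqrt M := by
    refine (Real.sqrt_le_sqrt h2).trans (le_of_eq ?_)
    rw [Real.sqrt_mul (by norm_num), Real.sqrt_sq (by norm_num)]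
  have h4 : C * Real.sqrt (|(k : ℝ) - l| * Δ / Real.sqrt N) * (GB g b Δ k * GB g b Δ l) ≤
      C * (2 * Real.sqrt M) * (GB g b Δ k * GB g b Δ l) :=
    mul_le_mul_of_nonneg_right (mul_le_mul_of_nonneg_left h3 hC) hG
  nlinarith [h4]

end Bk_aux

open Bk_aux in
theorem iBk (hNr : StNr) (hOp : StOp) : StBk := by
  obtain ⟨C1, hC1, hNr⟩ := hNr
  obtain ⟨C2, hC2, hOp⟩ := hOp
  refine ⟨C1 + 2 * C2, by linarith, ?_⟩
  intro X N M Δ b B K g hN hX hNX hM hΔN hΔ2 hK hg hB hs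
  have hN0 : 0 ≤ N := by linarith
  have hsN : 0 < Real.sqrt N := Real.sqrt_pos.mpr (by linarith)
  have e1 : C1 * N ≤ X ^ 2 := by nlinarith
  have e2 : C2 * N ≤ X ^ 2 := by nlinarith
  have hΔ : 0 < Δ := by
    by_contra h
    have := mul_nonpos_of_nonpos_of_nonneg (not_lt.mp h) hsN.le
    linarith
  have hgi := int_g hg hB hs
  have hNr' := fun (L B : ℝ) (g : ℝ → ℝ) => hNr X N L B g hN hX e1
  have hOp' := fun (z0 B : ℝ) (φ ψ : ℝ → ℂ) => hOp X N Δ z0 B φ ψ hN hX e2 hΔN hΔ2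
  set P : Finset (ℕ × ℕ) := Finset.range K ×ˢ Finset.range K with hP
  set F : ℕ × ℕ → ℂ := fun p => ∫ z : ℝ × ℝ, gk g b Δ p.1 z.1 *
    (starRingEnd ℂ) (gk g b Δ p.2 z.2) * KS X N (z.1 - z.2)
      ∂((volume : Measure ℝ).prod volume) with hF
  have hdec : ∫ x, ∫ y, g x * (starRingEnd ℂ) (g y) * KS X N (x - y) = ∑ p ∈ P, F p := by
    rw [← integral_prod (f := fun z : ℝ × ℝ => g z.1 * (starRingEnd ℂ) (g z.2) *
      KS X N (z.1 - z.2)) (int2 hN hgi hgi), hF]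
    simp only
    rw [← integral_finsetSum _ fun p _ => int2 hN (int_gk hgi b Δ p.1) (int_gk hgi b Δ p.2)]
    congr 1
    funext z
    have a1 : ∀ x, ∑ k ∈ Finset.range K, gk g b Δ k x = g x := fun x => part g hΔ hs x
    rw [← Finset.sum_mul, hP, Finset.sum_product]
    congr 1
    conv_lhs => rw [← a1 z.1, ← a1 z.2]
    rw [map_sum, Finset.sum_mul_sum]
  set Q : ℕ × ℕ → Prop := fun p => Real.sqrt N / 8 < |(p.1 : ℝ) - p.2| * Δ with hQ
  classical
  have hsplit : ∑ p ∈ P, F p = ∑ p ∈ P.filter (fun p => ¬ Q p), F p + ∑ p ∈ P.filter Q, F p := by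
    rw [add_comm, Finset.sum_filter_add_sum_filter_not]
  have hnear := near (X := X) (C := C1) hN hNr' hΔ hΔ2 hg hB hs (P.filter (fun p => ¬ Q p))
    (Finset.filter_subset _ _) (fun p hp => not_lt.mp (Finset.mem_filter.mp hp).2)
  have hfar : ‖∑ p ∈ P.filter Q, F p‖ ≤ C2 * (Δ * Real.sqrt N) *
      (∑ k ∈ Finset.range K, ∑ l ∈ Finset.range K,
        if Real.sqrt N / 8 < |(k : ℝ) - l| * Δ then
          Real.sqrt (Real.sqrt N / (|(k : ℝ) - l| * Δ)) * (GB g b Δ k * GB g b Δ l) else 0) +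
      2 * C2 * Real.sqrt M * (∑ k ∈ Finset.range K, GB g b Δ k) ^ 2 := by
    have h1 : ‖∑ p ∈ P.filter Q, F p‖ ≤ ∑ p ∈ P.filter Q, (C2 * (Δ * Real.sqrt N) *
        (Real.sqrt (Real.sqrt N / (|(p.1 : ℝ) - p.2| * Δ)) * (GB g b Δ p.1 * GB g b Δ p.2)) +
        2 * C2 * Real.sqrt M * (GB g b Δ p.1 * GB g b Δ p.2)) := by
      refine (norm_sum_le _ _).trans (Finset.sum_le_sum fun p hp => ?_)
      obtain ⟨hp1, hp2⟩ := Finset.mem_filter.mp hp
      obtain ⟨hp3, hp4⟩ := Finset.mem_product.mp hp1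
      exact far hN (by linarith) hOp' hM hΔ hK hg hB hs (Finset.mem_range.mp hp3)
        (Finset.mem_range.mp hp4) hp2
    refine h1.trans ?_
    rw [Finset.sum_add_distrib, ← Finset.mul_sum, ← Finset.mul_sum]
    have h2 : ∑ p ∈ P.filter Q, (Real.sqrt (Real.sqrt N / (|(p.1 : ℝ) - p.2| * Δ)) *
        (GB g b Δ p.1 * GB g b Δ p.2)) = ∑ k ∈ Finset.range K, ∑ l ∈ Finset.range K,
        if Real.sqrt N / 8 < |(k : ℝ) - l| * Δ then
          Real.sqrt (Real.sqrt N / (|(k : ℝ) - l| * Δ)) * (GB g b Δ k * GB g b Δ l) else 0 := by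
      rw [Finset.sum_filter, hP, Finset.sum_product]
    have h3 : ∑ p ∈ P.filter Q, (GB g b Δ p.1 * GB g b Δ p.2) ≤
        (∑ k ∈ Finset.range K, GB g b Δ k) ^ 2 := by
      have h4 : ∑ p ∈ P.filter Q, (GB g b Δ p.1 * GB g b Δ p.2) ≤
          ∑ p ∈ P, (GB g b Δ p.1 * GB g b Δ p.2) :=
        Finset.sum_le_sum_of_subset_of_nonneg (Finset.filter_subset _ _)
          fun _ _ _ => mul_nonneg (Real.sqrt_nonneg _) (Real.sqrt_nonneg _)
      refine h4.trans (le_of_eq ?_)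
      rw [sq, Finset.sum_mul_sum, hP, Finset.sum_product]
    rw [h2]
    have h5 : 0 ≤ 2 * C2 * Real.sqrt M := by positivity
    linarith [mul_le_mul_of_nonneg_left h3 h5]
  rw [hdec, hsplit]
  refine (norm_add_le _ _).trans ?_
  have hi0 : 0 ≤ ∫ x, ‖g x‖ ^ 2 := integral_nonneg fun x => by positivity
  have hT0 : 0 ≤ ∑ k ∈ Finset.range K, ∑ l ∈ Finset.range K,
        if Real.sqrt N / 8 < |(k : ℝ) - l| * Δ then
          Real.sqrt (Real.sqrt N / (|(k : ℝ) - l| * Δ)) * (GB g b Δ k * GB g b Δ l) else 0 := by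
    refine Finset.sum_nonneg fun k _ => Finset.sum_nonneg fun l _ => ?_
    split_ifs
    · exact mul_nonneg (Real.sqrt_nonneg _) (mul_nonneg (Real.sqrt_nonneg _) (Real.sqrt_nonneg _))
    · exact le_rfl
  set T := ∑ k ∈ Finset.range K, ∑ l ∈ Finset.range K,
        if Real.sqrt N / 8 < |(k : ℝ) - l| * Δ then
          Real.sqrt (Real.sqrt N / (|(k : ℝ) - l| * Δ)) * (GB g b Δ k * GB g b Δ l) else 0 with hT
  set I := ∫ x, ‖g x‖ ^ 2 with hI
  set S2 := (∑ k ∈ Finset.range K, GB g b Δ k) ^ 2 with hS2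
  have hS0 : 0 ≤ S2 := sq_nonneg _
  have hx1 : 0 ≤ Real.sqrt N * I := mul_nonneg hsN.le hi0
  have hx2 : 0 ≤ Real.sqrt M * S2 := mul_nonneg (Real.sqrt_nonneg _) hS0
  have hx3 : 0 ≤ Δ * Real.sqrt N * T := mul_nonneg (mul_nonneg hΔ.le hsN.le) hT0
  have y1 : 0 ≤ C2 * (Real.sqrt N * I) := mul_nonneg (by linarith) hx1
  have y2 : 0 ≤ C1 * (Real.sqrt M * S2) := mul_nonneg (by linarith) hx2
  have y3 : 0 ≤ C1 * (Δ * Real.sqrt N * T) := mul_nonneg (by linarith) hx3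
  have y4 : 0 ≤ C2 * (Δ * Real.sqrt N * T) := mul_nonneg (by linarith) hx3
  have hn2 : ‖∑ p ∈ P.filter (fun p => ¬ Q p), F p‖ ≤ C1 * Real.sqrt N * I := hnear
  nlinarith [hn2, hfar]

end Pool.Agent.Work.MP_56b8f5_nt.UV
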