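import Pool.Agent.Work.MP_56b8f5_nt.UV.Stmts

/-!
MP_56b8f5_nt, block UV, item D1: the dyadic decomposition of the bound for the four-fold correlation.
-/

set_option autoImplicit false

open MeasureTheory Set Filter Topology

noncomputable section

namespace Pool.Agent.Work.MP_56b8f5_nt.UV

open Pool.Agent.Work.MP_56b8f5_nt.UB

namespace D1_aux

lemma int_bdd {α : Type*} [MeasurableSpace α] {μ : Measure α} [IsFiniteMeasure μ] {f : α → ℝ} {B : ℝ}
    (hf : Measurable f) (hB : ∀ z, |f z| ≤ B) : Integrable f μ :=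
  Integrable.of_bound hf.aestronglyMeasurable B (Eventually.of_forall fun z => by
    rw [Real.norm_eq_abs]
    exact hB z)

lemma four (μ : Measure ℝ) [IsFiniteMeasure μ] (f : ℝ × ℝ × ℝ × ℝ → ℝ) {B : ℝ} (hf : Measurable f)
    (hB : ∀ z, |f z| ≤ B) :
    ∫ x1, ∫ x2, ∫ x3, ∫ x4, f (x1, x2, x3, x4) ∂μ ∂μ ∂μ ∂μ =
      ∫ z, f z ∂(μ.prod (μ.prod (μ.prod μ))) := by
  rw [integral_prod f (int_bdd hf hB)]
  refine integral_congr_ae (Eventually.of_forall fun x1 => ?_)
  have h1 : Measurable fun y : ℝ × ℝ × ℝ => f (x1, y) := hf.comp (measurable_const.prodMk measurable_id)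
  simp only
  rw [integral_prod (fun y => f (x1, y)) (int_bdd h1 fun z => hB _)]
  refine integral_congr_ae (Eventually.of_forall fun x2 => ?_)
  have h2 : Measurable fun y : ℝ × ℝ => f (x1, x2, y) :=
    h1.comp (measurable_const.prodMk measurable_id)
  simp only
  rw [integral_prod (fun y => f (x1, x2, y)) (int_bdd h2 fun z => hB _)]

/-- The combination `x1 + x2 - x3 - x4`. -/
def uu (z : ℝ × ℝ × ℝ × ℝ) : ℝ := z.1 + z.2.1 - z.2.2.1 - z.2.2.2

lemma uu_meas : Measurable uu := by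
  unfold uu
  fun_prop

lemma ED_eq (W : Set ℝ) (hW : volume W ≠ ⊤) (t : ℝ) :
    ED W t = ∫ z, (if |uu z| ≤ t then (1 : ℝ) else 0) ∂((volume.restrict W).prod
      ((volume.restrict W).prod ((volume.restrict W).prod (volume.restrict W)))) := by
  have : IsFiniteMeasure (volume.restrict W) := ⟨by
    rw [Measure.restrict_apply_univ]
    exact hW.lt_top⟩
  have hm : Measurable fun z : ℝ × ℝ × ℝ × ℝ => if |uu z| ≤ t then (1 : ℝ) else 0 := by
    refine Measurable.ite ?_ measurable_const measurable_const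
    exact measurableSet_le (uu_meas.abs) measurable_const
  have h := four (volume.restrict W) (fun z => if |uu z| ≤ t then (1 : ℝ) else 0) (B := 1) hm
    (fun z => by
      split_ifs
      · simp
      · simp)
  rw [← h]
  rfl

/-- The pointwise bound. -/
lemma point (C0 : ℝ) (hC0 : 1 ≤ C0) (X N M : ℝ) (m : ℕ) (hN : 1 ≤ N) (hX : 0 < X) (hM : 1 ≤ M)
    (hm : 1 ≤ m) (hmM : (m : ℝ) ≤ 2 * M) (u hu : ℝ)
    (huM : |u| ≤ 2 * (M * Real.sqrt N))
    (h1 : hu ≤ C0 * ((N / m) ^ 2 * (m * Real.sqrt N)))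
    (h2 : u ≠ 0 → hu ≤ C0 * ((N / m) ^ 2 * (m / |u| +
      if |u| ≤ C0 * (m * N * Real.sqrt N / X ^ 2) then m * Real.sqrt (Real.sqrt N) / Real.sqrt |u| else 0)))
    (n0 : ℕ) (hn0 : ∀ i : ℕ, (2 : ℝ) ^ i ≤ 8 * (M * N) → i < n0) :
    hu ≤ ∑ i ∈ Finset.range n0, (4 * C0 * (N ^ 2 / m)) * ((Real.sqrt N / 2 ^ i) *
      (1 + if (2 : ℝ) ^ i ≤ 4 * C0 * (M * N ^ 2 / X ^ 2) then Real.sqrt (2 ^ i) else 0)) *
      (if |u| ≤ 2 ^ i / Real.sqrt N then 1 else 0) := by
  have hmR : (0 : ℝ) < m := by exact_mod_cast hm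
  have hN0 : 0 < N := by linarith
  have hs : 0 < Real.sqrt N := Real.sqrt_pos.2 hN0
  have hss : Real.sqrt N * Real.sqrt N = N := Real.mul_self_sqrt hN0.le
  set K := 4 * C0 * (N ^ 2 / m) with hK
  have hK0 : 0 ≤ K := by positivity
  have hMN : 1 ≤ M * N := by nlinarith
  set w : ℕ → ℝ := fun i => (Real.sqrt N / 2 ^ i) *
      (1 + if (2 : ℝ) ^ i ≤ 4 * C0 * (M * N ^ 2 / X ^ 2) then Real.sqrt (2 ^ i) else 0) with hw
  have hw0 : ∀ i, 0 ≤ w i := by
    intro i
    simp only [hw]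
    have : 0 ≤ (if (2 : ℝ) ^ i ≤ 4 * C0 * (M * N ^ 2 / X ^ 2) then Real.sqrt (2 ^ i) else 0) := by
      split_ifs
      · exact Real.sqrt_nonneg _
      · exact le_rfl
    positivity
  have hterm : ∀ i < n0, |u| ≤ 2 ^ i / Real.sqrt N → K * w i ≤
      ∑ i ∈ Finset.range n0, K * w i * (if |u| ≤ 2 ^ i / Real.sqrt N then 1 else 0) := by
    intro i hi hui
    have h3 : K * w i * (if |u| ≤ 2 ^ i / Real.sqrt N then (1 : ℝ) else 0) = K * w i := by
      rw [if_pos hui, mul_one]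
    rw [← h3]
    refine Finset.single_le_sum (f := fun i => K * w i * (if |u| ≤ 2 ^ i / Real.sqrt N then (1 : ℝ) else 0))
      (fun j _ => ?_) (Finset.mem_range.2 hi)
    have := hw0 j
    split_ifs
    · positivity
    · simp
  change hu ≤ ∑ i ∈ Finset.range n0, K * w i * (if |u| ≤ 2 ^ i / Real.sqrt N then 1 else 0)
  by_cases hu1 : |u| ≤ 1 / Real.sqrt N
  · refine le_trans ?_ (hterm 0 (hn0 0 (by rw [pow_zero]; linarith)) (by rw [pow_zero]; exact hu1))
    have hw00 : Real.sqrt N ≤ w 0 := by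
      simp only [hw, pow_zero, div_one]
      have : 0 ≤ (if (1 : ℝ) ≤ 4 * C0 * (M * N ^ 2 / X ^ 2) then Real.sqrt 1 else 0) := by
        split_ifs
        · exact Real.sqrt_nonneg _
        · exact le_rfl
      nlinarith
    have h3 : C0 * ((N / m) ^ 2 * (m * Real.sqrt N)) = C0 * (N ^ 2 / m) * Real.sqrt N := by
      field_simp
    rw [h3] at h1
    have h4 : 0 ≤ C0 * (N ^ 2 / m) := by positivity
    have h5 : C0 * (N ^ 2 / m) * Real.sqrt N ≤ C0 * (N ^ 2 / m) * w 0 :=
      mul_le_mul_of_nonneg_left hw00 h4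
    have h6 : C0 * (N ^ 2 / m) * w 0 ≤ K * w 0 := by
      apply mul_le_mul_of_nonneg_right _ (hw0 0)
      rw [hK]
      nlinarith
    linarith
  · push Not at hu1
    have hupos : 0 < |u| := lt_trans (by positivity) hu1
    have hune : u ≠ 0 := abs_pos.1 hupos
    have hus : 1 < |u| * Real.sqrt N := by
      rw [div_lt_iff₀ hs] at hu1
      exact hu1
    -- the scale
    obtain ⟨i, hi1, hi2⟩ : ∃ i : ℕ, (2 : ℝ) ^ i < |u| * Real.sqrt N ∧ |u| * Real.sqrt N ≤ 2 ^ (i + 1) := by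
      have hex : ∃ k : ℕ, |u| * Real.sqrt N ≤ 2 ^ k := by
        obtain ⟨k, hk⟩ := pow_unbounded_of_one_lt (|u| * Real.sqrt N) (by norm_num : (1 : ℝ) < 2)
        exact ⟨k, hk.le⟩
      classical
      have hk := Nat.find_spec hex
      have hk0 : Nat.find hex ≠ 0 := by
        intro h0
        rw [h0, pow_zero] at hk
        linarith
      obtain ⟨j, hj⟩ := Nat.exists_eq_succ_of_ne_zero hk0
      have hjm := Nat.find_min hex (m := j) (by rw [hj]; exact Nat.lt_succ_self j)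
      rw [hj] at hk
      exact ⟨j, not_le.1 hjm, hk⟩
    have hui : |u| ≤ 2 ^ (i + 1) / Real.sqrt N := by
      rw [le_div_iff₀ hs]
      exact hi2
    have huN : |u| * Real.sqrt N ≤ 2 * (M * N) := by
      calc |u| * Real.sqrt N ≤ 2 * (M * Real.sqrt N) * Real.sqrt N :=
            mul_le_mul_of_nonneg_right huM hs.le
        _ = 2 * (M * (Real.sqrt N * Real.sqrt N)) := by ring
        _ = 2 * (M * N) := by rw [hss]
    have h2i : (2 : ℝ) ^ (i + 1) < 2 * (|u| * Real.sqrt N) := by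
      rw [pow_succ]
      linarith
    refine le_trans ?_ (hterm (i + 1) (hn0 (i + 1) (by linarith)) hui)
    have hp : (0 : ℝ) < 2 ^ (i + 1) := by positivity
    -- the first term
    have g1 : 1 / |u| ≤ 2 * (Real.sqrt N / 2 ^ (i + 1)) := by
      rw [div_le_iff₀ hupos]
      have : 2 * (Real.sqrt N / 2 ^ (i + 1)) * |u| = 2 * (|u| * Real.sqrt N) / 2 ^ (i + 1) := by ring
      rw [this, le_div_iff₀ hp, one_mul]
      exact h2i.le
    -- the second term
    have g2 : (if |u| ≤ C0 * (m * N * Real.sqrt N / X ^ 2) then Real.sqrt (Real.sqrt N) / Real.sqrt |u| else 0) ≤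
        2 * ((Real.sqrt N / 2 ^ (i + 1)) *
          (if (2 : ℝ) ^ (i + 1) ≤ 4 * C0 * (M * N ^ 2 / X ^ 2) then Real.sqrt (2 ^ (i + 1)) else 0)) := by
      by_cases hc : |u| ≤ C0 * (m * N * Real.sqrt N / X ^ 2)
      · have hc' : (2 : ℝ) ^ (i + 1) ≤ 4 * C0 * (M * N ^ 2 / X ^ 2) := by
          have e1 : |u| * Real.sqrt N ≤ C0 * (m * N * Real.sqrt N / X ^ 2) * Real.sqrt N :=
            mul_le_mul_of_nonneg_right hc hs.le
          have e2 : C0 * (m * N * Real.sqrt N / X ^ 2) * Real.sqrt N = C0 * (m * N ^ 2 / X ^ 2) := by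
            calc C0 * (m * N * Real.sqrt N / X ^ 2) * Real.sqrt N =
                C0 * (m * N * (Real.sqrt N * Real.sqrt N) / X ^ 2) := by ring
              _ = C0 * (m * N ^ 2 / X ^ 2) := by rw [hss]; ring
          have e3 : C0 * (m * N ^ 2 / X ^ 2) ≤ C0 * (2 * M * N ^ 2 / X ^ 2) := by
            apply mul_le_mul_of_nonneg_left _ (by linarith)
            apply div_le_div_of_nonneg_right _ (by positivity)
            exact mul_le_mul_of_nonneg_right hmM (by positivity)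
          have e4 : 2 * (C0 * (2 * M * N ^ 2 / X ^ 2)) = 4 * C0 * (M * N ^ 2 / X ^ 2) := by ring
          linarith
        rw [if_pos hc, if_pos hc']
        have hsu : 0 < Real.sqrt |u| := Real.sqrt_pos.2 hupos
        rw [div_le_iff₀ hsu]
        have hsq : Real.sqrt (2 ^ (i + 1)) * Real.sqrt (2 ^ (i + 1)) = 2 ^ (i + 1) :=
          Real.mul_self_sqrt hp.le
        have hsp : 0 < Real.sqrt ((2 : ℝ) ^ (i + 1)) := Real.sqrt_pos.2 hp
        have hsn : Real.sqrt (Real.sqrt N) * Real.sqrt (Real.sqrt N) = Real.sqrt N :=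
          Real.mul_self_sqrt hs.le
        have hssn : 0 < Real.sqrt (Real.sqrt N) := Real.sqrt_pos.2 hs
        -- `√(2^(i+1)) ≤ 2 √|u| √√N`
        have e5 : Real.sqrt (2 ^ (i + 1)) ≤ 2 * (Real.sqrt |u| * Real.sqrt (Real.sqrt N)) := by
          rw [← Real.sqrt_mul (abs_nonneg u)]
          have : (2 : ℝ) * Real.sqrt (|u| * Real.sqrt N) = Real.sqrt (4 * (|u| * Real.sqrt N)) := by
            rw [Real.sqrt_mul (by norm_num : (0 : ℝ) ≤ 4)]
            congr 1
            rw [show (4 : ℝ) = 2 ^ 2 by norm_num, Real.sqrt_sq (by norm_num)]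
          rw [this]
          apply Real.sqrt_le_sqrt
          have : 0 < |u| * Real.sqrt N := by positivity
          linarith
        have e6 : 2 * (Real.sqrt N / 2 ^ (i + 1) * Real.sqrt (2 ^ (i + 1))) * Real.sqrt |u| =
            (2 * (Real.sqrt |u| * Real.sqrt (Real.sqrt N))) *
              (Real.sqrt (Real.sqrt N) * Real.sqrt (2 ^ (i + 1)) / 2 ^ (i + 1)) := by
          rw [← hsn]
          have : Real.sqrt (Real.sqrt (Real.sqrt N) * Real.sqrt (Real.sqrt N)) = Real.sqrt (Real.sqrt N) := by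
            rw [hsn]
          rw [this]
          ring
        rw [e6]
        have e7 : Real.sqrt (Real.sqrt N) = Real.sqrt (2 ^ (i + 1)) *
            (Real.sqrt (Real.sqrt N) * Real.sqrt (2 ^ (i + 1)) / 2 ^ (i + 1)) := by
          rw [eq_comm]
          calc Real.sqrt (2 ^ (i + 1)) *
              (Real.sqrt (Real.sqrt N) * Real.sqrt (2 ^ (i + 1)) / 2 ^ (i + 1)) =
              Real.sqrt (Real.sqrt N) * (Real.sqrt (2 ^ (i + 1)) * Real.sqrt (2 ^ (i + 1))) /
                2 ^ (i + 1) := by ring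
            _ = Real.sqrt (Real.sqrt N) := by
                rw [hsq]
                field_simp
        calc Real.sqrt (Real.sqrt N) = Real.sqrt (2 ^ (i + 1)) *
            (Real.sqrt (Real.sqrt N) * Real.sqrt (2 ^ (i + 1)) / 2 ^ (i + 1)) := e7
          _ ≤ _ := mul_le_mul_of_nonneg_right e5 (by positivity)
      · rw [if_neg hc]
        split_ifs
        · positivity
        · simp
    have g3 : C0 * ((N / m) ^ 2 * (m / |u| +
      if |u| ≤ C0 * (m * N * Real.sqrt N / X ^ 2) then m * Real.sqrt (Real.sqrt N) / Real.sqrt |u| else 0)) =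
        C0 * (N ^ 2 / m) * (1 / |u| +
        if |u| ≤ C0 * (m * N * Real.sqrt N / X ^ 2) then Real.sqrt (Real.sqrt N) / Real.sqrt |u| else 0) := by
      split_ifs
      · field_simp
      · rw [add_zero, add_zero]
        field_simp
    have g4 := h2 hune
    rw [g3] at g4
    have h4 : 0 ≤ C0 * (N ^ 2 / m) := by positivity
    refine g4.trans ((mul_le_mul_of_nonneg_left (add_le_add g1 g2) h4).trans ?_)
    have e8 : C0 * (N ^ 2 / m) * (2 * (Real.sqrt N / 2 ^ (i + 1)) + 2 * (Real.sqrt N / 2 ^ (i + 1) *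
        if (2 : ℝ) ^ (i + 1) ≤ 4 * C0 * (M * N ^ 2 / X ^ 2) then Real.sqrt (2 ^ (i + 1)) else 0)) =
        2 * C0 * (N ^ 2 / m) * w (i + 1) := by
      simp only [hw]
      ring
    rw [e8]
    apply mul_le_mul_of_nonneg_right _ (hw0 _)
    rw [hK]
    have : 0 ≤ N ^ 2 / (m : ℝ) := by positivity
    nlinarith

end D1_aux

open D1_aux in
theorem iD1 : StD1 := by
  intro C0 hC0
  refine ⟨64 * C0, by linarith, ?_⟩
  intro X N M Es m W h hN hX hM hm hmM hW hWL hhm hh0 h1 h2 hEs hi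
  have hN0 : 0 < N := by linarith
  have hmR : (0 : ℝ) < m := by exact_mod_cast hm
  have hs : 0 < Real.sqrt N := Real.sqrt_pos.2 hN0
  have hMN : 1 ≤ M * N := by nlinarith
  have hWfin : volume W ≠ ⊤ := by
    refine ne_top_of_le_ne_top ?_ (measure_mono hWL)
    rw [Real.volume_Icc]
    exact ENNReal.ofReal_ne_top
  have : IsFiniteMeasure (volume.restrict W) := ⟨by
    rw [Measure.restrict_apply_univ]
    exact hWfin.lt_top⟩
  -- the number of scales
  obtain ⟨n0, hn0, hn1, hn2⟩ : ∃ n0 : ℕ, (∀ i : ℕ, (2 : ℝ) ^ i ≤ 8 * (M * N) → i < n0) ∧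
      (∀ i < n0, (2 : ℝ) ^ i ≤ 8 * (M * N)) ∧ (n0 : ℝ) ≤ 8 * (1 + Real.log (M * N)) := by
    have hex : ∃ k : ℕ, 8 * (M * N) < 2 ^ k := pow_unbounded_of_one_lt _ (by norm_num)
    classical
    have hk := Nat.find_spec hex
    refine ⟨Nat.find hex, fun i hi => ?_, fun i hi => not_lt.1 (Nat.find_min hex hi), ?_⟩
    · by_contra hcon
      have := pow_le_pow_right₀ (by norm_num : (1 : ℝ) ≤ 2) (not_lt.1 hcon)
      linarith
    · rcases Nat.eq_zero_or_pos (Nat.find hex) with h0 | h0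
      · rw [h0]
        have := Real.log_nonneg hMN
        push_cast
        linarith
      · obtain ⟨j, hj⟩ := Nat.exists_eq_succ_of_ne_zero h0.ne'
        have hjm := not_lt.1 (Nat.find_min hex (m := j) (by rw [hj]; exact Nat.lt_succ_self j))
        rw [hj]
        have h3 : (j : ℝ) * Real.log 2 ≤ Real.log 8 + Real.log (M * N) := by
          rw [← Real.log_pow, ← Real.log_mul (by norm_num) (by positivity)]
          exact Real.log_le_log (by positivity) hjm
        have h4 : Real.log 8 = 3 * Real.log 2 := by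
          rw [show (8 : ℝ) = 2 ^ 3 by norm_num, Real.log_pow]
          norm_num
        have h5 : (0.69 : ℝ) < Real.log 2 := by
          have := Real.log_two_gt_d9
          linarith
        have h6 := Real.log_nonneg hMN
        push_cast
        have h7 : ((j : ℝ) - 3) * Real.log 2 ≤ Real.log (M * N) := by
          rw [h4] at h3
          linarith
        rcases le_or_gt (j : ℝ) 3 with h8 | h8
        · linarith
        · have : ((j : ℝ) - 3) * 0.69 ≤ Real.log (M * N) := by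
            refine le_trans ?_ h7
            exact mul_le_mul_of_nonneg_left h5.le (by linarith)
          linarith
  set μ4 := (volume.restrict W).prod ((volume.restrict W).prod
    ((volume.restrict W).prod (volume.restrict W))) with hμ4
  set wt : ℕ → ℝ := fun i => (4 * C0 * (N ^ 2 / m)) * ((Real.sqrt N / 2 ^ i) *
      (1 + if (2 : ℝ) ^ i ≤ 4 * C0 * (M * N ^ 2 / X ^ 2) then Real.sqrt (2 ^ i) else 0)) with hwt
  set B := C0 * ((N / m) ^ 2 * (m * Real.sqrt N)) with hB
  have hf := four (volume.restrict W) (fun z => h (uu z)) (B := B) (hhm.comp uu_meas) (fun z => by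
    rw [abs_of_nonneg (hh0 _)]
    exact h1 _)
  have hLHS : ∫ x1 in W, ∫ x2 in W, ∫ x3 in W, ∫ x4 in W, h (x1 + x2 - x3 - x4) =
      ∫ z, h (uu z) ∂μ4 := hf
  rw [hLHS]
  have hmeas : ∀ t : ℝ, Measurable fun z : ℝ × ℝ × ℝ × ℝ => if |uu z| ≤ t then (1 : ℝ) else 0 := by
    intro t
    refine Measurable.ite ?_ measurable_const measurable_const
    exact measurableSet_le (uu_meas.abs) measurable_const
  have hint : ∀ t : ℝ, Integrable (fun z : ℝ × ℝ × ℝ × ℝ => if |uu z| ≤ t then (1 : ℝ) else 0) μ4 := by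
    intro t
    refine int_bdd (B := 1) (hmeas t) fun z => ?_
    split_ifs
    · simp
    · simp
  have hae : ∀ᵐ z ∂μ4, z.1 ∈ W ∧ z.2.1 ∈ W ∧ z.2.2.1 ∈ W ∧ z.2.2.2 ∈ W := by
    have hmu : μ4 = (volume.prod (volume.prod (volume.prod volume))).restrict (W ×ˢ W ×ˢ W ×ˢ W) := by
      rw [hμ4, Measure.prod_restrict, Measure.prod_restrict, Measure.prod_restrict]
    rw [hmu]
    have hms : MeasurableSet (W ×ˢ W ×ˢ W ×ˢ W) := hW.prod (hW.prod (hW.prod hW))
    filter_upwards [ae_restrict_mem hms] with z hz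
    exact ⟨hz.1, hz.2.1, hz.2.2.1, hz.2.2.2⟩
  have hle : ∫ z, h (uu z) ∂μ4 ≤
      ∫ z, ∑ i ∈ Finset.range n0, wt i * (if |uu z| ≤ 2 ^ i / Real.sqrt N then 1 else 0) ∂μ4 := by
    refine integral_mono_ae (int_bdd (B := B) (hhm.comp uu_meas) fun z => by
      rw [abs_of_nonneg (hh0 _)]
      exact h1 _) (integrable_finsetSum _ fun i _ => (hint _).const_mul _) ?_
    filter_upwards [hae] with z hz
    obtain ⟨a1, a2, a3, a4⟩ := hz
    have b1 := hWL a1
    have b2 := hWL a2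
    have b3 := hWL a3
    have b4 := hWL a4
    refine point C0 hC0 X N M m hN hX hM hm hmM (uu z) (h (uu z)) ?_ (h1 _) (h2 _) n0 hn0
    unfold uu
    rw [abs_le]
    constructor <;> linarith [b1.1, b1.2, b2.1, b2.2, b3.1, b3.2, b4.1, b4.2]
  refine hle.trans ?_
  rw [integral_finsetSum _ fun i _ => (hint _).const_mul _]
  have hterm : ∀ i ∈ Finset.range n0,
      ∫ z, wt i * (if |uu z| ≤ 2 ^ i / Real.sqrt N then 1 else 0) ∂μ4 ≤ 8 * C0 * (N ^ 2 / m) * Es := by
    intro i hi'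
    rw [integral_const_mul, ← ED_eq W hWfin]
    obtain ⟨k1, k2⟩ := hi i (hn1 i (Finset.mem_range.1 hi'))
    simp only [hwt]
    have hc : (if (2 : ℝ) ^ i ≤ 4 * C0 * (M * N ^ 2 / X ^ 2) then Real.sqrt (2 ^ i) else 0) *
        (Real.sqrt N / 2 ^ i * ED W (2 ^ i / Real.sqrt N)) ≤ Es := by
      split_ifs with hc
      · refine k2 (hc.trans ?_)
        have : 0 ≤ C0 * (M * N ^ 2 / X ^ 2) := by positivity
        nlinarith
      · rw [zero_mul]
        exact hEs
    have hK : 0 ≤ 4 * C0 * (N ^ 2 / m) := by positivity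
    have e1 : 4 * C0 * (N ^ 2 / ↑m) * (Real.sqrt N / 2 ^ i * (1 + if (2 : ℝ) ^ i ≤
        4 * C0 * (M * N ^ 2 / X ^ 2) then Real.sqrt (2 ^ i) else 0)) * ED W (2 ^ i / Real.sqrt N) =
        4 * C0 * (N ^ 2 / m) * (Real.sqrt N / 2 ^ i * ED W (2 ^ i / Real.sqrt N) +
        (if (2 : ℝ) ^ i ≤ 4 * C0 * (M * N ^ 2 / X ^ 2) then Real.sqrt (2 ^ i) else 0) *
        (Real.sqrt N / 2 ^ i * ED W (2 ^ i / Real.sqrt N))) := by ring
    rw [e1]
    calc _ ≤ 4 * C0 * (N ^ 2 / m) * (Es + Es) := mul_le_mul_of_nonneg_left (add_le_add k1 hc) hK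
      _ = 8 * C0 * (N ^ 2 / m) * Es := by ring
  refine (Finset.sum_le_sum hterm).trans ?_
  rw [Finset.sum_const, Finset.card_range, nsmul_eq_mul]
  have hP : 0 ≤ 8 * C0 * (N ^ 2 / m) * Es := by positivity
  calc (n0 : ℝ) * (8 * C0 * (N ^ 2 / m) * Es) ≤
      (8 * (1 + Real.log (M * N))) * (8 * C0 * (N ^ 2 / m) * Es) := mul_le_mul_of_nonneg_right hn2 hP
    _ = 64 * C0 * (N ^ 2 / m) * (1 + Real.log (M * N)) * Es := by ring

end Pool.Agent.Work.MP_56b8f5_nt.UV
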