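import Pool.Agent.Work.MP_56b8f5_nt.UV.Stmts
import Pool.Agent.Work.MP_56b8f5_nt.UB.I_DN

/-!
MP_56b8f5_nt, block UV, item D2: the energy lower bound for a set of large values.
-/

open MeasureTheory Set Filter Topology

noncomputable section

namespace Pool.Agent.Work.MP_56b8f5_nt.UV

open Pool.Agent.Work.MP_56b8f5_nt.UB

namespace D2_aux

/-- the second bound for the four-fold correlation, `m √N` at `u = 0` -/
def h2 (X N C : ℝ) (m : ℕ) (u : ℝ) : ℝ :=
  if u = 0 then m * Real.sqrt N else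
    m / |u| + if |u| ≤ C * (m * N * Real.sqrt N / X ^ 2) then
      m * Real.sqrt (Real.sqrt N) / Real.sqrt |u| else 0

/-- the minimum of the two bounds for the four-fold correlation -/
def hmn (X N C : ℝ) (m : ℕ) (u : ℝ) : ℝ :=
  C * ((N / m) ^ 2 * min (m * Real.sqrt N) (h2 X N C m u))

lemma h2_meas (X N C : ℝ) (m : ℕ) : Measurable (h2 X N C m) := by
  unfold h2
  refine Measurable.ite (measurableSet_singleton 0) measurable_const ?_
  refine Measurable.add ?_ (Measurable.ite ?_ ?_ measurable_const)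
  · exact measurable_const.div continuous_abs.measurable
  · exact measurableSet_le continuous_abs.measurable measurable_const
  · exact measurable_const.div (Real.continuous_sqrt.measurable.comp continuous_abs.measurable)

lemma hm_meas (X N C : ℝ) (m : ℕ) : Measurable (hmn X N C m) := by
  unfold hmn
  exact ((measurable_const.min (h2_meas X N C m)).const_mul _).const_mul _

lemma h2_nonneg (X N C : ℝ) (m : ℕ) (u : ℝ) : 0 ≤ h2 X N C m u := by
  unfold h2
  split_ifs <;> positivity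

lemma hm_nonneg (X N C : ℝ) (hC : 0 ≤ C) (m : ℕ) (u : ℝ) : 0 ≤ hmn X N C m u := by
  unfold hmn
  have h1 := h2_nonneg X N C m u
  have h2 : 0 ≤ min (m * Real.sqrt N) (h2 X N C m u) := le_min (by positivity) h1
  positivity

lemma hm_le1 (X N C : ℝ) (hC : 0 ≤ C) (m : ℕ) (u : ℝ) :
    hmn X N C m u ≤ C * ((N / m) ^ 2 * (m * Real.sqrt N)) := by
  unfold hmn
  refine mul_le_mul_of_nonneg_left ?_ hC
  exact mul_le_mul_of_nonneg_left (min_le_left _ _) (by positivity)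

lemma hm_le2 (X N C : ℝ) (hC : 0 ≤ C) (m : ℕ) (u : ℝ) (hu : u ≠ 0) :
    hmn X N C m u ≤ C * ((N / m) ^ 2 * (m / |u| +
      if |u| ≤ C * (m * N * Real.sqrt N / X ^ 2) then
        m * Real.sqrt (Real.sqrt N) / Real.sqrt |u| else 0)) := by
  unfold hmn
  refine mul_le_mul_of_nonneg_left ?_ hC
  refine mul_le_mul_of_nonneg_left ((min_le_right _ _).trans (le_of_eq ?_)) (by positivity)
  unfold h2
  rw [if_neg hu]

lemma le_hm (X N C : ℝ) (hC : 0 ≤ C) (m : ℕ) (u z : ℝ)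
    (h1 : z ≤ C * ((N / m) ^ 2 * (m * Real.sqrt N)))
    (h3 : u ≠ 0 → z ≤ C * ((N / m) ^ 2 * (m / |u| +
      if |u| ≤ C * (m * N * Real.sqrt N / X ^ 2) then
        m * Real.sqrt (Real.sqrt N) / Real.sqrt |u| else 0))) :
    z ≤ hmn X N C m u := by
  unfold hmn
  rw [mul_min_of_nonneg _ _ (sq_nonneg _), mul_min_of_nonneg _ _ hC]
  refine le_min h1 ?_
  unfold h2
  by_cases hu : u = 0
  · rw [if_pos hu]
    exact h1
  · rw [if_neg hu]
    exact h3 hu

lemma log_bound (N M : ℝ) (hN : 1 ≤ N) (hM : 1 ≤ M) (hMN : M ≤ N) :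
    1 + Real.log (M * N) ≤ 3 * Lq N := by
  unfold Lq
  have h1 : Real.log M ≤ Real.log (2 + N) := Real.log_le_log (by linarith) (by linarith)
  have h2 : Real.log N ≤ Real.log (2 + N) := Real.log_le_log (by linarith) (by linarith)
  have h3 : 1 ≤ Real.log (2 + N) := by
    rw [Real.le_log_iff_exp_le (by linarith)]
    have := Real.exp_one_lt_d9
    linarith
  rw [Real.log_mul (by linarith) (by linarith)]
  linarith

end D2_aux

open D2_aux in
open Pool.Agent.Work.MP_56b8f5_nt.UB.DN_aux in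
theorem iD2 (hE3 : UB.StE3) (hKD : UB.StKD) (hK2 : UB.StK2) (hK3 : UB.StK3) (hH2 : StH2)
    (hE5 : StE5) (hD1 : StD1) : StD2 := by
  obtain ⟨C1, hC1, hKD⟩ := hKD
  obtain ⟨C2, hC2, hK2⟩ := hK2
  obtain ⟨C3, hC3, hK3⟩ := hK3
  obtain ⟨C4, hC4, hH⟩ := hH2
  obtain ⟨C5, hC5, hD1⟩ := hD1 C4 hC4
  refine ⟨16 * C1 + 16 * C2 + C3 + C4 + 64 * C5, by linarith, ?_⟩
  intro X N M V Es a W hN hX hCX hM hMN hV hCV ha hWm hWs hWV hEs hEi
  have hN0 : 0 < N := by linarith
  have hM0 : 0 < M := by linarith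
  have hCC1 : C1 * N ≤ X ^ 2 := by nlinarith
  have hCC2 : C2 * N ≤ X ^ 2 := by nlinarith
  have hCC3 : C3 * N ≤ X ^ 2 := by nlinarith
  have hCC4 : C4 * N ≤ X ^ 2 := by nlinarith
  obtain ⟨hK20, -⟩ := hK2 X N hN hX hCC2
  obtain ⟨hK31, -, hK33⟩ := hK3 X N hN hX hCC3
  have hW : volume W < ⊤ := (measure_mono hWs).trans_lt measure_Icc_lt_top
  have hfin : IsFiniteMeasure (volume.restrict W) := ⟨by
    rw [Measure.restrict_apply_univ]; exact hW⟩
  obtain ⟨b, hb, hb1, hD⟩ := hE3 X N M V a W hN hX hV.le ha hWm hWs hWV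
  obtain ⟨BS, hBS⟩ := KS_bdd X N hN
  have hR : 0 ≤ Rr W := ENNReal.toReal_nonneg
  have hsN : 0 < Real.sqrt N := Real.sqrt_pos.mpr hN0
  have hLq : 0 ≤ Lq N := by
    unfold Lq
    exact Real.log_nonneg (by linarith)
  rw [DI_eq W hW b (KS X N) hb hb1 (KS_cont X N hN).measurable BS hBS] at hD
  -- the kernels
  have hKJm : ∀ m : ℕ, Measurable (KJ X N m) := fun m => KJ_meas X N m (hK33 m)
  have hKJb : ∀ m ∈ Finset.Icc 1 ⌊2 * M⌋₊, ∀ x, ‖KJ X N m x‖ ≤ C3 * Real.sqrt (N / m) := by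
    intro m hm x
    rw [Finset.mem_Icc] at hm
    have h1 := hK31 (m : ℤ) (by omega) x
    have h2 : |((m : ℤ) : ℝ)| = (m : ℝ) := by
      push_cast
      exact abs_of_nonneg (Nat.cast_nonneg m)
    rw [h2] at h1
    unfold KJ
    split_ifs
    · exact h1
    · rw [norm_zero]
      positivity
  have hK0b : ∀ x, ‖KK X N 0 x‖ ≤ C2 * N := by
    intro x
    refine (hK20 x).trans ?_
    refine div_le_self (by positivity) ?_
    have : 0 ≤ |x| * Real.sqrt N := by positivity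
    nlinarith
  have hsp := split (volume.restrict W) b hb hb1 (Finset.Icc 1 ⌊2 * M⌋₊) (KS X N) (KK X N 0)
    (fun m => KJ X N m) (KS_cont X N hN).measurable (hK33 0).measurable (fun m _ => hKJm m) BS
    (C2 * N) (fun m => C3 * Real.sqrt (N / m)) hBS hK0b hKJb
  -- the three contributions
  have h0 : ‖DI (volume.restrict W) b (KK X N 0)‖ ≤ C2 * N * (Real.pi / Real.sqrt N) * Rr W :=
    DI_decay W hW b (KK X N 0) hb hb1 (hK33 0).measurable (C2 * N) (Real.sqrt N) (by positivity)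
      hsN hK20
  have herr := DI_small W hW b (fun u => KS X N u - KK X N 0 u -
    ∑ m ∈ Finset.Icc 1 ⌊2 * M⌋₊, (KJ X N m u + (starRingEnd ℂ) (KJ X N m (-u)))) hb1 (C1 / N)
    (fun x hx y hy => by
      refine hKD X N M (x - y) hN hX hCC1 hM ?_
      have hx' := hWs hx
      have hy' := hWs hy
      rw [abs_le]
      constructor <;> linarith [hx'.1, hx'.2, hy'.1, hy'.2])
  have hmid : ∑ m ∈ Finset.Icc 1 ⌊2 * M⌋₊, ‖DI (volume.restrict W) b (KJ X N m)‖ ≤
      8 / 3 * ((3 * C5 * N ^ 2 * Lq N * Rr W ^ 3 * Es) * M ^ 3) ^ (1 / 4 : ℝ) := by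
    refine sum_roots M _ hM (by positivity) (fun m => ‖DI (volume.restrict W) b (KJ X N m)‖)
      (fun m => norm_nonneg _) ?_
    intro m hm
    have hm' := Finset.mem_Icc.mp hm
    have hm1 : (1 : ℝ) ≤ m := by exact_mod_cast hm'.1
    have hm2 : (m : ℝ) ≤ 2 * M := (Nat.cast_le.mpr hm'.2).trans (Nat.floor_le (by linarith))
    have hHm := hH X N m hN hX hCC4 hm'.1
    have h1 := hE5 (M * Real.sqrt N) (max (C3 * Real.sqrt (N / m)) (2 * m * Real.sqrt N))
      (C4 * ((N / m) ^ 2 * (m * Real.sqrt N))) W b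
      (KJ X N m) (hmn X N C4 m) hWm hWs hb hb1 (hKJm m)
      (fun x => (hKJb m hm x).trans (le_max_left _ _)) (fun x hx => by
        have hx2 : m * Real.sqrt N / 2 ≤ x ∧ x ≤ 2 * m * Real.sqrt N := by
          by_contra hcon
          exact hx (if_neg hcon)
        refine le_trans ?_ (le_max_right _ _)
        rw [abs_of_nonneg]
        · exact hx2.2
        · refine le_trans ?_ hx2.1
          positivity) (hm_meas X N C4 m)
      (fun u => ⟨hm_nonneg X N C4 (by linarith) m u, hm_le1 X N C4 (by linarith) m u⟩)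
      (fun x1 x2 x3 x4 => le_hm X N C4 (by linarith) m _ _ (hHm x1 x2 x3 x4).1 (hHm x1 x2 x3 x4).2)
    rw [DI_eq W hW b (KJ X N m) hb hb1 (hKJm m) _ (hKJb m hm)] at h1
    refine h1.trans ?_
    have h2 := hD1 X N M Es m W (hmn X N C4 m) hN hX hM hm'.1 hm2 hWm hWs (hm_meas X N C4 m)
      (hm_nonneg X N C4 (by linarith) m) (hm_le1 X N C4 (by linarith) m)
      (hm_le2 X N C4 (by linarith) m) hEs (fun i hi => by
        obtain ⟨g1, g2⟩ := hEi i hi
        refine ⟨g1, fun hi2 => g2 (hi2.trans ?_)⟩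
        refine mul_le_mul_of_nonneg_right (by linarith) (by positivity))
    have h3 := log_bound N M hN hM hMN
    have h4 : C5 * (N ^ 2 / m) * (1 + Real.log (M * N)) * Es ≤
        C5 * (N ^ 2 / m) * (3 * Lq N) * Es := by
      refine mul_le_mul_of_nonneg_right ?_ hEs
      exact mul_le_mul_of_nonneg_left h3 (by positivity)
    have h5 := mul_le_mul_of_nonneg_left (h2.trans h4) (by positivity : 0 ≤ Rr W ^ 3)
    refine h5.trans (le_of_eq ?_)
    field_simp
  -- the fourth root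
  have hF : N * ((3 * C5 * N ^ 2 * Lq N * Rr W ^ 3 * Es) * M ^ 3) ^ (1 / 4 : ℝ) ≤
      3 * C5 * (N ^ 6 * M ^ 3 * Lq N * Rr W ^ 3 * Es) ^ (1 / 4 : ℝ) := by
    have e1 : N = (N ^ 4) ^ (1 / 4 : ℝ) := by
      rw [← Real.rpow_natCast, ← Real.rpow_mul hN0.le]
      norm_num
    have e2 : N * ((3 * C5 * N ^ 2 * Lq N * Rr W ^ 3 * Es) * M ^ 3) ^ (1 / 4 : ℝ) =
        (3 * C5) ^ (1 / 4 : ℝ) *
          (N ^ 6 * M ^ 3 * Lq N * Rr W ^ 3 * Es) ^ (1 / 4 : ℝ) := by
      calc N * ((3 * C5 * N ^ 2 * Lq N * Rr W ^ 3 * Es) * M ^ 3) ^ (1 / 4 : ℝ)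
          = (N ^ 4) ^ (1 / 4 : ℝ) *
            ((3 * C5 * N ^ 2 * Lq N * Rr W ^ 3 * Es) * M ^ 3) ^ (1 / 4 : ℝ) := by
            rw [← e1]
        _ = _ := by
            rw [← Real.mul_rpow (by positivity) (by positivity),
              ← Real.mul_rpow (by positivity) (by positivity)]
            congr 1
            ring
    rw [e2]
    refine mul_le_mul_of_nonneg_right ?_ (by positivity)
    calc (3 * C5) ^ (1 / 4 : ℝ) ≤ (3 * C5) ^ (1 : ℝ) :=
          Real.rpow_le_rpow_of_exponent_le (by linarith) (by norm_num)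
      _ = 3 * C5 := Real.rpow_one _
  set F := (N ^ 6 * M ^ 3 * Lq N * Rr W ^ 3 * Es) ^ (1 / 4 : ℝ) with hFdef
  have hF0 : 0 ≤ F := by positivity
  set D := ((3 * C5 * N ^ 2 * Lq N * Rr W ^ 3 * Es) * M ^ 3) ^ (1 / 4 : ℝ) with hDdef
  -- collect
  have hpi : Real.pi ≤ 4 := Real.pi_le_four
  have hpi0 : 0 < Real.pi := Real.pi_pos
  have hs2 : Real.sqrt N * Real.sqrt N = N := Real.mul_self_sqrt hN0.le
  have e0 : 2 * N * (C2 * N * (Real.pi / Real.sqrt N) * Rr W) =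
      2 * Real.pi * C2 * (N * Real.sqrt N * Rr W) := by
    field_simp
    nlinarith [hs2]
  have e1 : 2 * N * (C1 / N * Rr W ^ 2) = 2 * C1 * Rr W ^ 2 := by
    field_simp
  have h1 : 2 * N * ‖DI (volume.restrict W) b (KS X N)‖ ≤
      2 * N * (C2 * N * (Real.pi / Real.sqrt N) * Rr W + 2 * (8 / 3 * D) + C1 / N * Rr W ^ 2) := by
    refine mul_le_mul_of_nonneg_left ?_ (by positivity)
    refine hsp.trans ?_
    have t1 := mul_le_mul_of_nonneg_left hmid (by norm_num : (0 : ℝ) ≤ 2)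
    have t2 := add_le_add (add_le_add h0 t1) herr
    exact t2
  have h2 : 2 * N * (C2 * N * (Real.pi / Real.sqrt N) * Rr W + 2 * (8 / 3 * D) + C1 / N * Rr W ^ 2) =
      2 * Real.pi * C2 * (N * Real.sqrt N * Rr W) + 32 / 3 * (N * D) + 2 * C1 * Rr W ^ 2 := by
    rw [mul_add, mul_add, e0, e1]
    ring
  have hG0 : 0 ≤ N * Real.sqrt N * Rr W := by positivity
  have h3 : 2 * Real.pi * C2 * (N * Real.sqrt N * Rr W) ≤ 8 * C2 * (N * Real.sqrt N * Rr W) := by
    refine mul_le_mul_of_nonneg_right ?_ hG0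
    nlinarith
  have h4 : 2 * C1 * Rr W ^ 2 ≤ V ^ 2 * Rr W ^ 2 / 2 := by
    have : 4 * C1 ≤ V ^ 2 := by linarith
    have h5 : 4 * C1 * Rr W ^ 2 ≤ V ^ 2 * Rr W ^ 2 := mul_le_mul_of_nonneg_right this (by positivity)
    linarith
  have h5 : V ^ 2 * Rr W ^ 2 ≤ 16 * C2 * (N * Real.sqrt N * Rr W) + 64 * C5 * F := by
    linarith [hD, h1, h2, h3, h4, hF]
  have h6 : 16 * C2 * (N * Real.sqrt N * Rr W) ≤
      (16 * C1 + 16 * C2 + C3 + C4 + 64 * C5) * (N * Real.sqrt N * Rr W) :=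
    mul_le_mul_of_nonneg_right (by linarith) hG0
  have h7 : 64 * C5 * F ≤ (16 * C1 + 16 * C2 + C3 + C4 + 64 * C5) * F :=
    mul_le_mul_of_nonneg_right (by linarith) hF0
  rw [mul_add]
  linarith

end Pool.Agent.Work.MP_56b8f5_nt.UV
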