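import Pool.Agent.Work.MP_56b8f5_nt.UV.Stmts
import Pool.Agent.Work.MP_56b8f5_nt.UB.I_E4

/-!
MP_56b8f5_nt, block UV, item E5: the `L^4` inequality without the energy.
-/

open MeasureTheory Set Filter Topology

noncomputable section

namespace Pool.Agent.Work.MP_56b8f5_nt.UV

open Pool.Agent.Work.MP_56b8f5_nt.UB

open UB.E4_aux in
theorem iE5 : StE5 := by
  intro L B B' W b k h hW hWL hb hb1 hk hkB hkS hh hhB hHH
  classical
  have hWfin : volume W ≠ ⊤ := by
    refine ne_top_of_le_ne_top ?_ (measure_mono hWL)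
    rw [Real.volume_Icc]
    exact ENNReal.ofReal_ne_top
  have hB0 : 0 ≤ B := (norm_nonneg _).trans (hkB 0)
  set μ : Measure ℝ := volume.restrict W with hμ
  have : IsFiniteMeasure μ := ⟨by
    rw [hμ, Measure.restrict_apply MeasurableSet.univ, univ_inter]
    exact hWfin.lt_top⟩
  set I : Set ℝ := Icc (-B) (L + B) with hI
  have hIm : MeasurableSet I := measurableSet_Icc
  set ρ : Measure ℝ := volume.restrict I with hρ
  have : IsFiniteMeasure ρ := ⟨by
    rw [hρ, Measure.restrict_apply MeasurableSet.univ, univ_inter, hI, Real.volume_Icc]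
    exact ENNReal.ofReal_lt_top⟩
  -- cut `b` to `W`
  set c : ℝ → ℂ := fun y => W.indicator (fun y => (starRingEnd ℂ) (b y)) y with hc
  have hcm : Measurable c := (Complex.continuous_conj.measurable.comp hb).indicator hW
  have hc1 : ∀ y, ‖c y‖ ≤ 1 := by
    intro y
    rw [hc]
    by_cases hy : y ∈ W
    · simp only [indicator_of_mem hy, Complex.norm_conj]
      exact hb1 y
    · simp only [indicator_of_notMem hy, norm_zero]
      exact zero_le_one
  set f : ℝ → ℝ → ℂ := fun x y => c y * k (x - y) with hf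
  have hfm : Measurable (fun q : ℝ × ℝ => f q.1 q.2) :=
    (hcm.comp measurable_snd).mul (hk.comp (measurable_fst.sub measurable_snd))
  have hfB : ∀ x y, ‖f x y‖ ≤ B := by
    intro x y
    rw [hf]
    simp only [norm_mul]
    calc ‖c y‖ * ‖k (x - y)‖ ≤ 1 * B :=
          mul_le_mul (hc1 y) (hkB _) (norm_nonneg _) zero_le_one
      _ = B := one_mul B
  have hf0 : ∀ x y, x ∉ I → f x y = 0 := by
    intro x y hx
    by_contra hne
    have h1 : c y ≠ 0 := fun h => hne (by rw [hf]; simp only [h, zero_mul])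
    have h2 : k (x - y) ≠ 0 := fun h => hne (by rw [hf]; simp only [h, mul_zero])
    have hy : y ∈ W := by
      by_contra hy
      exact h1 (by rw [hc]; simp only [indicator_of_notMem hy])
    have h3 := abs_le.1 (hkS _ h2)
    have h4 := hWL hy
    exact hx ⟨by linarith [h4.1, h3.1], by linarith [h4.2, h3.2]⟩
  set F : ℝ → ℂ := fun x => ∫ y, f x y ∂μ with hF
  have hFm : StronglyMeasurable F :=
    StronglyMeasurable.integral_prod_right' (f := fun q : ℝ × ℝ => f q.1 q.2)
      hfm.stronglyMeasurable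
  have hFB : ∀ x, ‖F x‖ ≤ B * μ.real univ := fun x =>
    norm_integral_le_of_norm_le_const (Eventually.of_forall fun y => hfB x y)
  have hF0 : ∀ x, x ∉ I → F x = 0 := by
    intro x hx
    rw [hF]
    simp only [hf0 x _ hx, integral_zero]
  set D : ℝ := B * μ.real univ with hD
  have hD0 : 0 ≤ D := (norm_nonneg _).trans (hFB 0)
  have hbd4 : ∀ x, ‖‖F x‖ ^ 4‖ ≤ D ^ 4 := by
    intro x
    rw [Real.norm_eq_abs, abs_of_nonneg (by positivity)]
    exact pow_le_pow_left₀ (norm_nonneg _) (hFB x) 4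
  have hFmn : Measurable fun x => ‖F x‖ := hFm.measurable.norm
  have hint4I : Integrable (fun x => ‖F x‖ ^ 4) ρ :=
    Integrable.of_bound (hFmn.pow_const 4).aestronglyMeasurable (D ^ 4)
      (Eventually.of_forall hbd4)
  have hint4 : Integrable (fun x => ‖F x‖ ^ 4) := by
    refine IntegrableOn.integrable_of_forall_notMem_eq_zero (s := I) hint4I ?_
    intro x hx
    rw [hF0 x hx]
    simp
  have hintW : Integrable (fun x => ‖F x‖) μ :=
    Integrable.of_bound hFmn.aestronglyMeasurable D (Eventually.of_forall fun x => by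
      rw [norm_norm]
      exact hFB x)
  -- step 1
  have step1 : ‖∫ x in W, ∫ y in W, b x * (starRingEnd ℂ) (b y) * k (x - y)‖ ≤
      ∫ x in W, ‖F x‖ := by
    have e1 : ∀ x, ∫ y in W, b x * (starRingEnd ℂ) (b y) * k (x - y) = b x * F x := by
      intro x
      rw [hF]
      simp only
      rw [← integral_const_mul]
      refine setIntegral_congr_fun hW fun y hy => ?_
      rw [hf, hc]
      simp only [indicator_of_mem hy]
      ring
    simp only [e1]
    refine norm_integral_le_of_norm_le hintW (Eventually.of_forall fun x => ?_)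
    rw [norm_mul]
    calc ‖b x‖ * ‖F x‖ ≤ 1 * ‖F x‖ := mul_le_mul_of_nonneg_right (hb1 x) (norm_nonneg _)
      _ = ‖F x‖ := one_mul _
  -- step 2
  have step2 : (∫ x in W, ‖F x‖) ^ 4 ≤ Rr W ^ 3 * ∫ x in W, ‖F x‖ ^ 4 :=
    pow_four_le hWfin hintW hint4.integrableOn
  have step3 : ∫ x in W, ‖F x‖ ^ 4 ≤ ∫ x in I, ‖F x‖ ^ 4 := by
    have h1 : ∫ x in W, ‖F x‖ ^ 4 ≤ ∫ x, ‖F x‖ ^ 4 :=
      setIntegral_le_integral hint4 (Eventually.of_forall fun x => by positivity)
    have h2 : ∫ x in I, ‖F x‖ ^ 4 = ∫ x, ‖F x‖ ^ 4 := by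
      refine setIntegral_eq_integral_of_forall_compl_eq_zero fun x hx => ?_
      rw [hF0 x hx]
      simp
    rw [h2]
    exact h1
  -- the product measure
  set ν : Measure (ℝ × ℝ × ℝ × ℝ) := μ.prod (μ.prod (μ.prod μ)) with hν
  set G : ℝ → ℝ × ℝ × ℝ × ℝ → ℂ := fun x p => f x p.1 * (f x p.2.1 *
    ((starRingEnd ℂ) (f x p.2.2.1) * (starRingEnd ℂ) (f x p.2.2.2))) with hG
  have hGm : Measurable (Function.uncurry G) := by
    have m1 : Measurable fun q : ℝ × ℝ × ℝ × ℝ × ℝ => f q.1 q.2.1 :=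
      hfm.comp (measurable_fst.prodMk (measurable_fst.comp measurable_snd))
    have m2 : Measurable fun q : ℝ × ℝ × ℝ × ℝ × ℝ => f q.1 q.2.2.1 :=
      hfm.comp (measurable_fst.prodMk (measurable_fst.comp (measurable_snd.comp measurable_snd)))
    have m3 : Measurable fun q : ℝ × ℝ × ℝ × ℝ × ℝ => f q.1 q.2.2.2.1 :=
      hfm.comp (measurable_fst.prodMk (measurable_fst.comp
        (measurable_snd.comp (measurable_snd.comp measurable_snd))))
    have m4 : Measurable fun q : ℝ × ℝ × ℝ × ℝ × ℝ => f q.1 q.2.2.2.2 :=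
      hfm.comp (measurable_fst.prodMk (measurable_snd.comp
        (measurable_snd.comp (measurable_snd.comp measurable_snd))))
    exact m1.mul (m2.mul ((Complex.continuous_conj.measurable.comp m3).mul
      (Complex.continuous_conj.measurable.comp m4)))
  have hGB : ∀ q : ℝ × ℝ × ℝ × ℝ × ℝ, ‖Function.uncurry G q‖ ≤ B * (B * (B * B)) := by
    intro q
    rw [hG]
    simp only [Function.uncurry, norm_mul, Complex.norm_conj]
    gcongr <;> exact hfB _ _
  have hGi : Integrable (Function.uncurry G) (ρ.prod ν) :=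
    Integrable.of_bound hGm.aestronglyMeasurable _ (Eventually.of_forall hGB)
  have hGν : ∀ x, ∫ p, G x p ∂ν = ((‖F x‖ ^ 4 : ℝ) : ℂ) := by
    intro x
    have e1 : ∫ p, G x p ∂ν = F x * (F x * ((starRingEnd ℂ) (F x) * (starRingEnd ℂ) (F x))) := by
      rw [hG, hν]
      simp only
      rw [integral_prod_mul (μ := μ) (ν := μ.prod (μ.prod μ)) (fun y => f x y)
        (fun p : ℝ × ℝ × ℝ => f x p.1 * ((starRingEnd ℂ) (f x p.2.1) *
          (starRingEnd ℂ) (f x p.2.2)))]
      rw [integral_prod_mul (μ := μ) (ν := μ.prod μ) (fun y => f x y)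
        (fun p : ℝ × ℝ => (starRingEnd ℂ) (f x p.1) * (starRingEnd ℂ) (f x p.2))]
      rw [integral_prod_mul (μ := μ) (ν := μ) (fun y => (starRingEnd ℂ) (f x y))
        (fun y => (starRingEnd ℂ) (f x y))]
      rw [integral_conj]
    rw [e1]
    have e2 : F x * (starRingEnd ℂ) (F x) = ((‖F x‖ ^ 2 : ℝ) : ℂ) := by
      rw [Complex.mul_conj, Complex.normSq_eq_norm_sq]
    calc F x * (F x * ((starRingEnd ℂ) (F x) * (starRingEnd ℂ) (F x))) =
          (F x * (starRingEnd ℂ) (F x)) * (F x * (starRingEnd ℂ) (F x)) := by ring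
      _ = ((‖F x‖ ^ 4 : ℝ) : ℂ) := by
          rw [e2]
          push_cast
          ring
  have hGx : ∀ p : ℝ × ℝ × ℝ × ℝ, ‖∫ x, G x p ∂ρ‖ ≤ h (p.1 + p.2.1 - p.2.2.1 - p.2.2.2) := by
    intro p
    have e1 : ∫ x, G x p ∂ρ = ∫ x, G x p := by
      refine setIntegral_eq_integral_of_forall_compl_eq_zero fun x hx => ?_
      rw [hG]
      simp only [hf0 x _ hx, zero_mul]
    have e2 : ∀ x, G x p = (c p.1 * (c p.2.1 * ((starRingEnd ℂ) (c p.2.2.1) *
        (starRingEnd ℂ) (c p.2.2.2)))) * (k (x - p.1) * k (x - p.2.1) *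
        (starRingEnd ℂ) (k (x - p.2.2.1)) * (starRingEnd ℂ) (k (x - p.2.2.2))) := by
      intro x
      rw [hG, hf]
      simp only [map_mul]
      ring
    rw [e1]
    simp only [e2]
    rw [integral_const_mul, norm_mul]
    have e3 : ‖c p.1 * (c p.2.1 * ((starRingEnd ℂ) (c p.2.2.1) *
        (starRingEnd ℂ) (c p.2.2.2)))‖ ≤ 1 * (1 * (1 * 1)) := by
      simp only [norm_mul, Complex.norm_conj]
      gcongr <;> exact hc1 _
    have e4 := hHH p.1 p.2.1 p.2.2.1 p.2.2.2
    unfold HH at e4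
    calc _ ≤ (1 * (1 * (1 * 1))) * h (p.1 + p.2.1 - p.2.2.1 - p.2.2.2) :=
          mul_le_mul e3 e4 (norm_nonneg _) (by norm_num)
      _ = _ := by ring
  -- the main identity
  have step4 : ∫ x in I, ‖F x‖ ^ 4 ≤
      ∫ x1 in W, ∫ x2 in W, ∫ x3 in W, ∫ x4 in W, h (x1 + x2 - x3 - x4) := by
    have e1 : ((∫ x in I, ‖F x‖ ^ 4 : ℝ) : ℂ) = ∫ p, ∫ x, G x p ∂ρ ∂ν := by
      rw [← integral_integral_swap hGi]
      simp only [hGν]
      exact integral_complex_ofReal.symm
    have hpos : 0 ≤ ∫ x in I, ‖F x‖ ^ 4 := integral_nonneg fun x => by positivity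
    have e2 : ∫ x in I, ‖F x‖ ^ 4 = ‖∫ p, ∫ x, G x p ∂ρ ∂ν‖ := by
      rw [← e1, Complex.norm_real, Real.norm_eq_abs, abs_of_nonneg hpos]
    rw [e2]
    have hbd : ∀ u, ‖h u‖ ≤ B' := fun u => by
      rw [Real.norm_eq_abs, abs_of_nonneg (hhB u).1]
      exact (hhB u).2
    have hhm : Measurable fun p : ℝ × ℝ × ℝ × ℝ => h (p.1 + p.2.1 - p.2.2.1 - p.2.2.2) :=
      hh.comp (by fun_prop)
    have hhi : Integrable (fun p : ℝ × ℝ × ℝ × ℝ => h (p.1 + p.2.1 - p.2.2.1 - p.2.2.2)) ν :=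
      Integrable.of_bound hhm.aestronglyMeasurable B' (Eventually.of_forall fun p => hbd _)
    refine (norm_integral_le_of_norm_le hhi (Eventually.of_forall hGx)).trans (le_of_eq ?_)
    rw [hν] at hhi ⊢
    rw [integral_prod _ hhi]
    refine integral_congr_ae (Eventually.of_forall fun x1 => ?_)
    simp only
    have m1 : Measurable fun p : ℝ × ℝ × ℝ => h (x1 + p.1 - p.2.1 - p.2.2) :=
      hh.comp (by fun_prop)
    have i1 : Integrable (fun p : ℝ × ℝ × ℝ => h (x1 + p.1 - p.2.1 - p.2.2))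
        (μ.prod (μ.prod μ)) :=
      Integrable.of_bound m1.aestronglyMeasurable B' (Eventually.of_forall fun p => hbd _)
    rw [integral_prod _ i1]
    refine integral_congr_ae (Eventually.of_forall fun x2 => ?_)
    simp only
    have m2 : Measurable fun p : ℝ × ℝ => h (x1 + x2 - p.1 - p.2) := hh.comp (by fun_prop)
    have i2 : Integrable (fun p : ℝ × ℝ => h (x1 + x2 - p.1 - p.2)) (μ.prod μ) :=
      Integrable.of_bound m2.aestronglyMeasurable B' (Eventually.of_forall fun p => hbd _)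
    rw [integral_prod _ i2]
  have hR0 : 0 ≤ Rr W := ENNReal.toReal_nonneg
  calc ‖∫ x in W, ∫ y in W, b x * (starRingEnd ℂ) (b y) * k (x - y)‖ ^ 4 ≤
        (∫ x in W, ‖F x‖) ^ 4 := pow_le_pow_left₀ (norm_nonneg _) step1 4
    _ ≤ Rr W ^ 3 * ∫ x in W, ‖F x‖ ^ 4 := step2
    _ ≤ _ := mul_le_mul_of_nonneg_left (step3.trans step4) (by positivity)

end Pool.Agent.Work.MP_56b8f5_nt.UV
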