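import Mathlib
import Pool.Agent.Work.MP_56b8f5_nt.UB.Stmts
import Pool.Agent.Work.MP_56b8f5_nt.UT.Stmts
import Pool.Agent.Work.MP_56b8f5_nt.UT.Stmts2

/-!
MP_56b8f5_nt, block UV (a better exponent for the moments of zeta between the 4th and the 12th).

Goal: `∫_0^T |ζ(1/2+it)|^8 dt ≤ C T^(3/2 - 1/42 + ε)` and
`∫_0^T |ζ(1/2+it)|^A dt ≤ C T^(1 + (A-4)/8 - min(A-4, 12-A)/168 + ε)` for `4 ≤ A ≤ 12`.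

Every item is `theorem iNAME (h1 : StA) (h2 : StB) ... : StNAME := ...` in the file `UV/I_NAME.lean` (import this file,
namespace `Pool.Agent.Work.MP_56b8f5_nt.UV`, auxiliary lemmas in a sub-namespace `NAME_aux`); it may use any statement
listed in its docstring as a hypothesis.  `UB.StX`, `UT.StX` are the statements of the blocks UB, UT (proved, see
`UB/All.lean`, `UT/All.lean`; their auxiliary lemmas may be imported and copied).  Constants `C` depend only on the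
parameters quantified before them.  Notation: `η = N√N/V²`, `R = Rr W`, `v_n = vv X n`, `e = ee`.
-/

open MeasureTheory Set Filter Topology

noncomputable section

namespace Pool.Agent.Work.MP_56b8f5_nt.UV

open Pool.Agent.Work.MP_56b8f5_nt.UB

/-! ### Definitions -/

/-- `F̂(ν) = ∫ F(x) e(νx) dx` -/
def FT (F : ℝ → ℂ) (ν : ℝ) : ℂ := ∫ x : ℝ, F x * ee (ν * x)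

/-- the logarithm `log(2+N)` -/
def Lq (N : ℝ) : ℝ := Real.log (2 + N)

/-- `ψ(z) = |∫_0^1 e(zh) dh|² = (sin πz/(πz))²` -/
def ps (z : ℝ) : ℝ := ‖∫ h in (0 : ℝ)..1, ee (z * h)‖ ^ 2

/-- a function minus its average: `f(z) - N^{-1} ∫_0^{√N} ∫_0^{√N} f(z+p-q) dq dp` -/
def Av (N : ℝ) (f : ℝ → ℂ) (z : ℝ) : ℂ :=
  f z - ((1 / N : ℝ) : ℂ) * ∫ p in (0 : ℝ)..Real.sqrt N, ∫ q in (0 : ℝ)..Real.sqrt N, f (z + p - q)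

/-- `J_{m,m'}(β) = ∫_{v > 0, v > β} κ(v) κ(v-β) e(-m n(v) + m' n(v-β)) dv` -/
def QJ (X N : ℝ) (m m' : ℤ) (β : ℝ) : ℂ :=
  ∫ v in Ioi (max 0 β), ((kap X N v * kap X N (v - β) : ℝ) : ℂ) *
    ee (-(m * nn X v) + m' * nn X (v - β))

/-- the kernel `KS` truncated to `|m| ≤ 100 M` -/
def KT (X N M z : ℝ) : ℂ := ∑ m ∈ Finset.Icc (-⌊100 * M⌋) ⌊100 * M⌋, KK X N m z

/-- the energy of `W` at scale `t`: the measure of `{(x1,x2,x3,x4) ∈ W⁴ : |x1+x2-x3-x4| ≤ t}` -/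
def ED (W : Set ℝ) (t : ℝ) : ℝ :=
  ∫ x1 in W, ∫ x2 in W, ∫ x3 in W, ∫ x4 in W, if |x1 + x2 - x3 - x4| ≤ t then (1 : ℝ) else 0

/-- the smoothed energy `∫_{W⁴} (Δ - |x1+x2-x3-x4|)_+` -/
def GG (W : Set ℝ) (Δ : ℝ) : ℝ :=
  ∫ x1 in W, ∫ x2 in W, ∫ x3 in W, ∫ x4 in W, max (Δ - |x1 + x2 - x3 - x4|) 0

/-! ### Block Q: the off-diagonal quadratic form -/

/-- ITEM Ps.  `|∫_0^1 e(zh)dh| ≤ 1`; `= |e(z) - 1|/(2π|z|) ≤ 1/(π|z|) ≤ 0.531` for `|z| ≥ 0.6` (square `≤ 0.29`);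
`|∫_0^1 e(zh)dh| ≥ |∫_0^1 cos(2πz(h-1/2))dh| ≥ 1 - (2πz)²/24` (multiply by `e(-z/2)`, `cos y ≥ 1 - y²/2`), so for `|z| ≤ 1/5` its square
is `≥ 1 - (2πz)²/12 ≥ 1 - 20z²`; for `|z| ≥ 1/4` the third claim is trivial. -/
def StPs : Prop := ∀ z : ℝ, 0 ≤ ps z ∧ ps z ≤ 1 ∧ 1 - ps z ≤ 20 * z ^ 2 ∧ (6 / 10 ≤ |z| → ps z ≤ 1 / 2)

/-- ITEM Pl (Plancherel and the derivative of the Fourier transform).  `FT F ν = 𝓕 F (-ν)`.  Plancherel for `L¹ ∩ L²` is in the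
pool: lemmas `gpl_cont`, `gpl_memLp`, `gpl_inner` in `Pool/Agent/Work/MP_f2af60_mp/Bd/B03.lean` (section about item Q35; copy or
import).  Derivative: `hasDerivAt_integral_of_dominated_loc_of_deriv_le` (compact support). -/
def StPl : Prop := ∀ (F : ℝ → ℂ) (L B : ℝ), Measurable F → (∀ x, ‖F x‖ ≤ B) → (∀ x, L < |x| → F x = 0) →
  Continuous (FT F) ∧ Integrable (fun ν => ‖FT F ν‖ ^ 2) ∧ ∫ ν, ‖FT F ν‖ ^ 2 = ∫ x, ‖F x‖ ^ 2 ∧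
  ∀ ν, HasDerivAt (FT F) (FT (fun x => ((2 * Real.pi * x : ℝ) : ℂ) * Complex.I * F x) ν) ν

/-- ITEM Kp (elementary bounds for `κ`; uses UB.StKa).  `κ = om(nn/N) nd`, `κ' = om'(nn/N) nd²/N + om(nn/N) cosh/2`.  For `|v| ≥ 4√N`:
`nn X v ≥ v²/4 ≥ 4N > 5N/2`; for `|v| ≤ √N`: `nn X v ≤ 1.01 v²/4 < N/2` (`√N/X` small); `nn`, `cosh` even, `nd` odd.  In between `|nd| ≤ 3√N`,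
`cosh ≤ 2`, `om`, `om'` bounded (`ContDiffBump.contDiff`, compact support). -/
def StKp : Prop := ∃ C : ℝ, 1 ≤ C ∧ ∀ X N : ℝ, 1 ≤ N → 0 < X → C * N ≤ X ^ 2 → ∃ k1 : ℝ → ℝ,
  (∀ v, HasDerivAt (kap X N) (k1 v) v) ∧ Continuous k1 ∧ (∀ v, |kap X N v| ≤ C * Real.sqrt N ∧ |k1 v| ≤ C) ∧
  ∀ v, (|v| ≤ Real.sqrt N ∨ 4 * Real.sqrt N ≤ |v|) → kap X N v = 0 ∧ k1 v = 0

/-- ITEM Qa (bounds for `J`; uses StKp, UB.StKa, UB.StVp, UB.StV1, UB.StV2).  The integrand lives on `v, v-β ∈ [√N, 4√N]`: an interval of length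
`≤ 3√N`; amplitude `A = κ(v)κ(v-β)`, `|A| ≤ CN`, `|A'| ≤ C√N`, zero at both ends of `[max 0 β, ..]`.  Phase `ϕ = -m nn(v) + m' nn(v-β)`,
`ϕ'' = -(m/2)cosh(v/2X) + (m'/2)cosh((v-β)/2X)`.  (1) `m ≠ m'`: `|cosh - 1| ≤ C'N/X²` there, so `|ϕ'' + (m-m')/2| ≤ 100M·C'N/X² ≤ 1/4`, i.e.
`|ϕ''| ≥ |m-m'|/4` with constant sign: UB.StV2, UB.StVp: `≤ (16/√|m-m'|)·C√N·4√N`.  (2) trivial.  (3) `m = m' ≠ 0`, `β ≠ 0`: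
`|ϕ'| = |m||nd(v) - nd(v-β)| ≥ |m||β|/2`, `ϕ'' = -(m/2)(cosh(v/2X) - cosh((v-β)/2X))` has constant sign as `v, v-β > 0`: UB.StV1 (part 2),
UB.StVp. -/
def StQa : Prop := ∃ C : ℝ, 1 ≤ C ∧ ∀ (X N M β : ℝ) (m m' : ℤ), 1 ≤ N → 0 < X → 1 ≤ M → C * (M * N) ≤ X ^ 2 →
  |(m : ℝ)| ≤ 100 * M → |(m' : ℝ)| ≤ 100 * M →
  (m ≠ m' → ‖QJ X N m m' β‖ ≤ C * N / Real.sqrt |(m : ℝ) - m'|) ∧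
  ‖QJ X N m m β‖ ≤ C * (N * Real.sqrt N) ∧ |(m : ℝ)| * |β| * ‖QJ X N m m β‖ ≤ C * N

/-- ITEM Qb (the form for one pair `(m,m')`; uses StPl, StKp, StPs).  `K_m(z) conj K_{m'}(z) = ∫∫ κ(v)κ(v')e(z(v-v') - m n(v) + m' n(v'))dv dv'
= ∫ e(zβ) J(β) dβ` (`v' = v - β`; `J` is bounded and vanishes for `|β| > 3√N`, everything is absolutely integrable).
`(1/N)∫∫_{[0,√N]²} e(β(p-q)) = ψ(β√N)` (`= |N^{-1/2}∫_0^{√N}e(βp)dp|²`, substitute `p = √N h`).  `∫∫ F(x)F(y)e(β(x-y)) = |F̂(β)|²`.  So the left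
side is `|∫ |F̂(β)|² (1 - ψ(β√N)) J(β) dβ| ≤ D ∫|F̂|² = D ∫F²`. -/
def StQb : Prop := ∃ C : ℝ, 1 ≤ C ∧ ∀ (X N D L B : ℝ) (m m' : ℤ) (F : ℝ → ℝ), 1 ≤ N → 0 < X → C * N ≤ X ^ 2 →
  Measurable F → (∀ x, |F x| ≤ B) → (∀ x, L < |x| → F x = 0) → 0 ≤ D →
  (∀ β, ‖QJ X N m m' β‖ * (1 - ps (β * Real.sqrt N)) ≤ D) →
  ‖∫ x, ∫ y, ((F x * F y : ℝ) : ℂ) * Av N (fun z => KK X N m z * (starRingEnd ℂ) (KK X N m' z)) (x - y)‖ ≤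
    D * ∫ x, F x ^ 2

/-- ITEM Qc (truncation of the kernel; uses UB.StKP, UB.StK2).  For `|m| > 100M - 1` and `|z| ≤ 41M√N` the point `z/m` is in `(-√N/2, √N/2)`, so
UB.StK2 gives `‖KK m z‖ ≤ C/(m²N)` and `‖KS - KT‖ ≤ C/(MN)` (UB.StKP); `‖KS‖ ≤ 3N + 1` trivially (at most `5N/2 + 1` terms, `om ≤ 1`), so `‖KT‖ ≤ CN`. -/
def StQc : Prop := ∃ C : ℝ, 1 ≤ C ∧ ∀ X N M z : ℝ, 1 ≤ N → 0 < X → 1 ≤ M → C * N ≤ X ^ 2 →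
  |z| ≤ 41 * (M * Real.sqrt N) → |‖KS X N z‖ ^ 2 - ‖KT X N M z‖ ^ 2| ≤ C / M

/-- ITEM Qd (insertion of the smooth weights; uses UB.StKa, StPs).  For `n ≠ n'` in `(N, 2N]`: `|v_n - v_n'|√N ≥ 0.99/√2 ≥ 0.6` (derivative of `vv X`), so
`1 - ψ((v_n-v_n')√N) ≥ 1/2`, and `om(n/N) = 1`: the left side is `≤ 2 ∑_{n,n'} ω_n ω_n' (1 - ψ((v_n-v_n')√N)) |F̂(v_n-v_n')|²` (all terms `≥ 0`; finite sums: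
`om(n/N) = 0` for `n ≥ 5N/2`), which is `2∫∫ F(x)F(y) Av(‖KS‖²)(x-y)`: `‖KS z‖² = ∑ω_nω_n' e(z(v_n-v_n'))`,
`∫∫F(x)F(y)e(ν(x-y)) = |F̂(ν)|²`, `(1/N)∫∫e(ν(p-q)) = ψ(ν√N)`. -/
def StQd : Prop := ∃ C : ℝ, 1 ≤ C ∧ ∀ (X N L B : ℝ) (F : ℝ → ℝ), 1 ≤ N → 0 < X → C * N ≤ X ^ 2 →
  Measurable F → (∀ x, |F x| ≤ B) → (∀ x, L < |x| → F x = 0) →
  ∑ n ∈ Finset.Ioc ⌊N⌋₊ ⌊2 * N⌋₊, ∑ n' ∈ Finset.Ioc ⌊N⌋₊ ⌊2 * N⌋₊,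
    (if n = n' then 0 else ‖FT (fun x => (F x : ℂ)) (vv X n - vv X n')‖ ^ 2) ≤
  2 * ‖∫ x, ∫ y, ((F x * F y : ℝ) : ℂ) * Av N (fun z => ((‖KS X N z‖ ^ 2 : ℝ) : ℂ)) (x - y)‖

/-- ITEM Qe (a finite sum).  Diagonal: `∑_{|m| ≤ 100M} 1/(1+|m|) ≤ C(1 + log M)`.  Off diagonal: for each `m` the sum over `m'` is `≤ 2∑_{1≤d≤200M}d^{-1/2} ≤ C√M`, and there are
`≤ 201M` values of `m`. -/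
def StQe : Prop := ∃ C : ℝ, 1 ≤ C ∧ ∀ M N : ℝ, 1 ≤ M → 1 ≤ N →
  ∑ m ∈ Finset.Icc (-⌊100 * M⌋) ⌊100 * M⌋, ∑ m' ∈ Finset.Icc (-⌊100 * M⌋) ⌊100 * M⌋,
    (if m = m' then N * Real.sqrt N / (1 + |(m : ℝ)|) else N / Real.sqrt |(m : ℝ) - (m' : ℝ)|) ≤
  C * (N * Real.sqrt N * (1 + Real.log M) + N * (M * Real.sqrt M))

/-- ITEM Q (the off-diagonal quadratic form; uses StQa, StQb, StQc, StQd, StQe, StPs).  StQd; replace `‖KS‖²` by `‖KT‖²` (arguments `|z| ≤ 40M√N + √N`): the error is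
`≤ (2C/M)(∫|F|)² ≤ (2C/M)·40M√N∫F²` (Cauchy-Schwarz).  Expand `‖KT‖² = ∑_{m,m'} KK m conj(KK m')`, StQb for each pair with
`D = C N/√|m-m'|` if `m ≠ m'` (`0 ≤ 1-ψ ≤ 1`), `D = 40C N√N/(1+|m|)` if `m = m'`: for `m = 0` StQa (2); for `m ≠ 0`, `|β| ≥ 1/√N`: StQa (3); for `|β| < 1/√N`:
`1 - ψ ≤ 20β²N` and StQa (3): `≤ 20β²N·CN/(|m||β|) ≤ 20C N√N/|m|`.  StQe; `M√M ≤ √N`, `1 + log M ≤ C Lq N`. -/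
def StQ : Prop := ∃ C : ℝ, 1 ≤ C ∧ ∀ (X N M B : ℝ) (F : ℝ → ℝ), 1 ≤ N → 0 < X → 1 ≤ M → C * (M * N) ≤ X ^ 2 →
  M ^ 3 ≤ N → Measurable F → (∀ x, |F x| ≤ B) → (∀ x, x ∉ Icc 0 (40 * (M * Real.sqrt N)) → F x = 0) →
  ∑ n ∈ Finset.Ioc ⌊N⌋₊ ⌊2 * N⌋₊, ∑ n' ∈ Finset.Ioc ⌊N⌋₊ ⌊2 * N⌋₊,
    (if n = n' then 0 else ‖FT (fun x => (F x : ℂ)) (vv X n - vv X n')‖ ^ 2) ≤
  C * (N * Real.sqrt N * Lq N) * ∫ x, F x ^ 2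

/-! ### Block U: upper bound for the energy at every scale -/

/-- ITEM ULa.  For `u = x1+x2-x3`: `V² ∫_{x4∈W}(Δ-|u-x4|)_+ ≤ ∫_{x4∈W}(Δ-|u-x4|)_+|S(x4)|² ≤ ∫_ℝ (Δ-|t|)_+|S(u+t)|²dt = ∫_0^Δ∫_0^Δ |S(u+h-h')|²dh dh'`.  Integrate over
`(x1,x2,x3) ∈ W³` and expand `|S|² = ∑ a_n conj a_n' e(ν·)`, `ν = v_n-v_n'`: `∑ a_n conj a_n' Wh(ν)² conj(Wh(ν)) |Jh(ν)|²`, `Wh(ν) = ∫_W e(νx)dx`,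
`Jh(ν) = ∫_0^Δ e(νh)dh`.  Compare `UB/I_E2a.lean`. -/
def StULa : Prop := ∀ (X N V Δ L : ℝ) (a : ℕ → ℂ) (W : Set ℝ), 1 ≤ N → 0 < X → 0 ≤ V → 0 < Δ →
  (∀ n, ‖a n‖ ≤ 1) → MeasurableSet W → W ⊆ Icc 0 L → (∀ x ∈ W, V ≤ ‖SS X N a x‖) →
  V ^ 2 * GG W Δ ≤ ∑ n ∈ Finset.Ioc ⌊N⌋₊ ⌊2 * N⌋₊, ∑ n' ∈ Finset.Ioc ⌊N⌋₊ ⌊2 * N⌋₊,
    ‖∫ x in W, ee ((vv X n - vv X n') * x)‖ ^ 3 * ‖∫ h in (0 : ℝ)..Δ, ee ((vv X n - vv X n') * h)‖ ^ 2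

/-- ITEM ULb.  `F1(u) = |W ∩ [u-Δ,u]|` (`= 1_W * 1_{[0,Δ]}`), `F2(u) = ∫_{x∈W} F1(u-x)dx`.  `F1 ≤ τ`, `∫F1 = RΔ`.
`∫F2² = ∫_{W⁴}∫_u [0 ≤ u-x1-x2 ≤ Δ][0 ≤ u-x3-x4 ≤ Δ] = ∫_{W⁴}(Δ-|x1+x2-x3-x4|)_+` (Tonelli).  Fourier transforms: Fubini. -/
def StULb : Prop := ∀ (Δ L τ : ℝ) (W : Set ℝ), MeasurableSet W → W ⊆ Icc 0 L → 0 < Δ → 0 ≤ L → 0 ≤ τ →
  (∀ y, Rr (W ∩ Icc y (y + Δ)) ≤ τ) →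
  ∃ F1 F2 : ℝ → ℝ, Measurable F1 ∧ Measurable F2 ∧ (∃ B, ∀ x, |F1 x| ≤ B ∧ |F2 x| ≤ B) ∧
    (∀ x, x ∉ Icc 0 (2 * L + Δ) → F1 x = 0 ∧ F2 x = 0) ∧
    (∀ ν, ‖FT (fun x => (F1 x : ℂ)) ν‖ = ‖∫ x in W, ee (ν * x)‖ * ‖∫ h in (0 : ℝ)..Δ, ee (ν * h)‖) ∧
    (∀ ν, ‖FT (fun x => (F2 x : ℂ)) ν‖ = ‖∫ x in W, ee (ν * x)‖ ^ 2 * ‖∫ h in (0 : ℝ)..Δ, ee (ν * h)‖) ∧
    ∫ x, F1 x ^ 2 ≤ τ * Rr W * Δ ∧ ∫ x, F2 x ^ 2 = GG W Δ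

/-- ITEM UL (upper bound for the energy; uses StQ, StULa, StULb).  StULa; terms `n = n'`: `≤ 2N R³Δ²`.  Terms `n ≠ n'`: Cauchy-Schwarz and StULb (`L = M√N`,
`2L + Δ ≤ 18M√N`): `≤ (∑_{n≠n'}|F̂1|²)^{1/2}(∑_{n≠n'}|F̂2|²)^{1/2} ≤ C N√N Lq (τRΔ)^{1/2} G^{1/2}`, `G = GG W Δ`.  So `V²G ≤ 2N R³Δ² + C N√N Lq (τRΔG)^{1/2}`: either `V²G ≤ 4N R³Δ²` or
`V⁴G ≤ 4C²N³Lq²τRΔ`. -/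
def StUL : Prop := ∃ C : ℝ, 1 ≤ C ∧ ∀ (X N M V Δ τ : ℝ) (a : ℕ → ℂ) (W : Set ℝ), 1 ≤ N → 0 < X → 1 ≤ M →
  C * (M * N) ≤ X ^ 2 → M ^ 3 ≤ N → 0 < V → 0 < Δ → Δ ≤ 16 * (M * Real.sqrt N) → 0 ≤ τ → (∀ n, ‖a n‖ ≤ 1) →
  MeasurableSet W → W ⊆ Icc 0 (M * Real.sqrt N) → (∀ x ∈ W, V ≤ ‖SS X N a x‖) →
  (∀ y, Rr (W ∩ Icc y (y + Δ)) ≤ τ) →
  GG W Δ ≤ C * (N * Rr W ^ 3 * Δ ^ 2 / V ^ 2 + Lq N ^ 2 * N ^ 3 * τ * Rr W * Δ / V ^ 4)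

/-! ### Block D: lower bound for the energy at some scale -/

/-- ITEM H2 (pointwise bound for the four-fold correlation; uses UB.StVp, UB.StK3, UB.StHp).  This is the pointwise bound inside the proof of UB.StH
(`UB/I_H.lean`; adapt). -/
def StH2 : Prop := ∃ C : ℝ, 1 ≤ C ∧ ∀ (X N : ℝ) (m : ℕ), 1 ≤ N → 0 < X → C * N ≤ X ^ 2 → 1 ≤ m →
  ∀ x1 x2 x3 x4 : ℝ, ‖HH (KJ X N m) x1 x2 x3 x4‖ ≤ C * ((N / m) ^ 2 * (m * Real.sqrt N)) ∧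
    (x1 + x2 - x3 - x4 ≠ 0 → ‖HH (KJ X N m) x1 x2 x3 x4‖ ≤ C * ((N / m) ^ 2 * (m / |x1 + x2 - x3 - x4| +
      if |x1 + x2 - x3 - x4| ≤ C * (m * N * Real.sqrt N / X ^ 2) then
        m * Real.sqrt (Real.sqrt N) / Real.sqrt |x1 + x2 - x3 - x4| else 0)))

/-- ITEM E5 (the `L⁴` inequality without the energy; adapt `UB/I_E4.lean`, the part before StE1 is used). -/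
def StE5 : Prop := ∀ (L B B' : ℝ) (W : Set ℝ) (b k : ℝ → ℂ) (h : ℝ → ℝ), MeasurableSet W → W ⊆ Icc 0 L →
  Measurable b → (∀ x, ‖b x‖ ≤ 1) → Measurable k → (∀ x, ‖k x‖ ≤ B) → (∀ x, k x ≠ 0 → |x| ≤ B) →
  Measurable h → (∀ u, 0 ≤ h u ∧ h u ≤ B') →
  (∀ x1 x2 x3 x4 : ℝ, ‖HH k x1 x2 x3 x4‖ ≤ h (x1 + x2 - x3 - x4)) →
  ‖∫ x in W, ∫ y in W, b x * (starRingEnd ℂ) (b y) * k (x - y)‖ ^ 4 ≤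
    Rr W ^ 3 * ∫ x1 in W, ∫ x2 in W, ∫ x3 in W, ∫ x4 in W, h (x1 + x2 - x3 - x4)

/-- ITEM D1 (dyadic decomposition).  `|u| ≤ 2M√N` for `u = x1+x2-x3-x4`.  If `|u| ≤ 1/√N`: `h(u) ≤ C0(N²/m)√N·1[|u| ≤ 2^0/√N]`.  Otherwise let `i ≥ 1` with
`2^{i-1} < |u|√N ≤ 2^i`, so `2^i ≤ 4MN`: `m/|u| ≤ 2m√N/2^i`, and if `|u| ≤ C0 mN√N/X²` then `2^i ≤ 2C0 mN²/X² ≤ 4C0 MN²/X²` and `m√√N/√|u| ≤ 2m√(2^i)√N/2^i`.  So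
`h(u) ≤ 4C0 (N²/m) ∑_{i : 2^i ≤ 8MN} (√N/2^i)(1 + √(2^i)[2^i ≤ 4C0 MN²/X²]) 1[|u| ≤ 2^i/√N]`; integrate over `W⁴`; the number of `i` is
`≤ 1 + log(8MN)/log 2 ≤ 5(1 + log(MN))`.  `C ≥ 4C0`. -/
def StD1 : Prop := ∀ C0 : ℝ, 1 ≤ C0 → ∃ C : ℝ, 1 ≤ C ∧ ∀ (X N M Es : ℝ) (m : ℕ) (W : Set ℝ) (h : ℝ → ℝ),
  1 ≤ N → 0 < X → 1 ≤ M → 1 ≤ m → (m : ℝ) ≤ 2 * M → MeasurableSet W → W ⊆ Icc 0 (M * Real.sqrt N) →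
  Measurable h → (∀ u, 0 ≤ h u) → (∀ u, h u ≤ C0 * ((N / m) ^ 2 * (m * Real.sqrt N))) →
  (∀ u, u ≠ 0 → h u ≤ C0 * ((N / m) ^ 2 * (m / |u| +
    if |u| ≤ C0 * (m * N * Real.sqrt N / X ^ 2) then m * Real.sqrt (Real.sqrt N) / Real.sqrt |u| else 0))) →
  0 ≤ Es →
  (∀ i : ℕ, (2 : ℝ) ^ i ≤ 8 * (M * N) → Real.sqrt N / 2 ^ i * ED W (2 ^ i / Real.sqrt N) ≤ Es ∧
    ((2 : ℝ) ^ i ≤ C * (M * N ^ 2 / X ^ 2) →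
      Real.sqrt (2 ^ i) * (Real.sqrt N / 2 ^ i * ED W (2 ^ i / Real.sqrt N)) ≤ Es)) →
  ∫ x1 in W, ∫ x2 in W, ∫ x3 in W, ∫ x4 in W, h (x1 + x2 - x3 - x4) ≤
    C * (N ^ 2 / m) * (1 + Real.log (M * N)) * Es

/-- ITEM D2 (energy lower bound; uses UB.StE3, UB.StKD, UB.StK2, UB.StK3, StH2, StE5, StD1; compare `UB/I_DN.lean`).  UB.StKD in UB.StE3: `K_0` contributes `2N·C√N R`, the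
error `2N(C/N)R²` is absorbed by `C ≤ V²`; each `1 ≤ m ≤ 2M` contributes `2·2N·(R³∫_{W⁴}h_m)^{1/4}` (StE5 with `k = KJ m`, `h_m` = the minimum of the two bounds of StH2, the
conjugate term has the same modulus), StD1: `∫_{W⁴}h_m ≤ C(N²/m)(1+log(MN))Es`, `∑_{m≤2M}m^{-1/4} ≤ C M^{3/4}`, `1 + log(MN) ≤ C Lq N`. -/
def StD2 : Prop := ∃ C : ℝ, 1 ≤ C ∧ ∀ (X N M V Es : ℝ) (a : ℕ → ℂ) (W : Set ℝ), 1 ≤ N → 0 < X → C * N ≤ X ^ 2 →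
  1 ≤ M → M ≤ N → 0 < V → C ≤ V ^ 2 → (∀ n, ‖a n‖ ≤ 1) →
  MeasurableSet W → W ⊆ Icc 0 (M * Real.sqrt N) → (∀ x ∈ W, V ≤ ‖SS X N a x‖) → 0 ≤ Es →
  (∀ i : ℕ, (2 : ℝ) ^ i ≤ 8 * (M * N) → Real.sqrt N / 2 ^ i * ED W (2 ^ i / Real.sqrt N) ≤ Es ∧
    ((2 : ℝ) ^ i ≤ C * (M * N ^ 2 / X ^ 2) →
      Real.sqrt (2 ^ i) * (Real.sqrt N / 2 ^ i * ED W (2 ^ i / Real.sqrt N)) ≤ Es)) →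
  V ^ 2 * Rr W ^ 2 ≤ C * (N * Real.sqrt N * Rr W +
    (N ^ 6 * M ^ 3 * Lq N * Rr W ^ 3 * Es) ^ (1 / 4 : ℝ))

/-! ### Block B: points with large local mass -/

/-- ITEM Nr (the kernel near the diagonal; uses UB.StKD, UB.StK2).  For `|z| ≤ √N/4` all `KJ m (±z)` vanish (`m ≥ 1` needs `|z| ≥ √N/2`), so UB.StKD (`M = 1`) and UB.StK2:
`‖KS z‖ ≤ k(z) := C N/(1+|z|√N)² + C/N`, `∫_{|z|≤√N/4}k ≤ 3C√N`.  `g(x)g(y) ≤ (g(x)²+g(y)²)/2`. -/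
def StNr : Prop := ∃ C : ℝ, 1 ≤ C ∧ ∀ (X N L B : ℝ) (g : ℝ → ℝ), 1 ≤ N → 0 < X → C * N ≤ X ^ 2 → Measurable g →
  (∀ x, 0 ≤ g x ∧ g x ≤ B) → (∀ x, L < |x| → g x = 0) →
  ∫ x, ∫ y, (if |x - y| ≤ Real.sqrt N / 4 then g x * g y * ‖KS X N (x - y)‖ else 0) ≤
    C * Real.sqrt N * ∫ x, g x ^ 2

/-- ITEM MS (mean square on short intervals; uses StNr).  `I = [b, b+√N/8]`, `D = ∫_I|S|² = ∑_{N<n≤2N} a_n ∫_I conj(S(x)) e(x v_n)dx ≤ (2N)^{1/2}(∑ ω_n|∫_I conj(S)e(xv_n)|²)^{1/2} =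
(2N)^{1/2}(∫_I∫_I conj(S(x))S(y)KS(x-y))^{1/2} ≤ (2N)^{1/2}(C√N D)^{1/2}` (StNr with `g = |S|1_I`).  Second part: cover `[y, y+j√N]` by `≤ 8j + 1 ≤ 16j` such intervals,
`V²|W∩I| ≤ ∫_I|S|²`. -/
def StMS : Prop := ∃ C : ℝ, 1 ≤ C ∧ ∀ (X N : ℝ) (a : ℕ → ℂ), 1 ≤ N → 0 < X → C * N ≤ X ^ 2 → (∀ n, ‖a n‖ ≤ 1) →
  (∀ b : ℝ, ∫ x in b..(b + Real.sqrt N / 8), ‖SS X N a x‖ ^ 2 ≤ C * (N * Real.sqrt N)) ∧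
  ∀ (V y j : ℝ) (W : Set ℝ), 0 < V → 1 / 8 ≤ j → MeasurableSet W → (∀ x ∈ W, V ≤ ‖SS X N a x‖) →
    Rr (W ∩ Icc y (y + j * Real.sqrt N)) ≤ C * (N * Real.sqrt N / V ^ 2) * j

/-- ITEM VS (block sums; uses UT.StVB, UT.StMD, UT.StTW, UB.StKa).  `f(n) = -z0 v_n` (or its negative: complex conjugate).  `vv' (y) = y^{-1/2}(1+y/4X²)^{-1/2} = N^{-1/2}G_0(y/N)`,
`G_0(t) = t^{-1/2}(1+εt)^{-1/2}`, `ε = N/4X²`; UT.StTW (`α = 1/2`, `β = 1`, `k = 1`): `-vv''(y) = -N^{-3/2}G_1(y/N) ∈ [c,C]N^{-3/2}` for `y ∈ [N/4,4N]`; UT.StMD (`j = 2`): second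
differences of `f` in `[c,C]·|z0|/(N√N)`; UT.StVB.  (`d ≤ c + 1` trivial.) -/
def StVS : Prop := ∃ C : ℝ, 1 ≤ C ∧ ∀ (X N z0 L : ℝ) (c d : ℕ), 1 ≤ N → 0 < X → C * N ≤ X ^ 2 → z0 ≠ 0 →
  N / 2 ≤ c → (d : ℝ) ≤ 4 * N → c ≤ d → (d : ℝ) - c ≤ L → 1 ≤ L →
  ‖∑ n ∈ Finset.Ico c d, ee (z0 * vv X n)‖ ≤
    C * (L * Real.sqrt (|z0| / (N * Real.sqrt N)) + 1 / Real.sqrt (|z0| / (N * Real.sqrt N)))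

/-- ITEM SB (block summation).  In the block `[c, c+q)`: summation by parts `≤ E(|f(c+q-1)| + ∑|f(n+1)-f(n)|) ≤ E(sup|f| + ∫|f1|)` and `sup|f| ≤ (1/q)∫|f| + ∫|f1|` (over the block
`[c,c+q]`).  Sum over the `K` blocks. -/
def StSB : Prop := ∀ (q K a : ℕ) (z : ℕ → ℂ) (f f1 : ℝ → ℂ) (E : ℝ), 1 ≤ q →
  (∀ y ∈ Icc (a : ℝ) (a + K * q), HasDerivAt f (f1 y) y) → ContinuousOn f1 (Icc (a : ℝ) (a + K * q)) →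
  (∀ c d : ℕ, a ≤ c → c ≤ d → d ≤ c + q → d ≤ a + K * q → ‖∑ n ∈ Finset.Ico c d, z n‖ ≤ E) →
  ‖∑ n ∈ Finset.Ico a (a + K * q), f n * z n‖ ≤
    E * ((1 / q) * (∫ y in (a : ℝ)..(a + K * q), ‖f y‖) + 2 * ∫ y in (a : ℝ)..(a + K * q), ‖f1 y‖)

/-- ITEM Op (bilinear form of the kernel far from the diagonal; uses StPl, StVS, StSB, UB.StKa).  The double integral is `∑_n ω_n e(z0 v_n) φ̂(v_n) conj ψ̂(v_n)` (`N/2 < n < 5N/2`).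
Let `f(y) = om(y/N) φ̂(v(y)) conj(ψ̂(v(y)))` (`φ̂ = FT φ`), `z_n = e(z0 v_n)` for `n < 3N`, `0` otherwise, `a = ⌈N/2⌉`, `q = ⌈N/(Δ√N)⌉`, `K` minimal with `a + Kq ≥ 5N/2`.  StVS with
`L = 2N/(Δ√N)` (note `Δ√N ≤ N/64`) and `j = |z0|/√N`: `E ≤ C((jN)^{1/2}/(Δ√N) + (N/j)^{1/2})`.  `(1/q)∫|f|dy ≤ (Δ√N/N)·C√N ∫|φ̂ψ̂|dv ≤ CΔ‖φ‖‖ψ‖` (substitution `y = nn X v`, `dy ≤ C√N dv`;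
Cauchy-Schwarz and StPl).  `∫|f'|dy ≤ (C/N)·C√N∫|φ̂ψ̂|dv + ∫|(φ̂ conj ψ̂)'|dv ≤ (C/√N + CΔ)‖φ‖‖ψ‖` (StPl for `2πi x φ`), and `1/√N ≤ Δ`.  Product: `CΔE‖φ‖‖ψ‖ = C(j^{1/2} + Δ√N j^{-1/2})‖φ‖‖ψ‖`. -/
def StOp : Prop := ∃ C : ℝ, 1 ≤ C ∧ ∀ (X N Δ z0 B : ℝ) (φ ψ : ℝ → ℂ), 1 ≤ N → 0 < X → C * N ≤ X ^ 2 →
  1 ≤ Δ * Real.sqrt N → Δ ≤ Real.sqrt N / 64 → Real.sqrt N / 16 ≤ |z0| → Measurable φ → Measurable ψ →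
  (∀ x, ‖φ x‖ ≤ B ∧ ‖ψ x‖ ≤ B) → (∀ x, Δ < |x| → φ x = 0 ∧ ψ x = 0) →
  ‖∫ x, ∫ y, φ x * (starRingEnd ℂ) (ψ y) * KS X N (z0 + x - y)‖ ≤
    C * (Δ * Real.sqrt N * Real.sqrt (Real.sqrt N / |z0|) + Real.sqrt (|z0| / Real.sqrt N)) *
      (Real.sqrt (∫ x, ‖φ x‖ ^ 2) * Real.sqrt (∫ x, ‖ψ x‖ ^ 2))

/-- the `L²` norm of `g` on the block `[b+kΔ, b+(k+1)Δ]` -/
def GB (g : ℝ → ℂ) (b Δ : ℝ) (k : ℕ) : ℝ := Real.sqrt (∫ x in (b + k * Δ)..(b + (k + 1) * Δ), ‖g x‖ ^ 2)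

/-- ITEM Bk (quadratic form of the kernel, block decomposition; uses StNr, StOp).  `g = ∑_{k<K} g_k`, `g_k` = restriction to `[b+kΔ, b+(k+1)Δ)`.  Pairs with `|k-l|Δ ≤ √N/8`: there
`|x-y| ≤ √N/4`, all these pairs together contribute `≤ C√N∫|g|²` (StNr for `|g|`).  Pairs with `|k-l|Δ > √N/8`: StOp with `z0 = (k-l)Δ`, `φ(h) = g_k(b+kΔ+h)`, `ψ(h) = g_l(b+lΔ+h)`;
`|z0|/√N ≤ KΔ/√N ≤ 4M`. -/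
def StBk : Prop := ∃ C : ℝ, 1 ≤ C ∧ ∀ (X N M Δ b B : ℝ) (K : ℕ) (g : ℝ → ℂ), 1 ≤ N → 0 < X → C * N ≤ X ^ 2 →
  1 ≤ M → 1 ≤ Δ * Real.sqrt N → Δ ≤ Real.sqrt N / 64 → K * Δ ≤ 4 * (M * Real.sqrt N) → Measurable g →
  (∀ x, ‖g x‖ ≤ B) → (∀ x, x ∉ Ico b (b + K * Δ) → g x = 0) →
  ‖∫ x, ∫ y, g x * (starRingEnd ℂ) (g y) * KS X N (x - y)‖ ≤
    C * (Real.sqrt N * (∫ x, ‖g x‖ ^ 2) + Real.sqrt M * (∑ k ∈ Finset.range K, GB g b Δ k) ^ 2 +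
      Δ * Real.sqrt N * ∑ k ∈ Finset.range K, ∑ l ∈ Finset.range K,
        if Real.sqrt N / 8 < |(k : ℝ) - l| * Δ then
          Real.sqrt (Real.sqrt N / (|(k : ℝ) - l| * Δ)) * (GB g b Δ k * GB g b Δ l) else 0)

/-- ITEM VA (duality for the local mean squares).  `ρ(y) = |A ∩ [y-Δ,y+Δ]|`, `D = ∫ρ|S|² = ∫_A∫_{|h|≤Δ}|S(x+h)|²dh dx` (Tonelli) `≥ V²τ|A|`.  With `g = ρ conj(S)`: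
`D = ∑_{N<n≤2N} a_n∫g(y)e(y v_n)dy ≤ (2N)^{1/2}(∑ω_n|∫g e(yv_n)|²)^{1/2}`, and the last sum is `∫∫g(x)conj(g(y))KS(x-y)`. -/
def StVA : Prop := ∀ (X N V Δ τ b L : ℝ) (a : ℕ → ℂ) (A : Set ℝ), 1 ≤ N → 0 < X → 0 ≤ V → 0 < Δ → 0 ≤ τ →
  (∀ n, ‖a n‖ ≤ 1) → MeasurableSet A → A ⊆ Icc b (b + L) →
  (∀ x ∈ A, V ^ 2 * τ ≤ ∫ h in (-Δ)..Δ, ‖SS X N a (x + h)‖ ^ 2) →
  V ^ 2 * τ * Rr A ≤ ∫ y, Rr (A ∩ Icc (y - Δ) (y + Δ)) * ‖SS X N a y‖ ^ 2 ∧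
  (∫ y, Rr (A ∩ Icc (y - Δ) (y + Δ)) * ‖SS X N a y‖ ^ 2) ^ 2 ≤
    2 * N * ‖∫ x, ∫ y, ((Rr (A ∩ Icc (x - Δ) (x + Δ)) : ℂ) * (starRingEnd ℂ) (SS X N a x)) *
      (starRingEnd ℂ) ((Rr (A ∩ Icc (y - Δ) (y + Δ)) : ℂ) * (starRingEnd ℂ) (SS X N a y)) * KS X N (x - y)‖

/-- ITEM VH (points with large local mean square; uses StVA, StBk, StMS).  `D`, `g`, `ρ` from StVA, base point `b-Δ`, `K = ⌈(M√N+2Δ)/Δ⌉+1`, `I_k` the blocks, `D_k = ∫_{I_k}ρ|S|²`,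
`ρ_k = |A ∩ [inf I_k - Δ, sup I_k + Δ]|`, so `ρ ≤ min(4τ, ρ_k)` on `I_k`, `∑ρ_k ≤ 3|A|`, `‖g_k‖² ≤ ρ_k D_k`, `∫|g|² ≤ 4τD`.  In StBk: `(∑‖g_k‖)² ≤ ∑ρ_k ∑D_k ≤ 3|A|D`;
`‖g_k‖‖g_l‖ ≤ (ρ_kD_l + ρ_lD_k)/2`, so the last double sum is `≤ D·max_l ∑_{k : |k-l|Δ > √N/8} (√N/(|k-l|Δ))^{1/2}ρ_k`; for `2^{i-3} < |k-l|Δ/√N ≤ 2^{i-2}`, `i ≥ 0`, the sum of the `ρ_k` is
`≤ 3|A ∩ J|`, `J` an interval of length `≤ 2^i√N` (`Δ ≤ √N/64`), `≤ 3min(|A|, Cη2^i)` (StMS), and `∑_i 2^{-i/2}min(|A|, η2^i) ≤ C(η|A|)^{1/2}`.  So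
`D² ≤ CN·D·(√Nτ + √M|A| + Δ√N(η|A|)^{1/2})`.  With `D ≥ V²τ|A|` and `C N√M ≤ V²τ`: `V²τ|A| ≤ CN(√Nτ + Δ√N(η|A|)^{1/2})`, i.e. `|A| ≤ Cη + C(ηΔ/τ)(η|A|)^{1/2}`. -/
def StVH : Prop := ∃ C : ℝ, 1 ≤ C ∧ ∀ (X N M V Δ τ b η : ℝ) (a : ℕ → ℂ) (A : Set ℝ), 1 ≤ N → 0 < X →
  C * N ≤ X ^ 2 → 1 ≤ M → 0 < V → η = N * Real.sqrt N / V ^ 2 → 1 ≤ Δ * Real.sqrt N → Δ ≤ Real.sqrt N / 64 →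
  0 < τ → C * (N * Real.sqrt M) ≤ V ^ 2 * τ → (∀ n, ‖a n‖ ≤ 1) → MeasurableSet A →
  A ⊆ Icc b (b + M * Real.sqrt N) → (∀ x ∈ A, V ≤ ‖SS X N a x‖) →
  (∀ x ∈ A, V ^ 2 * τ ≤ ∫ h in (-Δ)..Δ, ‖SS X N a (x + h)‖ ^ 2) →
  (∀ y, Rr (A ∩ Icc (y - Δ) (y + Δ)) ≤ 4 * τ) →
  Rr A ≤ C * (η + η ^ 3 * Δ ^ 2 / τ ^ 2)

/-- ITEM Bd (points with large local mass; uses StVH).  `A_τ = {x ∈ W : τ < |W∩[x-Δ,x+Δ]| ≤ 2τ}`, `τ = 2^kτ0 ≤ 2Δ` (at most `C Lq N` values of `k`, as `τ0√N ≥ 1`, `Δ√N ≤ N`).  For `x ∈ A_τ`: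
`V²τ ≤ V²|W∩[x-Δ,x+Δ]| ≤ ∫_{|h|≤Δ}|S(x+h)|²`; each half of `[y-Δ,y+Δ]` meeting `A_τ` has `|W ∩ half| ≤ 2τ`.  Let `C1` be the constant of StVH, `M' = (V²τ/(C1N))² = (√Nτ/(C1η))² ≥ 1`,
`M'' = min(M,M')`: cover `[0,M√N]` by `≤ 1 + M/M''` windows of length `M''√N`, `1 + M/M'' ≤ 2 + C1²Mη²/(Nτ²)`, StVH in each.  (`x ↦ |W∩[x-Δ,x+Δ]|` is continuous.) -/
def StBd : Prop := ∃ C : ℝ, 1 ≤ C ∧ ∀ (X N M V Δ τ0 η : ℝ) (a : ℕ → ℂ) (W : Set ℝ), 1 ≤ N → 0 < X →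
  C * N ≤ X ^ 2 → 1 ≤ M → 0 < V → η = N * Real.sqrt N / V ^ 2 → 1 ≤ Δ * Real.sqrt N → Δ ≤ Real.sqrt N / 64 →
  0 < τ0 → 1 ≤ Real.sqrt N * τ0 → C * η ≤ Real.sqrt N * τ0 → (∀ n, ‖a n‖ ≤ 1) → MeasurableSet W →
  W ⊆ Icc 0 (M * Real.sqrt N) → (∀ x ∈ W, V ≤ ‖SS X N a x‖) →
  MeasurableSet {x | x ∈ W ∧ τ0 < Rr (W ∩ Icc (x - Δ) (x + Δ))} ∧
  Rr {x | x ∈ W ∧ τ0 < Rr (W ∩ Icc (x - Δ) (x + Δ))} ≤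
    C * Lq N * ((1 + M * η ^ 2 / (N * τ0 ^ 2)) * (η + η ^ 3 * Δ ^ 2 / τ0 ^ 2))

/-! ### Block L: the large value theorem -/

/-- ITEM En (the energy of a set with small local mass; uses StUL).  `Δ = 2·2^i/√N ≤ 16M√N`; `1[|u| ≤ Δ/2] ≤ (2/Δ)(Δ-|u|)_+`, so `ED W (2^i/√N) ≤ (2/Δ)GG W Δ`.  First claim: StUL with the trivial
`τ = Δ`: `(√N/2^i)(2/Δ)C(N R³Δ²/V² + Lq²N³R Δ²/V⁴) = 4C(N R³/V² + Lq²N³R/V⁴)`.  Second claim: StUL with `τ = K√(2^i)/√N`: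
`√(2^i)(√N/2^i)·2C(N R³Δ/V² + Lq²N³τR/V⁴) = 2C(2√(2^i)N R³/V² + Lq²K N³R/V⁴)`, `√(2^i) ≤ √C0·√M N/X`. -/
def StEn : Prop := ∀ C0 : ℝ, 1 ≤ C0 → ∃ C : ℝ, 1 ≤ C ∧ ∀ (X N M V K : ℝ) (a : ℕ → ℂ) (W : Set ℝ), 1 ≤ N →
  0 < X → 1 ≤ M → C * (M * N) ≤ X ^ 2 → M ^ 3 ≤ N → 0 < V → 1 ≤ K → (∀ n, ‖a n‖ ≤ 1) →
  MeasurableSet W → W ⊆ Icc 0 (M * Real.sqrt N) → (∀ x ∈ W, V ≤ ‖SS X N a x‖) →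
  (∀ i : ℕ, (2 : ℝ) ^ i ≤ C0 * (M * N ^ 2 / X ^ 2) → ∀ y : ℝ,
    Rr (W ∩ Icc y (y + 2 * 2 ^ i / Real.sqrt N)) ≤ K * Real.sqrt (2 ^ i) / Real.sqrt N) →
  ∀ i : ℕ, (2 : ℝ) ^ i ≤ 8 * (M * N) →
    Real.sqrt N / 2 ^ i * ED W (2 ^ i / Real.sqrt N) ≤
      C * (N * Rr W ^ 3 * (1 + Real.sqrt M * N / X) / V ^ 2 + Lq N ^ 2 * K * N ^ 3 * Rr W / V ^ 4) ∧
    ((2 : ℝ) ^ i ≤ C0 * (M * N ^ 2 / X ^ 2) →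
      Real.sqrt (2 ^ i) * (Real.sqrt N / 2 ^ i * ED W (2 ^ i / Real.sqrt N)) ≤
      C * (N * Rr W ^ 3 * (1 + Real.sqrt M * N / X) / V ^ 2 + Lq N ^ 2 * K * N ^ 3 * Rr W / V ^ 4))

/-- ITEM Gs (a subset with small local mass; uses StBd).  For each `i` with `2^i ≤ C0 MN²/X²` (so `2^i ≤ N/256`; at most `2 Lq N` values of `i`) let `Δ = 2·2^i/√N`, `τ0 = K√(2^i)/√N`,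
`Bad_i = {x ∈ W : τ0 < |W∩[x-Δ,x+Δ]|}`.  `Bad_i` is empty if `2Δ ≤ τ0`, i.e. if `16·2^i ≤ K²`.  Otherwise StBd: `|Bad_i| ≤ C Lq (1 + Mη²/(K²2^i))(η + 4η³2^i/K²)
≤ C Lq (η + 4C0η³MN²/(X²K²) + 16Mη³/K⁴ + 4Mη⁵/K⁴)`.  The sum over `i` is `≤ B/2`.  Let `G = W ∖ ⋃Bad_i`, `|G| ≥ B/2`; `W' = G ∩ (-∞, y]` with `|W'| = B/2` (continuity).  If
`x ∈ W' ∩ [y, y+Δ]` then `W'∩[y,y+Δ] ⊆ W∩[x-Δ,x+Δ]`. -/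
def StGs : Prop := ∀ C0 : ℝ, 1 ≤ C0 → ∃ C : ℝ, 1 ≤ C ∧ ∀ (X N M V K B η : ℝ) (a : ℕ → ℂ) (W : Set ℝ), 1 ≤ N →
  0 < X → 1 ≤ M → C * (M * N) ≤ X ^ 2 → 0 < V → η = N * Real.sqrt N / V ^ 2 → 1 ≤ K → C * η ≤ K → 0 < B →
  C * Lq N ^ 2 * η ≤ B →
  C * Lq N ^ 2 * (M * (η ^ 3 * (N / X) ^ 2 / K ^ 2 + (η ^ 3 + η ^ 5) / K ^ 4)) ≤ B → (∀ n, ‖a n‖ ≤ 1) →
  MeasurableSet W → W ⊆ Icc 0 (M * Real.sqrt N) → (∀ x ∈ W, V ≤ ‖SS X N a x‖) → B ≤ Rr W →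
  ∃ W' : Set ℝ, MeasurableSet W' ∧ W' ⊆ W ∧ Rr W' = B / 2 ∧
    ∀ i : ℕ, (2 : ℝ) ^ i ≤ C0 * (M * N ^ 2 / X ^ 2) → ∀ y : ℝ,
      Rr (W' ∩ Icc y (y + 2 * 2 ^ i / Real.sqrt N)) ≤ K * Real.sqrt (2 ^ i) / Real.sqrt N

/-- ITEM L2 (THE LARGE VALUE THEOREM; uses StD2, StEn, StGs).  `C0` = the constant of StD2.  Suppose `Rr W ≥ B`; `W'` from StGs, `R = B/2`, `Es` from StEn.  StD2: either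
`V²R² ≤ 2C N√N R`, i.e. `B ≤ 4Cη`, contradiction; or `V⁸R⁵ ≤ C'N⁶M³Lq Es`, so (`N^{7}/V^{10} = η⁵/√N`, `N⁹/V^{12} = η⁶`, `V ≠ 0`) either
`R² ≤ C''Lq η⁵M³(1+√M N/X)/√N` or `R⁴ ≤ C''Lq³η⁶M³K`: contradiction (`Lq ≥ 1`). -/
def StL2 : Prop := ∃ C : ℝ, 1 ≤ C ∧ ∀ (X N M V K B η : ℝ) (a : ℕ → ℂ) (W : Set ℝ), 1 ≤ N → 0 < X → 1 ≤ M →
  C * (M * N) ≤ X ^ 2 → M ^ 3 ≤ N → 0 < V → η = N * Real.sqrt N / V ^ 2 → C ≤ V ^ 2 → 1 ≤ K → C * η ≤ K →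
  0 < B → C * Lq N ^ 3 * η ≤ B → C * Lq N ^ 3 * (η ^ 6 * M ^ 3 * K) ≤ B ^ 4 →
  C * Lq N ^ 3 * (η ^ 5 * M ^ 3 * (1 + Real.sqrt M * N / X)) ≤ Real.sqrt N * B ^ 2 →
  C * Lq N ^ 3 * (M * (η ^ 3 * (N / X) ^ 2 / K ^ 2 + (η ^ 3 + η ^ 5) / K ^ 4)) ≤ B → (∀ n, ‖a n‖ ≤ 1) →
  MeasurableSet W → W ⊆ Icc 0 (M * Real.sqrt N) → (∀ x ∈ W, V ≤ ‖SS X N a x‖) → Rr W < B

/-! ### Block F: application to the dual sum -/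

/-- ITEM Lx (second order expansion; compare `UB/I_Ln.lean`).  `Φ(ξ) = FF n (ξ²)`: `Φ' = vv ξ n`, `Φ'' = 4h(z)`, `z = √n/(2ξ)`, `h(z) = arsinh z - z/√(1+z²)`, `h' = z²(1+z²)^{-3/2}`, so
`|h(z) - z³/3| ≤ (3/10)z⁵`, i.e. `|Φ''(ξ) - n√n/(6ξ³)| ≤ n²√n/(26ξ⁵)`.  `∫_0^x (x-t)/(X+t)³ dt = x²/(2X²(X+x))`. -/
def StLx : Prop := ∀ X x n : ℝ, 0 < X → 0 ≤ x → 0 < n →
  |FF n ((X + x) ^ 2) - FF n (X ^ 2) - x * vv X n - n * Real.sqrt n * (x ^ 2 / (12 * X ^ 2 * (X + x)))| ≤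
    x ^ 2 * (n ^ 2 * Real.sqrt n) / X ^ 5

/-- ITEM Fx (a block on a window is a combination of `J` sums `SS`; uses UB.StAM, StLx; compare `UB/I_Fw.lean`).  `q = √√(NT)`, `r(x) = x²/(12X²(X+x))`,
`a'_0,n = a_n e(FF n (X²)) α_n(X²) q/C` as in `UB/I_Fw.lean`.  Replace `α_n((X+x)²)` by `α_n(X²)` (error `C q^{-1}x/X` per term), the phase by `FF n (X²) + x v_n + n√n r(x)` (StLx: error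
`C x²N²√N/X⁵` per term), and `e(n√n r) = ∑_{j<J}(2πi n√n r)^j/j! + O((2πn√n r)^J)` (`|2πn√n r| ≤ 2π·(2N)^{3/2}x²/(12X³) ≤ 2` if `x²N√N ≤ X³`).  With `a' j n = a'_0,n (n/2N)^{3j/2}` for `N < n ≤ 2N` (`0`
otherwise), `g j x = (2πi(2N)^{3/2}r(x))^j/j!`. -/
def StFx : Prop := ∀ φ Θ : ℝ → ℝ, IsPhi φ Θ → ∀ (C' : ℝ) (J : ℕ), 1 ≤ C' → 1 ≤ J → ∃ C : ℝ, 2 ≤ C ∧
  ∀ (T G N X : ℝ) (a : ℕ → ℂ), C ≤ T → C ≤ G → G ^ 2 ≤ T → 1 ≤ N → 2 * N ≤ C' * T / G ^ 2 → (∀ n, ‖a n‖ ≤ 1) →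
  0 < X → X ^ 2 ∈ sI T →
  ∃ (a' : ℕ → ℕ → ℂ) (g : ℕ → ℝ → ℂ), (∀ j n, ‖a' j n‖ ≤ 1) ∧
    (∀ j x, 0 ≤ x → x ^ 2 * (N * Real.sqrt N) ≤ X ^ 3 → ‖g j x‖ ≤ C) ∧
    ∀ x : ℝ, 0 ≤ x → x ^ 2 * (N * Real.sqrt N) ≤ X ^ 3 → (X + x) ^ 2 ∈ sI T →
      ‖SJ Θ T G a N ((X + x) ^ 2) - (C / Real.sqrt (Real.sqrt (N * T)) : ℝ) *
        ∑ j ∈ Finset.range J, g j x * SS X N (a' j) x‖ ≤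
      C * (N / Real.sqrt (Real.sqrt (N * T))) * ((x ^ 2 * (N * Real.sqrt N) / X ^ 3) ^ J + x / X +
        x ^ 2 * (N ^ 2 * Real.sqrt N) / X ^ 5)

/-- ITEM Pr (the parameters; pure real analysis).  `ρ = N/√T ∈ [T^{-1/42}, T^{1/42}]`, `P = max(1, 1/ρ)`, `δ = ε/2`, `M = T^{3/28-δ}ρ^{-1/2}P`, `K = T^{1/84+δ}ρ^{3/2}P`, `B = T^{δ-1/42}Mρ²/u`.
`√N = ρ^{1/2}T^{1/4}`, `N/√√(NT) = ρ^{3/4}T^{1/8}`, `η = ρ/(c0²u²)`, `X ≍ √T`, `Lq N ≤ C log T ≤ T^{δ/100}`.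
Last claim: `(T/(M√N))Bu = T^{3/4-1/42+δ}ρ^{3/2}`.
`M³ ≤ N`: `T^{-5/28-3δ}ρ^{-5/2}P³ ≤ 1` (for `ρ ≤ 1`: `ρ^{-11/2} ≤ T^{11/84}`, `11/84 < 15/84`).  `M√N ≤ √T`, `C0 MN ≤ X²`, `C0 ≤ V²`: clear.
`K ≥ 1` and `C0η ≤ K`: `ρ^{1/2} ≥ T^{-1/84}` for `ρ ≤ 1`; `K/ρ = T^{1/84+δ}ρ^{1/2}P ≥ T^δ`.
`C0Lq³η ≤ B`: `B/η ≥ c T^{δ-1/42}Mρ = cT^{7/84}ρ^{1/2}P`.
`C0Lq³η⁶M³K ≤ B⁴`: `B⁴/(η⁶M³K) ≥ c T^{4δ-4/42}Mρ²/K = c T^{4δ-8/84+9/84-δ-1/84-δ} = c T^{2δ}`.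
`C0Lq³η⁵M³(1+√M N/X) ≤ √N B²`: `√N B²/(η⁵M³) ≥ c T^{1/4+2δ-1/21}/(Mρ^{1/2}) = cT^{17/84+2δ}/(Mρ^{1/2})`; `Mρ^{1/2} ≤ T^{11/84}`; `(Mρ)^{3/2} = T^{(27/2)/84-3δ/2}ρ^{3/4}P^{3/2} ≤ T^{15/84}`.
Last condition on `B`: `B/(Mη³(N/X)²K^{-2}) ≥ c T^{δ-1/42}K²/ρ³ = cT^{3δ}P²`; `B/(Mη³K^{-4}) ≥ c T^{δ-1/42}K⁴/ρ = cT^{5δ+1/42}ρ⁵P⁴ ≥ cT^{5δ}`; `B/(Mη⁵K^{-4}) ≥ cT^{δ-1/42}K⁴/ρ³ = cT^{5δ+1/42}ρ³P⁴ ≥ cT^{5δ}`.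
Errors of the linearisation, `x ≤ M√N`: `Mρ^{5/4}T^{-1/8} = T^{-1/56-δ}ρ^{3/4}P ≤ T^{-δ}` (`ρ^{3/4} ≤ T^{1/56}`), so `x²N√N/X³ ≤ C(Mρ^{5/4}T^{-1/8})² ≤ CT^{-ε}` and its `J`-th power is `≤ C^JT^{-1}`;
`(N/√√(NT))x/X ≤ CMρ^{5/4}T^{-1/8} ≤ CT^{-δ}`; `(N/√√(NT))x²N²√N/X⁵ ≤ CM²ρ^{17/4}T^{-5/8}`. -/
def StPr : Prop := ∀ (c0 C0 ε : ℝ) (J : ℕ), 0 < c0 → 1 ≤ C0 → 0 < ε → ε < 1 / 1000 → 1 / ε ≤ J → ∃ C : ℝ, 2 ≤ C ∧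
  ∀ T N u : ℝ, C ≤ T → T ^ (1 / 2 - 1 / 42 : ℝ) ≤ N → N ≤ T ^ (1 / 2 + 1 / 42 : ℝ) → 1 ≤ u →
  ∃ M K B : ℝ, 1 ≤ M ∧ M ^ 3 ≤ N ∧ M * Real.sqrt N ≤ Real.sqrt T ∧ 1 ≤ K ∧ 0 < B ∧
  T / (M * Real.sqrt N) * B * u ≤ T ^ (3 / 4 - 1 / 42 + ε) * (N / Real.sqrt T) ^ (3 / 2 : ℝ) ∧
  ∀ V η X : ℝ, V = c0 * u * Real.sqrt (Real.sqrt (N * T)) → η = N * Real.sqrt N / V ^ 2 → 0 < X → X ^ 2 ∈ sI T →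
  C0 * (M * N) ≤ X ^ 2 ∧ C0 ≤ V ^ 2 ∧ C0 * η ≤ K ∧ C0 * Lq N ^ 3 * η ≤ B ∧
  C0 * Lq N ^ 3 * (η ^ 6 * M ^ 3 * K) ≤ B ^ 4 ∧
  C0 * Lq N ^ 3 * (η ^ 5 * M ^ 3 * (1 + Real.sqrt M * N / X)) ≤ Real.sqrt N * B ^ 2 ∧
  C0 * Lq N ^ 3 * (M * (η ^ 3 * (N / X) ^ 2 / K ^ 2 + (η ^ 3 + η ^ 5) / K ^ 4)) ≤ B ∧
  ∀ x : ℝ, 0 ≤ x → x ≤ M * Real.sqrt N → x ^ 2 * (N * Real.sqrt N) ≤ X ^ 3 ∧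
    C0 * (N / Real.sqrt (Real.sqrt (N * T))) * ((x ^ 2 * (N * Real.sqrt N) / X ^ 3) ^ J + x / X +
        x ^ 2 * (N ^ 2 * Real.sqrt N) / X ^ 5) ≤ 1

/-- ITEM Fb2 (the new range; uses StFx, StL2, StPr, UB.StWc, UB.StMb; compare `UB/I_Fb.lean`).  `J = ⌈1/ε⌉`, `C1` = constant of StFx, `c0 = 1/(2C1²J)`, `C0` = `2C1 +` constant of StL2; `M, K, B` from StPr, `L = M√N`.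
On a window `[X, X+L]`: if `(X+x)² ∈ BS` then `(C1/√√(NT))∑_{j<J}‖g_j‖‖SS(a'_j)(x)‖ ≥ u - 1/2 ≥ u/2`, so `‖SS(a'_j)(x)‖ ≥ V = c0 u√√(NT)` for some `j`: the window part of `BS` is contained in
`⋃_{j<J}{x ∈ [0,L] : V ≤ ‖SS(a'_j)(x)‖}`, of measure `≤ J·B` (StL2).  UB.StWc: `Rr BS ≤ C(T/(M√N))JB`. -/
def StFb2 : Prop := ∀ φ Θ : ℝ → ℝ, IsPhi φ Θ → ∀ C' ε : ℝ, 1 ≤ C' → 0 < ε → ε < 1 / 1000 → ∃ C : ℝ, 2 ≤ C ∧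
  ∀ (T G N u : ℝ) (a : ℕ → ℂ), C ≤ T → C ≤ G → G ^ 2 ≤ T → 1 ≤ N → 2 * N ≤ C' * T / G ^ 2 →
  T ^ (1 / 2 - 1 / 42 : ℝ) ≤ N → N ≤ T ^ (1 / 2 + 1 / 42 : ℝ) → (∀ n, ‖a n‖ ≤ 1) → 1 ≤ u →
  u * Rr (BS Θ T G a N u) ≤ C * T ^ (3 / 4 - 1 / 42 + ε) * (N / Real.sqrt T) ^ (3 / 2 : ℝ)

/-- ITEM JB2 (bound for `J(V)`; uses UB.StPhi, UB.StMV, UB.StMb, UB.StFc, StFb2, UB.StFJ; compare `UB/I_JB.lean`).  `ε' = ε/1000`; UB.StFJ; `N0 = C'T/G² = C'T^{1+ε'/2}V^{-4}`, `ρ0 = N0/√T ≥ T^{-1/42}`.  We need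
`u Rr(BS) ≤ β := C T^{3/4-1/42+ε/2}ρ0^{3/2}` for all `N = 2^j`, `2N ≤ N0`; `ρ = N/√T ≤ ρ0`.  `N ≤ T^{1/2-1/42}`: UB.StFc: `T^{3/4+10ε'}ρ^{5/2} ≤ T^{3/4+10ε'-1/42}ρ0^{3/2}`.  `N ≤ T^{1/2+1/42}`: StFb2.  `N ≥ T^{1/2+1/42}`:
UB.StMV (Chebyshev, `u Rr ≤ u²Rr ≤ C√(NT)log T = CT^{3/4}ρ^{1/2}log T ≤ CT^{3/4-1/42}ρ^{3/2}log T`).  `T^{3/4-1/42}ρ0^{3/2} = C T^{3/2-1/42+3ε'/4}V^{-6}`. -/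
def StJB2 : Prop := ∀ ε : ℝ, 0 < ε → ε < 1 / 100 → ∃ C : ℝ, 2 ≤ C ∧ ∀ T V : ℝ, C ≤ T →
  T ^ (1 / 8 - 1 / 168 : ℝ) ≤ V → V ≤ T ^ (1 / 8 + 1 / 168 : ℝ) →
  JV T V ≤ C * T ^ (3 / 2 - 1 / 42 + ε) / V ^ 6

/-- ITEM MA2 (all moments between 4 and 12; uses UB.StJB, StJB2, UB.StSup, EM.StZ, EM.StPc; adapt `UB/I_MA.lean`).  `κ = 1/168`.  `V ≤ T^{1/8-κ}` and `V ≥ T^{1/8+κ}` as in UB.StMA; in between, `V = T^{1/8+y}`, `|y| ≤ κ`: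
`V^{A-2}T^{3/2-1/42+ε}V^{-6} = T^{1+(A-4)/8+(A-8)y-4κ+ε} ≤ T^{1+(A-4)/8-min(A-4,12-A)κ+ε}` (`|A-8|κ - 4κ = -min(A-4,12-A)κ`). -/
def StMA2 : Prop := ∀ A ε : ℝ, 4 ≤ A → A ≤ 12 → 0 < ε → ∃ C : ℝ, ∀ T : ℝ, 1 ≤ T →
  ∫ t in (0 : ℝ)..T, ‖riemannZeta (1 / 2 + t * Complex.I)‖ ^ A ≤
    C * T ^ (1 + (A - 4) / 8 - min (A - 4) (12 - A) / 168 + ε)

/-- ITEM Fin2 (THE RESULT; uses StMA2, UT.StMU; adapt `UT/I_Fin.lean`). -/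
def StFin2 : Prop := ∃ δ : ℝ, 0 < δ ∧ ∀ A ε : ℝ, 4 ≤ A → A ≤ 12 + δ → 0 < ε → ∃ C : ℝ, ∀ T : ℝ, 1 ≤ T →
  ∫ t in (0 : ℝ)..T, ‖riemannZeta (1 / 2 + t * Complex.I)‖ ^ A ≤
    C * T ^ (1 + (A - 4) / 8 - max (min (A - 4) (12 - A) / 168) (δ * (A - 4)) + ε)

end Pool.Agent.Work.MP_56b8f5_nt.UV
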