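import Mathlib
import Pool.Agent.Work.MP_56b8f5_nt.UV.Stmts

open MeasureTheory Set Filter Topology

noncomputable section

namespace Pool.Agent.Work.MP_56b8f5_nt.UV

open Pool.Agent.Work.MP_56b8f5_nt.UB

namespace En_aux

theorem fin {W : Set ℝ} {L : ℝ} (hW : W ⊆ Icc 0 L) : volume W < ⊤ :=
  lt_of_le_of_lt (measure_mono hW) (by rw [Real.volume_Icc]; exact ENNReal.ofReal_lt_top)

theorem meas_conv {W : Set ℝ} {g : ℝ → ℝ} (hg : Measurable g) :
    Measurable (fun s => ∫ y in W, g (s - y)) := by
  have h : StronglyMeasurable (Function.uncurry (fun s y : ℝ => g (s - y))) :=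
    (hg.comp (measurable_fst.sub measurable_snd)).stronglyMeasurable
  exact (StronglyMeasurable.integral_prod_right h).measurable

theorem meas_conv' {W : Set ℝ} {g : ℝ → ℝ} (hg : Measurable g) :
    Measurable (fun s => ∫ y in W, g (s + y)) := by
  have h : StronglyMeasurable (Function.uncurry (fun s y : ℝ => g (s + y))) :=
    (hg.comp (measurable_fst.add measurable_snd)).stronglyMeasurable
  exact (StronglyMeasurable.integral_prod_right h).measurable

theorem intg {W : Set ℝ} (hf : volume W < ⊤) {g : ℝ → ℝ} (hg : Measurable g) {B : ℝ}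
    (hB : ∀ u, |g u| ≤ B) : IntegrableOn g W := by
  have : IsFiniteMeasure (volume.restrict W) := ⟨by simpa using hf⟩
  exact Integrable.of_bound hg.aestronglyMeasurable B (ae_of_all _ (fun u => by
    simpa [Real.norm_eq_abs] using hB u))

theorem bnd {W : Set ℝ} (hf : volume W < ⊤) {g : ℝ → ℝ} {B : ℝ}
    (hB : ∀ u, |g u| ≤ B) : |∫ u in W, g u| ≤ B * (volume W).toReal := by
  have := norm_setIntegral_le_of_norm_le_const (μ := volume) (s := W) (f := g) (C := B) hf
    (fun u _ => by simpa [Real.norm_eq_abs] using hB u)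
  simpa [Real.norm_eq_abs, Measure.real] using this

theorem mono4 {W : Set ℝ} (hf : volume W < ⊤) {f g : ℝ → ℝ} (hfm : Measurable f) (hgm : Measurable g)
    {B : ℝ} (hfB : ∀ u, |f u| ≤ B) (hgB : ∀ u, |g u| ≤ B) (h : ∀ u, f u ≤ g u) :
    ∫ x1 in W, ∫ x2 in W, ∫ x3 in W, ∫ x4 in W, f (x1 + x2 - x3 - x4) ≤
      ∫ x1 in W, ∫ x2 in W, ∫ x3 in W, ∫ x4 in W, g (x1 + x2 - x3 - x4) := by
  -- step 1
  have m1f : Measurable (fun s => ∫ y in W, f (s - y)) := meas_conv hfm
  have m1g : Measurable (fun s => ∫ y in W, g (s - y)) := meas_conv hgm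
  have b1f : ∀ s, |∫ y in W, f (s - y)| ≤ B * (volume W).toReal := fun s => bnd hf (fun u => hfB _)
  have b1g : ∀ s, |∫ y in W, g (s - y)| ≤ B * (volume W).toReal := fun s => bnd hf (fun u => hgB _)
  have i1 : ∀ s, ∫ y in W, f (s - y) ≤ ∫ y in W, g (s - y) := fun s =>
    integral_mono (intg hf (hfm.comp (measurable_const.sub measurable_id)) (fun u => hfB _))
      (intg hf (hgm.comp (measurable_const.sub measurable_id)) (fun u => hgB _)) (fun u => h _)
  -- step 2
  have m2f : Measurable (fun s => ∫ z in W, ∫ y in W, f (s - z - y)) := meas_conv m1f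
  have m2g : Measurable (fun s => ∫ z in W, ∫ y in W, g (s - z - y)) := meas_conv m1g
  have b2f : ∀ s, |∫ z in W, ∫ y in W, f (s - z - y)| ≤ B * (volume W).toReal * (volume W).toReal :=
    fun s => bnd hf (fun u => b1f _)
  have b2g : ∀ s, |∫ z in W, ∫ y in W, g (s - z - y)| ≤ B * (volume W).toReal * (volume W).toReal :=
    fun s => bnd hf (fun u => b1g _)
  have i2 : ∀ s, ∫ z in W, ∫ y in W, f (s - z - y) ≤ ∫ z in W, ∫ y in W, g (s - z - y) := fun s =>
    integral_mono (intg hf (m1f.comp (measurable_const.sub measurable_id)) (fun u => b1f _))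
      (intg hf (m1g.comp (measurable_const.sub measurable_id)) (fun u => b1g _)) (fun u => i1 _)
  -- step 3
  have m3f : Measurable (fun s => ∫ w in W, ∫ z in W, ∫ y in W, f (s + w - z - y)) := meas_conv' m2f
  have m3g : Measurable (fun s => ∫ w in W, ∫ z in W, ∫ y in W, g (s + w - z - y)) := meas_conv' m2g
  have b3f : ∀ s, |∫ w in W, ∫ z in W, ∫ y in W, f (s + w - z - y)| ≤
      B * (volume W).toReal * (volume W).toReal * (volume W).toReal :=
    fun s => bnd hf (fun u => b2f _)
  have b3g : ∀ s, |∫ w in W, ∫ z in W, ∫ y in W, g (s + w - z - y)| ≤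
      B * (volume W).toReal * (volume W).toReal * (volume W).toReal :=
    fun s => bnd hf (fun u => b2g _)
  have i3 : ∀ s, ∫ w in W, ∫ z in W, ∫ y in W, f (s + w - z - y) ≤
      ∫ w in W, ∫ z in W, ∫ y in W, g (s + w - z - y) := fun s =>
    integral_mono (intg hf (m2f.comp (measurable_const.add measurable_id)) (fun u => b2f _))
      (intg hf (m2g.comp (measurable_const.add measurable_id)) (fun u => b2g _)) (fun u => i2 _)
  exact integral_mono (intg hf m3f b3f) (intg hf m3g b3g) (fun u => i3 _)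

theorem ED_le {W : Set ℝ} (hf : volume W < ⊤) {t : ℝ} (ht : 0 < t) :
    ED W t ≤ 1 / t * GG W (2 * t) := by
  have h0 : 1 / t * GG W (2 * t) = ∫ x1 in W, ∫ x2 in W, ∫ x3 in W, ∫ x4 in W,
      (fun u : ℝ => 1 / t * max (2 * t - |u|) 0) (x1 + x2 - x3 - x4) := by
    simp only [GG, ← integral_const_mul]
  rw [h0]
  have := mono4 (W := W) hf (f := fun u : ℝ => if |u| ≤ t then (1 : ℝ) else 0)
    (g := fun u : ℝ => 1 / t * max (2 * t - |u|) 0) (B := 2)
    (Measurable.ite (measurableSet_le (by fun_prop) measurable_const) measurable_const measurable_const)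
    (by fun_prop)
    (fun u => by
      by_cases h : |u| ≤ t
      · simp [h]
      · simp [h])
    (fun u => by
      have h1 : 0 ≤ max (2 * t - |u|) 0 := le_max_right _ _
      have h2 : max (2 * t - |u|) 0 ≤ 2 * t := by
        apply max_le
        · have := abs_nonneg u; linarith
        · linarith
      rw [abs_of_nonneg (mul_nonneg (by positivity) h1)]
      calc 1 / t * max (2 * t - |u|) 0 ≤ 1 / t * (2 * t) :=
            mul_le_mul_of_nonneg_left h2 (by positivity)
        _ = 2 := by field_simp)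
    (fun u => by
      by_cases h : |u| ≤ t
      · simp only [h, if_true]
        have h2 : t ≤ max (2 * t - |u|) 0 := le_max_of_le_left (by linarith)
        calc (1 : ℝ) = 1 / t * t := by field_simp
          _ ≤ 1 / t * max (2 * t - |u|) 0 := mul_le_mul_of_nonneg_left h2 (by positivity)
      · simp only [h, if_false]
        exact mul_nonneg (by positivity) (le_max_right _ _))
  exact this

end En_aux

open En_aux in
theorem iEn (hUL : StUL) : StEn := by
  intro C0 hC0
  obtain ⟨C, hC, H⟩ := hUL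
  refine ⟨4 * C * C0, by nlinarith [mul_le_mul hC hC0 zero_le_one (by linarith : (0:ℝ) ≤ C)], ?_⟩
  intro X N M V K a W hN hX hM hMN hM3 hV hK ha hWm hWs hWV hloc i hi
  have hN0 : 0 < N := by linarith
  have hM0 : 0 < M := by linarith
  have hMNp : 0 < M * N := mul_pos hM0 hN0
  have hsN : 0 < Real.sqrt N := Real.sqrt_pos.2 hN0
  have hsN2 : Real.sqrt N * Real.sqrt N = N := Real.mul_self_sqrt hN0.le
  set p : ℝ := (2 : ℝ) ^ i with hp
  have hp0 : 0 < p := by positivity
  set t : ℝ := p / Real.sqrt N with ht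
  have ht0 : 0 < t := div_pos hp0 hsN
  have hfin : volume W < ⊤ := En_aux.fin hWs
  have hCC : C ≤ 4 * C * C0 := by nlinarith
  have hCMN : C * (M * N) ≤ X ^ 2 := le_trans (mul_le_mul_of_nonneg_right hCC hMNp.le) hMN
  have hΔ : 2 * t ≤ 16 * (M * Real.sqrt N) := by
    have : t ≤ 8 * (M * Real.sqrt N) := by
      rw [ht, div_le_iff₀ hsN]
      calc p ≤ 8 * (M * N) := hi
        _ = 8 * (M * Real.sqrt N) * Real.sqrt N := by
            have e : 8 * (M * Real.sqrt N) * Real.sqrt N = 8 * (M * (Real.sqrt N * Real.sqrt N)) := by ring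
            rw [e, hsN2]
    linarith
  have hR0 : 0 ≤ Rr W := by unfold Rr; positivity
  have hED : ED W t ≤ 1 / t * GG W (2 * t) := ED_le hfin ht0
  have hLq0 : 0 ≤ Lq N ^ 2 := sq_nonneg _
  have hMX : 0 ≤ Real.sqrt M * N / X := by positivity
  have hinv : Real.sqrt N / p = 1 / t := by rw [ht]; field_simp
  set A1 : ℝ := N * Rr W ^ 3 / V ^ 2 with hA1
  set A2 : ℝ := Lq N ^ 2 * N ^ 3 * Rr W / V ^ 4 with hA2
  have hA10 : 0 ≤ A1 := by positivity
  have hA20 : 0 ≤ A2 := by positivity
  have hrhs : N * Rr W ^ 3 * (1 + Real.sqrt M * N / X) / V ^ 2 + Lq N ^ 2 * K * N ^ 3 * Rr W / V ^ 4 =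
      A1 * (1 + Real.sqrt M * N / X) + K * A2 := by
    rw [hA1, hA2]; ring
  rw [hrhs, hinv]
  constructor
  · have h1 := H X N M V (2 * t) (2 * t) a W hN hX hM hCMN hM3 hV (by linarith) hΔ (by linarith) ha hWm hWs
      hWV (by
        intro y
        unfold Rr
        have : volume (W ∩ Icc y (y + 2 * t)) ≤ ENNReal.ofReal (2 * t) := by
          refine le_trans (measure_mono inter_subset_right) ?_
          rw [Real.volume_Icc]
          apply le_of_eq; congr 1; ring
        calc (volume (W ∩ Icc y (y + 2 * t))).toReal ≤ (ENNReal.ofReal (2 * t)).toReal :=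
              ENNReal.toReal_mono ENNReal.ofReal_ne_top this
          _ = 2 * t := ENNReal.toReal_ofReal (by linarith))
    have h2 : C * (N * Rr W ^ 3 * (2 * t) ^ 2 / V ^ 2 + Lq N ^ 2 * N ^ 3 * (2 * t) * Rr W * (2 * t) / V ^ 4) =
        t ^ 2 * (4 * C * (A1 + A2)) := by
      rw [hA1, hA2]; ring
    rw [h2] at h1
    have h3 : 1 / t * ED W t ≤ 4 * C * (A1 + A2) := by
      calc 1 / t * ED W t ≤ 1 / t * (1 / t * GG W (2 * t)) :=
            mul_le_mul_of_nonneg_left hED (by positivity)
        _ ≤ 1 / t * (1 / t * (t ^ 2 * (4 * C * (A1 + A2)))) := by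
            apply mul_le_mul_of_nonneg_left _ (by positivity)
            exact mul_le_mul_of_nonneg_left h1 (by positivity)
        _ = 4 * C * (A1 + A2) := by field_simp
    refine le_trans h3 ?_
    have h4 : A1 + A2 ≤ A1 * (1 + Real.sqrt M * N / X) + K * A2 := by
      have : A1 ≤ A1 * (1 + Real.sqrt M * N / X) := by
        have := mul_nonneg hA10 hMX
        linarith [mul_one A1, mul_add A1 1 (Real.sqrt M * N / X)]
      have : A2 ≤ K * A2 := by nlinarith
      linarith
    have h5 : 0 ≤ A1 + A2 := by linarith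
    calc 4 * C * (A1 + A2) ≤ 4 * C * C0 * (A1 + A2) := by
          apply mul_le_mul_of_nonneg_right _ h5
          nlinarith
      _ ≤ 4 * C * C0 * (A1 * (1 + Real.sqrt M * N / X) + K * A2) :=
          mul_le_mul_of_nonneg_left h4 (by positivity)
  · intro hi2
    have hsp : 0 < Real.sqrt p := Real.sqrt_pos.2 hp0
    have hsp2 : Real.sqrt p * Real.sqrt p = p := Real.mul_self_sqrt hp0.le
    have h1 := H X N M V (2 * t) (K * Real.sqrt p / Real.sqrt N) a W hN hX hM hCMN hM3 hV (by linarith) hΔ
      (by positivity) ha hWm hWs hWV (by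
        intro y
        have := hloc i hi2 y
        rw [← hp] at this
        have e : 2 * p / Real.sqrt N = 2 * t := by rw [ht]; ring
        rwa [e] at this)
    have h2 : C * (N * Rr W ^ 3 * (2 * t) ^ 2 / V ^ 2 +
        Lq N ^ 2 * N ^ 3 * (K * Real.sqrt p / Real.sqrt N) * Rr W * (2 * t) / V ^ 4) =
        t ^ 2 * (4 * C * A1 + 2 * C * (K / Real.sqrt p) * A2) := by
      have e1 : (K * Real.sqrt p / Real.sqrt N) * t = t ^ 2 * (K / Real.sqrt p) := by
        rw [ht]
        have : (K * Real.sqrt p / Real.sqrt N) * (p / Real.sqrt N) =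
            K * Real.sqrt p * p / (Real.sqrt N) ^ 2 := by ring
        rw [this]
        have h6 : (p / Real.sqrt N) ^ 2 * (K / Real.sqrt p) = K * Real.sqrt p * p / (Real.sqrt N) ^ 2 := by
          have : p ^ 2 = p * Real.sqrt p * Real.sqrt p := by rw [mul_assoc, hsp2]; ring
          rw [div_pow, this]
          field_simp
        rw [h6]
      have e2 : Lq N ^ 2 * N ^ 3 * (K * Real.sqrt p / Real.sqrt N) * Rr W * (2 * t) / V ^ 4 =
          2 * ((K * Real.sqrt p / Real.sqrt N) * t) * A2 := by rw [hA2]; ring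
      rw [e2, e1, hA1]; ring
    rw [h2] at h1
    have h3 : 1 / t * ED W t ≤ 4 * C * A1 + 2 * C * (K / Real.sqrt p) * A2 := by
      calc 1 / t * ED W t ≤ 1 / t * (1 / t * GG W (2 * t)) :=
            mul_le_mul_of_nonneg_left hED (by positivity)
        _ ≤ 1 / t * (1 / t * (t ^ 2 * (4 * C * A1 + 2 * C * (K / Real.sqrt p) * A2))) := by
            apply mul_le_mul_of_nonneg_left _ (by positivity)
            exact mul_le_mul_of_nonneg_left h1 (by positivity)
        _ = 4 * C * A1 + 2 * C * (K / Real.sqrt p) * A2 := by field_simp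
    have h4 : Real.sqrt p ≤ C0 * (Real.sqrt M * N / X) := by
      have h5 : p ≤ (C0 * (Real.sqrt M * N / X)) ^ 2 := by
        have hsM : Real.sqrt M * Real.sqrt M = M := Real.mul_self_sqrt hM0.le
        have e : (C0 * (Real.sqrt M * N / X)) ^ 2 = C0 * (C0 * (M * N ^ 2 / X ^ 2)) := by
          have : (C0 * (Real.sqrt M * N / X)) ^ 2 = C0 * (C0 * ((Real.sqrt M * Real.sqrt M) * N ^ 2 / X ^ 2)) := by
            ring
          rw [this, hsM]
        rw [e]
        have h7 : 0 ≤ C0 * (M * N ^ 2 / X ^ 2) := by positivity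
        calc p ≤ C0 * (M * N ^ 2 / X ^ 2) := hi2
          _ ≤ C0 * (C0 * (M * N ^ 2 / X ^ 2)) := by nlinarith
      exact (Real.sqrt_le_left (by positivity)).2 h5
    calc Real.sqrt p * (1 / t * ED W t) ≤
          Real.sqrt p * (4 * C * A1 + 2 * C * (K / Real.sqrt p) * A2) :=
          mul_le_mul_of_nonneg_left h3 hsp.le
      _ = 4 * C * A1 * Real.sqrt p + 2 * C * K * A2 := by field_simp
      _ ≤ 4 * C * A1 * (C0 * (Real.sqrt M * N / X)) + 4 * C * C0 * (K * A2) := by
          have h8 : 4 * C * A1 * Real.sqrt p ≤ 4 * C * A1 * (C0 * (Real.sqrt M * N / X)) :=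
            mul_le_mul_of_nonneg_left h4 (by positivity)
          have h9 : 2 * C * K * A2 ≤ 4 * C * C0 * (K * A2) := by
            have hKA : 0 ≤ K * A2 := by positivity
            have : 2 * C ≤ 4 * C * C0 := by nlinarith
            nlinarith [mul_le_mul_of_nonneg_right this hKA]
          linarith
      _ ≤ 4 * C * C0 * (A1 * (1 + Real.sqrt M * N / X) + K * A2) := by
          have : 0 ≤ 4 * C * C0 * A1 := by positivity
          nlinarith

end Pool.Agent.Work.MP_56b8f5_nt.UV
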