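import Pool.Agent.Work.MP_56b8f5_nt.UV.Stmts

/-!
MP_56b8f5_nt, block UV, item Fb2: the new range.  Author: helper37.
-/

open MeasureTheory Set Filter Topology

noncomputable section

namespace Pool.Agent.Work.MP_56b8f5_nt.UV

open Pool.Agent.Work.MP_56b8f5_nt.UB

namespace Fb2_aux

theorem ss_cont (X N : ℝ) (a : ℕ → ℂ) : Continuous (SS X N a) := by
  unfold SS ee
  fun_prop

theorem lq_nonneg {N : ℝ} (hN : 1 ≤ N) : 0 ≤ Lq N := by
  unfold Lq
  exact Real.log_nonneg (by linarith)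

/-- one of the `J` sums is large -/
theorem exists_large {J : ℕ} {C1 c0 Q u : ℝ} (g S : ℕ → ℂ) (z : ℂ) (hC1 : 0 < C1) (hQ : 0 < Q)
    (hJ : 1 ≤ J) (hu : 1 ≤ u) (hc0 : c0 = 1 / (2 * C1 ^ 2 * J)) (hg : ∀ j, ‖g j‖ ≤ C1)
    (hz : u ≤ ‖z‖)
    (h : ‖z - ((C1 / Q : ℝ) : ℂ) * ∑ j ∈ Finset.range J, g j * S j‖ ≤ 1 / 2) :
    ∃ j ∈ Finset.range J, c0 * u * Q ≤ ‖S j‖ := by
  by_contra hcon
  push Not at hcon
  have hJR : (0 : ℝ) < J := by exact_mod_cast hJ
  have h1 : ‖z‖ - ‖((C1 / Q : ℝ) : ℂ) * ∑ j ∈ Finset.range J, g j * S j‖ ≤ 1 / 2 :=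
    le_trans (norm_sub_norm_le _ _) h
  rw [norm_mul, Complex.norm_real, Real.norm_of_nonneg (by positivity)] at h1
  have h2 : ‖∑ j ∈ Finset.range J, g j * S j‖ < J * (C1 * (c0 * u * Q)) := by
    calc ‖∑ j ∈ Finset.range J, g j * S j‖ ≤ ∑ j ∈ Finset.range J, ‖g j * S j‖ :=
          norm_sum_le _ _
      _ < ∑ _j ∈ Finset.range J, C1 * (c0 * u * Q) := by
          refine Finset.sum_lt_sum_of_nonempty (Finset.nonempty_range_iff.2 (by omega)) ?_
          intro j hj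
          rw [norm_mul]
          calc ‖g j‖ * ‖S j‖ ≤ C1 * ‖S j‖ := by gcongr; exact hg j
            _ < C1 * (c0 * u * Q) := mul_lt_mul_of_pos_left (hcon j hj) hC1
      _ = J * (C1 * (c0 * u * Q)) := by
          rw [Finset.sum_const, Finset.card_range, nsmul_eq_mul]
  have h3 : C1 / Q * ‖∑ j ∈ Finset.range J, g j * S j‖ < C1 / Q * (J * (C1 * (c0 * u * Q))) :=
    mul_lt_mul_of_pos_left h2 (by positivity)
  have h4 : C1 / Q * (J * (C1 * (c0 * u * Q))) = u / 2 := by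
    rw [hc0]
    field_simp
  linarith

/-- measure of a set covered by `J` sets of measure `≤ B` inside a bounded interval -/
theorem rr_cover {J : ℕ} {B L : ℝ} (W : Set ℝ) (Wj : ℕ → Set ℝ)
    (hsub : W ⊆ ⋃ j ∈ Finset.range J, Wj j) (hWj : ∀ j, Wj j ⊆ Icc 0 L)
    (hB : ∀ j ∈ Finset.range J, Rr (Wj j) ≤ B) : Rr W ≤ J * B := by
  have hfin : volume (⋃ j ∈ Finset.range J, Wj j) ≠ ⊤ := by
    refine ne_top_of_le_ne_top (b := volume (Icc (0 : ℝ) L)) ?_ (measure_mono ?_)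
    · rw [Real.volume_Icc]
      exact ENNReal.ofReal_ne_top
    · exact iUnion₂_subset fun j _ => hWj j
  calc Rr W ≤ volume.real (⋃ j ∈ Finset.range J, Wj j) := measureReal_mono hsub hfin
    _ ≤ ∑ j ∈ Finset.range J, volume.real (Wj j) := measureReal_biUnion_finset_le _ _
    _ ≤ ∑ _j ∈ Finset.range J, B := Finset.sum_le_sum hB
    _ = J * B := by rw [Finset.sum_const, Finset.card_range, nsmul_eq_mul]

end Fb2_aux

/-- Item Fb2. -/
theorem iFb2 (hFx : StFx) (hL2 : StL2) (hPr : StPr) (hWc : UB.StWc) (hMb : UB.StMb) : StFb2 := by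
  intro φ Θ hφ C' ε hC' hε hε1
  obtain ⟨J, hJ⟩ : ∃ J : ℕ, J = ⌈1 / ε⌉₊ := ⟨_, rfl⟩
  have hJε : 1 / ε ≤ J := by rw [hJ]; exact Nat.le_ceil _
  have hJ1 : 1 ≤ J := by
    rw [hJ]
    exact Nat.ceil_pos.2 (by positivity)
  have hJR : (1 : ℝ) ≤ J := by exact_mod_cast hJ1
  obtain ⟨C1, hC1, hF⟩ := hFx φ Θ hφ C' J hC' hJ1
  obtain ⟨CL, hCL, hL⟩ := hL2
  obtain ⟨CW, hCW, hW⟩ := hWc
  obtain ⟨CM, hCM, hMb'⟩ := hMb φ Θ hφ C' hC'
  obtain ⟨c0, hc0⟩ : ∃ c0 : ℝ, c0 = 1 / (2 * C1 ^ 2 * J) := ⟨_, rfl⟩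
  have hc0p : 0 < c0 := by rw [hc0]; positivity
  obtain ⟨C0, hC0⟩ : ∃ C0 : ℝ, C0 = 2 * C1 + CL := ⟨_, rfl⟩
  have hC01 : 1 ≤ C0 := by rw [hC0]; linarith
  have hC0L : CL ≤ C0 := by rw [hC0]; linarith
  have hC0F : 2 * C1 ≤ C0 := by rw [hC0]; linarith
  obtain ⟨CP, hCP, hP⟩ := hPr c0 C0 ε J hc0p hC01 hε hε1 hJε
  refine ⟨max C1 (max CM (max CP (CW * J))), le_trans hC1 (le_max_left _ _), ?_⟩
  intro T G N u a hT hG hGT hN1 hNC hN2 hNT ha hu
  have hTF : C1 ≤ T := le_trans (le_max_left _ _) hT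
  have hTM : CM ≤ T := le_trans (le_trans (le_max_left _ _) (le_max_right _ _)) hT
  have hTP : CP ≤ T :=
    le_trans (le_trans (le_trans (le_max_left _ _) (le_max_right _ _)) (le_max_right _ _)) hT
  have hGF : C1 ≤ G := le_trans (le_max_left _ _) hG
  have hGM : CM ≤ G := le_trans (le_trans (le_max_left _ _) (le_max_right _ _)) hG
  have hT1 : 1 ≤ T := by linarith
  have hTp : 0 < T := by linarith
  have hNp : 0 < N := by linarith
  have hsN : 0 < Real.sqrt N := Real.sqrt_pos.2 hNp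
  obtain ⟨M, K, B, hM1, hM3, hML, hK, hB, hmain, hVX⟩ := hP T N u hTP hN2 hNT hu
  have hMp : 0 < M := by linarith
  have hL0 : 0 < M * Real.sqrt N := by positivity
  have hLq : 0 ≤ Lq N := Fb2_aux.lq_nonneg hN1
  have hSm : MeasurableSet (BS Θ T G a N u) := (hMb' T G hTM hGM hGT).2 N u a hN1 hNC |>.2
  have hQ0 : 0 < Real.sqrt (Real.sqrt (N * T)) :=
    Real.sqrt_pos.2 (Real.sqrt_pos.2 (by positivity))
  have hN0 : 0 ≤ N / Real.sqrt (Real.sqrt (N * T)) := by positivity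
  have hJB : 0 ≤ (J : ℝ) * B := by positivity
  -- the measure of a window
  have key : ∀ X : ℝ, 0 < X → X ^ 2 ∈ sI T →
      Rr {x : ℝ | x ∈ Icc 0 (M * Real.sqrt N) ∧ (X + x) ^ 2 ∈ BS Θ T G a N u} ≤ J * B := by
    intro X hX hXs
    obtain ⟨a', g, ha', hg, hF'⟩ := hF T G N X a hTF hGF hGT hN1 hNC ha hX hXs
    obtain ⟨V, hV⟩ : ∃ V, V = c0 * u * Real.sqrt (Real.sqrt (N * T)) := ⟨_, rfl⟩
    have hV0 : 0 < V := by rw [hV]; positivity
    obtain ⟨η, hη⟩ : ∃ η, η = N * Real.sqrt N / V ^ 2 := ⟨_, rfl⟩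
    have hη0 : 0 < η := by rw [hη]; positivity
    obtain ⟨h1, h2, h3, h4, h5, h6, h7, h8⟩ := hVX V η X hV hη hX hXs
    have hWm : MeasurableSet
        {x : ℝ | x ∈ Icc 0 (M * Real.sqrt N) ∧ (X + x) ^ 2 ∈ BS Θ T G a N u} :=
      measurableSet_Icc.inter
        ((show Measurable fun x : ℝ => (X + x) ^ 2 by fun_prop) hSm)
    refine Fb2_aux.rr_cover (L := M * Real.sqrt N) _
      (fun j => {x : ℝ | x ∈ Icc 0 (M * Real.sqrt N) ∧ (X + x) ^ 2 ∈ BS Θ T G a N u} ∩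
        {x : ℝ | V ≤ ‖SS X N (a' j) x‖}) ?_ ?_ ?_
    · intro x hx
      obtain ⟨hx1, hx2⟩ := hx
      obtain ⟨h9, h10⟩ := h8 x hx1.1 hx1.2
      have h11 := hF' x hx1.1 h9 hx2.1
      have h12 : ∃ j ∈ Finset.range J, c0 * u * Real.sqrt (Real.sqrt (N * T)) ≤
          ‖SS X N (a' j) x‖ := by
        refine Fb2_aux.exists_large (fun j => g j x) (fun j => SS X N (a' j) x)
          (SJ Θ T G a N ((X + x) ^ 2)) (C1 := C1) (by linarith) hQ0 hJ1 hu hc0
          (fun j => hg j x hx1.1 h9) hx2.2 ?_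
        refine le_trans h11 ?_
        have h13 : 0 ≤ N / Real.sqrt (Real.sqrt (N * T)) *
            ((x ^ 2 * (N * Real.sqrt N) / X ^ 3) ^ J + x / X +
              x ^ 2 * (N ^ 2 * Real.sqrt N) / X ^ 5) := by
          have := hx1.1
          positivity
        have h14 : 2 * C1 * (N / Real.sqrt (Real.sqrt (N * T)) *
            ((x ^ 2 * (N * Real.sqrt N) / X ^ 3) ^ J + x / X +
              x ^ 2 * (N ^ 2 * Real.sqrt N) / X ^ 5)) ≤ 1 := by
          refine le_trans (mul_le_mul_of_nonneg_right hC0F h13) ?_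
          rw [← mul_assoc]
          exact h10
        rw [mul_assoc]
        linarith
      obtain ⟨j, hj, h15⟩ := h12
      refine mem_biUnion hj ⟨⟨hx1, hx2⟩, ?_⟩
      rw [← hV] at h15
      exact h15
    · exact fun j x hx => hx.1.1
    · intro j _
      have hη6 : 0 ≤ Lq N ^ 3 * η := by positivity
      refine (hL X N M V K B η (a' j) _ hN1 hX hM1 ?_ hM3 hV0 hη ?_ hK ?_ hB ?_ ?_ ?_ ?_
        (ha' j) ?_ ?_ ?_).le
      · exact le_trans (mul_le_mul_of_nonneg_right hC0L (by positivity)) h1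
      · exact le_trans hC0L h2
      · exact le_trans (mul_le_mul_of_nonneg_right hC0L hη0.le) h3
      · refine le_trans ?_ h4
        gcongr
      · refine le_trans ?_ h5
        gcongr
      · refine le_trans ?_ h6
        gcongr
      · refine le_trans ?_ h7
        gcongr
      · exact hWm.inter ((Fb2_aux.ss_cont X N (a' j)).norm.measurable measurableSet_Ici)
      · exact fun x hx => hx.1.1
      · exact fun x hx => hx.2
  have hfin := hW T (M * Real.sqrt N) (J * B) (BS Θ T G a N u) hT1 hL0 hML hJB hSm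
    (fun s hs => hs.1) key
  have hu0 : 0 ≤ u := by linarith
  have hR0 : 0 ≤ T ^ (3 / 4 - 1 / 42 + ε) * (N / Real.sqrt T) ^ (3 / 2 : ℝ) := by positivity
  have hCm : CW * J ≤ max C1 (max CM (max CP (CW * J))) :=
    le_trans (le_trans (le_max_right _ _) (le_max_right _ _)) (le_max_right _ _)
  calc u * Rr (BS Θ T G a N u) ≤ u * (CW * (T / (M * Real.sqrt N)) * (J * B)) := by gcongr
    _ = CW * J * (T / (M * Real.sqrt N) * B * u) := by ring
    _ ≤ CW * J * (T ^ (3 / 4 - 1 / 42 + ε) * (N / Real.sqrt T) ^ (3 / 2 : ℝ)) := by gcongr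
    _ ≤ max C1 (max CM (max CP (CW * J))) *
        (T ^ (3 / 4 - 1 / 42 + ε) * (N / Real.sqrt T) ^ (3 / 2 : ℝ)) := by gcongr
    _ = _ := by ring

end Pool.Agent.Work.MP_56b8f5_nt.UV
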