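import Pool.Agent.Work.MP_56b8f5_nt.UV.Stmts

/-!
MP_56b8f5_nt, block UV, item Fin2: the combined statement.
-/

open MeasureTheory Set Filter Topology

noncomputable section

namespace Pool.Agent.Work.MP_56b8f5_nt.UV

open Pool.Agent.Work.MP_56b8f5_nt.UB

theorem iFin2 (hMA2 : StMA2) (hMU : UT.StMU) : StFin2 := by
  obtain ⟨δ, hδ, h⟩ := hMU
  refine ⟨δ, hδ, ?_⟩
  intro A ε hA4 hA12 hε
  by_cases hc : δ * (A - 4) ≤ min (A - 4) (12 - A) / 168
  · have hA : A ≤ 12 := by
      have h1 : min (A - 4) (12 - A) ≤ 12 - A := min_le_right _ _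
      have h2 : 0 ≤ δ * (A - 4) := mul_nonneg hδ.le (by linarith)
      linarith
    rw [max_eq_left hc]
    exact hMA2 A ε hA4 hA hε
  · push Not at hc
    rw [max_eq_right hc.le]
    exact h A ε hA4 hA12 hε

end Pool.Agent.Work.MP_56b8f5_nt.UV
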