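import Pool.Agent.Work.MP_56b8f5_nt.UV.Stmts

/-!
MP_56b8f5_nt, block UV, item Gs: a subset with small local mass.
-/

open MeasureTheory Set Filter Topology

noncomputable section

namespace Pool.Agent.Work.MP_56b8f5_nt.UV

open Pool.Agent.Work.MP_56b8f5_nt.UB

namespace Gs_aux

lemma rr_nonneg (A : Set ℝ) : 0 ≤ Rr A := ENNReal.toReal_nonneg

lemma rr_mono {A B : Set ℝ} (h : A ⊆ B) (hB : volume B ≠ ⊤) : Rr A ≤ Rr B :=
  ENNReal.toReal_mono hB (measure_mono h)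

lemma fin_of_subset {A : Set ℝ} {a b : ℝ} (h : A ⊆ Icc a b) : volume A ≠ ⊤ :=
  ((measure_mono h).trans_lt (by rw [Real.volume_Icc]; exact ENNReal.ofReal_lt_top)).ne

lemma rr_union_le {A B : Set ℝ} (hA : volume A ≠ ⊤) (hB : volume B ≠ ⊤) :
    Rr (A ∪ B) ≤ Rr A + Rr B := by
  unfold Rr
  rw [← ENNReal.toReal_add hA hB]
  exact ENNReal.toReal_mono (ENNReal.add_ne_top.2 ⟨hA, hB⟩) (measure_union_le _ _)

lemma rr_Icc_le {a b : ℝ} (h : a ≤ b) : Rr (Icc a b) ≤ b - a := by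
  unfold Rr
  rw [Real.volume_Icc, ENNReal.toReal_ofReal (by linarith)]

lemma rr_biUnion_le (s : Finset ℕ) (A : ℕ → Set ℝ) (hA : ∀ i ∈ s, volume (A i) ≠ ⊤) :
    Rr (⋃ i ∈ s, A i) ≤ ∑ i ∈ s, Rr (A i) := by
  unfold Rr
  rw [← ENNReal.toReal_sum hA]
  exact ENNReal.toReal_mono (ENNReal.sum_ne_top.2 hA) (measure_biUnion_finset_le s A)

lemma exists_piece {G : Set ℝ} {L B : ℝ} (hG : MeasurableSet G) (hs : G ⊆ Icc 0 L) (hB : 0 ≤ B)
    (h : B ≤ Rr G) : ∃ W' : Set ℝ, MeasurableSet W' ∧ W' ⊆ G ∧ Rr W' = B := by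
  set f : ℝ → ℝ := fun y => Rr (G ∩ Iic y) with hf
  have hfin : ∀ y, volume (G ∩ Iic y) ≠ ⊤ := fun y => fin_of_subset (inter_subset_left.trans hs)
  have hmono : ∀ y z, y ≤ z → f y ≤ f z ∧ f z ≤ f y + (z - y) := by
    intro y z hyz
    constructor
    · exact rr_mono (fun x hx => ⟨hx.1, le_trans hx.2 hyz⟩) (hfin z)
    · have h1 : G ∩ Iic z ⊆ (G ∩ Iic y) ∪ Icc y z := by
        intro x hx
        by_cases hxy : x ≤ y
        · exact Or.inl ⟨hx.1, hxy⟩
        · exact Or.inr ⟨(not_le.1 hxy).le, hx.2⟩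
      have h2 : volume (Icc y z) ≠ ⊤ := fin_of_subset (Subset.refl _)
      have h3 : volume ((G ∩ Iic y) ∪ Icc y z) ≠ ⊤ :=
        ((measure_union_le _ _).trans_lt (ENNReal.add_lt_top.2 ⟨(hfin y).lt_top, h2.lt_top⟩)).ne
      exact (rr_mono h1 h3).trans ((rr_union_le (hfin y) h2).trans
        (add_le_add le_rfl (rr_Icc_le hyz)))
  have hcont : Continuous f := by
    have : LipschitzWith 1 f := by
      apply LipschitzWith.of_dist_le_mul
      intro y z
      rw [NNReal.coe_one, one_mul, Real.dist_eq, Real.dist_eq]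
      rcases le_total y z with hyz | hyz
      · have := hmono y z hyz
        rw [abs_of_nonpos (by linarith), abs_of_nonpos (by linarith)]
        linarith
      · have := hmono z y hyz
        rw [abs_of_nonneg (by linarith), abs_of_nonneg (by linarith)]
        linarith
    exact this.continuous
  have h0 : f (-1) = 0 := by
    have : G ∩ Iic (-1) = ∅ := by
      ext x
      simp only [mem_inter_iff, mem_Iic, mem_empty_iff_false, iff_false, not_and]
      intro hx hx1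
      have := (hs hx).1
      linarith
    simp only [hf, this, Rr, measure_empty, ENNReal.toReal_zero]
  have h1 : f (max L 0) = Rr G := by
    have : G ∩ Iic (max L 0) = G := by
      apply inter_eq_left.2
      intro x hx
      exact le_trans (hs hx).2 (le_max_left _ _)
    simp only [hf, this]
  have h2 : (-1 : ℝ) ≤ max L 0 := le_trans (by norm_num) (le_max_right _ _)
  have h3 := intermediate_value_Icc h2 hcont.continuousOn
  have h4 : B ∈ Icc (f (-1)) (f (max L 0)) := by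
    rw [h0, h1]
    exact ⟨hB, h⟩
  obtain ⟨y, -, hy⟩ := h3 h4
  exact ⟨G ∩ Iic y, hG.inter measurableSet_Iic, inter_subset_left, hy⟩

lemma one_le_Lq {N : ℝ} (hN : 1 ≤ N) : 1 ≤ Lq N := by
  unfold Lq
  rw [Real.le_log_iff_exp_le (by linarith)]
  have := Real.exp_one_lt_d9
  linarith

/-- the algebra of the bound for one scale -/
lemma scale_bound {N X M K η P C0 τ Δ : ℝ} (hN : 0 < N) (hX : 0 < X) (hM : 1 ≤ M) (hK : 1 ≤ K)
    (hη : 0 ≤ η) (hP : 0 < P) (hC0 : 1 ≤ C0) (hτ : τ ^ 2 = K ^ 2 * P / N)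
    (hΔ : Δ ^ 2 = 4 * P ^ 2 / N) (hP1 : P ≤ C0 * (M * N ^ 2 / X ^ 2)) (hP2 : K ^ 2 ≤ 16 * P) :
    (1 + M * η ^ 2 / (N * τ ^ 2)) * (η + η ^ 3 * Δ ^ 2 / τ ^ 2) ≤
      η + 16 * C0 * (M * (η ^ 3 * (N / X) ^ 2 / K ^ 2 + (η ^ 3 + η ^ 5) / K ^ 4)) := by
  have hK0 : 0 < K := by linarith
  have e1 : M * η ^ 2 / (N * τ ^ 2) = M * η ^ 2 / (K ^ 2 * P) := by
    rw [hτ]
    field_simp
  have e2 : η ^ 3 * Δ ^ 2 / τ ^ 2 = 4 * η ^ 3 * P / K ^ 2 := by
    rw [hτ, hΔ]
    field_simp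
  rw [e1, e2]
  have e3 : (1 + M * η ^ 2 / (K ^ 2 * P)) * (η + 4 * η ^ 3 * P / K ^ 2) =
      η + 4 * η ^ 3 * P / K ^ 2 + M * η ^ 3 / (K ^ 2 * P) + 4 * M * η ^ 5 / K ^ 4 := by
    field_simp
    ring
  rw [e3]
  have b1 : 4 * η ^ 3 * P / K ^ 2 ≤ 4 * C0 * (M * (η ^ 3 * (N / X) ^ 2 / K ^ 2)) := by
    calc 4 * η ^ 3 * P / K ^ 2 ≤ 4 * η ^ 3 * (C0 * (M * N ^ 2 / X ^ 2)) / K ^ 2 := by gcongr
      _ = 4 * C0 * (M * (η ^ 3 * (N / X) ^ 2 / K ^ 2)) := by
        field_simp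
  have b2 : M * η ^ 3 / (K ^ 2 * P) ≤ 16 * (M * (η ^ 3 / K ^ 4)) := by
    rw [div_le_iff₀ (by positivity)]
    have : 16 * (M * (η ^ 3 / K ^ 4)) * (K ^ 2 * P) = M * η ^ 3 * (16 * P / K ^ 2) := by
      field_simp
    rw [this]
    have h1 : 1 ≤ 16 * P / K ^ 2 := by
      rw [le_div_iff₀ (by positivity)]
      linarith
    exact le_mul_of_one_le_right (by positivity) h1
  have p1 : 0 ≤ M * (η ^ 3 * (N / X) ^ 2 / K ^ 2) := by positivity
  have p2 : 0 ≤ M * (η ^ 3 / K ^ 4) := by positivity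
  have p3 : 0 ≤ M * (η ^ 5 / K ^ 4) := by positivity
  have e4 : 4 * M * η ^ 5 / K ^ 4 = 4 * (M * (η ^ 5 / K ^ 4)) := by ring
  have e5 : 16 * C0 * (M * (η ^ 3 * (N / X) ^ 2 / K ^ 2 + (η ^ 3 + η ^ 5) / K ^ 4)) =
      16 * C0 * (M * (η ^ 3 * (N / X) ^ 2 / K ^ 2)) + 16 * C0 * (M * (η ^ 3 / K ^ 4)) +
        16 * C0 * (M * (η ^ 5 / K ^ 4)) := by ring
  rw [e4, e5]
  have q2 : 16 * (M * (η ^ 3 / K ^ 4)) ≤ 16 * C0 * (M * (η ^ 3 / K ^ 4)) := by nlinarith
  have q3 : 4 * (M * (η ^ 5 / K ^ 4)) ≤ 16 * C0 * (M * (η ^ 5 / K ^ 4)) := by nlinarith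
  have q1 : 4 * C0 * (M * (η ^ 3 * (N / X) ^ 2 / K ^ 2)) ≤
      16 * C0 * (M * (η ^ 3 * (N / X) ^ 2 / K ^ 2)) := by nlinarith
  linarith

end Gs_aux

open Gs_aux

theorem iGs (hBd : StBd) : StGs := by
  obtain ⟨C1, hC1, hBd⟩ := hBd
  intro C0 hC0
  refine ⟨256 * (C0 * C1), by nlinarith, ?_⟩
  intro X N M V K B η a W hN hX hM hXM hV hη hK hKη hB hB1 hB2 ha hWm hWs hWV hWB
  have hN0 : 0 < N := by linarith
  have hs : 0 < Real.sqrt N := Real.sqrt_pos.2 hN0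
  have hss : Real.sqrt N * Real.sqrt N = N := Real.mul_self_sqrt hN0.le
  have hη0 : 0 ≤ η := by rw [hη]; positivity
  have hL1 := one_le_Lq hN
  have hCC : 1 ≤ C0 * C1 := by nlinarith
  have hX2 : 0 < X ^ 2 := by positivity
  set Q : ℝ := M * (η ^ 3 * (N / X) ^ 2 / K ^ 2 + (η ^ 3 + η ^ 5) / K ^ 4) with hQ
  have hQ0 : 0 ≤ Q := by positivity
  -- the indices
  have hidx : ∀ i : ℕ, (2 : ℝ) ^ i ≤ C0 * (M * N ^ 2 / X ^ 2) → (2 : ℝ) ^ i ≤ N / 256 := by
    intro i hi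
    refine hi.trans ?_
    rw [← mul_div_assoc, div_le_iff₀ hX2]
    have h1 : 256 * (C0 * (M * N)) ≤ X ^ 2 := by
      refine le_trans ?_ hXM
      have : 0 ≤ C0 * (M * N) * (C1 - 1) := by
        apply mul_nonneg _ (by linarith)
        positivity
      nlinarith
    nlinarith
  set s : Finset ℕ := (Finset.range (⌊2 * Real.log N⌋₊ + 1)).filter
    (fun i => (2 : ℝ) ^ i ≤ C0 * (M * N ^ 2 / X ^ 2)) with hsdef
  have hmem : ∀ i : ℕ, (2 : ℝ) ^ i ≤ C0 * (M * N ^ 2 / X ^ 2) → i ∈ s := by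
    intro i hi
    rw [hsdef, Finset.mem_filter, Finset.mem_range, Nat.lt_succ_iff]
    refine ⟨?_, hi⟩
    apply Nat.le_floor
    have h1 : (2 : ℝ) ^ i ≤ N := (hidx i hi).trans (by linarith)
    have h2 : Real.log ((2 : ℝ) ^ i) ≤ Real.log N := Real.log_le_log (by positivity) h1
    rw [Real.log_pow] at h2
    have h3 := Real.log_two_gt_d9
    have h4 : (0 : ℝ) ≤ i := Nat.cast_nonneg i
    nlinarith
  have hcard : (s.card : ℝ) ≤ 3 * Lq N := by
    have h1 : s.card ≤ ⌊2 * Real.log N⌋₊ + 1 := by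
      rw [hsdef]
      refine (Finset.card_filter_le _ _).trans ?_
      rw [Finset.card_range]
    have h2 : (s.card : ℝ) ≤ (⌊2 * Real.log N⌋₊ : ℝ) + 1 := by exact_mod_cast h1
    have h3 : (⌊2 * Real.log N⌋₊ : ℝ) ≤ 2 * Real.log N :=
      Nat.floor_le (by have := Real.log_nonneg hN; linarith)
    have h4 : Real.log N ≤ Lq N := by
      unfold Lq
      exact Real.log_le_log hN0 (by linarith)
    linarith
  set Bad : ℕ → Set ℝ := fun i => {x | x ∈ W ∧ K * Real.sqrt (2 ^ i) / Real.sqrt N <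
    Rr (W ∩ Icc (x - 2 * 2 ^ i / Real.sqrt N) (x + 2 * 2 ^ i / Real.sqrt N))} with hBad
  have hbad : ∀ i ∈ s, MeasurableSet (Bad i) ∧ Rr (Bad i) ≤ C1 * Lq N * (η + 16 * C0 * Q) := by
    intro i hi
    have hi1 : (2 : ℝ) ^ i ≤ C0 * (M * N ^ 2 / X ^ 2) := (Finset.mem_filter.1 hi).2
    have hi2 := hidx i hi1
    have hP : (0 : ℝ) < 2 ^ i := by positivity
    have hP1 : (1 : ℝ) ≤ 2 ^ i := one_le_pow₀ (by norm_num)
    have hsP : Real.sqrt (2 ^ i) * Real.sqrt (2 ^ i) = 2 ^ i := Real.mul_self_sqrt hP.le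
    have hsP1 : 1 ≤ Real.sqrt (2 ^ i) := by
      rw [show (1 : ℝ) = Real.sqrt 1 by simp]
      exact Real.sqrt_le_sqrt hP1
    by_cases hc : 16 * (2 : ℝ) ^ i ≤ K ^ 2
    · have hempty : Bad i = ∅ := by
        ext x
        simp only [hBad, mem_setOf_eq, mem_empty_iff_false, iff_false, not_and, not_lt]
        intro hx
        have hΔ0 : 0 ≤ 2 * 2 ^ i / Real.sqrt N := by positivity
        have h1 : Rr (W ∩ Icc (x - 2 * 2 ^ i / Real.sqrt N) (x + 2 * 2 ^ i / Real.sqrt N)) ≤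
            (x + 2 * 2 ^ i / Real.sqrt N) - (x - 2 * 2 ^ i / Real.sqrt N) :=
          (rr_mono inter_subset_right (fin_of_subset (Subset.refl _))).trans
            (rr_Icc_le (by linarith))
        refine h1.trans ?_
        have h2 : 4 * Real.sqrt (2 ^ i) ≤ K := by
          apply le_of_sq_le_sq _ (by linarith)
          nlinarith
        have h3 : (x + 2 * 2 ^ i / Real.sqrt N) - (x - 2 * 2 ^ i / Real.sqrt N) =
            4 * 2 ^ i / Real.sqrt N := by ring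
        rw [h3]
        apply div_le_div_of_nonneg_right _ hs.le
        calc 4 * (2 : ℝ) ^ i = 4 * Real.sqrt (2 ^ i) * Real.sqrt (2 ^ i) := by
              rw [mul_assoc, hsP]
          _ ≤ K * Real.sqrt (2 ^ i) := by gcongr
      rw [hempty]
      refine ⟨MeasurableSet.empty, ?_⟩
      have : Rr ∅ = 0 := by simp [Rr]
      rw [this]
      positivity
    · rw [not_le] at hc
      have hτ : (K * Real.sqrt (2 ^ i) / Real.sqrt N) ^ 2 = K ^ 2 * 2 ^ i / N := by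
        rw [div_pow, mul_pow, Real.sq_sqrt hP.le, Real.sq_sqrt hN0.le]
      have hΔ : (2 * 2 ^ i / Real.sqrt N) ^ 2 = 4 * ((2 : ℝ) ^ i) ^ 2 / N := by
        rw [div_pow, mul_pow, Real.sq_sqrt hN0.le]
        norm_num
      have hb := hBd X N M V (2 * 2 ^ i / Real.sqrt N) (K * Real.sqrt (2 ^ i) / Real.sqrt N) η a W
        hN hX ?_ hM hV hη ?_ ?_ ?_ ?_ ?_ ha hWm hWs hWV
      · refine ⟨hb.1, hb.2.trans ?_⟩
        have h1 := scale_bound hN0 hX hM hK hη0 hP hC0 hτ hΔ hi1 hc.le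
        have h2 : 0 ≤ C1 * Lq N := by positivity
        exact mul_le_mul_of_nonneg_left h1 h2
      · -- C1 * N ≤ X ^ 2
        refine le_trans ?_ hXM
        have h1 : C1 * N ≤ C0 * C1 * (M * N) := by
          have h2 : C1 * N ≤ C0 * (C1 * N) := le_mul_of_one_le_left (by positivity) hC0
          have h3 : C0 * (C1 * N) ≤ M * (C0 * (C1 * N)) := le_mul_of_one_le_left (by positivity) hM
          calc C1 * N ≤ M * (C0 * (C1 * N)) := h2.trans h3
            _ = C0 * C1 * (M * N) := by ring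
        have h4 : 0 ≤ C0 * C1 * (M * N) := by positivity
        nlinarith
      · rw [div_mul_cancel₀ _ hs.ne']
        linarith
      · rw [div_le_iff₀ hs, div_mul_eq_mul_div, hss]
        linarith
      · positivity
      · rw [mul_div_cancel₀ _ hs.ne']
        nlinarith
      · rw [mul_div_cancel₀ _ hs.ne']
        have h1 : C1 * η ≤ K := by
          refine le_trans ?_ hKη
          have h2 : C1 * η ≤ C0 * (C1 * η) := le_mul_of_one_le_left (by positivity) hC0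
          have h3 : 0 ≤ C0 * (C1 * η) := by positivity
          nlinarith
        have h4 : K ≤ K * Real.sqrt (2 ^ i) := le_mul_of_one_le_right (by linarith) hsP1
        linarith
  -- the good set
  set U : Set ℝ := ⋃ i ∈ s, Bad i with hU
  have hUm : MeasurableSet U := Finset.measurableSet_biUnion s (fun i hi => (hbad i hi).1)
  have hBW : ∀ i, Bad i ⊆ W := fun i x hx => hx.1
  have hUW : U ⊆ W := iUnion₂_subset (fun i _ => hBW i)
  have hUr : Rr U ≤ B / 2 := by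
    have h1 : Rr U ≤ ∑ i ∈ s, Rr (Bad i) :=
      rr_biUnion_le s Bad (fun i _ => fin_of_subset ((hBW i).trans hWs))
    have h2 : ∑ i ∈ s, Rr (Bad i) ≤ s.card * (C1 * Lq N * (η + 16 * C0 * Q)) := by
      rw [← nsmul_eq_mul]
      exact Finset.sum_le_card_nsmul s _ _ (fun i hi => (hbad i hi).2)
    have h3 : (s.card : ℝ) * (C1 * Lq N * (η + 16 * C0 * Q)) ≤
        3 * Lq N * (C1 * Lq N * (η + 16 * C0 * Q)) :=
      mul_le_mul_of_nonneg_right hcard (by positivity)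
    have h4 : 3 * Lq N * (C1 * Lq N * (η + 16 * C0 * Q)) =
        3 * C1 * (Lq N ^ 2 * η) + 48 * (C0 * C1) * (Lq N ^ 2 * Q) := by ring
    have h5 : 256 * (C0 * C1) * (Lq N ^ 2 * η) ≤ B := by
      rw [← mul_assoc]; exact hB1
    have h6 : 256 * (C0 * C1) * (Lq N ^ 2 * Q) ≤ B := by
      rw [← mul_assoc]; exact hB2
    have h7 : 3 * C1 * (Lq N ^ 2 * η) ≤ 3 * (C0 * C1) * (Lq N ^ 2 * η) := by
      have h8 : 0 ≤ C1 * (Lq N ^ 2 * η) * (C0 - 1) := by
        apply mul_nonneg (by positivity) (by linarith)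
      nlinarith
    nlinarith
  have hWf : volume W ≠ ⊤ := fin_of_subset hWs
  have hG : B / 2 ≤ Rr (W \ U) := by
    have h1 : Rr W ≤ Rr (W \ U) + Rr U := by
      have h2 : W ⊆ (W \ U) ∪ U := by
        rw [diff_union_self]
        exact subset_union_left
      have h3 : volume (W \ U) ≠ ⊤ := fin_of_subset (diff_subset.trans hWs)
      have h4 : volume U ≠ ⊤ := fin_of_subset (hUW.trans hWs)
      have h5 : volume ((W \ U) ∪ U) ≠ ⊤ :=
        ((measure_union_le _ _).trans_lt (ENNReal.add_lt_top.2 ⟨h3.lt_top, h4.lt_top⟩)).ne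
      exact (rr_mono h2 h5).trans (rr_union_le h3 h4)
    linarith
  obtain ⟨W', hW'm, hW's, hW'r⟩ := exists_piece (hWm.diff hUm) (diff_subset.trans hWs)
    (by linarith : 0 ≤ B / 2) hG
  refine ⟨W', hW'm, hW's.trans diff_subset, hW'r, ?_⟩
  intro i hi y
  have hΔ0 : 0 ≤ 2 * 2 ^ i / Real.sqrt N := by positivity
  by_cases hne : (W' ∩ Icc y (y + 2 * 2 ^ i / Real.sqrt N)).Nonempty
  · obtain ⟨x, hx1, hx2⟩ := hne
    have hxG := hW's hx1
    have hxB : x ∉ Bad i := fun h => hxG.2 (mem_iUnion₂.2 ⟨i, hmem i hi, h⟩)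
    have h1 : ¬ (K * Real.sqrt (2 ^ i) / Real.sqrt N <
        Rr (W ∩ Icc (x - 2 * 2 ^ i / Real.sqrt N) (x + 2 * 2 ^ i / Real.sqrt N))) :=
      fun h => hxB ⟨hxG.1, h⟩
    rw [not_lt] at h1
    refine le_trans (rr_mono ?_ (fin_of_subset (inter_subset_left.trans hWs))) h1
    intro z hz
    have hz1 := hz.2
    exact ⟨(hW's hz.1).1, by have := hx2.2; have := hz1.1; linarith,
      by have := hx2.1; have := hz1.2; linarith⟩
  · rw [not_nonempty_iff_eq_empty] at hne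
    rw [hne]
    have : Rr ∅ = 0 := by simp [Rr]
    rw [this]
    positivity

end Pool.Agent.Work.MP_56b8f5_nt.UV
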