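import Pool.Agent.Work.MP_56b8f5_nt.UV.Stmts
import Pool.Agent.Work.MP_56b8f5_nt.UB.I_H

/-!
MP_56b8f5_nt, block UV, item H2: pointwise bound for the four-fold correlation of the chirps.
-/

set_option autoImplicit false

open MeasureTheory Set Filter Topology

noncomputable section

namespace Pool.Agent.Work.MP_56b8f5_nt.UV

open Pool.Agent.Work.MP_56b8f5_nt.UB

open Pool.Agent.Work.MP_56b8f5_nt.UB.H_aux in
theorem iH2 (hVp : UB.StVp) (hK3 : UB.StK3) (hHp : UB.StHp) : StH2 := by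
  obtain ⟨C3, hC3, hK⟩ := hK3
  obtain ⟨C1, hC1, hP⟩ := hHp
  have hC3' : 0 < C3 := by linarith
  have hC1' : 0 < C1 := by linarith
  have hbig : 0 ≤ 7 * C3 ^ 4 * C1 := by positivity
  refine ⟨C3 + C1 + 7 * C3 ^ 4 * C1, by linarith, ?_⟩
  intro X N m hN hX hCN hm x1 x2 x3 x4
  have hN0 : 0 < N := by linarith
  have hm0 : (1 : ℝ) ≤ m := by exact_mod_cast hm
  have hm1 : (0 : ℝ) < m := by linarith
  have hCN3 : C3 * N ≤ X ^ 2 := by
    refine le_trans ?_ hCN
    exact mul_le_mul_of_nonneg_right (by linarith) hN0.le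
  have hCN1 : C1 * N ≤ X ^ 2 := by
    refine le_trans ?_ hCN
    exact mul_le_mul_of_nonneg_right (by linarith) hN0.le
  obtain ⟨hK1, hK2, -⟩ := hK X N hN hX hCN3
  have hn : ∀ t, ‖KK X N m t‖ ≤ C3 * Real.sqrt (N / m) := by
    intro t
    have h := hK1 (m : ℤ) (by exact_mod_cast hm1.ne') t
    rwa [Int.cast_natCast, abs_of_pos hm1] at h
  have hd := hK2 m hm
  have hle : 7 * C3 ^ 4 * C1 ≤ C3 + C1 + 7 * C3 ^ 4 * C1 := by linarith
  constructor
  · have hB : 0 ≤ C1 * (m * Real.sqrt N) := by positivity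
    refine (HH_le hVp hN hm hC3'.le hn hd x1 x2 x3 x4 hB ?_).trans ?_
    · intro a b hab hx _
      exact (hP X N m x1 x2 x3 x4 a b hN hX hCN1 hm hab hx).1
    · calc 7 * C3 ^ 4 * (N / m) ^ 2 * (C1 * (m * Real.sqrt N))
          = 7 * C3 ^ 4 * C1 * ((N / m) ^ 2 * (m * Real.sqrt N)) := by ring
        _ ≤ _ := mul_le_mul_of_nonneg_right hle (by positivity)
  · intro hδ
    set δ := x1 + x2 - x3 - x4 with hδdef
    set Z := m * N * Real.sqrt N / X ^ 2 with hZ
    set q := m * Real.sqrt (Real.sqrt N) / Real.sqrt |δ| with hq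
    have hq0 : 0 ≤ q := by positivity
    have hZ0 : 0 ≤ Z := by positivity
    have hi0 : 0 ≤ (if |δ| ≤ C1 * Z then q else 0) := by
      split_ifs
      · exact hq0
      · exact le_rfl
    have hi : (if |δ| ≤ C1 * Z then q else 0) ≤
        (if |δ| ≤ (C3 + C1 + 7 * C3 ^ 4 * C1) * Z then q else 0) := by
      by_cases h1 : |δ| ≤ C1 * Z
      · have h2 : |δ| ≤ (C3 + C1 + 7 * C3 ^ 4 * C1) * Z :=
          h1.trans (mul_le_mul_of_nonneg_right (by linarith) hZ0)
        rw [if_pos h1, if_pos h2]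
      · rw [if_neg h1]
        split_ifs
        · exact hq0
        · exact le_rfl
    have hd0 : 0 ≤ m / |δ| := by positivity
    have hB : 0 ≤ C1 * (m / |δ| + if |δ| ≤ C1 * Z then q else 0) :=
      mul_nonneg hC1'.le (add_nonneg hd0 hi0)
    refine (HH_le hVp hN hm hC3'.le hn hd x1 x2 x3 x4 hB ?_).trans ?_
    · intro a b hab hx _
      exact (hP X N m x1 x2 x3 x4 a b hN hX hCN1 hm hab hx).2 hδ
    · calc 7 * C3 ^ 4 * (N / m) ^ 2 * (C1 * (m / |δ| + if |δ| ≤ C1 * Z then q else 0))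
          = 7 * C3 ^ 4 * C1 * ((N / m) ^ 2 * (m / |δ| + if |δ| ≤ C1 * Z then q else 0)) := by
            ring
        _ ≤ (C3 + C1 + 7 * C3 ^ 4 * C1) *
            ((N / m) ^ 2 * (m / |δ| + if |δ| ≤ C1 * Z then q else 0)) :=
            mul_le_mul_of_nonneg_right hle
              (mul_nonneg (by positivity) (add_nonneg hd0 hi0))
        _ ≤ _ := by
            refine mul_le_mul_of_nonneg_left ?_ (by linarith)
            refine mul_le_mul_of_nonneg_left ?_ (by positivity)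
            exact add_le_add_right hi _

end Pool.Agent.Work.MP_56b8f5_nt.UV
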