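import Mathlib
import Pool.Agent.Work.MP_56b8f5_nt.UV.Stmts
import Pool.Agent.Work.MP_56b8f5_nt.UB.I_JB

/-!
MP_56b8f5_nt, block UV, item JB2: bound for `J(V)` for `V` near `T^(1/8)` from the block bounds.
-/

open MeasureTheory Set Filter Topology

noncomputable section

namespace Pool.Agent.Work.MP_56b8f5_nt.UV

open Pool.Agent.Work.MP_56b8f5_nt.UB

namespace JB2_aux

open Pool.Agent.Work.MP_56b8f5_nt.UB.JB_aux

/-- `N √N ≤ C'^3 T^{3/2+3e/4} / V^6` for `N ≤ C' T / G²`. -/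
lemma cube_bd {T V e C' N : ℝ} (hT : 0 < T) (hV : 0 < V) (hC : 1 ≤ C') (hN0 : 0 ≤ N)
    (hN : N ≤ C' * T ^ (1 + e / 2) / V ^ 4) :
    N * Real.sqrt N ≤ C' ^ 3 * T ^ (3 / 2 + 3 / 4 * e) / V ^ 6 := by
  have h1 := sqrt_bd' hT hV hC hN
  have h2 : N * Real.sqrt N = Real.sqrt N ^ 3 := by
    calc N * Real.sqrt N = Real.sqrt N ^ 2 * Real.sqrt N := by rw [Real.sq_sqrt hN0]
      _ = _ := by ring
  rw [h2]
  calc Real.sqrt N ^ 3 ≤ (C' * T ^ (1 / 2 + e / 4) / V ^ 2) ^ 3 := by gcongr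
    _ = C' ^ 3 * T ^ (3 / 2 + 3 / 4 * e) / V ^ 6 := by
        rw [div_pow, mul_pow, rp_pow hT, ← pow_mul]
        congr 3
        push_cast; ring

lemma rpow_three_half {x : ℝ} (hx : 0 ≤ x) : x ^ (3 / 2 : ℝ) = x * Real.sqrt x := by
  rw [Real.sqrt_eq_rpow]
  rcases hx.eq_or_lt with h | h
  · rw [← h]
    rw [Real.zero_rpow (by norm_num), zero_mul]
  · calc x ^ (3 / 2 : ℝ) = x ^ ((1 : ℝ) + 1 / 2) := by norm_num
      _ = x * x ^ (1 / 2 : ℝ) := by rw [Real.rpow_add h, Real.rpow_one]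

end JB2_aux

open JB2_aux Pool.Agent.Work.MP_56b8f5_nt.UB.JB_aux in
theorem iJB2 (hPhi : UB.StPhi) (hMV : UB.StMV) (hMb : UB.StMb) (hFc : UB.StFc) (hFb2 : StFb2)
    (hFJ : UB.StFJ) : StJB2 := by
  intro ε hε0 hε1
  obtain ⟨φ, Θ, hφ⟩ := hPhi
  set e : ℝ := ε / 1000 with he
  have he0 : 0 < e := by positivity
  have hεe : ε = 1000 * e := by rw [he]; ring
  have he1 : e < 1 / 100000 := by rw [he]; linarith
  obtain ⟨C', CJ, hC', hCJ, FJ⟩ := hFJ φ Θ hφ e he0 (by linarith)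
  obtain ⟨CM, hCM, MV⟩ := hMV φ Θ hφ C' hC'
  obtain ⟨Cm, hCm, MB⟩ := hMb φ Θ hφ C' hC'
  obtain ⟨Cc, hCc, FC⟩ := hFc φ Θ hφ C' e hC' he0 (by linarith)
  obtain ⟨Cb, hCb, FB⟩ := hFb2 φ Θ hφ C' e hC' he0 (by linarith)
  obtain ⟨K, hK⟩ : ∃ K : ℝ, K = C' + CJ + CM + Cm + Cc + Cb := ⟨_, rfl⟩
  have hK0 : 0 ≤ K := by rw [hK]; linarith
  have hK2 : 2 ≤ K := by rw [hK]; linarith
  have kC' : C' ≤ K := by rw [hK]; linarith
  have kCJ : CJ ≤ K := by rw [hK]; linarith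
  have kCM : CM ≤ K := by rw [hK]; linarith
  have kCm : Cm ≤ K := by rw [hK]; linarith
  have kCc : Cc ≤ K := by rw [hK]; linarith
  have kCb : Cb ≤ K := by rw [hK]; linarith
  clear hK
  obtain ⟨δ, hδ⟩ : ∃ δ : ℝ, δ = 1 / 8 := ⟨_, rfl⟩
  have hδ0 : 0 < δ := by rw [hδ]; norm_num
  obtain ⟨K3, hK3⟩ : ∃ K3 : ℝ, K3 = K ^ (1 / δ) := ⟨_, rfl⟩
  have hKp' : 0 ≤ K3 := by rw [hK3]; exact Real.rpow_nonneg hK0 _
  obtain ⟨E, hE⟩ : ∃ E : ℝ, E = (CM / e + Cc + Cb) * C' ^ 3 := ⟨_, rfl⟩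
  have hE0 : 0 ≤ E := by rw [hE]; positivity
  obtain ⟨D, hD⟩ : ∃ D : ℝ, D = CJ * E := ⟨_, rfl⟩
  have hD' : 0 ≤ D := by rw [hD]; positivity
  obtain ⟨C, hC⟩ : ∃ C : ℝ, C = K + K3 + D := ⟨_, rfl⟩
  have cD : D ≤ C := by rw [hC]; linarith
  have cK : K ≤ C := by rw [hC]; linarith
  have cK3 : K3 ≤ C := by rw [hC]; linarith
  clear hC
  refine ⟨C, by linarith, ?_⟩
  intro T V hT hTV hTV'
  have hTK : K ≤ T := by linarith
  have hT1 : 1 ≤ T := by linarith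
  have hTpos : 0 < T := by linarith
  have hK8 : K ≤ T ^ δ := le_rp hK0 hδ0 (by rw [← hK3]; linarith)
  clear hK3
  have hVpos : 0 < V := lt_of_lt_of_le (Real.rpow_pos_of_pos hTpos _) hTV
  have mono : ∀ x y : ℝ, x ≤ y → T ^ x ≤ T ^ y := fun x y h => Real.rpow_le_rpow_of_exponent_le hT1 h
  have hV4 : V ≤ T ^ (1 / 4 : ℝ) := hTV'.trans (mono _ _ (by norm_num))
  set G : ℝ := V ^ 2 * T ^ (-(e / 4)) with hG
  have hGK : K ≤ G := by
    calc K ≤ T ^ δ := hK8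
      _ ≤ T ^ ((1 / 8 - 1 / 168 : ℝ) * ((2 : ℕ) : ℝ) + -(e / 4)) := mono _ _ (by rw [hδ]; push_cast; linarith)
      _ = (T ^ (1 / 8 - 1 / 168 : ℝ)) ^ 2 * T ^ (-(e / 4)) := by
          rw [rp_pow hTpos, ← Real.rpow_add hTpos]
      _ ≤ G := by
          rw [hG]; gcongr
  have hG0 : 0 < G := by rw [hG]; positivity
  have hG2T : G ^ 2 ≤ T := by
    have h1 : G ≤ T ^ (1 / 2 : ℝ) := by
      calc G ≤ V ^ 2 * T ^ (0 : ℝ) := by
            rw [hG]
            exact mul_le_mul_of_nonneg_left (Real.rpow_le_rpow_of_exponent_le hT1 (by linarith))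
              (by positivity)
        _ = V ^ 2 := by rw [Real.rpow_zero, mul_one]
        _ ≤ (T ^ (1 / 4 : ℝ)) ^ 2 := by gcongr
        _ = T ^ (1 / 2 : ℝ) := by rw [rp_pow hTpos]; congr 1; norm_num
    calc G ^ 2 ≤ (T ^ (1 / 2 : ℝ)) ^ 2 := by gcongr
      _ = T ^ (1 : ℝ) := by rw [rp_pow hTpos]; congr 1; norm_num
      _ = T := Real.rpow_one T
  have hN0 : C' * T / G ^ 2 = C' * T ^ (1 + e / 2) / V ^ 4 := by
    have h1 : G ^ 2 = V ^ 4 * T ^ (-(e / 2)) := by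
      rw [hG, mul_pow, rp_pow hTpos, ← pow_mul]; congr 2; push_cast; ring
    have h2 : T ^ (1 + e / 2) * T ^ (-(e / 2)) = T := by
      rw [← Real.rpow_add hTpos]
      conv_rhs => rw [← Real.rpow_one T]
      congr 1; ring
    have h3 : (0 : ℝ) < T ^ (-(e / 2)) := by positivity
    rw [h1, div_eq_div_iff (by positivity) (by positivity)]
    calc C' * T * V ^ 4 = C' * (T ^ (1 + e / 2) * T ^ (-(e / 2))) * V ^ 4 := by rw [h2]
      _ = _ := by ring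
  have c1 : CM ≤ G := by linarith
  have c2 : Cm ≤ G := by linarith
  have c3 : Cc ≤ G := by linarith
  have c4 : Cb ≤ G := by linarith
  have t1 : CM ≤ T := by linarith
  have t2 : Cm ≤ T := by linarith
  have t3 : Cc ≤ T := by linarith
  have t4 : Cb ≤ T := by linarith
  have t5 : CJ ≤ T := by linarith
  have hTeV : T ^ e ≤ V := (mono _ _ (by linarith)).trans hTV
  have hlog : Real.log T ≤ T ^ e / e := Real.log_le_rpow_div hTpos.le he0
  have hlog0 : 0 ≤ Real.log T := Real.log_nonneg hT1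
  have hsT : Real.sqrt T = T ^ (1 / 2 : ℝ) := Real.sqrt_eq_rpow T
  have one_le_two_pow' : ∀ j : ℕ, (1 : ℝ) ≤ 2 ^ j := fun j => one_le_pow₀ (by norm_num)
  obtain ⟨Y, hY⟩ : ∃ Y : ℝ, Y = T ^ (3 / 2 + 3 / 4 * e) / V ^ 6 := ⟨_, rfl⟩
  have hY0 : 0 ≤ Y := by rw [hY]; positivity
  have h1 : JV T V ≤ CJ * T ^ e * (E * (T ^ (-(1 / 42) + 10 * e : ℝ) * Y)) := by
    apply FJ T V _ t5 hTeV hV4 (by positivity)
    intro j a u ha hu hj
    have hj1 := one_le_two_pow' j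
    obtain ⟨N, hN⟩ : ∃ N : ℝ, N = 2 ^ j := ⟨_, rfl⟩
    rw [← hN] at hj hj1 ⊢
    have hNpos : 0 < N := by linarith
    have hjN : N ≤ C' * T ^ (1 + e / 2) / V ^ 4 := by
      rw [← hN0]
      linarith
    have hcube : N * Real.sqrt N ≤ C' ^ 3 * Y := by
      have := cube_bd hTpos hVpos hC' hNpos.le hjN
      rw [hY]
      calc N * Real.sqrt N ≤ C' ^ 3 * T ^ (3 / 2 + 3 / 4 * e) / V ^ 6 := this
        _ = C' ^ 3 * (T ^ (3 / 2 + 3 / 4 * e) / V ^ 6) := by ring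
    have hZ : ∀ c : ℝ, 0 ≤ c → c ≤ CM / e + Cc + Cb → ∀ x : ℝ, x ≤ -(1 / 42) + 10 * e →
        c * (T ^ x * (N * Real.sqrt N)) ≤ E * (T ^ (-(1 / 42) + 10 * e : ℝ) * Y) := by
      intro c hc0 hc x hx
      have hx' := mono _ _ hx
      calc c * (T ^ x * (N * Real.sqrt N))
          ≤ (CM / e + Cc + Cb) * (T ^ (-(1 / 42) + 10 * e : ℝ) * (C' ^ 3 * Y)) := by gcongr
        _ = E * (T ^ (-(1 / 42) + 10 * e : ℝ) * Y) := by rw [hE]; ring
    have hCMe : 0 ≤ CM / e := by positivity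
    by_cases hsm : N ≤ T ^ (1 / 2 - 1 / 42 : ℝ)
    · have hb := FC T G N u a t3 c3 hG2T hj1 hj (hsm.trans (mono _ _ (by linarith))) ha hu
      refine hb.trans ?_
      refine le_trans ?_ (hZ Cc (by linarith) (by linarith) (-(1 / 42) + 10 * e) le_rfl)
      rw [hsT]
      calc Cc * T ^ (10 * e) * (N ^ 2 * Real.sqrt N / T ^ (1 / 2 : ℝ))
          = Cc * (T ^ (10 * e) / T ^ (1 / 2 : ℝ) * N * (N * Real.sqrt N)) := by ring
        _ ≤ Cc * (T ^ (10 * e) / T ^ (1 / 2 : ℝ) * T ^ (1 / 2 - 1 / 42 : ℝ) * (N * Real.sqrt N)) := by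
            gcongr
        _ = Cc * (T ^ (-(1 / 42) + 10 * e : ℝ) * (N * Real.sqrt N)) := by
            congr 2
            rw [← Real.rpow_sub hTpos, ← Real.rpow_add hTpos]
            congr 1
            ring
    · push Not at hsm
      by_cases hbig : N ≤ T ^ (1 / 2 + 1 / 42 : ℝ)
      · have hb := FB T G N u a t4 c4 hG2T hj1 hj hsm.le hbig ha hu
        refine hb.trans ?_
        refine le_trans ?_ (hZ Cb (by linarith) (by linarith) (-(1 / 42) + e) (by linarith))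
        have h2 : (N / Real.sqrt T) ^ (3 / 2 : ℝ) = N * Real.sqrt N / T ^ (3 / 4 : ℝ) := by
          rw [Real.div_rpow hNpos.le (Real.sqrt_nonneg _), rpow_three_half hNpos.le, hsT,
            ← Real.rpow_mul hTpos.le]
          norm_num
        rw [h2]
        apply le_of_eq
        calc Cb * T ^ (3 / 4 - 1 / 42 + e) * (N * Real.sqrt N / T ^ (3 / 4 : ℝ))
            = Cb * (T ^ (3 / 4 - 1 / 42 + e) / T ^ (3 / 4 : ℝ) * (N * Real.sqrt N)) := by ring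
          _ = Cb * (T ^ (-(1 / 42) + e : ℝ) * (N * Real.sqrt N)) := by
              congr 2
              rw [← Real.rpow_sub hTpos]
              congr 1
              ring
      · push Not at hbig
        obtain ⟨hcont, hmeas⟩ := (MB T G t2 c2 hG2T).2 N u a hj1 hj
        have hb := cheb hcont hmeas hu (MV T G N a t1 c1 hG2T hj1 hj ha)
        refine hb.trans ?_
        refine le_trans ?_ (hZ (CM / e) hCMe (by linarith) (-(1 / 42) + e) (by linarith))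
        have h2 : Real.sqrt (N * T) ≤ T ^ (-(1 / 42) : ℝ) * (N * Real.sqrt N) := by
          rw [Real.sqrt_mul hNpos.le, hsT]
          have h3 : T ^ (1 / 2 : ℝ) ≤ T ^ (-(1 / 42) : ℝ) * N := by
            calc T ^ (1 / 2 : ℝ) = T ^ (-(1 / 42) : ℝ) * T ^ (1 / 2 + 1 / 42 : ℝ) := by
                  rw [← Real.rpow_add hTpos]; congr 1; ring
              _ ≤ T ^ (-(1 / 42) : ℝ) * N := by gcongr
          calc Real.sqrt N * T ^ (1 / 2 : ℝ) ≤ Real.sqrt N * (T ^ (-(1 / 42) : ℝ) * N) := by gcongr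
            _ = _ := by ring
        calc CM * Real.sqrt (N * T) * Real.log T
            ≤ CM * (T ^ (-(1 / 42) : ℝ) * (N * Real.sqrt N)) * (T ^ e / e) := by gcongr
          _ = CM / e * (T ^ (-(1 / 42) : ℝ) * T ^ e * (N * Real.sqrt N)) := by ring
          _ = CM / e * (T ^ (-(1 / 42) + e : ℝ) * (N * Real.sqrt N)) := by
              rw [← Real.rpow_add hTpos]
  refine h1.trans ?_
  have h2 : CJ * T ^ e * (E * (T ^ (-(1 / 42) + 10 * e : ℝ) * Y)) =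
      D * T ^ (3 / 2 - 1 / 42 + 47 / 4 * e : ℝ) / V ^ 6 := by
    have h4 : T ^ (3 / 2 - 1 / 42 + 47 / 4 * e : ℝ) =
        T ^ e * T ^ (-(1 / 42) + 10 * e : ℝ) * T ^ (3 / 2 + 3 / 4 * e : ℝ) := by
      rw [← Real.rpow_add hTpos, ← Real.rpow_add hTpos]; congr 1; ring
    rw [h4, hD, hY]; ring
  rw [h2]
  have h5 : T ^ (3 / 2 - 1 / 42 + 47 / 4 * e : ℝ) ≤ T ^ (3 / 2 - 1 / 42 + ε) := mono _ _ (by linarith)
  have h7 : 0 ≤ C := hD'.trans cD
  exact div_le_div_of_nonneg_right (mul_le_mul cD h5 (Real.rpow_nonneg hTpos.le _) h7) (by positivity)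

end Pool.Agent.Work.MP_56b8f5_nt.UV
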