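import Pool.Agent.Work.MP_56b8f5_nt.UV.Stmts
import Pool.Agent.Work.MP_56b8f5_nt.UB.I_Kn

/-!
MP_56b8f5_nt, block UV, item Kp: elementary bounds for `κ`.  helper73.
-/

open MeasureTheory Set Filter Topology

noncomputable section

namespace Pool.Agent.Work.MP_56b8f5_nt.UV

open Pool.Agent.Work.MP_56b8f5_nt.UB

namespace Kp_aux

open Kn_aux

/-- the derivative of `κ` -/
def kd (X N v : ℝ) : ℝ :=
  om1 (nn X v / N) * (nd X v / N) * nd X v + om (nn X v / N) * (Real.cosh (v / (2 * X)) / 2)

lemma nn_nonneg (X v : ℝ) : 0 ≤ nn X v := by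
  unfold nn
  have := Real.one_le_cosh (v / (2 * X))
  have h2 : 0 ≤ X ^ 2 := sq_nonneg X
  nlinarith

lemma nn_even (X v : ℝ) : nn X |v| = nn X v := by
  unfold nn
  rcases abs_choice v with h | h
  · rw [h]
  · rw [h, neg_div, Real.cosh_neg]

lemma nn_lower {X v : ℝ} (hX : 0 < X) : v ^ 2 / 4 ≤ nn X v := by
  rw [← nn_even, ← sq_abs]
  unfold nn
  rw [cosh_sub_one]
  set w := |v| with hw
  have hw0 : 0 ≤ w := abs_nonneg v
  have h0 : 0 ≤ w / (2 * X) / 2 := by positivity
  have h1 : w / (2 * X) / 2 ≤ Real.sinh (w / (2 * X) / 2) := Real.self_le_sinh_iff.2 h0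
  have h2 : (w / (2 * X) / 2) ^ 2 ≤ Real.sinh (w / (2 * X) / 2) ^ 2 := by gcongr
  have h3 : 2 * X ^ 2 * (2 * (w / (2 * X) / 2) ^ 2) = w ^ 2 / 4 := by
    field_simp
    ring
  have h4 : 0 < 2 * X ^ 2 := by positivity
  rw [← h3]
  gcongr

lemma exp_sub_one_le {t : ℝ} (h0 : 0 ≤ t) (h1 : t ≤ 1) : Real.exp t - 1 ≤ 2 * t := by
  have h := Real.abs_exp_sub_one_le (x := t) (by rw [abs_of_nonneg h0]; exact h1)
  rw [abs_of_nonneg h0] at h
  exact (le_abs_self _).trans h

lemma nn_upper {X v : ℝ} (hX : 0 < X) (hv : (v / (2 * X)) ^ 2 ≤ 2) : nn X v ≤ v ^ 2 / 2 := by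
  unfold nn
  have h1 := Real.cosh_le_exp_half_sq (v / (2 * X))
  have h2 := exp_sub_one_le (t := (v / (2 * X)) ^ 2 / 2) (by positivity) (by linarith)
  have h3 : Real.cosh (v / (2 * X)) - 1 ≤ 2 * ((v / (2 * X)) ^ 2 / 2) := by linarith
  have h4 : 2 * X ^ 2 * (2 * ((v / (2 * X)) ^ 2 / 2)) = v ^ 2 / 2 := by
    field_simp
  rw [← h4]
  have h5 : 0 < 2 * X ^ 2 := by positivity
  gcongr

lemma nd_sq {X v : ℝ} (hX : 0 < X) : nd X v ^ 2 = nn X v * (1 + nn X v / (4 * X ^ 2)) := by
  unfold nd nn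
  have h1 : Real.sinh (v / (2 * X)) ^ 2 = (Real.cosh (v / (2 * X)) - 1) *
      (Real.cosh (v / (2 * X)) + 1) := by
    have := Real.cosh_sq (v / (2 * X))
    nlinarith
  rw [mul_pow, h1]
  field_simp
  ring

end Kp_aux

open Kn_aux Kp_aux in
theorem iKp (hKa : UB.StKa) : StKp := by
  obtain ⟨M, hM0, hM⟩ := bdd_of_zero om1_cont (fun u hu => om1_zero (hu.imp le_of_lt le_of_lt))
  refine ⟨100 + 9 * M, by linarith, ?_⟩
  intro X N hN hX hNX
  obtain ⟨-, -, hdn, hdd, -, -, -⟩ := hKa X hX
  have hN0 : 0 < N := by linarith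
  have hX2 : 0 < X ^ 2 := by positivity
  have hNX1 : 100 * N ≤ X ^ 2 := by nlinarith [mul_nonneg hM0 hN0.le]
  set s := Real.sqrt N with hs
  have hs1 : 1 ≤ s := by
    rw [hs, show (1 : ℝ) = Real.sqrt 1 by simp]
    exact Real.sqrt_le_sqrt hN
  have hss : s ^ 2 = N := Real.sq_sqrt hN0.le
  have hcn : Continuous (nn X) := continuous_iff_continuousAt.2 fun v => (hdn v).continuousAt
  have hcd : Continuous (nd X) := continuous_iff_continuousAt.2 fun v => (hdd v).continuousAt
  -- zero values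
  have hz : ∀ v, (nn X v / N ≤ 1 / 2 ∨ 5 / 2 ≤ nn X v / N) → kap X N v = 0 ∧ kd X N v = 0 := by
    intro v hv
    unfold kap kd
    rw [om_zero hv, om1_zero hv]
    constructor <;> ring
  refine ⟨kd X N, ?_, ?_, ?_, ?_⟩
  · intro v
    have h1 : HasDerivAt (fun y => nn X y / N) (nd X v / N) v := (hdn v).div_const N
    have h2 : HasDerivAt (fun y => om (nn X y / N)) (om1 (nn X v / N) * (nd X v / N)) v :=
      (dom (nn X v / N)).comp v h1
    exact h2.mul (hdd v)
  · have e1 : Continuous fun v => nn X v / N := hcn.div_const N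
    have e2 : Continuous fun v : ℝ => Real.cosh (v / (2 * X)) / 2 :=
      (Real.continuous_cosh.comp (continuous_id.div_const _)).div_const 2
    exact (((om1_cont.comp e1).mul (hcd.div_const N)).mul hcd).add ((om_cont.comp e1).mul e2)
  · intro v
    by_cases hv : 5 / 2 ≤ nn X v / N
    · obtain ⟨h1, h2⟩ := hz v (Or.inr hv)
      rw [h1, h2, abs_zero]
      exact ⟨by positivity, by positivity⟩
    · rw [not_le, div_lt_iff₀ hN0] at hv
      have hn0 := nn_nonneg X v
      have hq : nn X v / (4 * X ^ 2) ≤ 1 := by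
        rw [div_le_one (by positivity)]
        linarith
      have hd2 : nd X v ^ 2 ≤ 9 * N := by
        rw [nd_sq hX]
        nlinarith
      have hd : |nd X v| ≤ 3 * s := by
        apply abs_le_of_sq_le_sq _ (by positivity)
        nlinarith
      have hc : Real.cosh (v / (2 * X)) ≤ 2 := by
        have h1 : nn X v = 2 * X ^ 2 * (Real.cosh (v / (2 * X)) - 1) := rfl
        by_contra h
        rw [not_le] at h
        have h2 : 2 * X ^ 2 * 1 ≤ 2 * X ^ 2 * (Real.cosh (v / (2 * X)) - 1) := by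
          gcongr
          linarith
        linarith
      have hc0 : 0 < Real.cosh (v / (2 * X)) := Real.cosh_pos _
      have ho0 := om_nonneg (nn X v / N)
      have ho1 := om_le_one (nn X v / N)
      constructor
      · unfold kap
        rw [abs_mul, abs_of_nonneg ho0]
        calc om (nn X v / N) * |nd X v| ≤ 1 * (3 * s) := by gcongr
          _ ≤ (100 + 9 * M) * s := by nlinarith
      · unfold kd
        have h3 : |om1 (nn X v / N) * (nd X v / N) * nd X v| ≤ M * 9 := by
          have h4 : om1 (nn X v / N) * (nd X v / N) * nd X v =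
              om1 (nn X v / N) * (nd X v ^ 2 / N) := by ring
          rw [h4, abs_mul, abs_of_nonneg (a := nd X v ^ 2 / N) (by positivity)]
          have h5 : nd X v ^ 2 / N ≤ 9 := by
            rw [div_le_iff₀ hN0]
            exact hd2
          have h6 := hM (nn X v / N)
          gcongr
        have h7 : |om (nn X v / N) * (Real.cosh (v / (2 * X)) / 2)| ≤ 1 * 1 := by
          rw [abs_mul, abs_of_nonneg ho0, abs_of_nonneg (by positivity)]
          gcongr
          linarith
        refine (abs_add_le _ _).trans ?_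
        linarith
  · intro v hv
    rcases hv with hv | hv
    · apply hz v (Or.inl _)
      have h1 : v ^ 2 ≤ N := by
        rw [← sq_abs, ← hss]
        gcongr
      have h2 : (v / (2 * X)) ^ 2 ≤ 2 := by
        rw [div_pow, div_le_iff₀ (by positivity)]
        nlinarith
      have h3 := nn_upper hX h2
      rw [div_le_iff₀ hN0]
      linarith
    · apply hz v (Or.inr _)
      have h1 : 16 * N ≤ v ^ 2 := by
        rw [← sq_abs, ← hss]
        have h2 : (4 * s) ^ 2 ≤ |v| ^ 2 := by gcongr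
        nlinarith
      have h3 := nn_lower (X := X) (v := v) hX
      rw [le_div_iff₀ hN0]
      linarith

end Pool.Agent.Work.MP_56b8f5_nt.UV
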