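import Mathlib
import Pool.Agent.Work.MP_56b8f5_nt.UV.Stmts

/-!
Block UV, item L2: the large value theorem.
-/

open MeasureTheory Set Filter Topology

noncomputable section

namespace Pool.Agent.Work.MP_56b8f5_nt.UV

open Pool.Agent.Work.MP_56b8f5_nt.UB

namespace L2_aux

lemma Lq_ge_one (N : ℝ) (hN : 1 ≤ N) : 1 ≤ Lq N := by
  unfold Lq
  rw [Real.le_log_iff_exp_le (by linarith)]
  have := Real.exp_one_lt_d9
  linarith

lemma core {s v R M L K A η c2 ce Q Es : ℝ} (hs : 0 < s) (hv : 0 < v) (hR : 0 < R) (hM : 0 < M)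
    (hL : 1 ≤ L) (hK : 0 < K) (hA : 0 < A) (hη : 0 < η) (hηv : η * v = s ^ 3) (hc2 : 1 ≤ c2)
    (hce : 1 ≤ ce) (hQ : 0 ≤ Q) (hQ4 : Q ^ 4 = s ^ 12 * M ^ 3 * L * R ^ 3 * Es)
    (hEs : Es = ce * (s ^ 2 * R ^ 3 * A / v + L ^ 2 * K * s ^ 6 * R / v ^ 2))
    (hD : v * R ^ 2 ≤ c2 * (s ^ 3 * R + Q)) :
    R ≤ 2 * c2 * η ∨ s * R ^ 2 ≤ 32 * (c2 ^ 4 * ce) * (L * (η ^ 5 * M ^ 3 * A)) ∨
      R ^ 4 ≤ 32 * (c2 ^ 4 * ce) * (L ^ 3 * (η ^ 6 * M ^ 3 * K)) := by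
  have hc20 : 0 < c2 := by linarith
  have hce0 : 0 < ce := by linarith
  have hL0 : 0 < L := by linarith
  by_cases h1 : Q ≤ s ^ 3 * R
  · left
    have h2 : v * R ^ 2 ≤ c2 * (s ^ 3 * R + s ^ 3 * R) :=
      hD.trans (mul_le_mul_of_nonneg_left (by linarith) hc20.le)
    rw [← hηv] at h2
    have h3 : (v * R) * R ≤ (v * R) * (2 * c2 * η) := by nlinarith [h2]
    exact le_of_mul_le_mul_left h3 (by positivity)
  · right
    push Not at h1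
    have h2 : v * R ^ 2 ≤ 2 * c2 * Q := by
      have : c2 * (s ^ 3 * R + Q) ≤ c2 * (Q + Q) :=
        mul_le_mul_of_nonneg_left (by linarith) hc20.le
      linarith
    have h3 : (v * R ^ 2) ^ 4 ≤ (2 * c2 * Q) ^ 4 := pow_le_pow_left₀ (by positivity) h2 4
    have h4 : R ^ 3 * (v ^ 4 * R ^ 5) ≤ R ^ 3 * (16 * c2 ^ 4 * (s ^ 12 * M ^ 3 * L * Es)) := by
      calc R ^ 3 * (v ^ 4 * R ^ 5) = (v * R ^ 2) ^ 4 := by ring
        _ ≤ (2 * c2 * Q) ^ 4 := h3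
        _ = 16 * c2 ^ 4 * Q ^ 4 := by ring
        _ = R ^ 3 * (16 * c2 ^ 4 * (s ^ 12 * M ^ 3 * L * Es)) := by rw [hQ4]; ring
    have h5 : v ^ 4 * R ^ 5 ≤ 16 * c2 ^ 4 * (s ^ 12 * M ^ 3 * L * Es) :=
      le_of_mul_le_mul_left h4 (by positivity)
    obtain ⟨P1, hP1⟩ : ∃ P1, P1 = s ^ 2 * R ^ 3 * A / v := ⟨_, rfl⟩
    obtain ⟨P2, hP2⟩ : ∃ P2, P2 = L ^ 2 * K * s ^ 6 * R / v ^ 2 := ⟨_, rfl⟩
    rw [← hP1, ← hP2] at hEs
    have hP1v : P1 * v = s ^ 2 * R ^ 3 * A := by rw [hP1]; field_simp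
    have hP2v : P2 * v ^ 2 = L ^ 2 * K * s ^ 6 * R := by rw [hP2]; field_simp
    rcases le_total P2 P1 with h | h
    · left
      have h6 : Es ≤ 2 * ce * P1 := by rw [hEs]; nlinarith
      have h7 : v ^ 4 * R ^ 5 ≤ 16 * c2 ^ 4 * (s ^ 12 * M ^ 3 * L * (2 * ce * P1)) :=
        h5.trans (by gcongr)
      have h8 : (v * η ^ 5) * (v ^ 4 * R ^ 5) ≤
          (v * η ^ 5) * (16 * c2 ^ 4 * (s ^ 12 * M ^ 3 * L * (2 * ce * P1))) :=
        mul_le_mul_of_nonneg_left h7 (by positivity)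
      have h9 : (s ^ 14 * R ^ 3) * (s * R ^ 2) ≤
          (s ^ 14 * R ^ 3) * (32 * (c2 ^ 4 * ce) * (L * (η ^ 5 * M ^ 3 * A))) := by
        calc (s ^ 14 * R ^ 3) * (s * R ^ 2) = (s ^ 3) ^ 5 * R ^ 5 := by ring
          _ = (η * v) ^ 5 * R ^ 5 := by rw [hηv]
          _ = (v * η ^ 5) * (v ^ 4 * R ^ 5) := by ring
          _ ≤ (v * η ^ 5) * (16 * c2 ^ 4 * (s ^ 12 * M ^ 3 * L * (2 * ce * P1))) := h8
          _ = η ^ 5 * (32 * c2 ^ 4 * (s ^ 12 * M ^ 3 * L * (ce * (P1 * v)))) := by ring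
          _ = (s ^ 14 * R ^ 3) * (32 * (c2 ^ 4 * ce) * (L * (η ^ 5 * M ^ 3 * A))) := by
            rw [hP1v]; ring
      exact le_of_mul_le_mul_left h9 (by positivity)
    · right
      have h6 : Es ≤ 2 * ce * P2 := by rw [hEs]; nlinarith
      have h7 : v ^ 4 * R ^ 5 ≤ 16 * c2 ^ 4 * (s ^ 12 * M ^ 3 * L * (2 * ce * P2)) :=
        h5.trans (by gcongr)
      have h8 : (v ^ 2 * η ^ 6) * (v ^ 4 * R ^ 5) ≤
          (v ^ 2 * η ^ 6) * (16 * c2 ^ 4 * (s ^ 12 * M ^ 3 * L * (2 * ce * P2))) :=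
        mul_le_mul_of_nonneg_left h7 (by positivity)
      have h9 : (s ^ 18 * R) * R ^ 4 ≤
          (s ^ 18 * R) * (32 * (c2 ^ 4 * ce) * (L ^ 3 * (η ^ 6 * M ^ 3 * K))) := by
        calc (s ^ 18 * R) * R ^ 4 = (s ^ 3) ^ 6 * R ^ 5 := by ring
          _ = (η * v) ^ 6 * R ^ 5 := by rw [hηv]
          _ = (v ^ 2 * η ^ 6) * (v ^ 4 * R ^ 5) := by ring
          _ ≤ (v ^ 2 * η ^ 6) * (16 * c2 ^ 4 * (s ^ 12 * M ^ 3 * L * (2 * ce * P2))) := h8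
          _ = η ^ 6 * (32 * c2 ^ 4 * (s ^ 12 * M ^ 3 * L * (ce * (P2 * v ^ 2)))) := by ring
          _ = (s ^ 18 * R) * (32 * (c2 ^ 4 * ce) * (L ^ 3 * (η ^ 6 * M ^ 3 * K))) := by
            rw [hP2v]; ring
      exact le_of_mul_le_mul_left h9 (by positivity)

end L2_aux

open L2_aux in
theorem iL2 (hD2 : StD2) (hEn : StEn) (hGs : StGs) : StL2 := by
  obtain ⟨c2, hc2, H2⟩ := hD2
  obtain ⟨ce, hce, He⟩ := hEn c2 hc2
  obtain ⟨cg, hcg, Hg⟩ := hGs c2 hc2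
  have hc20 : 0 < c2 := by linarith
  have hk0 : 0 < c2 ^ 4 * ce := by positivity
  refine ⟨5 * c2 + cg + ce + 600 * (c2 ^ 4 * ce), by linarith, ?_⟩
  intro X N M V K B η a W hN hX hM hMN hM3 hV hη hCV hK hηK hB hB1 hB2 hB3 hB4 ha hW hWL hWV
  obtain ⟨C, hC⟩ : ∃ C, C = 5 * c2 + cg + ce + 600 * (c2 ^ 4 * ce) := ⟨_, rfl⟩
  rw [← hC] at hMN hCV hηK hB1 hB2 hB3 hB4
  have hC1 : 5 * c2 ≤ C := by rw [hC]; linarith
  have hCg : cg ≤ C := by rw [hC]; linarith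
  have hCe : ce ≤ C := by rw [hC]; linarith
  have hCk : 600 * (c2 ^ 4 * ce) ≤ C := by rw [hC]; linarith
  have hC0 : 0 < C := by linarith
  have hN0 : 0 < N := by linarith
  have hM0 : 0 < M := by linarith
  have hK0 : 0 < K := by linarith
  have hL := Lq_ge_one N hN
  have hL0 : 0 < Lq N := by linarith
  have hs0 : 0 < Real.sqrt N := Real.sqrt_pos.mpr hN0
  have hss : Real.sqrt N ^ 2 = N := Real.sq_sqrt hN0.le
  have hη0 : 0 < η := by rw [hη]; positivity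
  have hMN0 : 0 < M * N := by positivity
  have hL23 : Lq N ^ 2 ≤ Lq N ^ 3 := pow_le_pow_right₀ hL (by norm_num)
  have hL13 : Lq N ≤ Lq N ^ 3 := by
    calc Lq N = Lq N ^ 1 := (pow_one _).symm
      _ ≤ Lq N ^ 3 := pow_le_pow_right₀ hL (by norm_num)
  have hL03 : 1 ≤ Lq N ^ 3 := one_le_pow₀ hL
  by_contra hcon
  push Not at hcon
  have hT0 : 0 ≤ M * (η ^ 3 * (N / X) ^ 2 / K ^ 2 + (η ^ 3 + η ^ 5) / K ^ 4) := by positivity
  obtain ⟨W', hW'm, hW'W, hW'R, hW'loc⟩ := Hg X N M V K B η a W hN hX hM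
    (le_trans (mul_le_mul_of_nonneg_right hCg hMN0.le) hMN) hV hη hK
    (le_trans (mul_le_mul_of_nonneg_right hCg hη0.le) hηK) hB
    (le_trans (by gcongr) hB1) (le_trans (by gcongr) hB4) ha hW hWL hWV hcon
  have hW'L : W' ⊆ Icc 0 (M * Real.sqrt N) := hW'W.trans hWL
  have hW'V : ∀ x ∈ W', V ≤ ‖SS X N a x‖ := fun x hx => hWV x (hW'W hx)
  have HE := He X N M V K a W' hN hX hM
    (le_trans (mul_le_mul_of_nonneg_right hCe hMN0.le) hMN) hM3 hV hK ha hW'm hW'L hW'V hW'loc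
  obtain ⟨R, hR⟩ : ∃ R, R = Rr W' := ⟨_, rfl⟩
  have hRB : R = B / 2 := by rw [hR, hW'R]
  have hR0 : 0 < R := by rw [hRB]; linarith
  rw [← hR] at HE
  obtain ⟨A, hA⟩ : ∃ A, A = 1 + Real.sqrt M * N / X := ⟨_, rfl⟩
  have hA0 : 0 < A := by rw [hA]; positivity
  rw [← hA] at HE hB3
  obtain ⟨Es, hEs⟩ : ∃ Es, Es = ce * (N * R ^ 3 * A / V ^ 2 +
    Lq N ^ 2 * K * N ^ 3 * R / V ^ 4) := ⟨_, rfl⟩
  rw [← hEs] at HE
  have hEs0 : 0 ≤ Es := by rw [hEs]; positivity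
  have hMleN : M ≤ N := by
    calc M = M ^ 1 := (pow_one _).symm
      _ ≤ M ^ 3 := pow_le_pow_right₀ hM (by norm_num)
      _ ≤ N := hM3
  have hcN : c2 * N ≤ X ^ 2 := by
    calc c2 * N ≤ C * (M * N) := by
          apply mul_le_mul (by linarith) _ hN0.le hC0.le
          nlinarith
      _ ≤ X ^ 2 := hMN
  have HD := H2 X N M V Es a W' hN hX hcN hM hMleN hV (by linarith) ha hW'm hW'L hW'V hEs0 HE
  rw [← hR] at HD
  obtain ⟨Z, hZ⟩ : ∃ Z, Z = N ^ 6 * M ^ 3 * Lq N * R ^ 3 * Es := ⟨_, rfl⟩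
  have hZ0 : 0 ≤ Z := by rw [hZ]; positivity
  rw [← hZ] at HD
  have hQ4 : (Z ^ (1 / 4 : ℝ)) ^ 4 = Z := by
    rw [← Real.rpow_natCast, ← Real.rpow_mul hZ0]
    norm_num
  obtain ⟨s, hs⟩ : ∃ s, s = Real.sqrt N := ⟨_, rfl⟩
  rw [← hs] at hs0 hss hη hB3 HD
  obtain ⟨v, hv⟩ : ∃ v, v = V ^ 2 := ⟨_, rfl⟩
  have hv0 : 0 < v := by rw [hv]; positivity
  have hηv : η * v = s ^ 3 := by
    rw [hη, ← hv, div_mul_cancel₀ _ hv0.ne', ← hss]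
    ring
  have hcore := core (s := s) (v := v) (R := R) (M := M) (L := Lq N) (K := K) (A := A) (η := η)
    (c2 := c2) (ce := ce) (Q := Z ^ (1 / 4 : ℝ)) (Es := Es) hs0 hv0 hR0 hM0 hL hK0 hA0 hη0 hηv
    hc2 hce (Real.rpow_nonneg hZ0 _) (by rw [hQ4, hZ, ← hss]; ring)
    (by
      rw [hEs, hv, ← hss]
      ring)
    (by
      rw [hv]
      have e1 : s ^ 3 * R = N * s * R := by rw [← hss]; ring
      rw [e1]
      exact HD)
  rcases hcore with h | h | h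
  · have h1 : B ≤ 4 * c2 * η := by
      rw [hRB] at h
      linarith
    have h2 : C * Lq N ^ 3 * η ≤ 4 * c2 * η := hB1.trans h1
    have h3 : C * Lq N ^ 3 ≤ 4 * c2 := le_of_mul_le_mul_right h2 hη0
    have h4 : C * 1 ≤ C * Lq N ^ 3 := mul_le_mul_of_nonneg_left hL03 hC0.le
    linarith
  · have hE0 : 0 < η ^ 5 * M ^ 3 * A := by positivity
    have h1 : s * B ^ 2 ≤ 128 * (c2 ^ 4 * ce) * (Lq N * (η ^ 5 * M ^ 3 * A)) := by
      have e : s * B ^ 2 = 4 * (s * R ^ 2) := by rw [hRB]; ring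
      rw [e]
      linarith
    have h2 : C * Lq N ^ 3 * (η ^ 5 * M ^ 3 * A) ≤
        (128 * (c2 ^ 4 * ce) * Lq N) * (η ^ 5 * M ^ 3 * A) := by
      linarith
    have h3 : C * Lq N ^ 3 ≤ 128 * (c2 ^ 4 * ce) * Lq N := le_of_mul_le_mul_right h2 hE0
    have h4 : C * Lq N ≤ C * Lq N ^ 3 := mul_le_mul_of_nonneg_left hL13 hC0.le
    have h5 : C * Lq N ≤ 128 * (c2 ^ 4 * ce) * Lq N := h4.trans h3
    have h6 : C ≤ 128 * (c2 ^ 4 * ce) := le_of_mul_le_mul_right h5 hL0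
    linarith
  · have hE0 : 0 < η ^ 6 * M ^ 3 * K := by positivity
    have h1 : B ^ 4 ≤ 512 * (c2 ^ 4 * ce) * (Lq N ^ 3 * (η ^ 6 * M ^ 3 * K)) := by
      have e : B ^ 4 = 16 * R ^ 4 := by rw [hRB]; ring
      rw [e]
      linarith
    have h2 : (Lq N ^ 3 * (η ^ 6 * M ^ 3 * K)) * C ≤
        (Lq N ^ 3 * (η ^ 6 * M ^ 3 * K)) * (512 * (c2 ^ 4 * ce)) := by
      linarith
    have h3 : C ≤ 512 * (c2 ^ 4 * ce) := le_of_mul_le_mul_left h2 (by positivity)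
    linarith

end Pool.Agent.Work.MP_56b8f5_nt.UV
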