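import Pool.Agent.Work.MP_56b8f5_nt.UV.Stmts
import Pool.Agent.Work.MP_56b8f5_nt.UB.I_Ln

/-!
MP_56b8f5_nt, block UV, item Lx: second order expansion of the phase `FF n` in `ξ = √s`.
-/

set_option autoImplicit false

open MeasureTheory Set Filter Topology

noncomputable section

namespace Pool.Agent.Work.MP_56b8f5_nt.UV

open Pool.Agent.Work.MP_56b8f5_nt.UB

namespace Lx_aux

open Pool.Agent.Work.MP_56b8f5_nt.UB.Ln_aux

/-- derivative of `z / √(1+z²)` -/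
lemma hasDerivAt_quot (z : ℝ) : HasDerivAt (fun t : ℝ => t / Real.sqrt (1 + t ^ 2))
    (1 / Real.sqrt (1 + z ^ 2) ^ 3) z := by
  have hp : 0 < 1 + z ^ 2 := by positivity
  have hs : 0 < Real.sqrt (1 + z ^ 2) := Real.sqrt_pos.mpr hp
  have h1 : HasDerivAt (fun t : ℝ => 1 + t ^ 2) (2 * z) z := by
    have := (hasDerivAt_pow 2 z).const_add (1 : ℝ)
    refine HasDerivAt.congr_deriv (f := fun t : ℝ => 1 + t ^ 2) this ?_
    norm_num
  have h2 := h1.sqrt hp.ne'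
  have h3 := (hasDerivAt_id z).div h2 hs.ne'
  refine HasDerivAt.congr_deriv (f := fun t : ℝ => t / Real.sqrt (1 + t ^ 2)) h3 ?_
  have hss : Real.sqrt (1 + z ^ 2) ^ 2 = 1 + z ^ 2 := Real.sq_sqrt hp.le
  simp only [id]
  rw [div_eq_div_iff (by positivity) (by positivity)]
  have e : 1 * Real.sqrt (1 + z ^ 2) - z * (2 * z / (2 * Real.sqrt (1 + z ^ 2))) =
      1 / Real.sqrt (1 + z ^ 2) := by
    field_simp
    rw [hss]
    ring
  rw [e]
  field_simp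

/-- `h(z) - z³/3` -/
def kf (z : ℝ) : ℝ := Real.arsinh z - z / Real.sqrt (1 + z ^ 2) - z ^ 3 / 3

lemma hasDerivAt_kf (z : ℝ) : HasDerivAt kf
    ((Real.sqrt (1 + z ^ 2))⁻¹ - 1 / Real.sqrt (1 + z ^ 2) ^ 3 - z ^ 2) z := by
  have h1 := ((Real.hasDerivAt_arsinh z).sub (hasDerivAt_quot z)).sub
    ((hasDerivAt_pow 3 z).div_const 3)
  refine HasDerivAt.congr_deriv (f := kf) h1 ?_
  norm_num

lemma kf_deriv_bound (c : ℝ) :
    |(Real.sqrt (1 + c ^ 2))⁻¹ - 1 / Real.sqrt (1 + c ^ 2) ^ 3 - c ^ 2| ≤ 2 * c ^ 4 := by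
  have hp : 0 < 1 + c ^ 2 := by positivity
  set s := Real.sqrt (1 + c ^ 2) with hs
  have hs0 : 0 < s := Real.sqrt_pos.mpr hp
  have hss : s ^ 2 = 1 + c ^ 2 := Real.sq_sqrt hp.le
  have hs1 : 1 ≤ s := by nlinarith [sq_nonneg c]
  have hc : c ^ 2 = s ^ 2 - 1 := by linarith
  have e1 : s⁻¹ - 1 / s ^ 3 - c ^ 2 = -(c ^ 2 * ((s ^ 3 - 1) / s ^ 3)) := by
    have : s⁻¹ - 1 / s ^ 3 = (s ^ 2 - 1) / s ^ 3 := by
      field_simp
    rw [this, ← hc]
    field_simp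
    ring
  rw [e1, abs_neg]
  have h3 : 1 ≤ s ^ 3 := one_le_pow₀ hs1
  have h4 : 0 ≤ (s ^ 3 - 1) / s ^ 3 := div_nonneg (by linarith) (by positivity)
  rw [abs_of_nonneg (mul_nonneg (sq_nonneg c) h4)]
  have h5 : (s ^ 3 - 1) / s ^ 3 ≤ 2 * c ^ 2 := by
    rw [div_le_iff₀ (by positivity), hc]
    have h6 : s ^ 3 - 1 = (s - 1) * (s ^ 2 + s + 1) := by ring
    have h7 : 2 * (s ^ 2 - 1) * s ^ 3 = (s - 1) * (2 * (s + 1) * s ^ 3) := by ring
    rw [h6, h7]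
    apply mul_le_mul_of_nonneg_left _ (by linarith)
    have h8 : s ≤ s ^ 3 := by nlinarith [sq_nonneg s]
    have h9 : s ^ 2 ≤ s ^ 4 := by nlinarith [sq_nonneg s]
    nlinarith
  calc c ^ 2 * ((s ^ 3 - 1) / s ^ 3) ≤ c ^ 2 * (2 * c ^ 2) :=
        mul_le_mul_of_nonneg_left h5 (sq_nonneg c)
    _ = 2 * c ^ 4 := by ring

lemma kf_bound (z : ℝ) (hz : 0 < z) : |kf z| ≤ 2 * z ^ 5 := by
  obtain ⟨c, hc, hc2⟩ := exists_hasDerivAt_eq_slope kf _ hz
    (fun t _ => (hasDerivAt_kf t).continuousAt.continuousWithinAt)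
    (fun t _ => hasDerivAt_kf t)
  have h0 : kf 0 = 0 := by simp [kf]
  rw [h0, sub_zero, sub_zero] at hc2
  have h1 : kf z = z * ((Real.sqrt (1 + c ^ 2))⁻¹ - 1 / Real.sqrt (1 + c ^ 2) ^ 3 - c ^ 2) := by
    rw [hc2]
    field_simp
  rw [h1, abs_mul, abs_of_pos hz]
  have h2 := kf_deriv_bound c
  have h3 : c ^ 4 ≤ z ^ 4 := pow_le_pow_left₀ hc.1.le hc.2.le 4
  calc z * |(Real.sqrt (1 + c ^ 2))⁻¹ - 1 / Real.sqrt (1 + c ^ 2) ^ 3 - c ^ 2|
      ≤ z * (2 * z ^ 4) := mul_le_mul_of_nonneg_left (by linarith) hz.le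
    _ = 2 * z ^ 5 := by ring

/-- the second difference of the phase after subtraction of the main terms -/
def F1 (X n ξ : ℝ) : ℝ := G n ξ - (ξ - X) * vv X n -
  n * Real.sqrt n / (12 * X ^ 2) * (ξ - 2 * X + X ^ 2 * ξ⁻¹)

def F2 (X n ξ : ℝ) : ℝ := vv ξ n - vv X n - n * Real.sqrt n / (12 * X ^ 2) * (1 - X ^ 2 * (ξ ^ 2)⁻¹)

lemma hasDerivAt_F1 (X n ξ : ℝ) (hn : 0 < n) (hξ : 0 < ξ) :
    HasDerivAt (F1 X n) (F2 X n ξ) ξ := by
  have h1 := hasDerivAt_G n ξ hn hξ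
  have h2 : HasDerivAt (fun t : ℝ => (t - X) * vv X n) (vv X n) ξ := by
    have := ((hasDerivAt_id ξ).sub_const X).mul_const (vv X n)
    refine HasDerivAt.congr_deriv (f := fun t : ℝ => (t - X) * vv X n) this ?_
    ring
  have h3 : HasDerivAt (fun t : ℝ => t - 2 * X + X ^ 2 * t⁻¹) (1 - X ^ 2 * (ξ ^ 2)⁻¹) ξ := by
    have := ((hasDerivAt_id ξ).sub_const (2 * X)).add ((hasDerivAt_inv hξ.ne').const_mul (X ^ 2))
    refine HasDerivAt.congr_deriv (f := fun t : ℝ => t - 2 * X + X ^ 2 * t⁻¹) this ?_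
    ring
  have h4 := (h1.sub h2).sub (h3.const_mul (n * Real.sqrt n / (12 * X ^ 2)))
  exact h4

lemma hasDerivAt_F2 (X n ξ : ℝ) (hX : 0 < X) (hξ : 0 < ξ) :
    HasDerivAt (F2 X n) (4 * Real.arsinh (Real.sqrt n / (2 * ξ)) -
      4 * ((Real.sqrt n / (2 * ξ)) / Real.sqrt (1 + (Real.sqrt n / (2 * ξ)) ^ 2)) -
      n * Real.sqrt n / (6 * ξ ^ 3)) ξ := by
  have h1 := hasDerivAt_vv n ξ hξ
  have h2 : HasDerivAt (fun t : ℝ => (t ^ 2)⁻¹) (-(2 * ξ) / (ξ ^ 2) ^ 2) ξ := by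
    have h := (hasDerivAt_pow 2 ξ).inv (by positivity)
    refine HasDerivAt.congr_deriv (f := fun t : ℝ => (t ^ 2)⁻¹) h ?_
    norm_num
  have h3 := ((h2.const_mul (X ^ 2)).const_sub 1).const_mul (n * Real.sqrt n / (12 * X ^ 2))
  have h4 := (h1.sub_const (vv X n)).sub h3
  refine HasDerivAt.congr_deriv (f := F2 X n) h4 ?_
  congr 1
  field_simp
  ring

end Lx_aux

open Lx_aux Pool.Agent.Work.MP_56b8f5_nt.UB.Ln_aux in
/-- ITEM Lx. -/
theorem iLx : StLx := by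
  intro X x n hX hx hn
  rcases hx.eq_or_lt with rfl | hx0
  · simp
  have hXx : 0 < X + x := by linarith
  rw [FF_eq n (X + x) hn hXx, FF_eq n X hn hX]
  have hlt : X < X + x := by linarith
  have hpos : ∀ t ∈ Icc X (X + x), 0 < t := fun t ht => lt_of_lt_of_le hX ht.1
  obtain ⟨c, hc, hc2⟩ := exists_hasDerivAt_eq_slope (F1 X n) (F2 X n) hlt
    (fun t ht => (hasDerivAt_F1 X n t hn (hpos t ht)).continuousAt.continuousWithinAt)
    (fun t ht => hasDerivAt_F1 X n t hn (hpos t (Ioo_subset_Icc_self ht)))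
  have e1 : F1 X n (X + x) - F1 X n X = x * F2 X n c := by
    have : X + x - X = x := by ring
    rw [this] at hc2
    rw [hc2]; field_simp
  have hXc : X < c := hc.1
  have hposc : ∀ t ∈ Icc X c, 0 < t := fun t ht => lt_of_lt_of_le hX ht.1
  obtain ⟨d, hd, hd2⟩ := exists_hasDerivAt_eq_slope (F2 X n) (fun ξ =>
      4 * Real.arsinh (Real.sqrt n / (2 * ξ)) -
      4 * ((Real.sqrt n / (2 * ξ)) / Real.sqrt (1 + (Real.sqrt n / (2 * ξ)) ^ 2)) -
      n * Real.sqrt n / (6 * ξ ^ 3)) hXc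
    (fun t ht => (hasDerivAt_F2 X n t hX (hposc t ht)).continuousAt.continuousWithinAt)
    (fun t ht => hasDerivAt_F2 X n t hX (hposc t (Ioo_subset_Icc_self ht)))
  have hdpos : 0 < d := hposc d (Ioo_subset_Icc_self hd)
  have hcX : 0 < c - X := by linarith
  have hF2X : F2 X n X = 0 := by
    unfold F2
    have : X ^ 2 * (X ^ 2)⁻¹ = 1 := by field_simp
    rw [this]
    ring
  have hsn : 0 < Real.sqrt n := Real.sqrt_pos.mpr hn
  have hnn : Real.sqrt n ^ 2 = n := Real.sq_sqrt hn.le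
  have hz : 0 < Real.sqrt n / (2 * d) := by positivity
  have e2 : F2 X n c = (c - X) * (4 * kf (Real.sqrt n / (2 * d))) := by
    rw [hF2X, sub_zero] at hd2
    have h3 : 4 * Real.arsinh (Real.sqrt n / (2 * d)) -
      4 * ((Real.sqrt n / (2 * d)) / Real.sqrt (1 + (Real.sqrt n / (2 * d)) ^ 2)) -
      n * Real.sqrt n / (6 * d ^ 3) = 4 * kf (Real.sqrt n / (2 * d)) := by
      unfold kf
      have h4 : (Real.sqrt n / (2 * d)) ^ 3 = n * Real.sqrt n / (8 * d ^ 3) := by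
        have : Real.sqrt n ^ 3 = n * Real.sqrt n := by
          calc Real.sqrt n ^ 3 = Real.sqrt n ^ 2 * Real.sqrt n := by ring
            _ = n * Real.sqrt n := by rw [hnn]
        rw [div_pow, this]
        congr 1
        ring
      rw [h4]
      field_simp
      ring
    rw [← h3, hd2]
    field_simp
  have hb := kf_bound _ hz
  have e3 : G n (X + x) - G n X - x * vv X n -
      n * Real.sqrt n * (x ^ 2 / (12 * X ^ 2 * (X + x))) = F1 X n (X + x) - F1 X n X := by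
    unfold F1
    field_simp
    ring
  rw [e3, e1, e2, abs_mul, abs_mul, abs_of_pos hx0, abs_of_pos hcX, abs_mul,
    abs_of_pos (by norm_num : (0 : ℝ) < 4)]
  have hcx : c - X ≤ x := by linarith [hc.2]
  have hzX : Real.sqrt n / (2 * d) ≤ Real.sqrt n / (2 * X) := by
    apply div_le_div_of_nonneg_left hsn.le (by positivity)
    linarith [hd.1]
  have hz5 : (Real.sqrt n / (2 * d)) ^ 5 ≤ (Real.sqrt n / (2 * X)) ^ 5 :=
    pow_le_pow_left₀ hz.le hzX 5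
  have hz6 : 8 * (Real.sqrt n / (2 * X)) ^ 5 = n ^ 2 * Real.sqrt n / X ^ 5 / 4 := by
    have : Real.sqrt n ^ 5 = n ^ 2 * Real.sqrt n := by
      calc Real.sqrt n ^ 5 = (Real.sqrt n ^ 2) ^ 2 * Real.sqrt n := by ring
        _ = n ^ 2 * Real.sqrt n := by rw [hnn]
    rw [div_pow, this]
    field_simp
    norm_num
  have hB : 0 ≤ n ^ 2 * Real.sqrt n / X ^ 5 := by positivity
  calc x * ((c - X) * (4 * |kf (Real.sqrt n / (2 * d))|))
      ≤ x * (x * (n ^ 2 * Real.sqrt n / X ^ 5)) := by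
        apply mul_le_mul_of_nonneg_left _ hx0.le
        apply mul_le_mul hcx _ (by positivity) hx0.le
        calc 4 * |kf (Real.sqrt n / (2 * d))| ≤ 8 * (Real.sqrt n / (2 * d)) ^ 5 := by linarith
          _ ≤ 8 * (Real.sqrt n / (2 * X)) ^ 5 := by linarith
          _ = n ^ 2 * Real.sqrt n / X ^ 5 / 4 := hz6
          _ ≤ n ^ 2 * Real.sqrt n / X ^ 5 := by linarith
    _ = x ^ 2 * (n ^ 2 * Real.sqrt n) / X ^ 5 := by ring

end Pool.Agent.Work.MP_56b8f5_nt.UV
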