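import Pool.Agent.Work.MP_56b8f5_nt.UV.Stmts
import Pool.Agent.Work.MP_56b8f5_nt.UB.I_MA
import Pool.Agent.Work.MP_56b8f5_nt.EM.Stmts

/-!
MP_56b8f5_nt, block UV, item MA2: all moments between 4 and 12 (adapted from UB/I_MA.lean).
-/

open MeasureTheory Set Filter Topology

noncomputable section

namespace Pool.Agent.Work.MP_56b8f5_nt.UV

open Pool.Agent.Work.MP_56b8f5_nt.UB

namespace MA2_aux

open Pool.Agent.Work.MP_56b8f5_nt.UB.MA_aux

lemma block (hJB : StJB) (hJB2 : Pool.Agent.Work.MP_56b8f5_nt.UV.StJB2) (hSup : StSup) (hPc : EM.StPc) (A e : ℝ) (hA4 : 4 ≤ A) (hA12 : A ≤ 12)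
    (he : 0 < e) (he1 : e < 1 / 100) :
    ∃ C : ℝ, 2 ≤ C ∧ ∀ T : ℝ, C ≤ T → ∫ t in T..(2 * T), ‖EM.P (T ^ 2) t‖ ^ A ≤
      C * T ^ (1 + (A - 4) / 8 - min (A - 4) (12 - A) / 168 + 12 * e) := by
  obtain ⟨Ca, hCa, hJ⟩ := hJB e he he1
  obtain ⟨Cb, hCb, hJq⟩ := hJB2 e he he1
  set C1 : ℝ := Ca + Cb with hC1d
  have hC1 : 2 ≤ C1 := by rw [hC1d]; linarith
  obtain ⟨C2, hC2, hS⟩ := hSup
  set E0 : ℝ := 1 + (A - 4) / 8 - min (A - 4) (12 - A) / 168 with hE0
  have hm1 : min (A - 4) (12 - A) ≤ A - 4 := min_le_left _ _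
  have hm2 : min (A - 4) (12 - A) ≤ 12 - A := min_le_right _ _
  have hE01 : 1 ≤ E0 := by rw [hE0]; linarith
  set K : ℝ := 2 ^ (A - 2) * C1 with hK
  have hK0 : 0 ≤ K := mul_nonneg (Real.rpow_nonneg (by norm_num) _) (by linarith)
  refine ⟨C1 + C2 + 1 + (2 / e + 1) * K, ?_, ?_⟩
  · have : 0 ≤ (2 / e + 1) * K := by positivity
    linarith
  intro T hT
  have hKe : 0 ≤ (2 / e + 1) * K := by positivity
  have hTC1 : C1 ≤ T := by linarith
  have hTC2 : C2 ≤ T := by linarith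
  have hT1 : 1 ≤ T := by linarith
  have hT0 : 0 < T := by linarith
  obtain ⟨J, hJ1, hJ2⟩ := logb T e he hT1
  have hPcc := (hPc (T ^ 2) (by nlinarith)).1
  have hW0 : 0 < T ^ e := Real.rpow_pos_of_pos hT0 _
  have hW1 : 1 ≤ T ^ e := Real.one_le_rpow hT1 he.le
  -- pointwise
  have hpt : ∀ t ∈ Icc T (2 * T), ‖EM.P (T ^ 2) t‖ ^ A ≤ (T ^ e) ^ A +
      ∑ j ∈ Finset.range J, (2 * (2 ^ j * T ^ e)) ^ (A - 2) *
        (if 2 ^ j * T ^ e ≤ ‖EM.P (T ^ 2) t‖ ∧ ‖EM.P (T ^ 2) t‖ < 2 * (2 ^ j * T ^ e) then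
          ‖EM.P (T ^ 2) t‖ ^ 2 else 0) := by
    intro t ht
    apply ptw A _ _ J (by linarith) (norm_nonneg _) hW0
    have h1 := hS T t hTC2 ht.1 ht.2
    have h2 : T ^ (1 / 4 : ℝ) ≤ T := by
      calc T ^ (1 / 4 : ℝ) ≤ T ^ (1 : ℝ) := Real.rpow_le_rpow_of_exponent_le hT1 (by norm_num)
        _ = T := Real.rpow_one T
    have h3 : (2 : ℝ) ^ J ≤ 2 ^ J * T ^ e := le_mul_of_one_le_right (by positivity) hW1
    linarith
  -- each dyadic piece
  have hpiece : ∀ j ∈ Finset.range J, (2 * (2 ^ j * T ^ e)) ^ (A - 2) * JV T (2 ^ j * T ^ e) ≤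
      K * T ^ (E0 + e) := by
    intro j _
    set V : ℝ := 2 ^ j * T ^ e with hV
    have hV0 : 0 < V := by positivity
    have hVe : T ^ e ≤ V := le_mul_of_one_le_left hW0.le (one_le_pow₀ (by norm_num))
    by_cases hVs : V ≤ T ^ (1 / 4 : ℝ)
    · obtain ⟨b1a, b2a, -⟩ := hJ T V (by linarith) hVe hVs
      have b1 : JV T V ≤ C1 * T ^ (1 + e) / V ^ 2 := by
        refine b1a.trans ?_
        apply div_le_div_of_nonneg_right _ (by positivity)
        exact mul_le_mul_of_nonneg_right (by linarith) (Real.rpow_nonneg hT0.le _)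
      have b2 : JV T V ≤ C1 * T ^ (2 + e) / V ^ 10 := by
        refine b2a.trans ?_
        apply div_le_div_of_nonneg_right _ (by positivity)
        exact mul_le_mul_of_nonneg_right (by linarith) (Real.rpow_nonneg hT0.le _)
      by_cases c1 : V ≤ T ^ (1 / 8 - 1 / 168 : ℝ)
      · apply comb T V C1 A (1 + e) ((1 / 8 - 1 / 168) * (A - 4)) (E0 + e) (JV T V) 2 hT1 hV0
          (by linarith) b1
        · rw [Real.rpow_mul hT0.le]
          have : A - 2 - ((2 : ℕ) : ℝ) = A - 4 := by push_cast; ring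
          rw [this]
          exact Real.rpow_le_rpow hV0.le c1 (by linarith)
        · rw [hE0]; linarith
      · push Not at c1
        by_cases c2 : V ≤ T ^ (1 / 8 + 1 / 168 : ℝ)
        · have b3a := hJq T V (by linarith) c1.le c2
          have b3' : JV T V ≤ C1 * T ^ (3 / 2 - 1 / 42 + e) / V ^ 6 := by
            refine b3a.trans ?_
            apply div_le_div_of_nonneg_right _ (by positivity)
            exact mul_le_mul_of_nonneg_right (by linarith) (Real.rpow_nonneg hT0.le _)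
          by_cases c3 : 8 ≤ A
          · apply comb T V C1 A (3 / 2 - 1 / 42 + e) ((1 / 8 + 1 / 168) * (A - 8)) (E0 + e)
              (JV T V) 6 hT1 hV0 (by linarith) b3'
            · rw [Real.rpow_mul hT0.le]
              have : A - 2 - ((6 : ℕ) : ℝ) = A - 8 := by push_cast; ring
              rw [this]
              exact Real.rpow_le_rpow hV0.le c2 (by linarith)
            · rw [hE0]; linarith
          · push Not at c3
            apply comb T V C1 A (3 / 2 - 1 / 42 + e) ((1 / 8 - 1 / 168) * (A - 8)) (E0 + e)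
              (JV T V) 6 hT1 hV0 (by linarith) b3'
            · rw [Real.rpow_mul hT0.le]
              have : A - 2 - ((6 : ℕ) : ℝ) = A - 8 := by push_cast; ring
              rw [this]
              exact Real.rpow_le_rpow_of_nonpos (Real.rpow_pos_of_pos hT0 _) c1.le (by linarith)
            · rw [hE0]; linarith
        · push Not at c2
          apply comb T V C1 A (2 + e) ((1 / 8 + 1 / 168) * (A - 12)) (E0 + e) (JV T V) 10 hT1 hV0
            (by linarith) b2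
          · rw [Real.rpow_mul hT0.le]
            have : A - 2 - ((10 : ℕ) : ℝ) = A - 12 := by push_cast; ring
            rw [this]
            exact Real.rpow_le_rpow_of_nonpos (Real.rpow_pos_of_pos hT0 _) c2.le (by linarith)
          · rw [hE0]; linarith
    · push Not at hVs
      have h0 : JV T V = 0 := by
        unfold JV
        have : {t : ℝ | t ∈ Icc T (2 * T) ∧ V ≤ ‖EM.P (T ^ 2) t‖ ∧ ‖EM.P (T ^ 2) t‖ < 2 * V} = ∅ := by
          ext t
          simp only [mem_ofPred_eq, mem_empty_iff_false, iff_false]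
          rintro ⟨ht, h1, _⟩
          have := hS T t hTC2 ht.1 ht.2
          linarith
        rw [this]
        simp
      rw [h0, mul_zero]
      positivity
  -- integrate
  have hle : T ≤ 2 * T := by linarith
  have hint1 : IntervalIntegrable (fun t => ‖EM.P (T ^ 2) t‖ ^ A) volume T (2 * T) :=
    (hPcc.norm.rpow_const (fun _ => Or.inr (by linarith))).intervalIntegrable _ _
  have hint2 : ∀ j ∈ Finset.range J, IntervalIntegrable (fun t => (2 * (2 ^ j * T ^ e)) ^ (A - 2) *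
        (if 2 ^ j * T ^ e ≤ ‖EM.P (T ^ 2) t‖ ∧ ‖EM.P (T ^ 2) t‖ < 2 * (2 ^ j * T ^ e) then
          ‖EM.P (T ^ 2) t‖ ^ 2 else 0)) volume T (2 * T) := by
    intro j _
    exact (intJ T (2 ^ j * T ^ e) hT0.le hPcc).1.const_mul _
  have hint3 : IntervalIntegrable (fun t => ∑ j ∈ Finset.range J, (2 * (2 ^ j * T ^ e)) ^ (A - 2) *
        (if 2 ^ j * T ^ e ≤ ‖EM.P (T ^ 2) t‖ ∧ ‖EM.P (T ^ 2) t‖ < 2 * (2 ^ j * T ^ e) then
          ‖EM.P (T ^ 2) t‖ ^ 2 else 0)) volume T (2 * T) := by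
    have h := IntervalIntegrable.sum (Finset.range J) hint2
    have hfun : (∑ j ∈ Finset.range J, fun t => (2 * (2 ^ j * T ^ e)) ^ (A - 2) *
        (if 2 ^ j * T ^ e ≤ ‖EM.P (T ^ 2) t‖ ∧ ‖EM.P (T ^ 2) t‖ < 2 * (2 ^ j * T ^ e) then
          ‖EM.P (T ^ 2) t‖ ^ 2 else 0)) = (fun t => ∑ j ∈ Finset.range J,
          (2 * (2 ^ j * T ^ e)) ^ (A - 2) *
        (if 2 ^ j * T ^ e ≤ ‖EM.P (T ^ 2) t‖ ∧ ‖EM.P (T ^ 2) t‖ < 2 * (2 ^ j * T ^ e) then
          ‖EM.P (T ^ 2) t‖ ^ 2 else 0)) := by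
      funext t
      rw [Finset.sum_apply]
    rw [← hfun]
    exact h
  have hstep : ∫ t in T..(2 * T), ‖EM.P (T ^ 2) t‖ ^ A ≤
      T * (T ^ e) ^ A + ∑ j ∈ Finset.range J, (2 * (2 ^ j * T ^ e)) ^ (A - 2) *
        JV T (2 ^ j * T ^ e) := by
    calc ∫ t in T..(2 * T), ‖EM.P (T ^ 2) t‖ ^ A ≤ ∫ t in T..(2 * T), ((T ^ e) ^ A +
          ∑ j ∈ Finset.range J, (2 * (2 ^ j * T ^ e)) ^ (A - 2) *
            (if 2 ^ j * T ^ e ≤ ‖EM.P (T ^ 2) t‖ ∧ ‖EM.P (T ^ 2) t‖ < 2 * (2 ^ j * T ^ e) then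
              ‖EM.P (T ^ 2) t‖ ^ 2 else 0)) :=
          intervalIntegral.integral_mono_on hle hint1 (intervalIntegrable_const.add hint3) hpt
      _ = T * (T ^ e) ^ A + ∑ j ∈ Finset.range J, (2 * (2 ^ j * T ^ e)) ^ (A - 2) *
            JV T (2 ^ j * T ^ e) := by
          rw [intervalIntegral.integral_add intervalIntegrable_const hint3,
            intervalIntegral.integral_const, intervalIntegral.integral_finsetSum hint2]
          congr 1
          · rw [smul_eq_mul]; ring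
          · apply Finset.sum_congr rfl
            intro j _
            rw [intervalIntegral.integral_const_mul, (intJ T (2 ^ j * T ^ e) hT0.le hPcc).2]
  have hsum : ∑ j ∈ Finset.range J, (2 * (2 ^ j * T ^ e)) ^ (A - 2) * JV T (2 ^ j * T ^ e) ≤
      (2 / e + 1) * K * T ^ (E0 + 12 * e) := by
    calc ∑ j ∈ Finset.range J, (2 * (2 ^ j * T ^ e)) ^ (A - 2) * JV T (2 ^ j * T ^ e)
        ≤ ∑ j ∈ Finset.range J, K * T ^ (E0 + e) := Finset.sum_le_sum hpiece
      _ = (J : ℝ) * (K * T ^ (E0 + e)) := by rw [Finset.sum_const, Finset.card_range, nsmul_eq_mul]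
      _ ≤ ((2 / e + 1) * T ^ e) * (K * T ^ (E0 + e)) :=
          mul_le_mul_of_nonneg_right hJ2 (by positivity)
      _ = (2 / e + 1) * K * (T ^ e * T ^ (E0 + e)) := by ring
      _ = (2 / e + 1) * K * T ^ (e + (E0 + e)) := by rw [Real.rpow_add hT0 e (E0 + e)]
      _ ≤ (2 / e + 1) * K * T ^ (E0 + 12 * e) :=
          mul_le_mul_of_nonneg_left (Real.rpow_le_rpow_of_exponent_le hT1 (by linarith)) hKe
  have hfirst : T * (T ^ e) ^ A ≤ T ^ (E0 + 12 * e) := by
    rw [← Real.rpow_mul hT0.le]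
    calc T * T ^ (e * A) = T ^ (1 : ℝ) * T ^ (e * A) := by rw [Real.rpow_one]
      _ = T ^ (1 + e * A) := (Real.rpow_add hT0 _ _).symm
      _ ≤ T ^ (E0 + 12 * e) := Real.rpow_le_rpow_of_exponent_le hT1 (by nlinarith)
  have hTE : 0 ≤ T ^ (E0 + 12 * e) := Real.rpow_nonneg hT0.le _
  calc ∫ t in T..(2 * T), ‖EM.P (T ^ 2) t‖ ^ A ≤ T ^ (E0 + 12 * e) +
        (2 / e + 1) * K * T ^ (E0 + 12 * e) := by linarith
    _ = (1 + (2 / e + 1) * K) * T ^ (E0 + 12 * e) := by ring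
    _ ≤ (C1 + C2 + 1 + (2 / e + 1) * K) * T ^ (E0 + 12 * e) :=
        mul_le_mul_of_nonneg_right (by linarith) hTE

lemma zblock (hJB : StJB) (hJB2 : Pool.Agent.Work.MP_56b8f5_nt.UV.StJB2) (hSup : StSup) (hZ : EM.StZ) (hPc : EM.StPc) (A e : ℝ) (hA4 : 4 ≤ A)
    (hA12 : A ≤ 12) (he : 0 < e) (he1 : e < 1 / 100) :
    ∃ C : ℝ, 2 ≤ C ∧ ∀ T : ℝ, C ≤ T →
      ∫ t in T..(2 * T), ‖riemannZeta (1 / 2 + t * Complex.I)‖ ^ A ≤
      C * T ^ (1 + (A - 4) / 8 - min (A - 4) (12 - A) / 168 + 12 * e) := by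
  obtain ⟨C1, hC1, hB⟩ := block hJB hJB2 hSup hPc A e hA4 hA12 he he1
  obtain ⟨C2, hC2, hZ2⟩ := hZ
  set E0 : ℝ := 1 + (A - 4) / 8 - min (A - 4) (12 - A) / 168 with hE0
  have hm1 : min (A - 4) (12 - A) ≤ A - 4 := min_le_left _ _
  have hE01 : 1 ≤ E0 := by rw [hE0]; linarith
  set D : ℝ := 3 * C2 with hD
  have hD0 : 0 ≤ D := by positivity
  have h2A : 0 ≤ (2 : ℝ) ^ A := Real.rpow_nonneg (by norm_num) _
  have h2A1 : 1 ≤ (2 : ℝ) ^ A := Real.one_le_rpow (by norm_num) (by linarith)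
  have hDA : 0 ≤ D ^ A := Real.rpow_nonneg hD0 _
  refine ⟨2 ^ A * (C1 + D ^ A), ?_, ?_⟩
  · nlinarith
  intro T hT
  have hTC1 : C1 ≤ T := by nlinarith
  have hT1 : 1 ≤ T := by linarith
  have hT0 : 0 < T := by linarith
  have hle : T ≤ 2 * T := by linarith
  have hPcc := (hPc (T ^ 2) (by nlinarith)).1
  have hsq : Real.sqrt (T ^ 2) = T := Real.sqrt_sq hT0.le
  have hpt : ∀ t ∈ Icc T (2 * T), ‖riemannZeta (1 / 2 + t * Complex.I)‖ ^ A ≤
      2 ^ A * (‖EM.P (T ^ 2) t‖ ^ A + D ^ A) := by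
    intro t ht
    have ht0 : 0 < t := lt_of_lt_of_le hT0 ht.1
    have ht1 : 1 ≤ t := le_trans hT1 ht.1
    have h1 := hZ2 (T ^ 2) (by nlinarith) t (by rw [abs_of_pos ht0]; exact ht1)
    rw [hsq, abs_of_pos ht0] at h1
    have h2 : t / T ≤ 2 := by rw [div_le_iff₀ hT0]; exact ht.2
    have h3 : T / t ^ 3 ≤ 1 := by
      rw [div_le_iff₀ (by positivity), one_mul]
      calc T ≤ t := ht.1
        _ = t ^ 1 := (pow_one t).symm
        _ ≤ t ^ 3 := pow_le_pow_right₀ ht1 (by norm_num)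
    have h4 : C2 * (t / T + T / t ^ 3) ≤ D := by
      rw [hD]; nlinarith
    have h5 : ‖riemannZeta (1 / 2 + t * Complex.I)‖ ≤ ‖EM.P (T ^ 2) t‖ + D := by
      have := norm_sub_norm_le (riemannZeta (1 / 2 + t * Complex.I)) (EM.P (T ^ 2) t)
      linarith
    calc ‖riemannZeta (1 / 2 + t * Complex.I)‖ ^ A ≤ (‖EM.P (T ^ 2) t‖ + D) ^ A :=
          Real.rpow_le_rpow (norm_nonneg _) h5 (by linarith)
      _ ≤ _ := addpow _ _ _ (norm_nonneg _) hD0 (by linarith)
  have hint1 : IntervalIntegrable (fun t : ℝ => ‖riemannZeta (1 / 2 + t * Complex.I)‖ ^ A) volume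
      T (2 * T) := (zcont.rpow_const (fun _ => Or.inr (by linarith))).intervalIntegrable _ _
  have hint2 : IntervalIntegrable (fun t => ‖EM.P (T ^ 2) t‖ ^ A) volume T (2 * T) :=
    (hPcc.norm.rpow_const (fun _ => Or.inr (by linarith))).intervalIntegrable _ _
  have hTE : T ≤ T ^ (E0 + 12 * e) := by
    calc T = T ^ (1 : ℝ) := (Real.rpow_one T).symm
      _ ≤ T ^ (E0 + 12 * e) := Real.rpow_le_rpow_of_exponent_le hT1 (by linarith)
  calc ∫ t in T..(2 * T), ‖riemannZeta (1 / 2 + t * Complex.I)‖ ^ A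
      ≤ ∫ t in T..(2 * T), 2 ^ A * (‖EM.P (T ^ 2) t‖ ^ A + D ^ A) :=
        intervalIntegral.integral_mono_on hle hint1
          ((hint2.add intervalIntegrable_const).const_mul _) hpt
    _ = 2 ^ A * ((∫ t in T..(2 * T), ‖EM.P (T ^ 2) t‖ ^ A) + T * D ^ A) := by
        rw [intervalIntegral.integral_const_mul,
          intervalIntegral.integral_add hint2 intervalIntegrable_const,
          intervalIntegral.integral_const, smul_eq_mul]
        ring
    _ ≤ 2 ^ A * (C1 * T ^ (E0 + 12 * e) + T ^ (E0 + 12 * e) * D ^ A) := by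
        apply mul_le_mul_of_nonneg_left _ h2A
        have h1 := hB T hTC1
        have h2 : T * D ^ A ≤ T ^ (E0 + 12 * e) * D ^ A := mul_le_mul_of_nonneg_right hTE hDA
        linarith
    _ = 2 ^ A * (C1 + D ^ A) * T ^ (E0 + 12 * e) := by ring

end MA2_aux

open MA2_aux MA_aux in
theorem iMA2 (hJB : UB.StJB) (hJB2 : StJB2) (hSup : UB.StSup) (hZ : EM.StZ) (hPc : EM.StPc) : StMA2 := by
  intro A ε hA4 hA12 hε
  set e : ℝ := min (ε / 12) (1 / 200) with he
  have he0 : 0 < e := by rw [he]; positivity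
  have he1 : e < 1 / 100 := lt_of_le_of_lt (min_le_right _ _) (by norm_num)
  have he2 : 12 * e ≤ ε := by
    have := min_le_left (ε / 12) (1 / 200 : ℝ)
    rw [← he] at this
    linarith
  obtain ⟨C1, hC1, hB⟩ := zblock hJB hJB2 hSup hZ hPc A e hA4 hA12 he0 he1
  set E : ℝ := 1 + (A - 4) / 8 - min (A - 4) (12 - A) / 168 + ε with hE
  have hm1 : min (A - 4) (12 - A) ≤ A - 4 := min_le_left _ _
  have hE1 : 1 ≤ E := by rw [hE]; linarith
  have hcont : Continuous fun t : ℝ => ‖riemannZeta (1 / 2 + t * Complex.I)‖ ^ A :=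
    zcont.rpow_const (fun _ => Or.inr (by linarith))
  have hnn : ∀ t : ℝ, 0 ≤ ‖riemannZeta (1 / 2 + t * Complex.I)‖ ^ A :=
    fun t => Real.rpow_nonneg (norm_nonneg _) _
  set F : ℝ → ℝ := fun T => ∫ t in (0 : ℝ)..T, ‖riemannZeta (1 / 2 + t * Complex.I)‖ ^ A with hF
  have hFint : ∀ a b : ℝ, IntervalIntegrable
      (fun t : ℝ => ‖riemannZeta (1 / 2 + t * Complex.I)‖ ^ A) volume a b :=
    fun a b => hcont.intervalIntegrable a b
  have hFmono : ∀ a b : ℝ, a ≤ b → F a ≤ F b := by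
    intro a b hab
    have h1 := intervalIntegral.integral_add_adjacent_intervals (hFint 0 a) (hFint a b)
    have h2 : 0 ≤ ∫ t in a..b, ‖riemannZeta (1 / 2 + t * Complex.I)‖ ^ A :=
      intervalIntegral.integral_nonneg hab (fun t _ => hnn t)
    show (∫ t in (0 : ℝ)..a, ‖riemannZeta (1 / 2 + t * Complex.I)‖ ^ A) ≤
      ∫ t in (0 : ℝ)..b, ‖riemannZeta (1 / 2 + t * Complex.I)‖ ^ A
    linarith
  set B : ℝ := F (2 * C1) with hBd
  have hB0 : 0 ≤ B := by
    rw [hBd, hF]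
    exact intervalIntegral.integral_nonneg (by linarith) (fun t _ => hnn t)
  have key : ∀ n : ℕ, ∀ T : ℝ, 1 ≤ T → T ≤ 2 ^ n * (2 * C1) → F T ≤ B + C1 * T ^ E := by
    intro n
    induction n with
    | zero =>
      intro T hT hTn
      have h1 : F T ≤ B := hFmono T (2 * C1) (by simpa using hTn)
      have h2 : 0 ≤ C1 * T ^ E := mul_nonneg (by linarith) (Real.rpow_nonneg (by linarith) _)
      linarith
    | succ n ih =>
      intro T hT hTn
      by_cases hc : T ≤ 2 * C1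
      · have h1 : F T ≤ B := hFmono T (2 * C1) hc
        have h2 : 0 ≤ C1 * T ^ E := mul_nonneg (by linarith) (Real.rpow_nonneg (by linarith) _)
        linarith
      · push Not at hc
        have hT2 : C1 ≤ T / 2 := by linarith
        have hT21 : 1 ≤ T / 2 := by linarith
        have h1 := ih (T / 2) hT21 (by
          rw [pow_succ] at hTn
          linarith)
        have h2 := hB (T / 2) hT2
        have h3 : (2 : ℝ) * (T / 2) = T := by ring
        rw [h3] at h2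
        have h4 := intervalIntegral.integral_add_adjacent_intervals (hFint 0 (T / 2))
          (hFint (T / 2) T)
        have h5 : (T / 2) ^ (1 + (A - 4) / 8 - min (A - 4) (12 - A) / 168 + 12 * e) ≤
            (T / 2) ^ E := Real.rpow_le_rpow_of_exponent_le hT21 (by rw [hE]; linarith)
        have h6 : (T / 2) ^ E ≤ T ^ E / 2 := by
          rw [Real.div_rpow (by linarith) (by norm_num)]
          apply div_le_div_of_nonneg_left (Real.rpow_nonneg (by linarith) _) (by norm_num)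
          calc (2 : ℝ) = 2 ^ (1 : ℝ) := (Real.rpow_one 2).symm
            _ ≤ 2 ^ E := Real.rpow_le_rpow_of_exponent_le (by norm_num) hE1
        have h7 : C1 * (T / 2) ^ (1 + (A - 4) / 8 - min (A - 4) (12 - A) / 168 + 12 * e) ≤
            C1 * (T ^ E / 2) := mul_le_mul_of_nonneg_left (h5.trans h6) (by linarith)
        have h8 : C1 * (T / 2) ^ E ≤ C1 * (T ^ E / 2) :=
          mul_le_mul_of_nonneg_left h6 (by linarith)
        have h9 : F T = F (T / 2) + ∫ t in (T / 2)..T, ‖riemannZeta (1 / 2 + t * Complex.I)‖ ^ A :=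
          h4.symm
        rw [h9]
        linarith
  refine ⟨B + C1, ?_⟩
  intro T hT
  obtain ⟨n, hn⟩ := pow_unbounded_of_one_lt T (by norm_num : (1 : ℝ) < 2)
  have h1 : T ≤ 2 ^ n * (2 * C1) := by
    have : (2 : ℝ) ^ n ≤ 2 ^ n * (2 * C1) := le_mul_of_one_le_right (by positivity) (by linarith)
    linarith
  have h2 := key n T hT h1
  have h3 : 1 ≤ T ^ E := Real.one_le_rpow hT (by linarith)
  calc ∫ t in (0 : ℝ)..T, ‖riemannZeta (1 / 2 + t * Complex.I)‖ ^ A ≤ B + C1 * T ^ E := h2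
    _ ≤ B * T ^ E + C1 * T ^ E := by nlinarith
    _ = (B + C1) * T ^ E := by ring

end Pool.Agent.Work.MP_56b8f5_nt.UV
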