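import Pool.Agent.Work.MP_56b8f5_nt.UV.I_VA

/-!
MP_56b8f5_nt, block UV, item MS (mean square on short intervals).  Author: helper4.
-/

set_option autoImplicit false

open MeasureTheory Set Filter Topology

noncomputable section

namespace Pool.Agent.Work.MP_56b8f5_nt.UV

open Pool.Agent.Work.MP_56b8f5_nt.UB

namespace MS_aux

open VA_aux

lemma norm_SS_le {X N : ℝ} (hN : 1 ≤ N) {a : ℕ → ℂ} (ha : ∀ n, ‖a n‖ ≤ 1) (x : ℝ) :
    ‖SS X N a x‖ ≤ 2 * N := by
  have h0 : (0 : ℝ) ≤ 2 * N := by linarith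
  unfold SS
  refine (norm_sum_le _ _).trans ?_
  have h1 : ∑ n ∈ Finset.Ioc ⌊N⌋₊ ⌊2 * N⌋₊, ‖a n * ee (x * vv X n)‖ ≤
      ∑ _n ∈ Finset.Ioc ⌊N⌋₊ ⌊2 * N⌋₊, (1 : ℝ) := by
    refine Finset.sum_le_sum fun n _ => ?_
    rw [norm_mul, norm_ee, mul_one]
    exact ha n
  refine h1.trans ?_
  rw [Finset.sum_const, nsmul_eq_mul, mul_one, Nat.card_Ioc]
  refine le_trans ?_ (Nat.floor_le h0)
  exact_mod_cast Nat.sub_le _ _

lemma cont_KS {X N : ℝ} (hN : 1 ≤ N) : Continuous (KS X N) := by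
  have : KS X N = fun x => ∑ n ∈ FR N, (om ((n : ℝ) / N) : ℂ) * ee (x * vv X n) := by
    funext x
    exact KS_eq hN x
  rw [this]
  refine continuous_finsetSum _ fun n _ => continuous_const.mul ?_
  exact cont_ee.comp (continuous_id.mul continuous_const)

lemma norm_KS_le {X N : ℝ} (hN : 1 ≤ N) (x : ℝ) :
    ‖KS X N x‖ ≤ ∑ n ∈ FR N, om ((n : ℝ) / N) := by
  rw [KS_eq hN]
  refine (norm_sum_le _ _).trans (Finset.sum_le_sum fun n _ => ?_)
  rw [norm_mul, norm_ee, mul_one, Complex.norm_real, Real.norm_of_nonneg (om_nonneg _)]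

/-- The quadratic form is bounded by the one with absolute values. -/
lemma form_le {X N : ℝ} (hN : 1 ≤ N) {g : ℝ → ℂ} (hg : Integrable g) :
    ‖∫ x, ∫ y, g x * (starRingEnd ℂ) (g y) * KS X N (x - y)‖ ≤
      ∫ x, ∫ y, ‖g x‖ * ‖g y‖ * ‖KS X N (x - y)‖ := by
  have hprod : Integrable (fun p : ℝ × ℝ => ‖g p.1‖ * ‖g p.2‖)
      ((volume : Measure ℝ).prod volume) := hg.norm.mul_prod hg.norm
  have hint : Integrable (fun p : ℝ × ℝ => ‖g p.1‖ * ‖g p.2‖ * ‖KS X N (p.1 - p.2)‖)
      ((volume : Measure ℝ).prod volume) := by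
    have hc : Continuous fun p : ℝ × ℝ => ‖KS X N (p.1 - p.2)‖ :=
      ((cont_KS hN).comp (continuous_fst.sub continuous_snd)).norm
    refine (hprod.mul_const (∑ n ∈ FR N, om ((n : ℝ) / N))).mono' ?_
      (Eventually.of_forall fun p => ?_)
    · exact hprod.aestronglyMeasurable.mul hc.aestronglyMeasurable
    · rw [Real.norm_of_nonneg (by positivity)]
      exact mul_le_mul_of_nonneg_left (norm_KS_le hN _) (by positivity)
  refine (norm_integral_le_integral_norm _).trans ?_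
  refine integral_mono_of_nonneg (Eventually.of_forall fun x => norm_nonneg _)
    hint.integral_prod_left (Eventually.of_forall fun x => ?_)
  refine (norm_integral_le_integral_norm _).trans (le_of_eq ?_)
  congr 1
  funext y
  rw [norm_mul, norm_mul, RCLike.norm_conj]

/-- The first part. -/
lemma part1 (C : ℝ) (hC : 1 ≤ C) {X N : ℝ} {a : ℕ → ℂ}
    (h : ∀ (L B : ℝ) (g : ℝ → ℝ), Measurable g → (∀ x, 0 ≤ g x ∧ g x ≤ B) →
      (∀ x, L < |x| → g x = 0) →
      ∫ x, ∫ y, (if |x - y| ≤ Real.sqrt N / 4 then g x * g y * ‖KS X N (x - y)‖ else 0) ≤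
        C * Real.sqrt N * ∫ x, g x ^ 2)
    (hN : 1 ≤ N) (hX : 0 < X) (ha : ∀ n, ‖a n‖ ≤ 1) (b : ℝ) :
    ∫ x in b..(b + Real.sqrt N / 8), ‖SS X N a x‖ ^ 2 ≤ 2 * C * (N * Real.sqrt N) := by
  set s := Real.sqrt N with hs
  have hs0 : 0 < s := Real.sqrt_pos.mpr (by linarith)
  set Δ := s / 64 with hΔ
  have hΔ0 : 0 < Δ := by positivity
  set L := s / 8 + 2 * Δ with hL
  set A : Set ℝ := Icc (b - Δ) (b - Δ + L) with hA
  have hAm : MeasurableSet A := measurableSet_Icc
  have hAs : A ⊆ Icc (b - Δ) (b - Δ + L) := subset_rfl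
  have hS := cont_SS X N a
  have hVA := (iVA X N 0 Δ 0 (b - Δ) L a A hN hX le_rfl hΔ0 le_rfl ha hAm hAs (by
    intro x _
    rw [mul_zero]
    exact intervalIntegral.integral_nonneg (by linarith) fun h _ => sq_nonneg _)).2
  change (∫ y, rho A Δ y * ‖SS X N a y‖ ^ 2) ^ 2 ≤
    2 * N * ‖∫ x, ∫ y, ((rho A Δ x : ℂ) * (starRingEnd ℂ) (SS X N a x)) *
      (starRingEnd ℂ) ((rho A Δ y : ℂ) * (starRingEnd ℂ) (SS X N a y)) * KS X N (x - y)‖ at hVA
  have hg := int_g hAm hΔ0 hAs X N a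
  set g : ℝ → ℂ := fun x => (rho A Δ x : ℂ) * (starRingEnd ℂ) (SS X N a x) with hgdef
  set G : ℝ → ℝ := fun x => rho A Δ x * ‖SS X N a x‖ with hGdef
  have hgG : ∀ x, ‖g x‖ = G x := by
    intro x
    rw [hgdef, hGdef]
    simp only
    rw [norm_mul, Complex.norm_real, Real.norm_of_nonneg (rho_nonneg _ _ _), RCLike.norm_conj]
  have hG0 : ∀ x, 0 ≤ G x := fun x => by rw [← hgG]; exact norm_nonneg _
  have hGz : ∀ x, x ∉ Icc (b - 2 * Δ) (b + s / 8 + 2 * Δ) → G x = 0 := by
    intro x hx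
    rw [hGdef]
    simp only
    rw [rho_zero hAs, zero_mul]
    intro hx2
    apply hx
    rw [mem_Icc] at hx2 ⊢
    constructor <;> linarith [hx2.1, hx2.2]
  have hGm : Measurable G := (meas_rho hAm Δ).mul hS.norm.measurable
  have hGB : ∀ x, 0 ≤ G x ∧ G x ≤ 2 * Δ * (2 * N) := fun x =>
    ⟨hG0 x, mul_le_mul (rho_le hΔ0 x) (norm_SS_le hN ha x) (norm_nonneg _) (by positivity)⟩
  have hNr := h (|b| + s) (2 * Δ * (2 * N)) G hGm hGB (by
    intro x hx
    apply hGz
    rw [mem_Icc]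
    rintro ⟨h1, h2⟩
    rcases abs_cases x with ⟨e, _⟩ | ⟨e, _⟩
    · rw [e] at hx
      linarith [le_abs_self b]
    · rw [e] at hx
      linarith [neg_abs_le b])
  have hform : ∫ x, ∫ y, ‖g x‖ * ‖g y‖ * ‖KS X N (x - y)‖ =
      ∫ x, ∫ y, (if |x - y| ≤ s / 4 then G x * G y * ‖KS X N (x - y)‖ else 0) := by
    congr 1
    funext x
    congr 1
    funext y
    rw [hgG, hgG]
    by_cases hxy : |x - y| ≤ s / 4
    · rw [if_pos hxy]
    · rw [if_neg hxy]
      by_cases hx : x ∈ Icc (b - 2 * Δ) (b + s / 8 + 2 * Δ)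
      · by_cases hy : y ∈ Icc (b - 2 * Δ) (b + s / 8 + 2 * Δ)
        · exfalso
          apply hxy
          rw [mem_Icc] at hx hy
          rw [abs_le]
          constructor <;> linarith [hx.1, hx.2, hy.1, hy.2]
        · rw [hGz y hy]
          ring
      · rw [hGz x hx]
        ring
  have hSQint : Integrable (fun y => rho A Δ y * ‖SS X N a y‖ ^ 2) := by
    have h1 : Integrable (fun y => 2 * N * ‖g y‖) := hg.norm.const_mul _
    refine h1.mono' ?_ (Eventually.of_forall fun y => ?_)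
    · exact ((meas_rho hAm Δ).mul (hS.norm.measurable.pow_const 2)).aestronglyMeasurable
    · rw [Real.norm_of_nonneg (mul_nonneg (rho_nonneg _ _ _) (sq_nonneg _)), hgG, hGdef]
      simp only
      have e1 := norm_SS_le (X := X) hN ha y
      have e2 := rho_nonneg A Δ y
      have e3 : 0 ≤ rho A Δ y * ‖SS X N a y‖ := mul_nonneg e2 (norm_nonneg _)
      nlinarith
  set D := ∫ y, rho A Δ y * ‖SS X N a y‖ ^ 2 with hD
  have hD0 : 0 ≤ D := integral_nonneg fun y => mul_nonneg (rho_nonneg _ _ _) (sq_nonneg _)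
  have hG2 : ∫ x, G x ^ 2 ≤ 2 * Δ * D := by
    rw [hD, ← integral_const_mul]
    refine integral_mono_of_nonneg (Eventually.of_forall fun x => sq_nonneg _)
      (hSQint.const_mul _) (Eventually.of_forall fun x => ?_)
    simp only [hGdef]
    have e1 := rho_le (A := A) hΔ0 x
    have e2 := rho_nonneg A Δ x
    have e3 : 0 ≤ rho A Δ x * ‖SS X N a x‖ ^ 2 := mul_nonneg e2 (sq_nonneg _)
    nlinarith
  have hmain : D ^ 2 ≤ 2 * N * (C * s * (2 * Δ * D)) := by
    refine hVA.trans ?_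
    refine mul_le_mul_of_nonneg_left ?_ (by linarith)
    refine (form_le hN hg).trans ?_
    rw [hform]
    exact hNr.trans (mul_le_mul_of_nonneg_left hG2 (by positivity))
  have hDle : D ≤ 2 * Δ * (2 * C * (N * s)) := by
    rcases hD0.eq_or_lt with h0 | h0
    · rw [← h0]
      positivity
    · have e1 : D * D ≤ (2 * Δ * (2 * C * (N * s))) * D := by nlinarith
      exact le_of_mul_le_mul_right e1 h0
  have hlow : 2 * Δ * ∫ x in b..(b + s / 8), ‖SS X N a x‖ ^ 2 ≤ D := by
    rw [intervalIntegral.integral_of_le (by linarith), ← integral_Icc_eq_integral_Ioc,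
      ← integral_const_mul]
    calc ∫ x in Icc b (b + s / 8), 2 * Δ * ‖SS X N a x‖ ^ 2
        ≤ ∫ x in Icc b (b + s / 8), rho A Δ x * ‖SS X N a x‖ ^ 2 := by
          refine setIntegral_mono_on ?_ hSQint.integrableOn measurableSet_Icc fun x hx => ?_
          · exact (continuous_const.mul (hS.norm.pow 2)).integrableOn_Icc
          · refine mul_le_mul_of_nonneg_right ?_ (sq_nonneg _)
            have e1 : A ∩ Icc (x - Δ) (x + Δ) = Icc (x - Δ) (x + Δ) := by
              refine inter_eq_right.mpr fun z hz => ?_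
              rw [mem_Icc] at hx hz
              rw [hA, mem_Icc]
              constructor <;> linarith [hx.1, hx.2, hz.1, hz.2]
            unfold rho Rr
            rw [e1, Real.volume_Icc, ENNReal.toReal_ofReal (by linarith)]
            linarith
      _ ≤ D := by
          rw [hD]
          exact setIntegral_le_integral hSQint
            (Eventually.of_forall fun y => mul_nonneg (rho_nonneg _ _ _) (sq_nonneg _))
  have h2 : 2 * Δ * ∫ x in b..(b + s / 8), ‖SS X N a x‖ ^ 2 ≤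
      2 * Δ * (2 * C * (N * s)) := hlow.trans hDle
  exact le_of_mul_le_mul_left h2 (by positivity)

/-- The second part. -/
lemma part2 (K : ℝ) {X N : ℝ} {a : ℕ → ℂ} (hN : 1 ≤ N)
    (h : ∀ b : ℝ, ∫ x in b..(b + Real.sqrt N / 8), ‖SS X N a x‖ ^ 2 ≤ K)
    (V y j : ℝ) (W : Set ℝ) (hV : 0 < V) (hj : 1 / 8 ≤ j) (hW : MeasurableSet W)
    (hWS : ∀ x ∈ W, V ≤ ‖SS X N a x‖) :
    V ^ 2 * Rr (W ∩ Icc y (y + j * Real.sqrt N)) ≤ 16 * j * K := by
  set s := Real.sqrt N with hs
  have hs0 : 0 < s := Real.sqrt_pos.mpr (by linarith)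
  have hS := cont_SS X N a
  have hF : Continuous fun x => ‖SS X N a x‖ ^ 2 := hS.norm.pow 2
  have hK : 0 ≤ K := (intervalIntegral.integral_nonneg (by linarith)
    fun x _ => sq_nonneg _).trans (h 0)
  set n := ⌈8 * j⌉₊ with hn
  have hn1 : 8 * j ≤ n := Nat.le_ceil _
  have hn2 : (n : ℝ) ≤ 16 * j := by
    have := Nat.ceil_lt_add_one (by linarith : (0 : ℝ) ≤ 8 * j)
    rw [← hn] at this
    linarith
  have hsum : ∀ m : ℕ, ∫ x in y..(y + m * (s / 8)), ‖SS X N a x‖ ^ 2 ≤ m * K := by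
    intro m
    induction m with
    | zero => simp
    | succ m ih =>
      rw [← intervalIntegral.integral_add_adjacent_intervals
        (hF.intervalIntegrable y (y + m * (s / 8)))
        (hF.intervalIntegrable (y + m * (s / 8)) (y + (m + 1 : ℕ) * (s / 8)))]
      have e1 : y + ((m + 1 : ℕ) : ℝ) * (s / 8) = y + m * (s / 8) + s / 8 := by
        push_cast
        ring
      rw [e1]
      have e2 := h (y + m * (s / 8))
      push_cast
      linarith
  have hle : y + j * s ≤ y + n * (s / 8) := by nlinarith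
  have hmeas : MeasurableSet (W ∩ Icc y (y + j * s)) := hW.inter measurableSet_Icc
  have hfin : volume (W ∩ Icc y (y + j * s)) ≠ ⊤ :=
    ((measure_mono inter_subset_right).trans_lt (by simp)).ne
  have e2 : ∫ _x in W ∩ Icc y (y + j * s), V ^ 2 = V ^ 2 * Rr (W ∩ Icc y (y + j * s)) := by
    rw [setIntegral_const, smul_eq_mul, mul_comm]
    rfl
  rw [← e2]
  have hy : y ≤ y + n * (s / 8) := by
    have : 0 ≤ (n : ℝ) * (s / 8) := by positivity
    linarith
  calc ∫ _x in W ∩ Icc y (y + j * s), V ^ 2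
      ≤ ∫ x in W ∩ Icc y (y + j * s), ‖SS X N a x‖ ^ 2 := by
        refine setIntegral_mono_on (integrableOn_const hfin) ?_ hmeas fun x hx => ?_
        · exact (hF.integrableOn_Icc (a := y) (b := y + j * s)).mono_set inter_subset_right
        · exact pow_le_pow_left₀ hV.le (hWS x hx.1) 2
    _ ≤ ∫ x in Icc y (y + n * (s / 8)), ‖SS X N a x‖ ^ 2 := by
        refine setIntegral_mono_set hF.integrableOn_Icc
          (Eventually.of_forall fun x => sq_nonneg _) ?_
        refine Eventually.of_forall ?_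
        intro x hx
        have hx2 := hx.2
        rw [mem_Icc] at hx2
        exact ⟨hx2.1, hx2.2.trans hle⟩
    _ = ∫ x in y..(y + n * (s / 8)), ‖SS X N a x‖ ^ 2 := by
        rw [intervalIntegral.integral_of_le hy, ← integral_Icc_eq_integral_Ioc]
    _ ≤ n * K := hsum n
    _ ≤ 16 * j * K := mul_le_mul_of_nonneg_right hn2 hK

end MS_aux

open MS_aux in
theorem iMS (hNr : StNr) : StMS := by
  obtain ⟨C, hC, h⟩ := hNr
  refine ⟨32 * C, by linarith, ?_⟩
  intro X N a hN hX hCN ha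
  have hN0 : 0 < N := by linarith
  have hCN' : C * N ≤ X ^ 2 := by nlinarith
  have hs0 : 0 < Real.sqrt N := Real.sqrt_pos.mpr hN0
  have h1 := fun b => part1 C hC (a := a)
    (fun L B g hg hB hL => h X N L B g hN hX hCN' hg hB hL) hN hX ha b
  constructor
  · intro b
    refine (h1 b).trans ?_
    have : 0 ≤ N * Real.sqrt N := by positivity
    nlinarith
  · intro V y j W hV hj hW hWS
    have h2 := part2 _ hN h1 V y j W hV hj hW hWS
    have hV2 : 0 < V ^ 2 := by positivity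
    have e : 32 * C * (N * Real.sqrt N / V ^ 2) * j =
        16 * j * (2 * C * (N * Real.sqrt N)) / V ^ 2 := by
      field_simp
      ring
    rw [e, le_div_iff₀ hV2, mul_comm]
    exact h2

end Pool.Agent.Work.MP_56b8f5_nt.UV
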