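import Mathlib
import Pool.Agent.Work.MP_56b8f5_nt.UV.Stmts

/-!
MP_56b8f5_nt, block UV, item Nr: the kernel near the diagonal.
-/

open MeasureTheory Set Filter Topology

noncomputable section

namespace Pool.Agent.Work.MP_56b8f5_nt.UV

open Pool.Agent.Work.MP_56b8f5_nt.UB

namespace Nr_aux

/-- the majorant of the kernel -/
def kk (C N z : ℝ) : ℝ := C * N / (1 + |z| * Real.sqrt N) ^ 2 + C / N

/-- the truncated majorant -/
def hh (C N z : ℝ) : ℝ := if |z| ≤ Real.sqrt N / 4 then kk C N z else 0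

lemma kk_nonneg {C N : ℝ} (hC : 0 ≤ C) (hN : 1 ≤ N) (z : ℝ) : 0 ≤ kk C N z := by
  unfold kk
  positivity

lemma hh_nonneg {C N : ℝ} (hC : 0 ≤ C) (hN : 1 ≤ N) (z : ℝ) : 0 ≤ hh C N z := by
  unfold hh
  split_ifs
  · exact kk_nonneg hC hN z
  · exact le_rfl

lemma kk_cont {C N : ℝ} : Continuous (kk C N) := by
  unfold kk
  refine Continuous.add (Continuous.div continuous_const (by fun_prop) ?_) continuous_const
  intro z
  have : 0 < 1 + |z| * Real.sqrt N := by positivity
  positivity

lemma hh_eq (C N : ℝ) : hh C N = (Icc (-(Real.sqrt N / 4)) (Real.sqrt N / 4)).indicator (kk C N) := by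
  funext z
  unfold hh
  rw [Set.indicator_apply]
  simp only [Set.mem_Icc, abs_le]

lemma hh_int (C N : ℝ) : Integrable (hh C N) := by
  rw [hh_eq, integrable_indicator_iff measurableSet_Icc]
  exact kk_cont.continuousOn.integrableOn_Icc

lemma half {C N A : ℝ} (hN : 1 ≤ N) (hA : 0 ≤ A) :
    ∫ z in (0 : ℝ)..A, kk C N z =
      (C * Real.sqrt N - C * Real.sqrt N / (1 + A * Real.sqrt N)) + C / N * A := by
  have hs : 0 < Real.sqrt N := Real.sqrt_pos.mpr (by linarith)
  have hs2 : Real.sqrt N * Real.sqrt N = N := Real.mul_self_sqrt (by linarith)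
  have h := intervalIntegral.integral_eq_sub_of_hasDerivAt (a := 0) (b := A)
    (f := fun z => -(C * Real.sqrt N / (1 + z * Real.sqrt N)) + C / N * z)
    (f' := fun z => kk C N z) ?_ (kk_cont.intervalIntegrable _ _)
  · rw [h]
    simp only [zero_mul, add_zero, div_one, mul_zero]
    ring
  · intro z hz
    rw [Set.uIcc_of_le hA] at hz
    have hz0 : 0 < 1 + z * Real.sqrt N := by
      have := mul_nonneg hz.1 hs.le
      linarith
    have h1 : HasDerivAt (fun z : ℝ => 1 + z * Real.sqrt N) (Real.sqrt N) z := by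
      simpa using ((hasDerivAt_id z).mul_const (Real.sqrt N)).const_add 1
    have h2 := ((hasDerivAt_const z (C * Real.sqrt N)).fun_div h1 hz0.ne').fun_neg
    have h3 : HasDerivAt (fun z : ℝ => C / N * z) (C / N) z := by
      simpa using (hasDerivAt_id z).const_mul (C / N)
    refine (h2.fun_add h3).congr_deriv ?_
    unfold kk
    rw [abs_of_nonneg hz.1]
    congr 1
    rw [zero_mul, zero_sub, neg_div, neg_neg, mul_assoc, hs2]

lemma kk_neg (C N z : ℝ) : kk C N (-z) = kk C N z := by
  unfold kk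
  rw [abs_neg]

lemma hh_integral {C N : ℝ} (hC : 0 ≤ C) (hN : 1 ≤ N) :
    ∫ z, hh C N z ≤ 3 * C * Real.sqrt N := by
  have hs : 1 ≤ Real.sqrt N := Real.one_le_sqrt.mpr hN
  have hs2 : Real.sqrt N * Real.sqrt N = N := Real.mul_self_sqrt (by linarith)
  set A : ℝ := Real.sqrt N / 4 with hA
  have hA0 : 0 ≤ A := by positivity
  have h1 : ∫ z, hh C N z = ∫ z in (-A)..A, kk C N z := by
    rw [hh_eq, integral_indicator measurableSet_Icc,
      intervalIntegral.integral_of_le (by linarith), integral_Icc_eq_integral_Ioc]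
  have h2 : ∫ z in (-A)..A, kk C N z = 2 * ∫ z in (0 : ℝ)..A, kk C N z := by
    rw [← intervalIntegral.integral_add_adjacent_intervals (b := 0)
      (kk_cont.intervalIntegrable _ _) (kk_cont.intervalIntegrable _ _)]
    have h3 : ∫ z in (-A)..0, kk C N z = ∫ z in (0 : ℝ)..A, kk C N z := by
      have h4 := intervalIntegral.integral_comp_neg (a := 0) (b := A) (fun z => kk C N z)
      rw [neg_zero] at h4
      rw [← h4]
      refine intervalIntegral.integral_congr fun z _ => kk_neg C N z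
    rw [h3]
    ring
  rw [h1, h2, half hN hA0]
  have h5 : 0 ≤ C * Real.sqrt N / (1 + A * Real.sqrt N) := by positivity
  have h6 : C / N * A ≤ C * Real.sqrt N / 4 := by
    rw [hA, div_mul_eq_mul_div, div_le_iff₀ (by linarith)]
    have : 0 ≤ C * Real.sqrt N / 4 := by positivity
    nlinarith
  nlinarith [mul_nonneg hC (by linarith : (0 : ℝ) ≤ Real.sqrt N)]

/-- near the diagonal only `m = 0` matters -/
lemma ker_le {C1 C2 X N z : ℝ} (hKD : ∀ X N M x : ℝ, 1 ≤ N → 0 < X → C1 * N ≤ X ^ 2 → 1 ≤ M →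
    |x| ≤ M * Real.sqrt N →
    ‖KS X N x - KK X N 0 x -
      ∑ m ∈ Finset.Icc 1 ⌊2 * M⌋₊, (KJ X N m x + (starRingEnd ℂ) (KJ X N m (-x)))‖ ≤ C1 / N)
    (hK2 : ∀ X N : ℝ, 1 ≤ N → 0 < X → C2 * N ≤ X ^ 2 →
    (∀ x : ℝ, ‖KK X N 0 x‖ ≤ C2 * N / (1 + |x| * Real.sqrt N) ^ 2) ∧
    (∀ m : ℤ, m ≠ 0 → ∀ x : ℝ, ¬ (Real.sqrt N / 2 ≤ x / m ∧ x / m ≤ 2 * Real.sqrt N) →
      ‖KK X N m x‖ ≤ C2 / ((m : ℝ) ^ 2 * N)))
    (hC1 : 1 ≤ C1) (hC2 : 1 ≤ C2) (hN : 1 ≤ N) (hX : 0 < X) (hNX : (C1 + C2) * N ≤ X ^ 2)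
    (hz : |z| ≤ Real.sqrt N / 4) : ‖KS X N z‖ ≤ kk (C1 + C2) N z := by
  have hs : 1 ≤ Real.sqrt N := Real.one_le_sqrt.mpr hN
  have e1 : C1 * N ≤ X ^ 2 := by nlinarith
  have e2 : C2 * N ≤ X ^ 2 := by nlinarith
  have h1 := hKD X N 1 z hN hX e1 le_rfl (by linarith)
  have h2 := (hK2 X N hN hX e2).1 z
  have hzz := abs_le.mp hz
  have h3 : ∑ m ∈ Finset.Icc 1 ⌊2 * (1 : ℝ)⌋₊,
      (KJ X N m z + (starRingEnd ℂ) (KJ X N m (-z))) = 0 := by
    refine Finset.sum_eq_zero fun m hm => ?_
    have hm1 : (1 : ℝ) ≤ m := by exact_mod_cast (Finset.mem_Icc.mp hm).1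
    have hm2 : Real.sqrt N / 2 ≤ m * Real.sqrt N / 2 := by nlinarith
    have e3 : KJ X N m z = 0 := by
      unfold KJ
      rw [if_neg]
      rintro ⟨h, -⟩
      linarith
    have e4 : KJ X N m (-z) = 0 := by
      unfold KJ
      rw [if_neg]
      rintro ⟨h, -⟩
      linarith
    rw [e3, e4]
    simp
  rw [h3, sub_zero] at h1
  have h4 : ‖KS X N z‖ ≤ ‖KS X N z - KK X N 0 z‖ + ‖KK X N 0 z‖ := by
    have := norm_add_le (KS X N z - KK X N 0 z) (KK X N 0 z)
    rwa [sub_add_cancel] at this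
  have hp : 0 < (1 + |z| * Real.sqrt N) ^ 2 := by positivity
  have h5 : C2 * N / (1 + |z| * Real.sqrt N) ^ 2 ≤
      (C1 + C2) * N / (1 + |z| * Real.sqrt N) ^ 2 := by
    apply div_le_div_of_nonneg_right _ hp.le
    nlinarith
  have h6 : C1 / N ≤ (C1 + C2) / N := by
    apply div_le_div_of_nonneg_right _ (by linarith)
    linarith
  unfold kk
  linarith

end Nr_aux

open Nr_aux

theorem iNr (hKD : UB.StKD) (hK2 : UB.StK2) : StNr := by
  obtain ⟨C1, hC1, HKD⟩ := hKD
  obtain ⟨C2, hC2, HK2⟩ := hK2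
  refine ⟨3 * (C1 + C2), by linarith, ?_⟩
  intro X N L B g hN hX hNX hg hgB hgL
  set C : ℝ := C1 + C2 with hC
  have hC0 : 0 ≤ C := by linarith
  have hNX' : C * N ≤ X ^ 2 := by nlinarith
  have hB : 0 ≤ B := (hgB 0).1.trans (hgB 0).2
  -- the square of g
  have hg2int : Integrable fun x => g x ^ 2 := by
    have h1 : IntegrableOn (fun x => g x ^ 2) (Icc (-L) L) := by
      refine Measure.integrableOn_of_bounded (M := B ^ 2) ?_ (hg.pow_const 2).aestronglyMeasurable ?_
      · rw [Real.volume_Icc]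
        exact ENNReal.ofReal_ne_top
      · refine Filter.Eventually.of_forall fun x => ?_
        rw [Real.norm_of_nonneg (by positivity)]
        exact pow_le_pow_left₀ (hgB x).1 (hgB x).2 2
    rw [← integrableOn_univ]
    refine h1.of_forall_sdiff_eq_zero MeasurableSet.univ fun x hx => ?_
    have hx2 : L < |x| := by
      by_contra hc
      push Not at hc
      exact hx.2 (abs_le.mp hc)
    rw [hgL x hx2]
    norm_num
  have hhint := hh_int C N
  -- the convolution
  set cv : ℝ → ℝ := fun x => ∫ t, g t ^ 2 * hh C N (x - t) with hcv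
  have hcv_eq : cv = (MeasureTheory.convolution (fun x => g x ^ 2) (hh C N)
      (ContinuousLinearMap.mul ℝ ℝ) volume) := by
    funext x
    rfl
  have hcvint : Integrable cv := by
    rw [hcv_eq]
    exact hg2int.integrable_convolution _ hhint
  have hcvI : ∫ x, cv x = (∫ x, g x ^ 2) * ∫ z, hh C N z := by
    rw [hcv_eq, MeasureTheory.integral_convolution _ hg2int hhint]
    rfl
  -- the pointwise bound of the inner integral
  have hinner : ∀ x, ∫ y, (if |x - y| ≤ Real.sqrt N / 4 then g x * g y * ‖KS X N (x - y)‖ else 0) ≤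
      (1 / 2) * (g x ^ 2 * ∫ z, hh C N z) + (1 / 2) * cv x := by
    intro x
    have i1 : Integrable fun y => hh C N (x - y) := hhint.comp_sub_left x
    have i2 : Integrable fun y => g y ^ 2 * hh C N (x - y) := by
      refine i1.bdd_mul (c := B ^ 2) (hg.pow_const 2).aestronglyMeasurable ?_
      refine Filter.Eventually.of_forall fun y => ?_
      rw [Real.norm_of_nonneg (by positivity)]
      exact pow_le_pow_left₀ (hgB y).1 (hgB y).2 2
    have e1 : (1 / 2) * (g x ^ 2 * ∫ z, hh C N z) + (1 / 2) * cv x =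
        ∫ y, ((1 / 2) * (g x ^ 2 * hh C N (x - y)) + (1 / 2) * (g y ^ 2 * hh C N (x - y))) := by
      rw [integral_add ((i1.const_mul _).const_mul _) (i2.const_mul _), integral_const_mul,
        integral_const_mul, integral_const_mul, integral_sub_left_eq_self (hh C N) volume x]
    rw [e1]
    refine integral_mono_of_nonneg (Filter.Eventually.of_forall fun y => ?_)
      (((i1.const_mul _).const_mul _).add (i2.const_mul _))
      (Filter.Eventually.of_forall fun y => ?_)
    · show (0 : ℝ) ≤ if |x - y| ≤ Real.sqrt N / 4 then g x * g y * ‖KS X N (x - y)‖ else 0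
      split_ifs
      · have := (hgB x).1
        have := (hgB y).1
        positivity
      · exact le_rfl
    · show (if |x - y| ≤ Real.sqrt N / 4 then g x * g y * ‖KS X N (x - y)‖ else 0) ≤
        (1 / 2) * (g x ^ 2 * hh C N (x - y)) + (1 / 2) * (g y ^ 2 * hh C N (x - y))
      by_cases hxy : |x - y| ≤ Real.sqrt N / 4
      · rw [if_pos hxy]
        have hk := ker_le HKD HK2 hC1 hC2 hN hX hNX' hxy
        have hh1 : hh C N (x - y) = kk C N (x - y) := by
          unfold hh
          rw [if_pos hxy]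
        rw [hh1]
        have hk0 := kk_nonneg hC0 hN (x - y)
        have g1 := (hgB x).1
        have g2 := (hgB y).1
        calc g x * g y * ‖KS X N (x - y)‖ ≤ g x * g y * kk C N (x - y) := by gcongr
          _ ≤ ((g x ^ 2 + g y ^ 2) / 2) * kk C N (x - y) := by
              refine mul_le_mul_of_nonneg_right ?_ hk0
              nlinarith [sq_nonneg (g x - g y)]
          _ = _ := by ring
      · rw [if_neg hxy]
        have hh1 : hh C N (x - y) = 0 := by
          unfold hh
          rw [if_neg hxy]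
        rw [hh1]
        simp
  calc ∫ x, ∫ y, (if |x - y| ≤ Real.sqrt N / 4 then g x * g y * ‖KS X N (x - y)‖ else 0)
      ≤ ∫ x, ((1 / 2) * (g x ^ 2 * ∫ z, hh C N z) + (1 / 2) * cv x) := by
        refine integral_mono_of_nonneg (Filter.Eventually.of_forall fun x => ?_)
          (((hg2int.mul_const _).const_mul _).add (hcvint.const_mul _))
          (Filter.Eventually.of_forall hinner)
        refine integral_nonneg fun y => ?_
        show (0 : ℝ) ≤ if |x - y| ≤ Real.sqrt N / 4 then g x * g y * ‖KS X N (x - y)‖ else 0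
        split_ifs
        · have := (hgB x).1
          have := (hgB y).1
          positivity
        · exact le_rfl
    _ = (∫ x, g x ^ 2) * ∫ z, hh C N z := by
        rw [integral_add ((hg2int.mul_const _).const_mul _) (hcvint.const_mul _),
          integral_const_mul, integral_const_mul, integral_mul_const, hcvI]
        ring
    _ ≤ (∫ x, g x ^ 2) * (3 * C * Real.sqrt N) := by
        refine mul_le_mul_of_nonneg_left (hh_integral hC0 hN) ?_
        exact integral_nonneg fun x => by positivity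
    _ = 3 * C * Real.sqrt N * ∫ x, g x ^ 2 := by ring

end Pool.Agent.Work.MP_56b8f5_nt.UV
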