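import Pool.Agent.Work.MP_56b8f5_nt.UV.Stmts

/-!
MP_56b8f5_nt, block UV, item Pl: Plancherel and the derivative of the Fourier transform.
-/

open MeasureTheory Set Filter Topology

noncomputable section

namespace Pool.Agent.Work.MP_56b8f5_nt.UV

open Pool.Agent.Work.MP_56b8f5_nt.UB

namespace Pl_aux

open FourierTransform SchwartzMap

section gpl

variable {E : Type*} [NormedAddCommGroup E] [InnerProductSpace ℝ E] [FiniteDimensional ℝ E]
  [MeasurableSpace E] [BorelSpace E]

lemma gpl_cont {f : E → ℂ} (h1 : Integrable f) : Continuous (𝓕 f) :=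
  VectorFourier.fourierIntegral_continuous Real.continuous_fourierChar
    (by exact continuous_inner) h1

/-- For `f ∈ L¹ ∩ L²` the `L²` Fourier transform is the classical one. -/
lemma gpl_fourier_ae (f : E → ℂ) (h1 : Integrable f) (h2 : MemLp f 2) :
    ((𝓕 (h2.toLp f) : Lp ℂ 2 (volume : Measure E)) : E → ℂ) =ᵐ[volume] 𝓕 f := by
  have hloc1 : LocallyIntegrable ((𝓕 (h2.toLp f) : Lp ℂ 2 (volume : Measure E)) : E → ℂ) volume :=
    (Lp.memLp (𝓕 (h2.toLp f) : Lp ℂ 2 (volume : Measure E))).locallyIntegrable (by norm_num)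
  have hloc2 : LocallyIntegrable (𝓕 f) volume := (gpl_cont h1).locallyIntegrable
  refine ae_eq_of_integral_contDiff_smul_eq hloc1 hloc2 (fun g gs gc => ?_)
  have hg₁ : HasCompactSupport (Complex.ofRealCLM ∘ g) := gc.comp_left rfl
  have hg₂ : ContDiff ℝ (⊤ : ℕ∞) (Complex.ofRealCLM ∘ g) := by fun_prop
  set G : 𝓢(E, ℂ) := hg₁.toSchwartzMap hg₂ with hG
  have hGa : ∀ x, G x = (g x : ℂ) := fun x => by rw [hG]; rfl
  have key := congrArg (fun T : 𝓢'(E, ℂ) => T G)
    (Lp.fourier_toTemperedDistribution_eq (h2.toLp f))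
  simp only [TemperedDistribution.fourier_apply, Lp.toTemperedDistribution_apply] at key
  have e1 : ∫ x, (𝓕 G) x • (h2.toLp f : E → ℂ) x = ∫ x, (𝓕 G) x • f x := by
    apply integral_congr_ae
    filter_upwards [h2.coeFn_toLp] with x hx
    rw [hx]
  have e2 : ∫ x, (𝓕 G) x • f x = ∫ x, G x • 𝓕 f x := by
    have := VectorFourier.integral_fourierIntegral_smul_eq_flip (L := innerₗ E) (μ := volume)
      (ν := volume) Real.continuous_fourierChar continuous_inner G.integrable h1
    simpa using! this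
  rw [e1, e2] at key
  simpa [hGa] using key.symm

lemma gpl_memLp {f : E → ℂ} (h1 : Integrable f) (h2 : MemLp f 2) : MemLp (𝓕 f) 2 :=
  (memLp_congr_ae (gpl_fourier_ae f h1 h2)).1 (Lp.memLp _)

lemma gpl_inner {f g : E → ℂ} (hf1 : Integrable f) (hf2 : MemLp f 2) (hg1 : Integrable g)
    (hg2 : MemLp g 2) :
    ∫ ξ, (starRingEnd ℂ) (𝓕 f ξ) * 𝓕 g ξ = ∫ x, (starRingEnd ℂ) (f x) * g x := by
  have h := Lp.inner_fourier_eq (hf2.toLp f) (hg2.toLp g)
  rw [L2.inner_def, L2.inner_def] at h
  have e1 : ∫ a, inner ℂ ((𝓕 (hf2.toLp f) : Lp ℂ 2 (volume : Measure E)) a)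
      ((𝓕 (hg2.toLp g) : Lp ℂ 2 (volume : Measure E)) a) =
      ∫ ξ, (starRingEnd ℂ) (𝓕 f ξ) * 𝓕 g ξ := by
    apply integral_congr_ae
    filter_upwards [gpl_fourier_ae f hf1 hf2, gpl_fourier_ae g hg1 hg2] with x hx hy
    rw [hx, hy]
    simp [mul_comm]
  have e2 : ∫ a, inner ℂ ((hf2.toLp f : Lp ℂ 2 (volume : Measure E)) a)
      ((hg2.toLp g : Lp ℂ 2 (volume : Measure E)) a) =
      ∫ x, (starRingEnd ℂ) (f x) * g x := by
    apply integral_congr_ae
    filter_upwards [hf2.coeFn_toLp, hg2.coeFn_toLp] with x hx hy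
    rw [hx, hy]
    simp [mul_comm]
  rw [← e1, ← e2, h]

end gpl

/-- bounded measurable functions vanishing outside `[-L,L]` are integrable -/
lemma integrable_of {G : ℝ → ℂ} {L B : ℝ} (hm : Measurable G) (hB : ∀ x, ‖G x‖ ≤ B)
    (hL : ∀ x, L < |x| → G x = 0) : Integrable G := by
  have h1 : IntegrableOn G (Icc (-L) L) := by
    apply Measure.integrableOn_of_bounded (M := B)
    · simp
    · exact hm.aestronglyMeasurable
    · exact Eventually.of_forall hB
  rw [← integrable_indicator_iff measurableSet_Icc] at h1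
  have h2 : (Icc (-L) L).indicator G = G := by
    rw [indicator_eq_self]
    intro x hx
    rw [Function.mem_support] at hx
    by_contra h
    apply hx
    apply hL
    by_contra h3
    rw [not_lt, abs_le] at h3
    exact h ⟨h3.1, h3.2⟩
  rwa [h2] at h1

lemma FT_eq (F : ℝ → ℂ) (ν : ℝ) : FT F ν = 𝓕 F (-ν) := by
  unfold FT
  rw [Real.fourier_real_eq_integral_exp_smul]
  refine integral_congr_ae (Eventually.of_forall fun x => ?_)
  show F x * ee (ν * x) = Complex.exp (((-2 * Real.pi * x * -ν : ℝ) : ℂ) * Complex.I) • F x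
  unfold ee
  rw [smul_eq_mul, mul_comm]
  congr 3
  congr 1
  ring

end Pl_aux

open Pl_aux FourierTransform

theorem iPl : StPl := by
  intro F L B hm hB hL
  have h1 : Integrable F := integrable_of hm hB hL
  have h2 : MemLp F 2 := by
    rw [memLp_two_iff_integrable_sq_norm hm.aestronglyMeasurable]
    have : Integrable (fun x => ((‖F x‖ ^ 2 : ℝ) : ℂ)) := by
      refine integrable_of (L := L) (B := B ^ 2) ?_ ?_ ?_
      · exact Complex.measurable_ofReal.comp (hm.norm.pow_const 2)
      · intro x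
        rw [Complex.norm_real, Real.norm_of_nonneg (by positivity)]
        exact pow_le_pow_left₀ (norm_nonneg _) (hB x) 2
      · intro x hx
        rw [hL x hx]
        simp
    exact this.re.congr (Eventually.of_forall fun x => Complex.ofReal_re _)
  have h3 : Integrable (fun x : ℝ => (x : ℝ) • F x) := by
    refine integrable_of (L := L) (B := |L| * B) ?_ ?_ ?_
    · exact measurable_id.smul hm
    · intro x
      rw [norm_smul]
      by_cases hx : L < |x|
      · rw [hL x hx]
        have : 0 ≤ B := (norm_nonneg _).trans (hB x)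
        simp
        positivity
      · rw [not_lt] at hx
        have : 0 ≤ B := (norm_nonneg _).trans (hB x)
        exact mul_le_mul ((hx.trans (le_abs_self L))) (hB x) (norm_nonneg _) (abs_nonneg _)
    · intro x hx
      rw [hL x hx, smul_zero]
  have hc := gpl_cont h1
  have hFT : FT F = fun ν => 𝓕 F (-ν) := funext fun ν => FT_eq F ν
  have hmem := gpl_memLp h1 h2
  have hsq : Integrable (fun ν => ‖𝓕 F ν‖ ^ 2) :=
    (memLp_two_iff_integrable_sq_norm hc.aestronglyMeasurable).1 hmem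
  refine ⟨?_, ?_, ?_, ?_⟩
  · rw [hFT]
    exact hc.comp continuous_neg
  · rw [hFT]
    exact hsq.comp_neg
  · rw [hFT]
    have e1 : ∫ ν, ‖𝓕 F (-ν)‖ ^ 2 = ∫ ν, ‖𝓕 F ν‖ ^ 2 :=
      integral_neg_eq_self (fun ν => ‖𝓕 F ν‖ ^ 2) volume
    rw [e1]
    have h := gpl_inner h1 h2 h1 h2
    have e2 : ∀ G : ℝ → ℂ, ∫ x, (starRingEnd ℂ) (G x) * G x = ((∫ x, ‖G x‖ ^ 2 : ℝ) : ℂ) := by
      intro G
      refine Eq.trans ?_ integral_ofReal
      refine integral_congr_ae (Eventually.of_forall fun x => ?_)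
      show (starRingEnd ℂ) (G x) * G x = ((‖G x‖ ^ 2 : ℝ) : ℂ)
      rw [mul_comm, Complex.mul_conj, Complex.normSq_eq_norm_sq]
    rw [e2, e2] at h
    exact_mod_cast h
  · intro ν
    rw [hFT, FT_eq]
    have h := Real.hasDerivAt_fourier h1 h3 (-ν)
    have h4 := h.scomp ν (hasDerivAt_neg ν)
    have e1 : (-1 : ℝ) • 𝓕 (fun x : ℝ => (-2 * (Real.pi : ℂ) * Complex.I * (x : ℂ)) • F x) (-ν) =
        𝓕 (fun x : ℝ => ((2 * Real.pi * x : ℝ) : ℂ) * Complex.I * F x) (-ν) := by
      rw [Real.fourier_real_eq_integral_exp_smul, Real.fourier_real_eq_integral_exp_smul,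
        ← integral_smul]
      refine integral_congr_ae (Eventually.of_forall fun x => ?_)
      simp only [smul_eq_mul, Complex.real_smul]
      push_cast
      ring
    rw [← e1]
    exact h4

end Pool.Agent.Work.MP_56b8f5_nt.UV
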