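import Pool.Agent.Work.MP_56b8f5_nt.UV.Stmts

/-!
MP_56b8f5_nt, block UV, item Pr: the choice of the parameters.  Author: helper81.
-/

open MeasureTheory Set Filter Topology

noncomputable section

namespace Pool.Agent.Work.MP_56b8f5_nt.UV

open Pool.Agent.Work.MP_56b8f5_nt.UB

namespace Pr_aux

theorem pw {T : ℝ} (hT : 0 < T) (a : ℝ) (k : ℕ) : (T ^ a) ^ k = T ^ (a * k) := by
  rw [← Real.rpow_natCast, ← Real.rpow_mul hT.le]

/-- absorb the constants and logarithms -/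
theorem key {A L T δ κ a b : ℝ} (hT : 1 ≤ T) (hA : A * L ≤ T ^ δ) (hL : 0 ≤ L) (hκ : κ ≤ A)
    (h : δ + a ≤ b) : κ * L * T ^ a ≤ T ^ b := by
  have hT0 : 0 < T := by linarith
  calc κ * L * T ^ a ≤ A * L * T ^ a := by gcongr
    _ ≤ T ^ δ * T ^ a := by gcongr
    _ = T ^ (δ + a) := (Real.rpow_add hT0 _ _).symm
    _ ≤ T ^ b := Real.rpow_le_rpow_of_exponent_le hT h

/-- the logarithm is absorbed -/
theorem lq_bound {A δ : ℝ} (hA : 1 ≤ A) (hδ : 0 < δ) : ∃ C : ℝ, 3 ≤ C ∧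
    ∀ T N : ℝ, C ≤ T → 1 ≤ N → N ≤ T → A * Lq N ^ 3 ≤ T ^ δ ∧ 1 ≤ Lq N := by
  refine ⟨max 3 ((A * (12 / δ) ^ 3) ^ (2 / δ)), le_max_left _ _, ?_⟩
  intro T N hT hN hNT
  have hT3 : 3 ≤ T := le_trans (le_max_left _ _) hT
  have hT0 : 0 < T := by linarith
  have hT2 : (A * (12 / δ) ^ 3) ^ (2 / δ) ≤ T := le_trans (le_max_right _ _) hT
  have hB : 0 ≤ A * (12 / δ) ^ 3 := by positivity
  have h1 : A * (12 / δ) ^ 3 ≤ T ^ (δ / 2) := by
    have h2 : ((A * (12 / δ) ^ 3) ^ (2 / δ)) ^ (δ / 2) ≤ T ^ (δ / 2) :=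
      Real.rpow_le_rpow (by positivity) hT2 (by positivity)
    rw [← Real.rpow_mul hB] at h2
    have h3 : 2 / δ * (δ / 2) = 1 := by field_simp
    rwa [h3, Real.rpow_one] at h2
  have hlq1 : 1 ≤ Lq N := by
    unfold Lq
    rw [Real.le_log_iff_exp_le (by linarith)]
    have := Real.exp_one_lt_d9
    linarith
  refine ⟨?_, hlq1⟩
  have h4 : Lq N ≤ 12 / δ * T ^ (δ / 6) := by
    unfold Lq
    calc Real.log (2 + N) ≤ Real.log (T ^ 2) := by
          apply Real.log_le_log (by linarith)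
          nlinarith
      _ = 2 * Real.log T := by rw [Real.log_pow]; norm_num
      _ ≤ 2 * (T ^ (δ / 6) / (δ / 6)) := by
          gcongr
          exact Real.log_le_rpow_div hT0.le (by positivity)
      _ = 12 / δ * T ^ (δ / 6) := by
          field_simp
          ring
  have h0 : 0 ≤ Lq N := by linarith
  calc A * Lq N ^ 3 ≤ A * (12 / δ * T ^ (δ / 6)) ^ 3 := by gcongr
    _ = A * (12 / δ) ^ 3 * (T ^ (δ / 6)) ^ 3 := by ring
    _ ≤ T ^ (δ / 2) * (T ^ (δ / 6)) ^ 3 := by gcongr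
    _ = T ^ (δ / 2) * T ^ (δ / 6 * (3 : ℕ)) := by rw [pw hT0]
    _ = T ^ δ := by
        rw [← Real.rpow_add hT0]
        congr 1
        push_cast
        ring

/-- the exponent of a positive number -/
theorem exists_exponent {T N : ℝ} (hT : 1 < T) (hN : 0 < N) : ∃ n : ℝ, N = T ^ n := by
  refine ⟨Real.log N / Real.log T, ?_⟩
  have h := Real.log_pos hT
  rw [Real.rpow_def_of_pos (by linarith), mul_div_cancel₀ _ h.ne', Real.exp_log hN]

/-- `1 / X ≤ 4 T^(-1/2)` -/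
theorem X_lower {T X : ℝ} (hT : 1 < T) (hX : 0 < X) (hXs : X ^ 2 ∈ sI T) :
    T ^ (1 / 2 : ℝ) ≤ 4 * X := by
  have hT0 : 0 < T := by linarith
  have h1 : T / (4 * Real.pi) ≤ X ^ 2 := hXs.1
  have hpi := Real.pi_le_four
  have hpi0 := Real.pi_pos
  have h2 : T / 16 ≤ X ^ 2 := by
    refine le_trans ?_ h1
    apply div_le_div_of_nonneg_left hT0.le (by positivity)
    linarith
  rw [← Real.sqrt_eq_rpow]
  apply Real.sqrt_le_iff.2
  constructor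
  · positivity
  · nlinarith

theorem sqrt_pow {T : ℝ} (hT : 0 < T) (a : ℝ) : Real.sqrt (T ^ a) = T ^ (a / 2) := by
  rw [Real.sqrt_eq_rpow, ← Real.rpow_mul hT.le]
  congr 1
  ring

theorem sqrt_sqrt {T : ℝ} (hT : 0 < T) (n : ℝ) :
    Real.sqrt (Real.sqrt (T ^ n * T)) = T ^ ((n + 1) / 4) := by
  have h : T ^ n * T = T ^ (n + 1) := by rw [Real.rpow_add hT, Real.rpow_one]
  rw [h, sqrt_pow hT, sqrt_pow hT]
  congr 1
  ring

theorem eta_eq {T c0 u c w n : ℝ} (hT : 0 < T) (hc0 : 0 < c0) (hu : 1 ≤ u) (hc : c = 1 / c0 ^ 2)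
    (hw : w = 1 / u) :
    T ^ n * T ^ (n / 2) / (c0 * u * T ^ ((n + 1) / 4)) ^ 2 = c * w ^ 2 * T ^ (n - 1 / 2) := by
  have hu0 : 0 < u := by linarith
  have h1 : (c0 * u * T ^ ((n + 1) / 4)) ^ 2 = c0 ^ 2 * u ^ 2 * T ^ ((n + 1) / 2) := by
    rw [mul_pow, mul_pow, pw hT]
    congr 2
    push_cast
    ring
  have h2 : T ^ n * T ^ (n / 2) = T ^ (n - 1 / 2) * T ^ ((n + 1) / 2) := by
    rw [← Real.rpow_add hT, ← Real.rpow_add hT]
    congr 1
    ring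
  have h3 : 0 < T ^ ((n + 1) / 2) := Real.rpow_pos_of_pos hT _
  rw [h1, h2, hc, hw]
  field_simp

end Pr_aux

/-- Item Pr. -/
theorem iPr : StPr := by
  intro c0 C0 ε J hc0 hC0 hε hε1 hJ
  obtain ⟨c, hc⟩ : ∃ c : ℝ, c = 1 / c0 ^ 2 := ⟨_, rfl⟩
  have hcp : 0 < c := by rw [hc]; positivity
  have hcc0 : c * c0 ^ 2 = 1 := by rw [hc]; field_simp
  obtain ⟨D, hD⟩ : ∃ D : ℝ, D = 3072 + 3 * 64 ^ J + c + c ^ 6 + 48 * c ^ 3 + 5 * c ^ 5 := ⟨_, rfl⟩
  have hc3 : 0 < c ^ 3 := by positivity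
  have hc5 : 0 < c ^ 5 := by positivity
  have hc6 : 0 < c ^ 6 := by positivity
  have hJ64 : (0 : ℝ) < 64 ^ J := by positivity
  have hDA : ∀ d : ℝ, d ≤ D → C0 * d ≤ C0 * D := fun d hd =>
    mul_le_mul_of_nonneg_left hd (by linarith)
  have hD1 : 3072 ≤ D := by rw [hD]; linarith
  have hA1 : 1 ≤ C0 * D := by nlinarith
  have hA64 : 64 ≤ C0 * D := by nlinarith
  obtain ⟨δ, hδ⟩ : ∃ δ : ℝ, δ = ε / 2 := ⟨_, rfl⟩
  have hδp : 0 < δ := by rw [hδ]; linarith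
  have hδ1 : δ < 1 / 2000 := by rw [hδ]; linarith
  obtain ⟨C, hC3, hC⟩ := Pr_aux.lq_bound hA1 hδp
  refine ⟨C, by linarith, ?_⟩
  intro T N u hT hN1 hN2 hu
  have hT1 : 1 < T := by linarith
  have hT0 : 0 < T := by linarith
  have hT1' : 1 ≤ T := hT1.le
  have hNp : 0 < N := lt_of_lt_of_le (Real.rpow_pos_of_pos hT0 _) hN1
  obtain ⟨n, hn⟩ := Pr_aux.exists_exponent hT1 hNp
  have hn1 : 1 / 2 - 1 / 42 ≤ n := (Real.rpow_le_rpow_left_iff hT1).1 (hn ▸ hN1)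
  have hn2 : n ≤ 1 / 2 + 1 / 42 := (Real.rpow_le_rpow_left_iff hT1).1 (hn ▸ hN2)
  have hNge : 1 ≤ N := by
    rw [hn]
    exact Real.one_le_rpow hT1' (by linarith)
  have hNT : N ≤ T := by
    rw [hn]
    calc T ^ n ≤ T ^ (1 : ℝ) := Real.rpow_le_rpow_of_exponent_le hT1' (by linarith)
      _ = T := Real.rpow_one _
  obtain ⟨hL, hLq1⟩ := hC T N hT hNge hNT
  clear hC
  obtain ⟨L, hLdef⟩ : ∃ L : ℝ, L = Lq N ^ 3 := ⟨_, rfl⟩
  have hL1 : 1 ≤ L := by rw [hLdef]; exact one_le_pow₀ hLq1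
  have hL0 : 0 ≤ L := by linarith
  rw [← hLdef] at hL ⊢
  obtain ⟨A, hA⟩ : ∃ A : ℝ, A = C0 * D := ⟨_, rfl⟩
  rw [← hA] at hL hDA hA1 hA64
  -- with the logarithm
  have key : ∀ κ a b : ℝ, κ ≤ A → δ + a ≤ b → κ * L * T ^ a ≤ T ^ b := fun κ a b h1 h2 =>
    Pr_aux.key hT1' hL hL0 h1 h2
  -- without the logarithm
  have key1 : ∀ κ a b : ℝ, 0 ≤ κ → κ ≤ A → δ + a ≤ b → κ * T ^ a ≤ T ^ b := by
    intro κ a b h0 h1 h2
    refine le_trans ?_ (key κ a b h1 h2)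
    have : 0 < T ^ a := Real.rpow_pos_of_pos hT0 _
    have h3 : κ * 1 ≤ κ * L := mul_le_mul_of_nonneg_left hL1 h0
    have h4 : κ ≤ κ * L := by linarith
    gcongr
  obtain ⟨p, hp⟩ : ∃ p : ℝ, (p = 0 ∧ 1 / 2 ≤ n) ∨ (p = 1 / 2 - n ∧ n ≤ 1 / 2) := by
    rcases le_total (1 / 2) n with h | h
    · exact ⟨0, Or.inl ⟨rfl, h⟩⟩
    · exact ⟨1 / 2 - n, Or.inr ⟨rfl, h⟩⟩
  have hp0 : 0 ≤ p := by rcases hp with ⟨h1, h2⟩ | ⟨h1, h2⟩ <;> linarith
  have hp1 : 1 / 2 - n ≤ p := by rcases hp with ⟨h1, h2⟩ | ⟨h1, h2⟩ <;> linarith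
  obtain ⟨m, hm⟩ : ∃ m : ℝ, m = 3 / 28 - δ - (n - 1 / 2) / 2 + p := ⟨_, rfl⟩
  obtain ⟨k, hk⟩ : ∃ k : ℝ, k = 1 / 84 + δ + 3 * (n - 1 / 2) / 2 + p := ⟨_, rfl⟩
  obtain ⟨b, hb⟩ : ∃ b : ℝ, b = δ - 1 / 42 + m + 2 * (n - 1 / 2) := ⟨_, rfl⟩
  obtain ⟨w, hw⟩ : ∃ w : ℝ, w = 1 / u := ⟨_, rfl⟩
  have hu0 : 0 < u := by linarith
  have hw0 : 0 < w := by rw [hw]; positivity
  have hw1 : w ≤ 1 := by rw [hw, div_le_one hu0]; exact hu
  have hwu : w * u = 1 := by rw [hw]; field_simp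
  have hTn : ∀ a : ℝ, 0 < T ^ a := fun a => Real.rpow_pos_of_pos hT0 _
  have hadd : ∀ a b : ℝ, T ^ a * T ^ b = T ^ (a + b) := fun a b => (Real.rpow_add hT0 _ _).symm
  have hsqN : Real.sqrt N = T ^ (n / 2) := by rw [hn, Pr_aux.sqrt_pow hT0]
  have hsqT : Real.sqrt T = T ^ (1 / 2 : ℝ) := Real.sqrt_eq_rpow T
  have hss : Real.sqrt (Real.sqrt (N * T)) = T ^ ((n + 1) / 4) := by
    rw [hn, Pr_aux.sqrt_sqrt hT0]
  refine ⟨T ^ m, T ^ k, T ^ b * w, ?_, ?_, ?_, ?_, ?_, ?_, ?_⟩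
  · apply Real.one_le_rpow hT1'
    rcases hp with ⟨h1, h2⟩ | ⟨h1, h2⟩ <;> linarith
  · rw [Pr_aux.pw hT0, hn]
    apply Real.rpow_le_rpow_of_exponent_le hT1'
    push_cast
    rcases hp with ⟨h1, h2⟩ | ⟨h1, h2⟩ <;> linarith
  · rw [hsqN, hsqT, hadd]
    apply Real.rpow_le_rpow_of_exponent_le hT1'
    rcases hp with ⟨h1, h2⟩ | ⟨h1, h2⟩ <;> linarith
  · apply Real.one_le_rpow hT1'
    rcases hp with ⟨h1, h2⟩ | ⟨h1, h2⟩ <;> linarith
  · exact mul_pos (hTn b) hw0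
  · rw [hsqN, hsqT, hn, hadd]
    have h1 : T ^ n / T ^ (1 / 2 : ℝ) = T ^ (n - 1 / 2) := (Real.rpow_sub hT0 _ _).symm
    have h2 : T / T ^ (m + n / 2) = T ^ (1 - (m + n / 2)) := by
      rw [Real.rpow_sub hT0, Real.rpow_one]
    rw [h1, h2, ← Real.rpow_mul hT0.le]
    calc T ^ (1 - (m + n / 2)) * (T ^ b * w) * u
        = T ^ (1 - (m + n / 2)) * T ^ b * (w * u) := by ring
      _ = T ^ (1 - (m + n / 2) + b) := by rw [hwu, mul_one, hadd]
      _ ≤ T ^ (3 / 4 - 1 / 42 + ε + (n - 1 / 2) * (3 / 2)) := by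
          apply Real.rpow_le_rpow_of_exponent_le hT1'
          linarith
      _ = _ := (hadd _ _).symm
  · intro V η X hV hη hX hXs
    have hXl : T ^ (1 / 2 : ℝ) ≤ 4 * X := Pr_aux.X_lower hT1 hX hXs
    have hηe : η = c * w ^ 2 * T ^ (n - 1 / 2) := by
      rw [hη, hV, hss, hsqN, hn]
      exact Pr_aux.eta_eq hT0 hc0 hu hc hw
    have hw2 : w ^ 2 ≤ w := by nlinarith
    have hηe0 : 0 ≤ η := by rw [hηe]; have := hTn (n - 1 / 2); positivity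
    have hNX : N / X ≤ 4 * T ^ (n - 1 / 2) := by
      rw [div_le_iff₀ hX, hn]
      calc T ^ n = T ^ (n - 1 / 2) * T ^ (1 / 2 : ℝ) := by
            rw [hadd]
            congr 1
            ring
        _ ≤ T ^ (n - 1 / 2) * (4 * X) := by
            have := hTn (n - 1 / 2)
            gcongr
        _ = 4 * T ^ (n - 1 / 2) * X := by ring
    have hNX0 : 0 ≤ N / X := by positivity
    have hX2 : T ≤ 16 * X ^ 2 := by
      have h1 : (T ^ (1 / 2 : ℝ)) ^ 2 ≤ (4 * X) ^ 2 := by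
        have := hTn (1 / 2)
        gcongr
      rw [Pr_aux.pw hT0] at h1
      have h2 : (1 / 2 : ℝ) * (2 : ℕ) = 1 := by norm_num
      rw [h2, Real.rpow_one] at h1
      linarith
    refine ⟨?_, ?_, ?_, ?_, ?_, ?_, ?_, ?_⟩
    · have h1 := key1 (C0 * 16) (m + n) 1 (by positivity) (hDA 16 (by linarith))
        (by rcases hp with ⟨h1, h2⟩ | ⟨h1, h2⟩ <;> linarith)
      rw [Real.rpow_one] at h1
      rw [hn, hadd]
      linarith
    · have h1 := key1 (C0 * c) 0 ((n + 1) / 2) (by positivity)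
        (hDA c (by rw [hD]; linarith)) (by linarith)
      rw [Real.rpow_zero, mul_one] at h1
      have h2 : V ^ 2 = c0 ^ 2 * u ^ 2 * T ^ ((n + 1) / 2) := by
        rw [hV, hss, mul_pow, mul_pow, Pr_aux.pw hT0]
        congr 2
        push_cast
        ring
      rw [h2]
      have hu2 : 1 ≤ u ^ 2 := one_le_pow₀ hu
      have h3 := hTn ((n + 1) / 2)
      calc C0 = c0 ^ 2 * (C0 * c) := by
            calc C0 = C0 * (c * c0 ^ 2) := by rw [hcc0, mul_one]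
              _ = c0 ^ 2 * (C0 * c) := by ring
        _ ≤ c0 ^ 2 * T ^ ((n + 1) / 2) := by gcongr
        _ = c0 ^ 2 * 1 * T ^ ((n + 1) / 2) := by ring
        _ ≤ c0 ^ 2 * u ^ 2 * T ^ ((n + 1) / 2) := by gcongr
    · have h1 := key1 (C0 * c) (n - 1 / 2) k (by positivity)
        (hDA c (by rw [hD]; linarith))
        (by rcases hp with ⟨h1, h2⟩ | ⟨h1, h2⟩ <;> linarith)
      refine le_trans ?_ h1
      rw [hηe]
      have h3 := hTn (n - 1 / 2)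
      have h4 : w ^ 2 ≤ 1 := by linarith
      calc C0 * (c * w ^ 2 * T ^ (n - 1 / 2)) ≤ C0 * (c * 1 * T ^ (n - 1 / 2)) := by gcongr
        _ = C0 * c * T ^ (n - 1 / 2) := by ring
    · have h1 := key (C0 * c) (n - 1 / 2) b
        (hDA c (by rw [hD]; linarith))
        (by rcases hp with ⟨h1, h2⟩ | ⟨h1, h2⟩ <;> linarith)
      rw [hηe]
      have h3 := hTn b
      calc C0 * L * (c * w ^ 2 * T ^ (n - 1 / 2)) = C0 * c * L * T ^ (n - 1 / 2) * w ^ 2 := by ring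
        _ ≤ T ^ b * w := by gcongr
    · have h1 := key (C0 * c ^ 6) ((n - 1 / 2) * (6 : ℕ) + m * (3 : ℕ) + k) (b * (4 : ℕ))
        (hDA (c ^ 6) (by rw [hD]; linarith))
        (by push_cast; linarith)
      have h2 : w ^ 12 ≤ w ^ 4 := pow_le_pow_of_le_one hw0.le hw1 (by norm_num)
      rw [hηe]
      have h3 := hTn (b * (4 : ℕ))
      calc C0 * L * ((c * w ^ 2 * T ^ (n - 1 / 2)) ^ 6 * (T ^ m) ^ 3 * T ^ k)
          = C0 * c ^ 6 * L * ((T ^ (n - 1 / 2)) ^ 6 * (T ^ m) ^ 3 * T ^ k) * w ^ 12 := by ring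
        _ = C0 * c ^ 6 * L * T ^ ((n - 1 / 2) * (6 : ℕ) + m * (3 : ℕ) + k) * w ^ 12 := by
            rw [Pr_aux.pw hT0, Pr_aux.pw hT0, hadd, hadd]
        _ ≤ T ^ (b * (4 : ℕ)) * w ^ 4 := by gcongr
        _ = (T ^ b * w) ^ 4 := by rw [mul_pow, Pr_aux.pw hT0]
    · have h1 := key (C0 * (5 * c ^ 5))
        ((n - 1 / 2) * (5 : ℕ) + m * (3 : ℕ) + (m / 2 + (n - 1 / 2))) (n / 2 + b * (2 : ℕ))
        (hDA (5 * c ^ 5) (by rw [hD]; linarith))
        (by push_cast; rcases hp with ⟨h1, h2⟩ | ⟨h1, h2⟩ <;> linarith)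
      have h2 : w ^ 10 ≤ w ^ 2 := pow_le_pow_of_le_one hw0.le hw1 (by norm_num)
      have h4 : 1 + Real.sqrt (T ^ m) * N / X ≤ 5 * T ^ (m / 2 + (n - 1 / 2)) := by
        have h5 : 1 ≤ T ^ (m / 2 + (n - 1 / 2)) := by
          apply Real.one_le_rpow hT1'
          rcases hp with ⟨h1, h2⟩ | ⟨h1, h2⟩ <;> linarith
        have h6 : Real.sqrt (T ^ m) * N / X ≤ 4 * T ^ (m / 2 + (n - 1 / 2)) := by
          rw [Pr_aux.sqrt_pow hT0, mul_div_assoc, ← hadd]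
          have h7 := hTn (m / 2)
          calc T ^ (m / 2) * (N / X) ≤ T ^ (m / 2) * (4 * T ^ (n - 1 / 2)) := by gcongr
            _ = 4 * (T ^ (m / 2) * T ^ (n - 1 / 2)) := by ring
        linarith
      rw [hηe]
      have h3 := hTn (n / 2 + b * (2 : ℕ))
      have h5 := hTn (n - 1 / 2)
      have h6 := hTn m
      calc C0 * L * ((c * w ^ 2 * T ^ (n - 1 / 2)) ^ 5 * (T ^ m) ^ 3 *
            (1 + Real.sqrt (T ^ m) * N / X))
          ≤ C0 * L * ((c * w ^ 2 * T ^ (n - 1 / 2)) ^ 5 * (T ^ m) ^ 3 *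
            (5 * T ^ (m / 2 + (n - 1 / 2)))) := by gcongr
        _ = C0 * (5 * c ^ 5) * L * ((T ^ (n - 1 / 2)) ^ 5 * (T ^ m) ^ 3 *
            T ^ (m / 2 + (n - 1 / 2))) * w ^ 10 := by ring
        _ = C0 * (5 * c ^ 5) * L *
            T ^ ((n - 1 / 2) * (5 : ℕ) + m * (3 : ℕ) + (m / 2 + (n - 1 / 2))) * w ^ 10 := by
            rw [Pr_aux.pw hT0, Pr_aux.pw hT0, hadd, hadd]
        _ ≤ T ^ (n / 2 + b * (2 : ℕ)) * w ^ 2 := by gcongr
        _ = Real.sqrt N * (T ^ b * w) ^ 2 := by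
            rw [hsqN, mul_pow, Pr_aux.pw hT0, ← hadd]
            ring
    · have h1 := key (C0 * (48 * c ^ 3))
        (m + ((n - 1 / 2) * (3 : ℕ) + (n - 1 / 2) * (2 : ℕ) - k * (2 : ℕ))) b
        (hDA (48 * c ^ 3) (by rw [hD]; linarith))
        (by push_cast; rcases hp with ⟨h1, h2⟩ | ⟨h1, h2⟩ <;> linarith)
      have h2 := key (C0 * (3 * c ^ 3))
        (m + ((n - 1 / 2) * (3 : ℕ) - k * (4 : ℕ))) b
        (hDA (3 * c ^ 3) (by rw [hD]; linarith))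
        (by push_cast; rcases hp with ⟨h1, h2⟩ | ⟨h1, h2⟩ <;> linarith)
      have h3 := key (C0 * (3 * c ^ 5))
        (m + ((n - 1 / 2) * (5 : ℕ) - k * (4 : ℕ))) b
        (hDA (3 * c ^ 5) (by rw [hD]; linarith))
        (by push_cast; rcases hp with ⟨h1, h2⟩ | ⟨h1, h2⟩ <;> linarith)
      have hw6 : w ^ 6 ≤ w := by
        calc w ^ 6 ≤ w ^ 1 := pow_le_pow_of_le_one hw0.le hw1 (by norm_num)
          _ = w := pow_one w
      have hw10 : w ^ 10 ≤ w := by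
        calc w ^ 10 ≤ w ^ 1 := pow_le_pow_of_le_one hw0.le hw1 (by norm_num)
          _ = w := pow_one w
      have h5 := hTn (n - 1 / 2)
      have h6 := hTn m
      have h7 := hTn k
      have h8 := hTn b
      have hsub : ∀ a b : ℝ, T ^ a / T ^ b = T ^ (a - b) := fun a b =>
        (Real.rpow_sub hT0 _ _).symm
      have e1 : C0 * L * (T ^ m * (η ^ 3 * (N / X) ^ 2 / (T ^ k) ^ 2)) ≤ 1 / 3 * (T ^ b * w) := by
        rw [hηe]
        calc C0 * L * (T ^ m * ((c * w ^ 2 * T ^ (n - 1 / 2)) ^ 3 * (N / X) ^ 2 / (T ^ k) ^ 2))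
            ≤ C0 * L * (T ^ m * ((c * w ^ 2 * T ^ (n - 1 / 2)) ^ 3 *
              (4 * T ^ (n - 1 / 2)) ^ 2 / (T ^ k) ^ 2)) := by gcongr
          _ = 1 / 3 * (C0 * (48 * c ^ 3) * L * (T ^ m * ((T ^ (n - 1 / 2)) ^ 3 *
              (T ^ (n - 1 / 2)) ^ 2 / (T ^ k) ^ 2)) * w ^ 6) := by ring
          _ = 1 / 3 * (C0 * (48 * c ^ 3) * L * T ^ (m + ((n - 1 / 2) * (3 : ℕ) +
              (n - 1 / 2) * (2 : ℕ) - k * (2 : ℕ))) * w ^ 6) := by
              rw [Pr_aux.pw hT0, Pr_aux.pw hT0, Pr_aux.pw hT0, hadd, hsub, hadd]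
          _ ≤ 1 / 3 * (T ^ b * w) := by gcongr
      have e2 : C0 * L * (T ^ m * (η ^ 3 / (T ^ k) ^ 4)) ≤ 1 / 3 * (T ^ b * w) := by
        rw [hηe]
        calc C0 * L * (T ^ m * ((c * w ^ 2 * T ^ (n - 1 / 2)) ^ 3 / (T ^ k) ^ 4))
            = 1 / 3 * (C0 * (3 * c ^ 3) * L * (T ^ m * ((T ^ (n - 1 / 2)) ^ 3 /
              (T ^ k) ^ 4)) * w ^ 6) := by ring
          _ = 1 / 3 * (C0 * (3 * c ^ 3) * L * T ^ (m + ((n - 1 / 2) * (3 : ℕ) -
              k * (4 : ℕ))) * w ^ 6) := by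
              rw [Pr_aux.pw hT0, Pr_aux.pw hT0, hsub, hadd]
          _ ≤ 1 / 3 * (T ^ b * w) := by gcongr
      have e3 : C0 * L * (T ^ m * (η ^ 5 / (T ^ k) ^ 4)) ≤ 1 / 3 * (T ^ b * w) := by
        rw [hηe]
        calc C0 * L * (T ^ m * ((c * w ^ 2 * T ^ (n - 1 / 2)) ^ 5 / (T ^ k) ^ 4))
            = 1 / 3 * (C0 * (3 * c ^ 5) * L * (T ^ m * ((T ^ (n - 1 / 2)) ^ 5 /
              (T ^ k) ^ 4)) * w ^ 10) := by ring
          _ = 1 / 3 * (C0 * (3 * c ^ 5) * L * T ^ (m + ((n - 1 / 2) * (5 : ℕ) -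
              k * (4 : ℕ))) * w ^ 10) := by
              rw [Pr_aux.pw hT0, Pr_aux.pw hT0, hsub, hadd]
          _ ≤ 1 / 3 * (T ^ b * w) := by gcongr
      calc C0 * L * (T ^ m * (η ^ 3 * (N / X) ^ 2 / (T ^ k) ^ 2 + (η ^ 3 + η ^ 5) / (T ^ k) ^ 4))
          = C0 * L * (T ^ m * (η ^ 3 * (N / X) ^ 2 / (T ^ k) ^ 2)) +
            C0 * L * (T ^ m * (η ^ 3 / (T ^ k) ^ 4)) +
            C0 * L * (T ^ m * (η ^ 5 / (T ^ k) ^ 4)) := by ring
        _ ≤ T ^ b * w := by linarith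
    · intro x hx0 hx1
      rw [hsqN, hadd] at hx1
      have hXinv : 1 / X ≤ 4 * T ^ (-(1 / 2) : ℝ) := by
        rw [div_le_iff₀ hX]
        calc (1 : ℝ) = T ^ (-(1 / 2) : ℝ) * T ^ (1 / 2 : ℝ) := by
              rw [hadd, neg_add_cancel, Real.rpow_zero]
          _ ≤ T ^ (-(1 / 2) : ℝ) * (4 * X) := by
              have := hTn (-(1 / 2))
              gcongr
          _ = 4 * T ^ (-(1 / 2) : ℝ) * X := by ring
      have hXinv0 : 0 ≤ 1 / X := by positivity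
      -- `z = x²N√N/X³ ≤ 64 T^(-2δ)`
      have hz : x ^ 2 * (N * Real.sqrt N) / X ^ 3 ≤ 64 * T ^ (-ε) := by
        rw [hsqN, hn, hadd]
        have h1 := hTn (n + n / 2)
        have h2 := hTn (m + n / 2)
        have h3 := hTn (-(1 / 2))
        calc x ^ 2 * T ^ (n + n / 2) / X ^ 3 = x ^ 2 * T ^ (n + n / 2) * (1 / X) ^ 3 := by ring
          _ ≤ (T ^ (m + n / 2)) ^ 2 * T ^ (n + n / 2) * (4 * T ^ (-(1 / 2) : ℝ)) ^ 3 := by gcongr
          _ = 64 * ((T ^ (m + n / 2)) ^ 2 * T ^ (n + n / 2) * (T ^ (-(1 / 2) : ℝ)) ^ 3) := by ring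
          _ = 64 * T ^ ((m + n / 2) * (2 : ℕ) + (n + n / 2) + -(1 / 2) * (3 : ℕ)) := by
              rw [Pr_aux.pw hT0, Pr_aux.pw hT0, hadd, hadd]
          _ ≤ 64 * T ^ (-ε) := by
              gcongr
              push_cast
              rcases hp with ⟨h1, h2⟩ | ⟨h1, h2⟩ <;> linarith
      have hz0 : 0 ≤ x ^ 2 * (N * Real.sqrt N) / X ^ 3 := by positivity
      refine ⟨?_, ?_⟩
      · have h1 : x ^ 2 * (N * Real.sqrt N) / X ^ 3 ≤ 1 := by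
          refine le_trans hz ?_
          have h2 := key1 64 (-ε) 0 (by norm_num) hA64 (by linarith)
          rwa [Real.rpow_zero] at h2
        rwa [div_le_one (by positivity)] at h1
      · have hq : N / Real.sqrt (Real.sqrt (N * T)) = T ^ (n - (n + 1) / 4) := by
          rw [hss, hn, Real.rpow_sub hT0]
        rw [hq]
        have h1 := hTn (n - (n + 1) / 4)
        have h2 := hTn (m + n / 2)
        have h3 := hTn (-(1 / 2))
        -- first error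
        have e1 : C0 * T ^ (n - (n + 1) / 4) * (x ^ 2 * (N * Real.sqrt N) / X ^ 3) ^ J ≤ 1 / 3 := by
          have h4 : (T ^ (-ε)) ^ J ≤ T ^ (-1 : ℝ) := by
            rw [Pr_aux.pw hT0]
            apply Real.rpow_le_rpow_of_exponent_le hT1'
            rw [div_le_iff₀ hε] at hJ
            linarith
          have h5 := key1 (C0 * (3 * 64 ^ J)) (n - (n + 1) / 4 + (-1)) 0 (by positivity)
            (hDA (3 * 64 ^ J) (by rw [hD]; linarith))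
            (by linarith)
          rw [Real.rpow_zero, ← hadd] at h5
          have h6 := hTn (-ε)
          calc C0 * T ^ (n - (n + 1) / 4) * (x ^ 2 * (N * Real.sqrt N) / X ^ 3) ^ J
              ≤ C0 * T ^ (n - (n + 1) / 4) * (64 * T ^ (-ε)) ^ J := by gcongr
            _ = C0 * T ^ (n - (n + 1) / 4) * (64 ^ J * (T ^ (-ε)) ^ J) := by rw [mul_pow]
            _ ≤ C0 * T ^ (n - (n + 1) / 4) * (64 ^ J * T ^ (-1 : ℝ)) := by gcongr
            _ = 1 / 3 * (C0 * (3 * 64 ^ J) * (T ^ (n - (n + 1) / 4) * T ^ (-1 : ℝ))) := by ring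
            _ ≤ 1 / 3 * 1 := by gcongr
            _ = 1 / 3 := by norm_num
        have e2 : C0 * T ^ (n - (n + 1) / 4) * (x / X) ≤ 1 / 3 := by
          have h5 := key1 (C0 * 12) (n - (n + 1) / 4 + (m + n / 2 + -(1 / 2))) 0 (by positivity)
            (hDA 12 (by linarith))
            (by rcases hp with ⟨h1, h2⟩ | ⟨h1, h2⟩ <;> linarith)
          rw [Real.rpow_zero, ← hadd, ← hadd (m + n / 2)] at h5
          calc C0 * T ^ (n - (n + 1) / 4) * (x / X)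
              = C0 * T ^ (n - (n + 1) / 4) * (x * (1 / X)) := by ring
            _ ≤ C0 * T ^ (n - (n + 1) / 4) * (T ^ (m + n / 2) * (4 * T ^ (-(1 / 2) : ℝ))) := by
                gcongr
            _ = 1 / 3 * (C0 * 12 * (T ^ (n - (n + 1) / 4) *
                (T ^ (m + n / 2) * T ^ (-(1 / 2) : ℝ)))) := by ring
            _ ≤ 1 / 3 * 1 := by gcongr
            _ = 1 / 3 := by norm_num
        have e3 : C0 * T ^ (n - (n + 1) / 4) * (x ^ 2 * (N ^ 2 * Real.sqrt N) / X ^ 5) ≤ 1 / 3 := by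
          have h5 := key1 (C0 * 3072) (n - (n + 1) / 4 + ((m + n / 2) * (2 : ℕ) +
            (n * (2 : ℕ) + n / 2) + -(1 / 2) * (5 : ℕ))) 0 (by positivity)
            (hDA 3072 hD1)
            (by push_cast; rcases hp with ⟨h1, h2⟩ | ⟨h1, h2⟩ <;> linarith)
          rw [Real.rpow_zero] at h5
          have h6 := hTn (n * (2 : ℕ) + n / 2)
          rw [hsqN, hn, Pr_aux.pw hT0 n 2, hadd (n * (2 : ℕ))]
          calc C0 * T ^ (n - (n + 1) / 4) * (x ^ 2 * T ^ (n * (2 : ℕ) + n / 2) / X ^ 5)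
              = C0 * T ^ (n - (n + 1) / 4) *
                (x ^ 2 * T ^ (n * (2 : ℕ) + n / 2) * (1 / X) ^ 5) := by ring
            _ ≤ C0 * T ^ (n - (n + 1) / 4) * ((T ^ (m + n / 2)) ^ 2 *
                T ^ (n * (2 : ℕ) + n / 2) * (4 * T ^ (-(1 / 2) : ℝ)) ^ 5) := by gcongr
            _ = 1 / 3 * (C0 * 3072 * (T ^ (n - (n + 1) / 4) * ((T ^ (m + n / 2)) ^ 2 *
                T ^ (n * (2 : ℕ) + n / 2) * (T ^ (-(1 / 2) : ℝ)) ^ 5))) := by ring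
            _ = 1 / 3 * (C0 * 3072 * T ^ (n - (n + 1) / 4 + ((m + n / 2) * (2 : ℕ) +
                (n * (2 : ℕ) + n / 2) + -(1 / 2) * (5 : ℕ)))) := by
                rw [Pr_aux.pw hT0 (m + n / 2), Pr_aux.pw hT0 (-(1 / 2)), hadd, hadd, hadd]
            _ ≤ 1 / 3 * 1 := by gcongr
            _ = 1 / 3 := by norm_num
        calc C0 * T ^ (n - (n + 1) / 4) * ((x ^ 2 * (N * Real.sqrt N) / X ^ 3) ^ J + x / X +
              x ^ 2 * (N ^ 2 * Real.sqrt N) / X ^ 5)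
            = C0 * T ^ (n - (n + 1) / 4) * (x ^ 2 * (N * Real.sqrt N) / X ^ 3) ^ J +
              C0 * T ^ (n - (n + 1) / 4) * (x / X) +
              C0 * T ^ (n - (n + 1) / 4) * (x ^ 2 * (N ^ 2 * Real.sqrt N) / X ^ 5) := by ring
          _ ≤ 1 := by linarith


end Pool.Agent.Work.MP_56b8f5_nt.UV
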