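import Pool.Agent.Work.MP_56b8f5_nt.UV.Stmts

/-!
Block UV, item Ps: the function `ψ(z) = (sin πz/(πz))²`.
-/

open MeasureTheory Set Filter Topology

noncomputable section

namespace Pool.Agent.Work.MP_56b8f5_nt.UV

open Pool.Agent.Work.MP_56b8f5_nt.UB

namespace Ps_aux

theorem norm_ee (x : ℝ) : ‖ee x‖ = 1 := by
  rw [ee, Complex.norm_exp_ofReal_mul_I]

theorem ps_eq {z : ℝ} (hz : z ≠ 0) : ps z = (Real.sin (Real.pi * z) / (Real.pi * z)) ^ 2 := by
  have hr : (2 * Real.pi * z : ℝ) ≠ 0 := mul_ne_zero (mul_ne_zero two_ne_zero Real.pi_ne_zero) hz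
  have hc : ((2 * Real.pi * z : ℝ) : ℂ) * Complex.I ≠ 0 :=
    mul_ne_zero (Complex.ofReal_ne_zero.2 hr) Complex.I_ne_zero
  have h := integral_exp_mul_complex (a := 0) (b := 1) hc
  have h1 : (∫ h in (0 : ℝ)..1, ee (z * h)) =
      (Complex.exp (Complex.I * ((2 * Real.pi * z : ℝ) : ℂ)) - 1) /
        (((2 * Real.pi * z : ℝ) : ℂ) * Complex.I) := by
    rw [Complex.ofReal_one, Complex.ofReal_zero, mul_zero, Complex.exp_zero, mul_one] at h
    rw [mul_comm Complex.I, ← h]
    refine intervalIntegral.integral_congr (fun x _ => ?_)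
    simp only [ee]
    congr 1
    push_cast
    ring
  have h4 : ‖((2 * Real.pi * z : ℝ) : ℂ) * Complex.I‖ = |2 * Real.pi * z| := by
    rw [norm_mul, Complex.norm_I, mul_one, Complex.norm_real, Real.norm_eq_abs]
  rw [ps, h1, norm_div, Complex.norm_exp_I_mul_ofReal_sub_one, h4, Real.norm_eq_abs, ← abs_div,
    sq_abs]
  have h2 : 2 * Real.pi * z / 2 = Real.pi * z := by ring
  rw [h2]
  have h3 : (2 : ℝ) * Real.sin (Real.pi * z) / (2 * Real.pi * z) =
      Real.sin (Real.pi * z) / (Real.pi * z) := by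
    rw [mul_assoc, mul_div_mul_left _ _ (two_ne_zero)]
  rw [h3]

theorem ps_le_one (z : ℝ) : ps z ≤ 1 := by
  have h : ‖∫ h in (0 : ℝ)..1, ee (z * h)‖ ≤ 1 * |(1 : ℝ) - 0| :=
    intervalIntegral.norm_integral_le_of_norm_le_const (fun x _ => (norm_ee _).le)
  rw [sub_zero, abs_one, mul_one] at h
  rw [ps]
  exact pow_le_one₀ (norm_nonneg _) h

/-- the lower bound for `x = πz` between `0` and `1` -/
theorem low {x : ℝ} (hx : 0 < x) (hx1 : x ≤ 1) : 1 - x ^ 2 / 3 ≤ (Real.sin x / x) ^ 2 := by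
  have h1 := Real.sin_gt_sub_cube hx
  have h2 : 1 - x ^ 2 / 6 ≤ Real.sin x / x := by
    rw [le_div_iff₀ hx]
    nlinarith
  have h3 : 0 ≤ 1 - x ^ 2 / 6 := by nlinarith
  have h4 := pow_le_pow_left₀ h3 h2 2
  nlinarith [sq_nonneg (x ^ 2)]

theorem low' {x : ℝ} (hx : x ≠ 0) (hx1 : |x| ≤ 1) : 1 - x ^ 2 / 3 ≤ (Real.sin x / x) ^ 2 := by
  rcases lt_or_gt_of_ne hx with h | h
  · have h2 := low (x := -x) (by linarith) (by rw [abs_of_neg h] at hx1; exact hx1)
    rw [Real.sin_neg, neg_div_neg_eq, neg_sq] at h2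
    exact h2
  · exact low h (by rw [abs_of_pos h] at hx1; exact hx1)

end Ps_aux

open Ps_aux in
theorem iPs : StPs := by
  intro z
  have h1 : 0 ≤ ps z := by
    rw [ps]
    positivity
  have h2 := ps_le_one z
  have hpi3 := Real.pi_gt_three
  have hpi4 := Real.pi_lt_four
  refine ⟨h1, h2, ?_, ?_⟩
  · by_cases hz : z = 0
    · subst hz
      have h3 : ps 0 = 1 := by
        rw [ps]
        simp [ee]
      rw [h3]
      norm_num
    · by_cases hs : |Real.pi * z| ≤ 1
      · have h3 := low' (mul_ne_zero Real.pi_ne_zero hz) hs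
        rw [← ps_eq hz] at h3
        have h4 : (Real.pi * z) ^ 2 ≤ 16 * z ^ 2 := by
          rw [mul_pow]
          exact mul_le_mul_of_nonneg_right (by nlinarith) (sq_nonneg z)
        nlinarith [sq_nonneg z]
      · have h3 : 1 < (Real.pi * z) ^ 2 := by
          rw [← sq_abs]
          have : 1 < |Real.pi * z| := not_le.1 hs
          nlinarith
        have h4 : (Real.pi * z) ^ 2 ≤ 16 * z ^ 2 := by
          rw [mul_pow]
          exact mul_le_mul_of_nonneg_right (by nlinarith) (sq_nonneg z)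
        nlinarith [sq_nonneg z]
  · intro hz6
    have hz : z ≠ 0 := by
      rintro rfl
      rw [abs_zero] at hz6
      norm_num at hz6
    rw [ps_eq hz, div_pow]
    have h5 : Real.sin (Real.pi * z) ^ 2 ≤ 1 := Real.sin_sq_le_one _
    have h6 : 9 * (36 / 100) ≤ (Real.pi * z) ^ 2 := by
      rw [mul_pow]
      have h7 : (36 / 100 : ℝ) ≤ z ^ 2 := by
        rw [← sq_abs]
        nlinarith
      have h8 : (9 : ℝ) ≤ Real.pi ^ 2 := by nlinarith
      exact mul_le_mul h8 h7 (by norm_num) (by positivity)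
    rw [div_le_iff₀ (by linarith)]
    linarith

end Pool.Agent.Work.MP_56b8f5_nt.UV
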