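import Pool.Agent.Work.MP_56b8f5_nt.UV.Stmts

/-!
MP_56b8f5_nt, block UV, item Q: the off-diagonal quadratic form.
-/

set_option autoImplicit false

open MeasureTheory Set Filter Topology

noncomputable section

namespace Pool.Agent.Work.MP_56b8f5_nt.UV

open Pool.Agent.Work.MP_56b8f5_nt.UB

namespace Q_aux

lemma norm_ee (x : ℝ) : ‖ee x‖ = 1 := by
  unfold ee
  exact Complex.norm_exp_ofReal_mul_I _

lemma cont_ee : Continuous ee := by
  unfold ee
  fun_prop

lemma om_zero {u : ℝ} (h : 5 / 2 ≤ u) : om u = 0 := by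
  apply omB.zero_of_le_dist
  rw [Real.dist_eq]
  change 1 ≤ |u - 3 / 2|
  rw [le_abs]
  left
  linarith

lemma om_cont : Continuous om := omB.continuous

lemma nn_ge {X v : ℝ} (hX : 0 < X) (hv : 0 ≤ v) : v ^ 2 / 4 ≤ nn X v := by
  unfold nn
  have h1 : Real.cosh (v / (2 * X)) = 1 + 2 * Real.sinh (v / (4 * X)) ^ 2 := by
    have e : v / (2 * X) = 2 * (v / (4 * X)) := by field_simp; norm_num
    rw [e, Real.cosh_two_mul, Real.cosh_sq]
    ring
  have h2 : v / (4 * X) ≤ Real.sinh (v / (4 * X)) := Real.self_le_sinh_iff.2 (by positivity)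
  have h3 : (v / (4 * X)) ^ 2 ≤ Real.sinh (v / (4 * X)) ^ 2 :=
    pow_le_pow_left₀ (by positivity) h2 2
  rw [h1]
  have h4 : v ^ 2 / 4 = 4 * X ^ 2 * (v / (4 * X)) ^ 2 := by
    rw [div_pow, mul_pow]
    field_simp
  rw [h4]
  nlinarith [sq_nonneg X, mul_le_mul_of_nonneg_left h3 (sq_nonneg X)]

lemma nn_cont (X : ℝ) : Continuous (nn X) := by
  unfold nn
  exact continuous_const.mul ((Real.continuous_cosh.comp (continuous_id.div_const _)).sub
    continuous_const)

lemma kap_cont (X N : ℝ) : Continuous (kap X N) := by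
  unfold kap nd
  exact (om_cont.comp ((nn_cont X).div_const _)).mul
    (continuous_const.mul (Real.continuous_sinh.comp (continuous_id.div_const _)))

lemma kap_zero {X N v : ℝ} (hX : 0 < X) (hN : 1 ≤ N) (hv : 4 * N ≤ v) : kap X N v = 0 := by
  unfold kap
  have h1 := nn_ge hX (by linarith : 0 ≤ v)
  have h2 : 5 / 2 ≤ nn X v / N := by
    rw [le_div_iff₀ (by linarith)]
    nlinarith
  rw [om_zero h2, zero_mul]

lemma kap_int {X N : ℝ} (hX : 0 < X) (hN : 1 ≤ N) :
    IntegrableOn (fun v => ‖(kap X N v : ℂ)‖) (Ioi (0 : ℝ)) := by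
  have h1 : Ioi (0 : ℝ) = Ioc 0 (4 * N) ∪ Ioi (4 * N) := (Ioc_union_Ioi_eq_Ioi (by linarith)).symm
  rw [h1]
  refine IntegrableOn.union ?_ ?_
  · have h2 : Continuous fun v => ‖(kap X N v : ℂ)‖ :=
      (Complex.continuous_ofReal.comp (kap_cont X N)).norm
    exact (h2.integrableOn_Icc (a := 0) (b := 4 * N)).mono_set Ioc_subset_Icc_self
  · have h0 : IntegrableOn (fun _ : ℝ => (0 : ℝ)) (Ioi (4 * N)) := integrableOn_zero
    refine h0.congr_fun ?_ measurableSet_Ioi
    intro v hv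
    have hv' : 4 * N < v := hv
    simp [kap_zero hX hN hv'.le]

lemma KK_cont {X N : ℝ} (hX : 0 < X) (hN : 1 ≤ N) (m : ℤ) : Continuous (KK X N m) := by
  unfold KK
  refine continuous_of_dominated (bound := fun v => ‖(kap X N v : ℂ)‖) ?_ ?_ (kap_int hX hN) ?_
  · intro x
    refine Continuous.aestronglyMeasurable ?_
    exact (Complex.continuous_ofReal.comp (kap_cont X N)).mul (cont_ee.comp
      ((continuous_const.mul continuous_id).sub (continuous_const.mul (nn_cont X))))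
  · intro x
    refine Eventually.of_forall fun v => ?_
    rw [norm_mul, norm_ee, mul_one]
  · refine Eventually.of_forall fun v => ?_
    exact continuous_const.mul (cont_ee.comp ((continuous_id.mul continuous_const).sub
      continuous_const))

lemma KS_eq {X N x : ℝ} (hN : 1 ≤ N) :
    KS X N x = ∑ n ∈ Finset.range ⌈5 / 2 * N⌉₊, (om ((n : ℝ) / N) : ℂ) * ee (x * vv X n) := by
  unfold KS
  refine tsum_eq_sum fun n hn => ?_
  have h1 : ⌈5 / 2 * N⌉₊ ≤ n := by
    rw [Finset.mem_range] at hn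
    omega
  have h2 : 5 / 2 * N ≤ n := Nat.ceil_le.mp h1
  have h3 : 5 / 2 ≤ (n : ℝ) / N := by
    rw [le_div_iff₀ (by linarith)]
    exact h2
  rw [om_zero h3]
  simp

lemma KS_cont {X N : ℝ} (hN : 1 ≤ N) : Continuous (KS X N) := by
  have e : KS X N = fun x =>
      ∑ n ∈ Finset.range ⌈5 / 2 * N⌉₊, (om ((n : ℝ) / N) : ℂ) * ee (x * vv X n) := by
    funext x
    exact KS_eq hN
  rw [e]
  refine continuous_finsetSum _ fun n _ => ?_
  exact continuous_const.mul (cont_ee.comp (continuous_id.mul continuous_const))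

lemma KT_cont {X N M : ℝ} (hX : 0 < X) (hN : 1 ≤ N) : Continuous (KT X N M) := by
  unfold KT
  exact continuous_finsetSum _ fun m _ => KK_cont hX hN m

/-! ### The averaging operation -/

lemma inner_cont {f : ℝ → ℂ} (hf : Continuous f) (N z : ℝ) :
    Continuous fun p : ℝ => ∫ q in (0 : ℝ)..Real.sqrt N, f (z + p - q) := by
  refine intervalIntegral.continuous_parametric_intervalIntegral_of_continuous' ?_ _ _
  exact hf.comp (by fun_prop)

lemma Av_cont {f : ℝ → ℂ} (hf : Continuous f) (N : ℝ) : Continuous (Av N f) := by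
  unfold Av
  refine hf.sub (continuous_const.mul ?_)
  refine intervalIntegral.continuous_parametric_intervalIntegral_of_continuous' ?_ _ _
  have h1 : Continuous (Function.uncurry fun (zp : ℝ × ℝ) (q : ℝ) => f (zp.1 + zp.2 - q)) :=
    hf.comp (by fun_prop)
  exact intervalIntegral.continuous_parametric_intervalIntegral_of_continuous' h1 _ _

lemma Av_sub {f g : ℝ → ℂ} (hf : Continuous f) (hg : Continuous g) (N z : ℝ) :
    Av N (fun z => f z - g z) z = Av N f z - Av N g z := by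
  unfold Av
  have h1 : ∀ p : ℝ, ∫ q in (0 : ℝ)..Real.sqrt N, (f (z + p - q) - g (z + p - q)) =
      (∫ q in (0 : ℝ)..Real.sqrt N, f (z + p - q)) -
        ∫ q in (0 : ℝ)..Real.sqrt N, g (z + p - q) := by
    intro p
    exact intervalIntegral.integral_sub
      ((hf.comp (by fun_prop : Continuous fun q : ℝ => z + p - q)).intervalIntegrable _ _)
      ((hg.comp (by fun_prop : Continuous fun q : ℝ => z + p - q)).intervalIntegrable _ _)
  simp only [h1]
  rw [intervalIntegral.integral_sub ((inner_cont hf N z).intervalIntegrable _ _)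
    ((inner_cont hg N z).intervalIntegrable _ _)]
  ring

lemma Av_sum {ι : Type*} (s : Finset ι) {f : ι → ℝ → ℂ} (hf : ∀ i ∈ s, Continuous (f i))
    (N z : ℝ) : Av N (fun z => ∑ i ∈ s, f i z) z = ∑ i ∈ s, Av N (f i) z := by
  unfold Av
  have h1 : ∀ p : ℝ, ∫ q in (0 : ℝ)..Real.sqrt N, ∑ i ∈ s, f i (z + p - q) =
      ∑ i ∈ s, ∫ q in (0 : ℝ)..Real.sqrt N, f i (z + p - q) := by
    intro p
    exact intervalIntegral.integral_finsetSum fun i hi =>
      ((hf i hi).comp (by fun_prop : Continuous fun q : ℝ => z + p - q)).intervalIntegrable _ _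
  simp only [h1]
  rw [intervalIntegral.integral_finsetSum fun i hi =>
    (inner_cont (hf i hi) N z).intervalIntegrable _ _, Finset.mul_sum, ← Finset.sum_sub_distrib]

lemma Av_bound {f : ℝ → ℂ} {N R E : ℝ} (hN : 0 < N)
    (hE : ∀ z, |z| ≤ R + Real.sqrt N → ‖f z‖ ≤ E) {z : ℝ} (hz : |z| ≤ R) :
    ‖Av N f z‖ ≤ 2 * E := by
  have hs : 0 ≤ Real.sqrt N := Real.sqrt_nonneg _
  have h1 : ‖f z‖ ≤ E := hE z (by linarith)
  have h2 : ‖∫ p in (0 : ℝ)..Real.sqrt N, ∫ q in (0 : ℝ)..Real.sqrt N, f (z + p - q)‖ ≤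
      (E * |Real.sqrt N - 0|) * |Real.sqrt N - 0| := by
    refine intervalIntegral.norm_integral_le_of_norm_le_const fun p hp => ?_
    refine intervalIntegral.norm_integral_le_of_norm_le_const fun q hq => ?_
    rw [uIoc_of_le hs] at hp hq
    apply hE
    rw [abs_le] at hz ⊢
    obtain ⟨hp1, hp2⟩ := hp
    obtain ⟨hq1, hq2⟩ := hq
    constructor <;> linarith [hz.1, hz.2]
  rw [sub_zero, abs_of_nonneg hs, mul_assoc, Real.mul_self_sqrt hN.le] at h2
  unfold Av
  refine (norm_sub_le _ _).trans ?_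
  rw [norm_mul, Complex.norm_real, Real.norm_eq_abs, abs_of_pos (by positivity)]
  have h3 : 1 / N * ‖∫ p in (0 : ℝ)..Real.sqrt N, ∫ q in (0 : ℝ)..Real.sqrt N, f (z + p - q)‖ ≤
      1 / N * (E * N) := mul_le_mul_of_nonneg_left h2 (by positivity)
  have h4 : 1 / N * (E * N) = E := by field_simp
  linarith

/-! ### The double integral -/

/-- the double integral over the product measure -/
def DI (F : ℝ → ℝ) (h : ℝ → ℂ) : ℂ :=
  ∫ z : ℝ × ℝ, ((F z.1 * F z.2 : ℝ) : ℂ) * h (z.1 - z.2) ∂(volume.prod volume)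

lemma DI_int {F : ℝ → ℝ} {B L : ℝ} (hF : Measurable F) (hB : ∀ x, |F x| ≤ B)
    (hL : ∀ x, x ∉ Icc 0 L → F x = 0) {h : ℝ → ℂ} (hh : Continuous h) :
    Integrable (fun z : ℝ × ℝ => ((F z.1 * F z.2 : ℝ) : ℂ) * h (z.1 - z.2))
      ((volume : Measure ℝ).prod volume) := by
  have hsupp : Function.support (fun z : ℝ × ℝ => ((F z.1 * F z.2 : ℝ) : ℂ) * h (z.1 - z.2)) ⊆
      Icc 0 L ×ˢ Icc 0 L := by
    intro z hz
    rw [Function.mem_support] at hz
    constructor
    · by_contra hc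
      exact hz (by simp [hL z.1 hc])
    · by_contra hc
      exact hz (by simp [hL z.2 hc])
  rw [← integrableOn_iff_integrable_of_support_subset hsupp]
  obtain ⟨A, hA⟩ := (isCompact_Icc (a := -L) (b := L)).exists_bound_of_continuousOn hh.continuousOn
  refine Measure.integrableOn_of_bounded (M := B * B * A) ?_ ?_ ?_
  · rw [Measure.prod_prod]
    exact (ENNReal.mul_lt_top measure_Icc_lt_top measure_Icc_lt_top).ne
  · refine AEStronglyMeasurable.mul ?_ ?_
    · refine Measurable.aestronglyMeasurable ?_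
      exact Complex.measurable_ofReal.comp
        ((hF.comp measurable_fst).mul (hF.comp measurable_snd))
    · exact (hh.comp (by fun_prop : Continuous fun z : ℝ × ℝ => z.1 - z.2)).aestronglyMeasurable
  · refine (ae_restrict_iff' (measurableSet_Icc.prod measurableSet_Icc)).2
      (Eventually.of_forall fun z hz => ?_)
    have hB0 : 0 ≤ B := (abs_nonneg _).trans (hB 0)
    rw [norm_mul, Complex.norm_real, Real.norm_eq_abs, abs_mul]
    refine mul_le_mul (mul_le_mul (hB _) (hB _) (abs_nonneg _) hB0) (hA _ ?_) (norm_nonneg _)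
      (by positivity)
    obtain ⟨⟨h1, h2⟩, h3, h4⟩ := hz
    constructor <;> linarith

lemma DI_eq {F : ℝ → ℝ} {B L : ℝ} (hF : Measurable F) (hB : ∀ x, |F x| ≤ B)
    (hL : ∀ x, x ∉ Icc 0 L → F x = 0) {h : ℝ → ℂ} (hh : Continuous h) :
    ∫ x, ∫ y, ((F x * F y : ℝ) : ℂ) * h (x - y) = DI F h := by
  unfold DI
  rw [integral_prod _ (DI_int hF hB hL hh)]

lemma DI_sub {F : ℝ → ℝ} {B L : ℝ} (hF : Measurable F) (hB : ∀ x, |F x| ≤ B)
    (hL : ∀ x, x ∉ Icc 0 L → F x = 0) {g h : ℝ → ℂ} (hg : Continuous g) (hh : Continuous h) :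
    DI F (fun z => g z - h z) = DI F g - DI F h := by
  unfold DI
  rw [← integral_sub (DI_int hF hB hL hg) (DI_int hF hB hL hh)]
  refine integral_congr_ae (Eventually.of_forall fun z => ?_)
  simp only
  ring

lemma DI_sum {ι : Type*} (s : Finset ι) {F : ℝ → ℝ} {B L : ℝ} (hF : Measurable F)
    (hB : ∀ x, |F x| ≤ B) (hL : ∀ x, x ∉ Icc 0 L → F x = 0) {h : ι → ℝ → ℂ}
    (hh : ∀ i ∈ s, Continuous (h i)) :
    DI F (fun z => ∑ i ∈ s, h i z) = ∑ i ∈ s, DI F (h i) := by
  unfold DI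
  rw [← integral_finsetSum _ fun i hi => DI_int hF hB hL (hh i hi)]
  refine integral_congr_ae (Eventually.of_forall fun z => ?_)
  simp only
  rw [Finset.mul_sum]

lemma DI_bound {F : ℝ → ℝ} {B L E : ℝ} (hF : Measurable F) (hB : ∀ x, |F x| ≤ B)
    (hL0 : 0 ≤ L) (hL : ∀ x, x ∉ Icc 0 L → F x = 0) {h : ℝ → ℂ}
    (hE : ∀ z, |z| ≤ L → ‖h z‖ ≤ E) :
    ‖DI F h‖ ≤ E * L * ∫ x, F x ^ 2 := by
  set I : ℝ → ℝ := (Icc 0 L).indicator fun _ => (1 : ℝ) with hI
  have hF2 : Integrable fun x => F x ^ 2 := by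
    have hs : Function.support (fun x => F x ^ 2) ⊆ Icc 0 L := by
      intro x hx
      by_contra hc
      exact hx (by simp [hL x hc])
    rw [← integrableOn_iff_integrable_of_support_subset hs]
    refine Measure.integrableOn_of_bounded (M := B ^ 2) measure_Icc_lt_top.ne
      (hF.pow_const 2).aestronglyMeasurable (Eventually.of_forall fun x => ?_)
    rw [Real.norm_eq_abs, abs_pow]
    exact pow_le_pow_left₀ (abs_nonneg _) (hB x) 2
  have hIi : Integrable I := (integrable_indicator_iff measurableSet_Icc).2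
    (integrableOn_const measure_Icc_lt_top.ne)
  have hIv : ∫ x, I x = L := by
    rw [hI, integral_indicator_const _ measurableSet_Icc]
    simp [hL0]
  have hg : Integrable (fun z : ℝ × ℝ => E / 2 * (F z.1 ^ 2 * I z.2 + I z.1 * F z.2 ^ 2))
      ((volume : Measure ℝ).prod volume) :=
    ((hF2.mul_prod hIi).add (hIi.mul_prod hF2)).const_mul _
  have h1 : ‖DI F h‖ ≤ ∫ z : ℝ × ℝ, E / 2 * (F z.1 ^ 2 * I z.2 + I z.1 * F z.2 ^ 2)
      ∂((volume : Measure ℝ).prod volume) := by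
    unfold DI
    refine norm_integral_le_of_norm_le hg (Eventually.of_forall fun z => ?_)
    by_cases h1 : z.1 ∈ Icc 0 L
    · by_cases h2 : z.2 ∈ Icc 0 L
      · rw [norm_mul, Complex.norm_real, Real.norm_eq_abs, abs_mul]
        have h3 : ‖h (z.1 - z.2)‖ ≤ E := by
          apply hE
          rw [abs_le]
          obtain ⟨h3, h4⟩ := h1
          obtain ⟨h5, h6⟩ := h2
          constructor <;> linarith
        have e1 : I z.1 = 1 := by rw [hI, indicator_of_mem h1]
        have e2 : I z.2 = 1 := by rw [hI, indicator_of_mem h2]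
        rw [e1, e2]
        have h4 : |F z.1| * |F z.2| ≤ (F z.1 ^ 2 + F z.2 ^ 2) / 2 := by
          nlinarith [sq_nonneg (|F z.1| - |F z.2|), sq_abs (F z.1), sq_abs (F z.2)]
        have h5 : |F z.1| * |F z.2| * ‖h (z.1 - z.2)‖ ≤ (F z.1 ^ 2 + F z.2 ^ 2) / 2 * E :=
          mul_le_mul h4 h3 (norm_nonneg _) (by positivity)
        linarith
      · rw [hL z.2 h2]
        have e2 : I z.2 = 0 := by rw [hI, indicator_of_notMem h2]
        rw [e2]
        simp
    · rw [hL z.1 h1]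
      have e2 : I z.1 = 0 := by rw [hI, indicator_of_notMem h1]
      rw [e2]
      simp
  refine h1.trans (le_of_eq ?_)
  rw [integral_const_mul, integral_add (hF2.mul_prod hIi) (hIi.mul_prod hF2),
    integral_prod_mul (fun x => F x ^ 2) I, integral_prod_mul I (fun x => F x ^ 2), hIv]
  ring

/-- the constants `D` for one pair -/
def Dd (N : ℝ) (m m' : ℤ) : ℝ :=
  if m = m' then N * Real.sqrt N / (1 + |(m : ℝ)|) else N / Real.sqrt |(m : ℝ) - (m' : ℝ)|

lemma Dd_nonneg {N : ℝ} (hN : 1 ≤ N) (m m' : ℤ) : 0 ≤ Dd N m m' := by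
  unfold Dd
  split_ifs <;> positivity

/-- the bound needed in the pair form -/
lemma pair_bound {Ca X N : ℝ} {m m' : ℤ} (hCa : 1 ≤ Ca) (hN : 1 ≤ N)
    (hPs : StPs)
    (hQa : ∀ β : ℝ, (m ≠ m' → ‖QJ X N m m' β‖ ≤ Ca * N / Real.sqrt |(m : ℝ) - m'|) ∧
      ‖QJ X N m m β‖ ≤ Ca * (N * Real.sqrt N) ∧ |(m : ℝ)| * |β| * ‖QJ X N m m β‖ ≤ Ca * N)
    (β : ℝ) : ‖QJ X N m m' β‖ * (1 - ps (β * Real.sqrt N)) ≤ 40 * Ca * Dd N m m' := by
  obtain ⟨p0, p1, p2, -⟩ := hPs (β * Real.sqrt N)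
  obtain ⟨q1, q2, q3⟩ := hQa β
  have hsN : 0 < Real.sqrt N := Real.sqrt_pos.2 (by linarith)
  have hsN1 : 1 ≤ Real.sqrt N := Real.one_le_sqrt.2 hN
  have hss : Real.sqrt N * Real.sqrt N = N := Real.mul_self_sqrt (by linarith)
  have hnn := norm_nonneg (QJ X N m m' β)
  have h01 : 0 ≤ 1 - ps (β * Real.sqrt N) := by linarith
  have h02 : 1 - ps (β * Real.sqrt N) ≤ 1 := by linarith
  by_cases hmm : m = m'
  · subst hmm
    unfold Dd
    rw [if_pos rfl]
    by_cases hm : m = 0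
    · subst hm
      have h1 : ‖QJ X N 0 0 β‖ * (1 - ps (β * Real.sqrt N)) ≤ Ca * (N * Real.sqrt N) * 1 :=
        mul_le_mul q2 h02 h01 (by positivity)
      have h2 : 0 ≤ Ca * (N * Real.sqrt N) := by positivity
      simp only [Int.cast_zero, abs_zero, add_zero, div_one]
      nlinarith
    · have hm1 : 1 ≤ |(m : ℝ)| := by
        have h1 : (1 : ℤ) ≤ |m| := Int.one_le_abs hm
        have h2 : ((1 : ℤ) : ℝ) ≤ ((|m| : ℤ) : ℝ) := by exact_mod_cast h1
        simpa using h2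
      have hm0 : 0 < |(m : ℝ)| := by linarith
      have hden : 0 < 1 + |(m : ℝ)| := by linarith
      -- it is enough to bound by 20 Ca N sqrt N / |m|
      have key : ‖QJ X N m m β‖ * (1 - ps (β * Real.sqrt N)) * |(m : ℝ)| ≤
          20 * Ca * (N * Real.sqrt N) := by
        by_cases hβ : 1 ≤ |β| * Real.sqrt N
        · -- large beta
          have h1 : ‖QJ X N m m β‖ * |(m : ℝ)| ≤ Ca * N * Real.sqrt N := by
            have h2 : ‖QJ X N m m β‖ * |(m : ℝ)| * 1 ≤
                ‖QJ X N m m β‖ * |(m : ℝ)| * (|β| * Real.sqrt N) :=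
              mul_le_mul_of_nonneg_left hβ (by positivity)
            have h3 : ‖QJ X N m m β‖ * |(m : ℝ)| * (|β| * Real.sqrt N) =
                (|(m : ℝ)| * |β| * ‖QJ X N m m β‖) * Real.sqrt N := by ring
            have h4 := mul_le_mul_of_nonneg_right q3 hsN.le
            linarith
          have h5 : ‖QJ X N m m β‖ * (1 - ps (β * Real.sqrt N)) * |(m : ℝ)| ≤
              ‖QJ X N m m β‖ * |(m : ℝ)| := by
            have := mul_le_mul_of_nonneg_left h02 (by positivity :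
              0 ≤ ‖QJ X N m m β‖ * |(m : ℝ)|)
            linarith
          have h6 : 0 ≤ Ca * (N * Real.sqrt N) := by positivity
          linarith
        · push Not at hβ
          have h1 : (β * Real.sqrt N) ^ 2 = |β| * (|β| * N) := by
            have e1 : |β| * |β| = β * β := abs_mul_abs_self β
            have e2 : (β * Real.sqrt N) ^ 2 = (β * β) * (Real.sqrt N * Real.sqrt N) := by ring
            rw [e2, hss, ← e1]
            ring
          have h2 : ‖QJ X N m m β‖ * (1 - ps (β * Real.sqrt N)) * |(m : ℝ)| ≤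
              ‖QJ X N m m β‖ * (20 * (β * Real.sqrt N) ^ 2) * |(m : ℝ)| :=
            mul_le_mul_of_nonneg_right (mul_le_mul_of_nonneg_left p2 (norm_nonneg _)) hm0.le
          have h3 : ‖QJ X N m m β‖ * (20 * (β * Real.sqrt N) ^ 2) * |(m : ℝ)| =
              20 * (|(m : ℝ)| * |β| * ‖QJ X N m m β‖) * (|β| * N) := by
            rw [h1]
            ring
          have h4 : |β| * N ≤ Real.sqrt N := by
            have : |β| * N = (|β| * Real.sqrt N) * Real.sqrt N := by
              rw [mul_assoc, hss]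
            rw [this]
            nlinarith
          have h5 : 20 * (|(m : ℝ)| * |β| * ‖QJ X N m m β‖) * (|β| * N) ≤
              20 * (Ca * N) * Real.sqrt N :=
            mul_le_mul (by linarith) h4 (by positivity) (by positivity)
          linarith
      have h7 : 40 * Ca * (N * Real.sqrt N / (1 + |(m : ℝ)|)) =
          40 * Ca * (N * Real.sqrt N) / (1 + |(m : ℝ)|) := by ring
      rw [h7, le_div_iff₀ hden]
      have h8 : 0 ≤ ‖QJ X N m m β‖ * (1 - ps (β * Real.sqrt N)) := by positivity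
      nlinarith
  · unfold Dd
    rw [if_neg hmm]
    have h1 := q1 hmm
    have h2 : ‖QJ X N m m' β‖ * (1 - ps (β * Real.sqrt N)) ≤
        Ca * N / Real.sqrt |(m : ℝ) - m'| * 1 := mul_le_mul h1 h02 h01 (by positivity)
    have h3 : 0 ≤ Ca * N / Real.sqrt |(m : ℝ) - m'| := by positivity
    have h4 : 40 * Ca * (N / Real.sqrt |(m : ℝ) - (m' : ℝ)|) =
        40 * (Ca * N / Real.sqrt |(m : ℝ) - m'|) := by ring
    rw [h4]
    linarith

end Q_aux

open Q_aux in
theorem iQ (hQa : StQa) (hQb : StQb) (hQc : StQc) (hQd : StQd) (hQe : StQe) (hPs : StPs) :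
    StQ := by
  obtain ⟨Ca, hCa, hQa⟩ := hQa
  obtain ⟨Cb, hCb, hQb⟩ := hQb
  obtain ⟨Cc, hCc, hQc⟩ := hQc
  obtain ⟨Cd, hCd, hQd⟩ := hQd
  obtain ⟨Ce, hCe, hQe⟩ := hQe
  refine ⟨240 * (Ca * Ce) + 160 * Cc + Ca + Cb + Cc + Cd, ?_, ?_⟩
  · have : 0 ≤ Ca * Ce := by positivity
    nlinarith
  intro X N M B F hN hX hM hCX hMN hF hB hsupp
  have hN0 : 0 < N := by linarith
  have hM0 : 0 < M := by linarith
  have hs0 : 0 < Real.sqrt N := Real.sqrt_pos.2 hN0
  have hs1 : 1 ≤ Real.sqrt N := Real.one_le_sqrt.2 hN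
  have hss : Real.sqrt N * Real.sqrt N = N := Real.mul_self_sqrt hN0.le
  have hMNpos : 0 < M * N := by positivity
  have hNMN : N ≤ M * N := by nlinarith
  have hCaCe : 0 ≤ Ca * Ce := by positivity
  -- smallness conditions
  have c1 : Ca * (M * N) ≤ X ^ 2 := by
    refine le_trans ?_ hCX
    refine mul_le_mul_of_nonneg_right ?_ hMNpos.le
    linarith
  have c2 : Cb * N ≤ X ^ 2 := by
    refine le_trans ?_ hCX
    refine mul_le_mul ?_ hNMN hN0.le (by positivity)
    linarith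
  have c3 : Cc * N ≤ X ^ 2 := by
    refine le_trans ?_ hCX
    refine mul_le_mul ?_ hNMN hN0.le (by positivity)
    linarith
  have c4 : Cd * N ≤ X ^ 2 := by
    refine le_trans ?_ hCX
    refine mul_le_mul ?_ hNMN hN0.le (by positivity)
    linarith
  set L := 40 * (M * Real.sqrt N) with hLdef
  have hL0 : 0 ≤ L := by positivity
  have hsupp' : ∀ x, L < |x| → F x = 0 := by
    intro x hx
    apply hsupp
    rintro ⟨h1, h2⟩
    rw [abs_of_nonneg h1] at hx
    linarith
  set I2 := ∫ x, F x ^ 2 with hI2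
  have hI20 : 0 ≤ I2 := integral_nonneg fun x => sq_nonneg _
  -- step 1
  have s1 := hQd X N L B F hN hX c4 hF hB hsupp'
  -- continuity facts
  have kS : Continuous fun z => ((‖KS X N z‖ ^ 2 : ℝ) : ℂ) :=
    Complex.continuous_ofReal.comp ((KS_cont hN).norm.pow 2)
  have kT : Continuous fun z => ((‖KT X N M z‖ ^ 2 : ℝ) : ℂ) :=
    Complex.continuous_ofReal.comp ((KT_cont hX hN).norm.pow 2)
  have kK : ∀ m m' : ℤ, Continuous fun z => KK X N m z * (starRingEnd ℂ) (KK X N m' z) :=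
    fun m m' => (KK_cont hX hN m).mul (Complex.continuous_conj.comp (KK_cont hX hN m'))
  -- step 2: replace KS by KT
  have e1 : DI F (Av N fun z => ((‖KS X N z‖ ^ 2 : ℝ) : ℂ)) =
      DI F (Av N fun z => ((‖KT X N M z‖ ^ 2 : ℝ) : ℂ)) +
        DI F (Av N fun z => ((‖KS X N z‖ ^ 2 : ℝ) : ℂ) - ((‖KT X N M z‖ ^ 2 : ℝ) : ℂ)) := by
    have h1 : (Av N fun z => ((‖KS X N z‖ ^ 2 : ℝ) : ℂ) - ((‖KT X N M z‖ ^ 2 : ℝ) : ℂ)) =
        fun z => Av N (fun z => ((‖KS X N z‖ ^ 2 : ℝ) : ℂ)) z -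
          Av N (fun z => ((‖KT X N M z‖ ^ 2 : ℝ) : ℂ)) z := by
      funext z
      exact Av_sub kS kT N z
    rw [h1, DI_sub hF hB hsupp (Av_cont kS N) (Av_cont kT N)]
    ring
  have e2 : ‖DI F (Av N fun z => ((‖KS X N z‖ ^ 2 : ℝ) : ℂ) - ((‖KT X N M z‖ ^ 2 : ℝ) : ℂ))‖ ≤
      80 * Cc * Real.sqrt N * I2 := by
    have h1 := DI_bound (F := F) (B := B) (L := L) (E := 2 * (Cc / M)) hF hB hL0 hsupp
      (h := Av N fun z => ((‖KS X N z‖ ^ 2 : ℝ) : ℂ) - ((‖KT X N M z‖ ^ 2 : ℝ) : ℂ)) (by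
        intro z hz
        refine Av_bound (R := L) hN0 ?_ hz
        intro z hz
        rw [← Complex.ofReal_sub, Complex.norm_real, Real.norm_eq_abs]
        refine hQc X N M z hN hX hM c3 (hz.trans ?_)
        rw [hLdef]
        nlinarith)
    refine h1.trans (le_of_eq ?_)
    rw [hLdef, ← hI2]
    field_simp
    ring
  -- step 3: expand
  set S := Finset.Icc (-⌊100 * M⌋) ⌊100 * M⌋ with hS
  have e3 : DI F (Av N fun z => ((‖KT X N M z‖ ^ 2 : ℝ) : ℂ)) =
      ∑ m ∈ S, ∑ m' ∈ S,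
        DI F (Av N fun z => KK X N m z * (starRingEnd ℂ) (KK X N m' z)) := by
    have h1 : (fun z => ((‖KT X N M z‖ ^ 2 : ℝ) : ℂ)) =
        fun z => ∑ m ∈ S, ∑ m' ∈ S, KK X N m z * (starRingEnd ℂ) (KK X N m' z) := by
      funext z
      have h2 : ((‖KT X N M z‖ ^ 2 : ℝ) : ℂ) = KT X N M z * (starRingEnd ℂ) (KT X N M z) := by
        rw [Complex.mul_conj, Complex.normSq_eq_norm_sq]
      rw [h2]
      unfold KT
      rw [map_sum, Finset.sum_mul_sum]
    rw [h1]
    have h3 : (Av N fun z => ∑ m ∈ S, ∑ m' ∈ S, KK X N m z * (starRingEnd ℂ) (KK X N m' z)) =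
        fun z => ∑ m ∈ S, ∑ m' ∈ S,
          Av N (fun z => KK X N m z * (starRingEnd ℂ) (KK X N m' z)) z := by
      funext z
      rw [Av_sum S (f := fun m z => ∑ m' ∈ S, KK X N m z * (starRingEnd ℂ) (KK X N m' z))
        (fun m _ => continuous_finsetSum _ fun m' _ => kK m m')]
      refine Finset.sum_congr rfl fun m _ => ?_
      exact Av_sum S (fun m' _ => kK m m') N z
    rw [h3, DI_sum S hF hB hsupp (h := fun m z => ∑ m' ∈ S,
      Av N (fun z => KK X N m z * (starRingEnd ℂ) (KK X N m' z)) z)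
      (fun m _ => continuous_finsetSum _ fun m' _ => Av_cont (kK m m') N)]
    refine Finset.sum_congr rfl fun m _ => ?_
    exact DI_sum S hF hB hsupp fun m' _ => Av_cont (kK m m') N
  have habs : ∀ m ∈ S, |(m : ℝ)| ≤ 100 * M := by
    intro m hm
    rw [hS, Finset.mem_Icc] at hm
    have h1 : ((⌊100 * M⌋ : ℤ) : ℝ) ≤ 100 * M := Int.floor_le _
    have h2 : (m : ℝ) ≤ ((⌊100 * M⌋ : ℤ) : ℝ) := by exact_mod_cast hm.2
    have h3 : (((-⌊100 * M⌋ : ℤ)) : ℝ) ≤ (m : ℝ) := by exact_mod_cast hm.1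
    rw [Int.cast_neg] at h3
    rw [abs_le]
    constructor <;> linarith
  have e4 : ‖DI F (Av N fun z => ((‖KT X N M z‖ ^ 2 : ℝ) : ℂ))‖ ≤
      (∑ m ∈ S, ∑ m' ∈ S, 40 * Ca * Dd N m m') * I2 := by
    rw [e3, Finset.sum_mul]
    refine (norm_sum_le _ _).trans (Finset.sum_le_sum fun m hm => ?_)
    rw [Finset.sum_mul]
    refine (norm_sum_le _ _).trans (Finset.sum_le_sum fun m' hm' => ?_)
    rw [← DI_eq hF hB hsupp (Av_cont (kK m m') N)]
    refine hQb X N (40 * Ca * Dd N m m') L B m m' F hN hX c2 hF hB hsupp'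
      (mul_nonneg (by positivity) (Dd_nonneg hN m m')) ?_
    exact pair_bound hCa hN hPs fun β =>
      hQa X N M β m m' hN hX hM c1 (habs m hm) (habs m' hm')
  have e5 : ∑ m ∈ S, ∑ m' ∈ S, 40 * Ca * Dd N m m' ≤
      40 * Ca * (Ce * (N * Real.sqrt N * (1 + Real.log M) + N * (M * Real.sqrt M))) := by
    have h1 : ∑ m ∈ S, ∑ m' ∈ S, 40 * Ca * Dd N m m' = 40 * Ca * ∑ m ∈ S, ∑ m' ∈ S, Dd N m m' := by
      rw [Finset.mul_sum]
      exact Finset.sum_congr rfl fun m _ => by rw [Finset.mul_sum]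
    rw [h1]
    exact mul_le_mul_of_nonneg_left (hQe M N hM hN) (by positivity)
  -- numbers
  have hLq1 : 1 ≤ Lq N := by
    unfold Lq
    rw [Real.le_log_iff_exp_le (by linarith)]
    have := Real.exp_one_lt_d9
    linarith
  have hlogM : Real.log M ≤ Lq N := by
    unfold Lq
    refine Real.log_le_log hM0 ?_
    have h1 : M ≤ M ^ 3 := by nlinarith [sq_nonneg (M - 1), sq_nonneg M, mul_pos hM0 hM0]
    linarith
  have hMsM : M * Real.sqrt M ≤ Real.sqrt N := by
    have h1 : M * Real.sqrt M = Real.sqrt (M ^ 3) := by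
      rw [show M ^ 3 = M ^ 2 * M by ring, Real.sqrt_mul (by positivity), Real.sqrt_sq hM0.le]
    rw [h1]
    exact Real.sqrt_le_sqrt hMN
  have hNs : 0 < N * Real.sqrt N := by positivity
  have e6 : N * Real.sqrt N * (1 + Real.log M) + N * (M * Real.sqrt M) ≤
      3 * (N * Real.sqrt N * Lq N) := by
    have h1 : N * Real.sqrt N * (1 + Real.log M) ≤ N * Real.sqrt N * (2 * Lq N) :=
      mul_le_mul_of_nonneg_left (by linarith) hNs.le
    have h2 : N * (M * Real.sqrt M) ≤ N * Real.sqrt N := mul_le_mul_of_nonneg_left hMsM hN0.le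
    have h3 : N * Real.sqrt N ≤ N * Real.sqrt N * Lq N := le_mul_of_one_le_right hNs.le hLq1
    linarith
  have e7 : Real.sqrt N ≤ N * Real.sqrt N * Lq N := by
    have h1 : Real.sqrt N ≤ N * Real.sqrt N := le_mul_of_one_le_left hs0.le hN
    have h3 : N * Real.sqrt N ≤ N * Real.sqrt N * Lq N := le_mul_of_one_le_right hNs.le hLq1
    linarith
  have e8 : ‖DI F (Av N fun z => ((‖KS X N z‖ ^ 2 : ℝ) : ℂ))‖ ≤
      (120 * (Ca * Ce) + 80 * Cc) * (N * Real.sqrt N * Lq N) * I2 := by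
    rw [e1]
    refine (norm_add_le _ _).trans ?_
    have h1 : ‖DI F (Av N fun z => ((‖KT X N M z‖ ^ 2 : ℝ) : ℂ))‖ ≤
        40 * Ca * (Ce * (3 * (N * Real.sqrt N * Lq N))) * I2 := by
      refine e4.trans (mul_le_mul_of_nonneg_right (e5.trans ?_) hI20)
      exact mul_le_mul_of_nonneg_left (mul_le_mul_of_nonneg_left e6 (by positivity))
        (by positivity)
    have h2 : 80 * Cc * Real.sqrt N * I2 ≤ 80 * Cc * (N * Real.sqrt N * Lq N) * I2 :=
      mul_le_mul_of_nonneg_right (mul_le_mul_of_nonneg_left e7 (by positivity)) hI20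
    calc _ ≤ 40 * Ca * (Ce * (3 * (N * Real.sqrt N * Lq N))) * I2 +
          80 * Cc * (N * Real.sqrt N * Lq N) * I2 := add_le_add h1 (e2.trans h2)
      _ = _ := by ring
  rw [DI_eq hF hB hsupp (Av_cont kS N)] at s1
  refine s1.trans ?_
  have hfin : 2 * ((120 * (Ca * Ce) + 80 * Cc) * (N * Real.sqrt N * Lq N) * I2) ≤
      (240 * (Ca * Ce) + 160 * Cc + Ca + Cb + Cc + Cd) * (N * Real.sqrt N * Lq N) * I2 := by
    have h1 : 0 ≤ (N * Real.sqrt N * Lq N) * I2 := by positivity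
    nlinarith
  linarith

end Pool.Agent.Work.MP_56b8f5_nt.UV
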