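import Mathlib
import Pool.Agent.Work.MP_56b8f5_nt.UV.Stmts

/-!
MP_56b8f5_nt, block UV, item Qa: bounds for `J_{m,m'}(β)`.  Author: helper49.
-/

set_option autoImplicit false

open MeasureTheory Set Filter Topology

noncomputable section

namespace Pool.Agent.Work.MP_56b8f5_nt.UV

open Pool.Agent.Work.MP_56b8f5_nt.UB

namespace Qa_aux

theorem core (hVp : UB.StVp) {CK X N β B : ℝ} {k1 : ℝ → ℝ} (m m' : ℤ) (hCK : 1 ≤ CK) (hN : 1 ≤ N)
    (hnn : Continuous (nn X))
    (hk : ∀ v, HasDerivAt (kap X N) (k1 v) v)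
    (hb : ∀ v, |kap X N v| ≤ CK * Real.sqrt N ∧ |k1 v| ≤ CK)
    (hz : ∀ v, (|v| ≤ Real.sqrt N ∨ 4 * Real.sqrt N ≤ |v|) → kap X N v = 0 ∧ k1 v = 0)
    (hB0 : 0 ≤ B)
    (hB : ∀ y ∈ Icc (Real.sqrt N + max 0 β) (4 * Real.sqrt N + min 0 β),
      ‖∫ x in (Real.sqrt N + max 0 β)..y, ee (-(m * nn X x) + m' * nn X (x - β))‖ ≤ B) :
    ‖QJ X N m m' β‖ ≤ 6 * CK ^ 2 * N * B := by
  have hs1 : 1 ≤ Real.sqrt N := Real.one_le_sqrt.2 hN
  have hss : Real.sqrt N * Real.sqrt N = N := Real.mul_self_sqrt (by linarith)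
  set s := Real.sqrt N with hs
  set a := s + max 0 β with ha
  set b := 4 * s + min 0 β with hbd
  have hm1 : β ≤ max 0 β := le_max_right _ _
  have hm2 : 0 ≤ max 0 β := le_max_left _ _
  have hm3 : min 0 β ≤ β := min_le_right _ _
  have hm4 : min 0 β ≤ 0 := min_le_left _ _
  set g : ℝ → ℂ := fun v => ((kap X N v * kap X N (v - β) : ℝ) : ℂ) *
    ee (-(m * nn X v) + m' * nn X (v - β)) with hg
  have h1 : QJ X N m m' β = ∫ v in Ioc a b, g v := by
    unfold QJ
    refine setIntegral_eq_of_subset_of_forall_sdiff_eq_zero measurableSet_Ioi ?_ ?_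
    · intro v hv
      have := hv.1
      simp only [mem_Ioi]
      linarith
    · intro v hv
      have h0 : max 0 β < v := hv.1
      have hv0 : 0 < v := lt_of_le_of_lt hm2 h0
      have hvb : 0 < v - β := by linarith
      have h2 : v ∉ Ioc a b := hv.2
      have h3 : kap X N v = 0 ∨ kap X N (v - β) = 0 := by
        by_contra hcon
        push Not at hcon
        apply h2
        have q1 : ¬ (|v| ≤ s ∨ 4 * s ≤ |v|) := fun h => hcon.1 (hz v h).1
        have q2 : ¬ (|v - β| ≤ s ∨ 4 * s ≤ |v - β|) := fun h => hcon.2 (hz _ h).1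
        rw [abs_of_pos hv0] at q1
        rw [abs_of_pos hvb] at q2
        push Not at q1 q2
        constructor
        · rw [ha]
          rcases le_total 0 β with h | h
          · rw [max_eq_right h]
            linarith [q2.1]
          · rw [max_eq_left h]
            linarith [q1.1]
        · rw [hbd]
          rcases le_total 0 β with h | h
          · rw [min_eq_left h]
            linarith [q1.2]
          · rw [min_eq_right h]
            linarith [q2.2]
      rcases h3 with h3 | h3
      · rw [h3]; simp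
      · rw [h3]; simp
  rcases lt_or_ge b a with hab | hab
  · rw [h1, Ioc_eq_empty (by linarith), Measure.restrict_empty, integral_zero_measure, norm_zero]
    have : 0 ≤ CK := by linarith
    positivity
  rw [h1, ← intervalIntegral.integral_of_le hab]
  have hD : ∀ v, HasDerivAt (fun v => ((kap X N v * kap X N (v - β) : ℝ) : ℂ))
      ((k1 v * kap X N (v - β) + kap X N v * k1 (v - β) : ℝ) : ℂ) v := by
    intro v
    have e1 := hk v
    have e2 : HasDerivAt (fun v => kap X N (v - β)) (k1 (v - β)) v := by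
      have := (hk (v - β)).comp_sub_const v β
      simpa using this
    exact (e1.mul e2).ofReal_comp
  have key := hVp a b B (2 * CK ^ 2 * s) (fun v => ((kap X N v * kap X N (v - β) : ℝ) : ℂ))
    (fun v => -(m * nn X v) + m' * nn X (v - β)) hab (by positivity)
    (fun v _ => (hD v).continuousAt.continuousWithinAt)
    (fun v _ => ⟨(hD v).differentiableAt, by
      rw [(hD v).deriv, Complex.norm_real, Real.norm_eq_abs]
      have a1 := (hb v).1
      have a2 := (hb v).2
      have a3 := (hb (v - β)).1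
      have a4 := (hb (v - β)).2
      have hCs : 0 ≤ CK * s := by positivity
      calc |k1 v * kap X N (v - β) + kap X N v * k1 (v - β)|
          ≤ |k1 v * kap X N (v - β)| + |kap X N v * k1 (v - β)| := abs_add_le _ _
        _ = |k1 v| * |kap X N (v - β)| + |kap X N v| * |k1 (v - β)| := by rw [abs_mul, abs_mul]
        _ ≤ CK * (CK * s) + (CK * s) * CK :=
            add_le_add (mul_le_mul a2 a3 (abs_nonneg _) (by linarith))
              (mul_le_mul a1 a4 (abs_nonneg _) hCs)
        _ = 2 * CK ^ 2 * s := by ring⟩)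
    (by
      apply Continuous.continuousOn
      have : Continuous fun v : ℝ => nn X (v - β) := hnn.comp (continuous_id.sub continuous_const)
      exact ((continuous_const.mul hnn).neg).add (continuous_const.mul this))
    hB
  have hAb : kap X N b * kap X N (b - β) = 0 := by
    rcases le_total 0 β with h | h
    · have : b = 4 * s := by rw [hbd, min_eq_left h]; ring
      have h4 : kap X N b = 0 := by
        rw [this]
        exact (hz _ (Or.inr (le_abs_self _))).1
      rw [h4, zero_mul]
    · have : b - β = 4 * s := by rw [hbd, min_eq_right h]; ring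
      have h4 : kap X N (b - β) = 0 := by
        rw [this]
        exact (hz _ (Or.inr (le_abs_self _))).1
      rw [h4, mul_zero]
  refine key.trans ?_
  simp only [hAb, Complex.ofReal_zero, norm_zero, zero_add]
  have hba : b - a ≤ 3 * s := by rw [ha, hbd]; linarith
  calc B * (2 * CK ^ 2 * s * (b - a)) ≤ B * (2 * CK ^ 2 * s * (3 * s)) := by gcongr
    _ = 6 * CK ^ 2 * (s * s) * B := by ring
    _ = 6 * CK ^ 2 * N * B := by rw [hss]

theorem cosh_sub_one_le {z : ℝ} (hz : |z| ≤ 1) : Real.cosh z - 1 ≤ z ^ 2 := by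
  have h := Real.cosh_le_exp_half_sq z
  have h2 : |z ^ 2 / 2| ≤ 1 := by
    rw [abs_of_nonneg (by positivity)]
    have := sq_le_one_iff_abs_le_one z |>.2 hz
    linarith
  have h3 := Real.abs_exp_sub_one_le h2
  have h4 : Real.exp (z ^ 2 / 2) - 1 ≤ 2 * |z ^ 2 / 2| := (le_abs_self _).trans h3
  rw [abs_of_nonneg (by positivity : 0 ≤ z ^ 2 / 2)] at h4
  linarith

end Qa_aux

open Qa_aux in
theorem iQa (hKp : StKp) (hKa : UB.StKa) (hVp : UB.StVp) (hV1 : UB.StV1) (hV2 : UB.StV2) : StQa := by
  obtain ⟨CK, hCK, hKp⟩ := hKp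
  have hCK2 : 1 ≤ CK ^ 2 := one_le_pow₀ hCK
  have hCKle : CK ≤ CK ^ 2 := by nlinarith
  refine ⟨1600 * CK ^ 2, by linarith, ?_⟩
  intro X N M β m m' hN hX hM hMN hm hm'
  have hN0 : 0 < N := by linarith
  have hMN1 : N ≤ M * N := by nlinarith
  have hMN0 : 0 < M * N := by positivity
  have hCN : CK * N ≤ X ^ 2 := by
    calc CK * N ≤ (1600 * CK ^ 2) * (M * N) := by
          apply mul_le_mul _ hMN1 hN0.le (by positivity)
          linarith
      _ ≤ X ^ 2 := hMN
  obtain ⟨k1, hk, -, hb, hz⟩ := hKp X N hN hX hCN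
  obtain ⟨-, -, hnn, hnd, -, -, -⟩ := hKa X hX
  have hcn : Continuous (nn X) := continuous_iff_continuousAt.2 fun v => (hnn v).continuousAt
  have hs1 : 1 ≤ Real.sqrt N := Real.one_le_sqrt.2 hN
  have hss : Real.sqrt N * Real.sqrt N = N := Real.mul_self_sqrt (by linarith)
  have hm1 : β ≤ max 0 β := le_max_right _ _
  have hm2 : 0 ≤ max 0 β := le_max_left _ _
  have hm3 : min 0 β ≤ β := min_le_right _ _
  have hm4 : min 0 β ≤ 0 := min_le_left _ _
  have hx2 : 1600 * (M * N) ≤ X ^ 2 := by
    refine le_trans ?_ hMN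
    have : 0 ≤ (CK ^ 2 - 1) * (M * N) := mul_nonneg (by linarith) hMN0.le
    nlinarith
  -- bounds for cosh
  have hch : ∀ v, 0 ≤ v → v ≤ 4 * Real.sqrt N →
      1 ≤ Real.cosh (v / (2 * X)) ∧ Real.cosh (v / (2 * X)) - 1 ≤ 4 * N / X ^ 2 := by
    intro v hv0 hv
    refine ⟨Real.one_le_cosh _, ?_⟩
    have e1 : (v / (2 * X)) ^ 2 ≤ 4 * N / X ^ 2 := by
      rw [div_pow, div_le_div_iff₀ (by positivity) (by positivity)]
      have : v ^ 2 ≤ 16 * N := by nlinarith
      nlinarith [sq_nonneg X, mul_le_mul_of_nonneg_right this (sq_nonneg X)]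
    have e2 : |v / (2 * X)| ≤ 1 := by
      rw [← sq_le_one_iff_abs_le_one]
      refine e1.trans ?_
      rw [div_le_one (by positivity)]
      nlinarith
    exact (cosh_sub_one_le e2).trans e1
  -- derivatives of the phase
  have hf1 : ∀ (m m' : ℤ) (x : ℝ), HasDerivAt (fun x => -((m : ℝ) * nn X x) + m' * nn X (x - β))
      (-((m : ℝ) * nd X x) + m' * nd X (x - β)) x := by
    intro m m' x
    have e2 : HasDerivAt (fun x => nn X (x - β)) (nd X (x - β)) x := by
      have := (hnn (x - β)).comp_sub_const x β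
      simpa using this
    exact ((hnn x).const_mul (m : ℝ)).neg.add (e2.const_mul (m' : ℝ))
  have hf2 : ∀ (m m' : ℤ) (x : ℝ), HasDerivAt (fun x => -((m : ℝ) * nd X x) + m' * nd X (x - β))
      (-((m : ℝ) * (Real.cosh (x / (2 * X)) / 2)) + m' * (Real.cosh ((x - β) / (2 * X)) / 2)) x := by
    intro m m' x
    have e2 : HasDerivAt (fun x => nd X (x - β)) (Real.cosh ((x - β) / (2 * X)) / 2) x := by
      have := (hnd (x - β)).comp_sub_const x β
      simpa using this
    exact ((hnd x).const_mul (m : ℝ)).neg.add (e2.const_mul (m' : ℝ))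
  have hf2c : ∀ (m m' : ℤ), Continuous fun x : ℝ =>
      (-((m : ℝ) * (Real.cosh (x / (2 * X)) / 2)) + m' * (Real.cosh ((x - β) / (2 * X)) / 2)) := by
    intro m m'
    have c1 : Continuous fun x : ℝ => Real.cosh (x / (2 * X)) :=
      Real.continuous_cosh.comp (continuous_id.div_const _)
    have c2 : Continuous fun x : ℝ => Real.cosh ((x - β) / (2 * X)) :=
      Real.continuous_cosh.comp ((continuous_id.sub continuous_const).div_const _)
    fun_prop
  have hmem : ∀ x ∈ Icc (Real.sqrt N + max 0 β) (4 * Real.sqrt N + min 0 β),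
      0 < x ∧ x ≤ 4 * Real.sqrt N ∧ 0 < x - β ∧ x - β ≤ 4 * Real.sqrt N := by
    intro x hx
    have h1 := hx.1
    have h2 := hx.2
    refine ⟨by linarith, by linarith, by linarith, by linarith⟩
  refine ⟨?_, ?_, ?_⟩
  · intro hne
    have hd0 : (1 : ℝ) ≤ |(m : ℝ) - m'| := by
      have : (1 : ℤ) ≤ |m - m'| := Int.one_le_abs (sub_ne_zero.2 hne)
      have h2 : ((1 : ℤ) : ℝ) ≤ ((|m - m'| : ℤ) : ℝ) := by exact_mod_cast this
      push_cast at h2
      exact h2
    have hd1 : (0 : ℝ) < |(m : ℝ) - m'| := by linarith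
    have hq : 400 * (M * N) / X ^ 2 ≤ 1 / 4 := by
      rw [div_le_iff₀ (by positivity)]
      linarith
    have hf2b : ∀ x ∈ Icc (Real.sqrt N + max 0 β) (4 * Real.sqrt N + min 0 β),
        |(-((m : ℝ) * (Real.cosh (x / (2 * X)) / 2)) + m' * (Real.cosh ((x - β) / (2 * X)) / 2)) +
          ((m : ℝ) - m') / 2| ≤ 1 / 4 := by
      intro x hx
      obtain ⟨x0, x1, x2, x3⟩ := hmem x hx
      obtain ⟨c1, c2⟩ := hch x x0.le x1
      obtain ⟨c3, c4⟩ := hch (x - β) x2.le x3
      have e : (-((m : ℝ) * (Real.cosh (x / (2 * X)) / 2)) + m' * (Real.cosh ((x - β) / (2 * X)) / 2)) +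
          ((m : ℝ) - m') / 2 = -((m : ℝ) * ((Real.cosh (x / (2 * X)) - 1) / 2)) +
            m' * ((Real.cosh ((x - β) / (2 * X)) - 1) / 2) := by ring
      rw [e]
      refine (abs_add_le _ _).trans ?_
      rw [abs_neg, abs_mul, abs_mul, abs_of_nonneg (by linarith : 0 ≤ (Real.cosh (x / (2 * X)) - 1) / 2),
        abs_of_nonneg (by linarith : 0 ≤ (Real.cosh ((x - β) / (2 * X)) - 1) / 2)]
      have g1 : |(m : ℝ)| * ((Real.cosh (x / (2 * X)) - 1) / 2) ≤ (100 * M) * ((4 * N / X ^ 2) / 2) :=
        mul_le_mul hm (by linarith) (by linarith) (by linarith)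
      have g2 : |(m' : ℝ)| * ((Real.cosh ((x - β) / (2 * X)) - 1) / 2) ≤
          (100 * M) * ((4 * N / X ^ 2) / 2) :=
        mul_le_mul hm' (by linarith) (by linarith) (by linarith)
      have g3 : (100 * M) * ((4 * N / X ^ 2) / 2) + (100 * M) * ((4 * N / X ^ 2) / 2) =
          400 * (M * N) / X ^ 2 := by ring
      linarith
    have hsign : (∀ x ∈ Icc (Real.sqrt N + max 0 β) (4 * Real.sqrt N + min 0 β), |(m : ℝ) - m'| / 4 ≤
        (-((m : ℝ) * (Real.cosh (x / (2 * X)) / 2)) + m' * (Real.cosh ((x - β) / (2 * X)) / 2))) ∨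
        (∀ x ∈ Icc (Real.sqrt N + max 0 β) (4 * Real.sqrt N + min 0 β),
        (-((m : ℝ) * (Real.cosh (x / (2 * X)) / 2)) + m' * (Real.cosh ((x - β) / (2 * X)) / 2)) ≤
          -(|(m : ℝ) - m'| / 4)) := by
      rcases le_total 0 ((m : ℝ) - m') with h | h
      · right
        intro x hx
        have := (abs_le.1 (hf2b x hx)).2
        rw [abs_of_nonneg h] at hd0 ⊢
        linarith
      · left
        intro x hx
        have := (abs_le.1 (hf2b x hx)).1
        rw [abs_of_nonpos h] at hd0 ⊢
        linarith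
    have hint : ∀ y ∈ Icc (Real.sqrt N + max 0 β) (4 * Real.sqrt N + min 0 β),
        ‖∫ x in (Real.sqrt N + max 0 β)..y, ee (-(m * nn X x) + m' * nn X (x - β))‖ ≤
          16 / Real.sqrt |(m : ℝ) - m'| := by
      intro y hy
      have hsub : Icc (Real.sqrt N + max 0 β) y ⊆
          Icc (Real.sqrt N + max 0 β) (4 * Real.sqrt N + min 0 β) := Icc_subset_Icc_right hy.2
      have h := hV2 (Real.sqrt N + max 0 β) y (|(m : ℝ) - m'| / 4) _ _ _ hy.1 (by linarith)
        (fun x _ => hf1 m m' x) (fun x _ => hf2 m m' x) (hf2c m m').continuousOn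
        (hsign.imp (fun h x hx => h x (hsub hx)) (fun h x hx => h x (hsub hx)))
      refine h.trans (le_of_eq ?_)
      have e : Real.sqrt (|(m : ℝ) - m'| / 4) = Real.sqrt |(m : ℝ) - m'| / 2 := by
        rw [Real.sqrt_div (abs_nonneg _)]
        congr 1
        rw [show (4 : ℝ) = 2 ^ 2 by norm_num]
        exact Real.sqrt_sq (by norm_num)
      rw [e]
      have : 0 < Real.sqrt |(m : ℝ) - m'| := Real.sqrt_pos.2 hd1
      field_simp
      norm_num
    have hs : 0 < Real.sqrt |(m : ℝ) - m'| := Real.sqrt_pos.2 hd1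
    have h := core hVp m m' hCK hN hcn hk hb hz (by positivity) hint
    refine h.trans ?_
    have e : 6 * CK ^ 2 * N * (16 / Real.sqrt |(m : ℝ) - m'|) =
        96 * CK ^ 2 * N / Real.sqrt |(m : ℝ) - m'| := by ring
    rw [e]
    gcongr
    norm_num
  · have hint : ∀ y ∈ Icc (Real.sqrt N + max 0 β) (4 * Real.sqrt N + min 0 β),
        ‖∫ x in (Real.sqrt N + max 0 β)..y, ee (-(m * nn X x) + m * nn X (x - β))‖ ≤
          3 * Real.sqrt N := by
      intro y hy
      have h := intervalIntegral.norm_integral_le_of_norm_le_const (a := Real.sqrt N + max 0 β) (b := y)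
        (f := fun x => ee (-(m * nn X x) + m * nn X (x - β))) (C := 1) (fun x _ => by
          unfold ee
          rw [Complex.norm_exp_ofReal_mul_I])
      refine h.trans ?_
      rw [one_mul, abs_of_nonneg (by linarith [hy.1])]
      linarith [hy.2]
    have h := core hVp m m hCK hN hcn hk hb hz (by positivity) hint
    refine h.trans ?_
    have : 0 ≤ CK ^ 2 * (N * Real.sqrt N) := by positivity
    nlinarith
  · by_cases hm0 : m = 0
    · subst hm0
      simp only [Int.cast_zero, abs_zero, zero_mul]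
      positivity
    by_cases hβ : β = 0
    · rw [hβ]
      simp only [abs_zero, mul_zero, zero_mul]
      positivity
    have hmp : 0 < |(m : ℝ)| := abs_pos.2 (by exact_mod_cast hm0)
    have hβp : 0 < |β| := abs_pos.2 hβ
    have hndm : ∀ x y : ℝ, x ≤ y → (y - x) / 2 ≤ nd X y - nd X x := by
      intro x y hxy
      have hdt : ∀ t, HasDerivAt (fun t => nd X t - t / 2) (Real.cosh (t / (2 * X)) / 2 - 1 / 2) t :=
        fun t => (hnd t).sub ((hasDerivAt_id t).div_const 2)
      have hmono : Monotone (fun t => nd X t - t / 2) := by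
        apply monotone_of_deriv_nonneg
        · intro t
          exact (hdt t).differentiableAt
        · intro t
          rw [(hdt t).deriv]
          have := Real.one_le_cosh (t / (2 * X))
          linarith
      have := hmono hxy
      simp only at this
      linarith
    have hf1b : ∀ x : ℝ, |(m : ℝ)| * |β| / 2 ≤ |-((m : ℝ) * nd X x) + m * nd X (x - β)| := by
      intro x
      have e : -((m : ℝ) * nd X x) + m * nd X (x - β) = -(m * (nd X x - nd X (x - β))) := by ring
      rw [e, abs_neg, abs_mul]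
      have : |β| / 2 ≤ |nd X x - nd X (x - β)| := by
        rcases le_total 0 β with h | h
        · have := hndm (x - β) x (by linarith)
          rw [abs_of_nonneg h]
          refine le_trans ?_ (le_abs_self _)
          linarith
        · have := hndm x (x - β) (by linarith)
          rw [abs_of_nonpos h]
          refine le_trans ?_ (neg_le_abs _)
          linarith
      calc |(m : ℝ)| * |β| / 2 = |(m : ℝ)| * (|β| / 2) := by ring
        _ ≤ _ := by gcongr
    have hcc : ∀ x y : ℝ, 0 ≤ x → x ≤ y → Real.cosh (x / (2 * X)) ≤ Real.cosh (y / (2 * X)) := by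
      intro x y hx hxy
      rw [Real.cosh_le_cosh, abs_of_nonneg (by positivity), abs_of_nonneg (by
        have : 0 ≤ y := hx.trans hxy
        positivity)]
      gcongr
    have hf2s : (∀ x ∈ Icc (Real.sqrt N + max 0 β) (4 * Real.sqrt N + min 0 β), 0 ≤
        (-((m : ℝ) * (Real.cosh (x / (2 * X)) / 2)) + m * (Real.cosh ((x - β) / (2 * X)) / 2))) ∨
        (∀ x ∈ Icc (Real.sqrt N + max 0 β) (4 * Real.sqrt N + min 0 β),
        (-((m : ℝ) * (Real.cosh (x / (2 * X)) / 2)) + m * (Real.cosh ((x - β) / (2 * X)) / 2)) ≤ 0) := by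
      rcases le_total 0 β with hb0 | hb0 <;> rcases le_total 0 (m : ℝ) with hm0' | hm0'
      · right
        intro x hx
        obtain ⟨x0, -, x2, -⟩ := hmem x hx
        have := hcc (x - β) x x2.le (by linarith)
        nlinarith
      · left
        intro x hx
        obtain ⟨x0, -, x2, -⟩ := hmem x hx
        have := hcc (x - β) x x2.le (by linarith)
        nlinarith
      · left
        intro x hx
        obtain ⟨x0, -, x2, -⟩ := hmem x hx
        have := hcc x (x - β) x0.le (by linarith)
        nlinarith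
      · right
        intro x hx
        obtain ⟨x0, -, x2, -⟩ := hmem x hx
        have := hcc x (x - β) x0.le (by linarith)
        nlinarith
    have hint : ∀ y ∈ Icc (Real.sqrt N + max 0 β) (4 * Real.sqrt N + min 0 β),
        ‖∫ x in (Real.sqrt N + max 0 β)..y, ee (-(m * nn X x) + m * nn X (x - β))‖ ≤
          2 / (|(m : ℝ)| * |β|) := by
      intro y hy
      have hsub : Icc (Real.sqrt N + max 0 β) y ⊆
          Icc (Real.sqrt N + max 0 β) (4 * Real.sqrt N + min 0 β) := Icc_subset_Icc_right hy.2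
      have h := (hV1 (Real.sqrt N + max 0 β) y (|(m : ℝ)| * |β| / 2) _ _ _ hy.1 (by positivity)
        (fun x _ => hf1 m m x) (fun x _ => hf2 m m x) (hf2c m m).continuousOn
        (fun x _ => hf1b x)).2
        (hf2s.imp (fun h x hx => h x (hsub hx)) (fun h x hx => h x (hsub hx)))
      refine h.trans (le_of_eq ?_)
      field_simp
    have h := core hVp m m hCK hN hcn hk hb hz (by positivity) hint
    calc |(m : ℝ)| * |β| * ‖QJ X N m m β‖
        ≤ |(m : ℝ)| * |β| * (6 * CK ^ 2 * N * (2 / (|(m : ℝ)| * |β|))) := by gcongr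
      _ = 12 * CK ^ 2 * N := by
          field_simp
          norm_num
      _ ≤ 1600 * CK ^ 2 * N := by
          have : 0 ≤ CK ^ 2 * N := by positivity
          nlinarith

end Pool.Agent.Work.MP_56b8f5_nt.UV
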