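import Pool.Agent.Work.MP_56b8f5_nt.UV.Stmts

/-!
MP_56b8f5_nt, block UV, item Qb: the quadratic form for one pair `(m, m')`.
Statement: helper2.  Proof: helper76.
-/

open MeasureTheory Set Filter Topology

noncomputable section

namespace Pool.Agent.Work.MP_56b8f5_nt.UV

open Pool.Agent.Work.MP_56b8f5_nt.UB

namespace Qb_aux

theorem ee_add (x y : ℝ) : ee (x + y) = ee x * ee y := by
  unfold ee
  rw [← Complex.exp_add]
  congr 1
  push_cast
  ring

theorem ee_neg (x : ℝ) : ee (-x) = (starRingEnd ℂ) (ee x) := by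
  unfold ee
  rw [← Complex.exp_conj]
  congr 1
  rw [map_mul, Complex.conj_ofReal, Complex.conj_I]
  push_cast
  ring

theorem cont_ee : Continuous ee := by
  unfold ee
  fun_prop

theorem norm_ee (x : ℝ) : ‖ee x‖ = 1 := by
  unfold ee
  exact Complex.norm_exp_ofReal_mul_I _

/-- one Fubini swap -/
theorem swap (μ : Measure ℝ) [SFinite μ] {φ J : ℝ → ℂ} (hφ : Integrable φ μ) (hJ : Integrable J)
    (σ w : ℝ) :
    ∫ x, (φ x * ∫ β, J β * ee ((w + σ * x) * β)) ∂μ =
      ∫ β, J β * (∫ x, φ x * ee (σ * x * β) ∂μ) * ee (w * β) := by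
  have h1 : Integrable (fun q : ℝ × ℝ => (φ q.1 * J q.2) * ee ((w + σ * q.1) * q.2))
      (μ.prod volume) := by
    refine (hφ.mul_prod hJ).mul_bdd (c := 1) ?_ (Eventually.of_forall fun x => (norm_ee _).le)
    exact (cont_ee.comp (by fun_prop)).aestronglyMeasurable
  calc ∫ x, (φ x * ∫ β, J β * ee ((w + σ * x) * β)) ∂μ
      = ∫ x, (∫ β, (φ x * J β) * ee ((w + σ * x) * β)) ∂μ := by
        refine integral_congr_ae (Eventually.of_forall fun x => ?_)
        simp only
        rw [← integral_const_mul]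
        congr 1
        ext β
        ring
    _ = ∫ β, (∫ x, (φ x * J β) * ee ((w + σ * x) * β) ∂μ) := integral_integral_swap h1
    _ = _ := by
        congr 1
        ext β
        have h2 : ∀ x, (φ x * J β) * ee ((w + σ * x) * β) =
            (J β * ee (w * β)) * (φ x * ee (σ * x * β)) := by
          intro x
          rw [show (w + σ * x) * β = w * β + σ * x * β by ring, ee_add]
          ring
        simp only [h2]
        rw [integral_const_mul]
        ring

/-- the integral of the exponential over `[0, S]` -/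
def AA (S ν : ℝ) : ℂ := ∫ p in (0 : ℝ)..S, ee (p * ν)

theorem AA_cont (S : ℝ) : Continuous (AA S) := by
  unfold AA
  apply intervalIntegral.continuous_parametric_intervalIntegral_of_continuous'
  exact cont_ee.comp (by fun_prop)

theorem AA_norm {S : ℝ} (hS : 0 ≤ S) (ν : ℝ) : ‖AA S ν‖ ≤ S := by
  unfold AA
  have := intervalIntegral.norm_integral_le_of_norm_le_const (a := 0) (b := S) (C := 1)
    (f := fun p => ee (p * ν)) (fun x _ => (norm_ee _).le)
  rw [sub_zero, one_mul, abs_of_nonneg hS] at this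
  exact this

theorem AA_conj {S : ℝ} (hS : 0 ≤ S) (ν : ℝ) :
    ∫ q in (0 : ℝ)..S, (starRingEnd ℂ) (ee (q * ν)) = (starRingEnd ℂ) (AA S ν) := by
  unfold AA
  rw [intervalIntegral.integral_of_le hS, intervalIntegral.integral_of_le hS, integral_conj]

theorem AA_sq {N : ℝ} (hN : 0 < N) (ν : ℝ) :
    (1 / N) * ‖AA (Real.sqrt N) ν‖ ^ 2 = ps (ν * Real.sqrt N) := by
  have hS : 0 < Real.sqrt N := Real.sqrt_pos.2 hN
  have h1 := intervalIntegral.integral_comp_mul_left (a := (0 : ℝ)) (b := 1)
    (fun x => ee (x * ν)) hS.ne'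
  rw [mul_zero, mul_one] at h1
  have h2 : ∫ h in (0 : ℝ)..1, ee (ν * Real.sqrt N * h) =
      (Real.sqrt N)⁻¹ • AA (Real.sqrt N) ν := by
    unfold AA
    rw [← h1]
    congr 1
    ext h
    congr 1
    ring
  unfold ps
  rw [h2, norm_smul, mul_pow, Real.norm_eq_abs, abs_of_pos (inv_pos.2 hS), inv_pow,
    Real.sq_sqrt hN.le]
  ring

/-- the averaged function -/
theorem Av_int {J : ℝ → ℂ} (hJ : Integrable J) {N : ℝ} (hN : 0 < N) (z : ℝ) :
    Av N (fun z => ∫ β, J β * ee (z * β)) z =
      ∫ β, (J β * ((1 - ps (β * Real.sqrt N) : ℝ) : ℂ)) * ee (z * β) := by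
  have hS : 0 ≤ Real.sqrt N := Real.sqrt_nonneg N
  unfold Av
  set S := Real.sqrt N with hSdef
  have hAm : AEStronglyMeasurable (fun β => (starRingEnd ℂ) (AA S β)) volume :=
    (Complex.continuous_conj.comp (AA_cont S)).aestronglyMeasurable
  have hJ1 : Integrable fun β => J β * (starRingEnd ℂ) (AA S β) := by
    refine hJ.mul_bdd (c := S) hAm (Eventually.of_forall fun x => ?_)
    rw [RCLike.norm_conj]
    exact AA_norm hS x
  have hJ2 : Integrable fun β => J β * (starRingEnd ℂ) (AA S β) * AA S β :=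
    hJ1.mul_bdd (c := S) (AA_cont S).aestronglyMeasurable
      (Eventually.of_forall fun x => AA_norm hS x)
  have hfin : Integrable (fun _ : ℝ => (1 : ℂ)) (volume.restrict (Ioc 0 S)) :=
    integrable_const _
  have h1 : ∀ p : ℝ, ∫ q in (0 : ℝ)..S, ∫ β, J β * ee ((z + p - q) * β) =
      ∫ β, (J β * (starRingEnd ℂ) (AA S β)) * ee ((z + p) * β) := by
    intro p
    rw [intervalIntegral.integral_of_le hS]
    have h := swap (volume.restrict (Ioc 0 S)) hfin hJ (-1) (z + p)
    have e1 : ∀ β : ℝ, ∫ x in Ioc 0 S, (1 : ℂ) * ee (-1 * x * β) = (starRingEnd ℂ) (AA S β) := by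
      intro β
      rw [← AA_conj hS, intervalIntegral.integral_of_le hS]
      congr 1
      ext x
      rw [one_mul, ← ee_neg]
      congr 1
      ring
    simp only [e1] at h
    rw [← h]
    congr 1
    ext q
    rw [one_mul]
    congr 1
    ext β
    congr 2
    ring
  simp only [h1]
  have h2 : ∫ p in (0 : ℝ)..S, ∫ β, (J β * (starRingEnd ℂ) (AA S β)) * ee ((z + p) * β) =
      ∫ β, (J β * (starRingEnd ℂ) (AA S β) * AA S β) * ee (z * β) := by
    rw [intervalIntegral.integral_of_le hS]
    have h := swap (volume.restrict (Ioc 0 S)) hfin hJ1 1 z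
    have e1 : ∀ β : ℝ, ∫ x in Ioc 0 S, (1 : ℂ) * ee (1 * x * β) = AA S β := by
      intro β
      unfold AA
      rw [intervalIntegral.integral_of_le hS]
      congr 1
      ext x
      rw [one_mul, one_mul]
    simp only [e1] at h
    rw [← h]
    congr 1
    ext q
    rw [one_mul]
    congr 1
    ext β
    congr 2
    ring
  rw [h2, ← integral_const_mul, ← integral_sub]
  · congr 1
    ext β
    have h4 := AA_sq hN β
    rw [← hSdef] at h4
    have h3 : (starRingEnd ℂ) (AA S β) * AA S β = ((‖AA S β‖ ^ 2 : ℝ) : ℂ) := by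
      rw [mul_comm, Complex.mul_conj, Complex.normSq_eq_norm_sq]
    rw [← h4, mul_assoc (J β) _ (AA S β), h3]
    push_cast
    ring
  · exact hJ.mul_bdd (c := 1) (cont_ee.comp (by fun_prop)).aestronglyMeasurable
      (Eventually.of_forall fun x => (norm_ee _).le)
  · exact (hJ2.mul_bdd (c := 1) (cont_ee.comp (by fun_prop)).aestronglyMeasurable
      (Eventually.of_forall fun x => (norm_ee _).le)).const_mul _

theorem int_F {F : ℝ → ℝ} {L B : ℝ} (hFm : Measurable F) (hB : ∀ x, |F x| ≤ B)
    (hL : ∀ x, L < |x| → F x = 0) : Integrable F := by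
  have h1 : IntegrableOn F (Icc (-L) L) := by
    refine Measure.integrableOn_of_bounded (M := B) ?_ hFm.aestronglyMeasurable
      (Eventually.of_forall fun x => by rw [Real.norm_eq_abs]; exact hB x)
    rw [Real.volume_Icc]
    exact ENNReal.ofReal_ne_top
  rw [integrableOn_iff_integrable_of_support_subset] at h1
  · exact h1
  · intro x hx
    rw [Function.mem_support] at hx
    by_contra h
    apply hx
    apply hL
    rw [mem_Icc, ← abs_le, not_le] at h
    exact h

/-- the double integral -/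
theorem dbl {F : ℝ → ℝ} (hF : Integrable F) (hc : Continuous (FT fun x => (F x : ℂ)))
    {J : ℝ → ℂ} (hJ : Integrable J) :
    ∫ x, ∫ y, ((F x * F y : ℝ) : ℂ) * ∫ β, J β * ee ((x - y) * β) =
      ∫ β, J β * ((‖FT (fun x => (F x : ℂ)) β‖ ^ 2 : ℝ) : ℂ) := by
  set G : ℝ → ℂ := FT fun x => (F x : ℂ) with hG
  have hFT : ∀ ν : ℝ, G ν = ∫ x, (F x : ℂ) * ee (1 * x * ν) := by
    intro ν
    rw [hG]
    unfold FT
    congr 1
    ext x
    congr 2
    ring
  have hFTc : ∀ ν : ℝ, ∫ y, (F y : ℂ) * ee (-1 * y * ν) = (starRingEnd ℂ) (G ν) := by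
    intro ν
    rw [hFT, ← integral_conj]
    congr 1
    ext y
    rw [map_mul, Complex.conj_ofReal, ← ee_neg]
    congr 2
    ring
  have hFC : Integrable fun x => (F x : ℂ) := hF.ofReal
  have hGb : ∀ ν, ‖G ν‖ ≤ ∫ x, |F x| := by
    intro ν
    rw [hFT]
    refine (norm_integral_le_integral_norm _).trans (le_of_eq ?_)
    congr 1
    ext x
    rw [norm_mul, norm_ee, mul_one, Complex.norm_real, Real.norm_eq_abs]
  have hJ1 : Integrable fun β => J β * (starRingEnd ℂ) (G β) := by
    refine hJ.mul_bdd (c := ∫ x, |F x|)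
      (Complex.continuous_conj.comp hc).aestronglyMeasurable (Eventually.of_forall fun x => ?_)
    rw [RCLike.norm_conj]
    exact hGb x
  have h1 : ∀ x : ℝ, ∫ y, ((F x * F y : ℝ) : ℂ) * ∫ β, J β * ee ((x - y) * β) =
      (F x : ℂ) * ∫ β, (J β * (starRingEnd ℂ) (G β)) * ee (x * β) := by
    intro x
    have h := swap volume hFC hJ (-1) x
    simp only [hFTc] at h
    rw [← h, ← integral_const_mul]
    congr 1
    ext y
    rw [← mul_assoc]
    congr 1
    · push_cast
      ring
    · congr 1
      ext β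
      congr 2
      ring
  simp only [h1]
  have h := swap volume hFC hJ1 1 0
  simp only [← hFT] at h
  have e1 : ∀ x : ℝ, (F x : ℂ) * ∫ β, (J β * (starRingEnd ℂ) (G β)) * ee (x * β) =
      (F x : ℂ) * ∫ β, (J β * (starRingEnd ℂ) (G β)) * ee ((0 + 1 * x) * β) := by
    intro x
    rw [zero_add, one_mul]
  simp only [e1]
  rw [h]
  congr 1
  ext β
  have h3 : (starRingEnd ℂ) (G β) * G β = ((‖G β‖ ^ 2 : ℝ) : ℂ) := by
    rw [mul_comm, Complex.mul_conj, Complex.normSq_eq_norm_sq]
  have h4 : ee (0 * β) = 1 := by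
    unfold ee
    simp
  rw [h4, mul_one, mul_assoc, h3]

/-- the function with Fourier transform `K_m` -/
def gm (X N : ℝ) (m : ℤ) (v : ℝ) : ℂ :=
  (Ioi (0 : ℝ)).indicator (fun v => (kap X N v : ℂ) * ee (-(m * nn X v))) v

theorem cont_nn (X : ℝ) : Continuous (nn X) := by
  unfold nn
  exact continuous_const.mul ((Real.continuous_cosh.comp (continuous_id.div_const _)).sub
    continuous_const)

theorem gm_int {X N : ℝ} (m : ℤ) (hk : Integrable (kap X N)) : Integrable (gm X N m) := by
  unfold gm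
  apply Integrable.indicator _ measurableSet_Ioi
  refine hk.ofReal.mul_bdd (c := 1) ?_ (Eventually.of_forall fun x => (norm_ee _).le)
  exact (cont_ee.comp ((continuous_const.mul (cont_nn X)).neg)).aestronglyMeasurable

theorem KK_gm (X N : ℝ) (m : ℤ) (z : ℝ) : KK X N m z = ∫ v, gm X N m v * ee (z * v) := by
  unfold KK
  rw [← integral_indicator measurableSet_Ioi]
  congr 1
  ext v
  unfold gm
  by_cases hv : v ∈ Ioi (0 : ℝ)
  · rw [indicator_of_mem hv, indicator_of_mem hv, mul_assoc, ← ee_add]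
    congr 2
    ring
  · rw [indicator_of_notMem hv, indicator_of_notMem hv, zero_mul]

theorem QJ_gm (X N : ℝ) (m m' : ℤ) (β : ℝ) :
    QJ X N m m' β = ∫ v, gm X N m v * (starRingEnd ℂ) (gm X N m' (v - β)) := by
  unfold QJ
  rw [← integral_indicator measurableSet_Ioi]
  congr 1
  ext v
  unfold gm
  by_cases hv : v ∈ Ioi (max 0 β)
  · have hv' : max 0 β < v := hv
    have h1 : v ∈ Ioi (0 : ℝ) := mem_Ioi.2 (lt_of_le_of_lt (le_max_left 0 β) hv')
    have h2 : v - β ∈ Ioi (0 : ℝ) := mem_Ioi.2 (sub_pos.2 (lt_of_le_of_lt (le_max_right 0 β) hv'))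
    rw [indicator_of_mem hv, indicator_of_mem h1, indicator_of_mem h2, map_mul, ← ee_neg,
      Complex.conj_ofReal, ee_add, neg_neg]
    push_cast
    ring
  · rw [indicator_of_notMem hv]
    have h : ¬ (0 < v ∧ β < v) := by
      rintro ⟨h1, h2⟩
      exact hv (max_lt h1 h2)
    by_cases h1 : 0 < v
    · have h2 : v - β ∉ Ioi (0 : ℝ) := by
        intro h3
        exact h ⟨h1, sub_pos.1 h3⟩
      rw [indicator_of_notMem h2, map_zero, mul_zero]
    · have h2 : v ∉ Ioi (0 : ℝ) := h1
      rw [indicator_of_notMem h2, zero_mul]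

theorem conv_int {g h : ℝ → ℂ} (hg : Integrable g) (hh : Integrable h) :
    Integrable (fun p : ℝ × ℝ => g p.2 * (starRingEnd ℂ) (h (p.2 - p.1))) (volume.prod volume) := by
  have hh' : Integrable (fun u => (starRingEnd ℂ) (h (-u))) := by
    have h1 : Integrable (fun u => h (-u)) := hh.comp_neg
    exact (Complex.conjCLE.toContinuousLinearMap.integrable_comp h1)
  have h2 := Integrable.convolution_integrand (ContinuousLinearMap.mul ℂ ℂ) hg hh'
  refine h2.congr (Eventually.of_forall fun p => ?_)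
  simp only [ContinuousLinearMap.mul_apply']
  rw [neg_sub]

theorem prod_rep {g h : ℝ → ℂ} (hg : Integrable g) (hh : Integrable h) (z : ℝ) :
    (∫ v, g v * ee (z * v)) * (starRingEnd ℂ) (∫ v, h v * ee (z * v)) =
      ∫ β, (∫ v, g v * (starRingEnd ℂ) (h (v - β))) * ee (z * β) := by
  have hI : Integrable (fun p : ℝ × ℝ => g p.2 * (starRingEnd ℂ) (h (p.2 - p.1)) * ee (z * p.1))
      (volume.prod volume) := by
    refine (conv_int hg hh).mul_bdd (c := 1) ?_ (Eventually.of_forall fun x => (norm_ee _).le)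
    exact (cont_ee.comp (by fun_prop)).aestronglyMeasurable
  calc (∫ v, g v * ee (z * v)) * (starRingEnd ℂ) (∫ v, h v * ee (z * v))
      = ∫ v, (g v * ee (z * v)) * (starRingEnd ℂ) (∫ w, h w * ee (z * w)) := by
        rw [integral_mul_const]
    _ = ∫ v, ∫ β, g v * (starRingEnd ℂ) (h (v - β)) * ee (z * β) := by
        congr 1
        ext v
        rw [← integral_conj]
        have h1 := integral_sub_left_eq_self
          (fun w => (starRingEnd ℂ) (h w * ee (z * w))) volume v
        rw [← h1, ← integral_const_mul]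
        congr 1
        ext β
        rw [map_mul, ← ee_neg]
        have h2 : ee (z * v) * ee (-(z * (v - β))) = ee (z * β) := by
          rw [← ee_add]
          congr 1
          ring
        rw [← h2]
        ring
    _ = ∫ β, ∫ v, g v * (starRingEnd ℂ) (h (v - β)) * ee (z * β) :=
        (integral_integral_swap (f := fun β v => g v * (starRingEnd ℂ) (h (v - β)) * ee (z * β))
          hI).symm
    _ = _ := by
        congr 1
        ext β
        rw [integral_mul_const]

theorem conv_int' {g h : ℝ → ℂ} (hg : Integrable g) (hh : Integrable h) :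
    Integrable (fun β => ∫ v, g v * (starRingEnd ℂ) (h (v - β))) :=
  (conv_int hg hh).integral_prod_left

end Qb_aux

open Qb_aux in
theorem iQb (hPl : StPl) (hKp : StKp) (hPs : StPs) : StQb := by
  obtain ⟨C, hC, hKp⟩ := hKp
  refine ⟨C, hC, ?_⟩
  intro X N D L B m m' F hN hX hNX hFm hB hL hD hQ
  have hF := int_F hFm hB hL
  have hN0 : 0 < N := by linarith
  obtain ⟨k1, hk1, -, -, hz⟩ := hKp X N hN hX hNX
  have hkc : Continuous (kap X N) := by
    rw [continuous_iff_continuousAt]
    exact fun v => (hk1 v).continuousAt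
  have hki : Integrable (kap X N) := by
    apply hkc.integrable_of_hasCompactSupport
    apply HasCompactSupport.intro (isCompact_Icc (a := -(4 * Real.sqrt N)) (b := 4 * Real.sqrt N))
    intro v hv
    apply (hz v _).1
    right
    rw [mem_Icc, ← abs_le, not_le] at hv
    exact hv.le
  have hg := gm_int m hki
  have hg' := gm_int m' hki
  have hJ : Integrable (QJ X N m m') := by
    have h1 := conv_int' hg hg'
    refine h1.congr (Eventually.of_forall fun β => ?_)
    exact (QJ_gm X N m m' β).symm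
  have hrep : (fun z => KK X N m z * (starRingEnd ℂ) (KK X N m' z)) =
      fun z => ∫ β, QJ X N m m' β * ee (z * β) := by
    ext z
    simp only [KK_gm, QJ_gm]
    exact prod_rep hg hg' z
  obtain ⟨hc, hsq, hpl, -⟩ := hPl (fun x => (F x : ℂ)) L B (Complex.measurable_ofReal.comp hFm)
    (fun x => by rw [Complex.norm_real, Real.norm_eq_abs]; exact hB x)
    (fun x hx => by rw [hL x hx, Complex.ofReal_zero])
  have hpsc : Continuous fun β => ps (β * Real.sqrt N) := by
    have : (fun β => ps (β * Real.sqrt N)) = fun β => (1 / N) * ‖AA (Real.sqrt N) β‖ ^ 2 := by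
      ext β
      rw [AA_sq hN0]
    rw [this]
    exact continuous_const.mul ((AA_cont _).norm.pow 2)
  have hJ' : Integrable fun β => QJ X N m m' β * ((1 - ps (β * Real.sqrt N) : ℝ) : ℂ) := by
    refine hJ.mul_bdd (c := 1)
      (Complex.continuous_ofReal.comp (continuous_const.sub hpsc)).aestronglyMeasurable
      (Eventually.of_forall fun β => ?_)
    have h1 := hPs (β * Real.sqrt N)
    rw [Complex.norm_real, Real.norm_eq_abs, abs_le]
    constructor <;> linarith [h1.1, h1.2.1]
  have hmain : ∫ x, ∫ y, ((F x * F y : ℝ) : ℂ) *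
      Av N (fun z => KK X N m z * (starRingEnd ℂ) (KK X N m' z)) (x - y) =
      ∫ β, (QJ X N m m' β * ((1 - ps (β * Real.sqrt N) : ℝ) : ℂ)) *
        ((‖FT (fun x => (F x : ℂ)) β‖ ^ 2 : ℝ) : ℂ) := by
    rw [hrep]
    simp only [Av_int hJ hN0]
    exact dbl hF hc hJ'
  rw [hmain]
  calc ‖∫ β, (QJ X N m m' β * ((1 - ps (β * Real.sqrt N) : ℝ) : ℂ)) *
        ((‖FT (fun x => (F x : ℂ)) β‖ ^ 2 : ℝ) : ℂ)‖
      ≤ ∫ β, D * ‖FT (fun x => (F x : ℂ)) β‖ ^ 2 := by
        refine norm_integral_le_of_norm_le (hsq.const_mul D) (Eventually.of_forall fun β => ?_)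
        rw [norm_mul, norm_mul, Complex.norm_real, Complex.norm_real, Real.norm_eq_abs,
          Real.norm_eq_abs, abs_of_nonneg (sub_nonneg.2 (hPs (β * Real.sqrt N)).2.1),
          abs_of_nonneg (sq_nonneg _)]
        exact mul_le_mul_of_nonneg_right (hQ β) (sq_nonneg _)
    _ = D * ∫ x, F x ^ 2 := by
        rw [integral_const_mul, hpl]
        congr 2
        ext x
        rw [Complex.norm_real, Real.norm_eq_abs, sq_abs]

end Pool.Agent.Work.MP_56b8f5_nt.UV
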