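import Pool.Agent.Work.MP_56b8f5_nt.UV.Stmts

/-!
MP_56b8f5_nt, block UV, item Qc: truncation of the kernel.
-/

open MeasureTheory Set Filter Topology

noncomputable section

namespace Pool.Agent.Work.MP_56b8f5_nt.UV

open Pool.Agent.Work.MP_56b8f5_nt.UB

namespace Qc_aux

lemma sum_range_le (L : ℕ) (hL : 1 ≤ L) (n : ℕ) :
    ∑ i ∈ Finset.range n, 1 / ((i : ℝ) + L + 1) ^ 2 ≤ 1 / (L : ℝ) - 1 / ((n : ℝ) + L) := by
  have hL' : (1 : ℝ) ≤ L := by exact_mod_cast hL
  induction n with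
  | zero => simp
  | succ n ih =>
    rw [Finset.sum_range_succ]
    have hn : (0 : ℝ) ≤ n := Nat.cast_nonneg n
    have h1 : 1 / ((n : ℝ) + L + 1) ^ 2 ≤ 1 / ((n : ℝ) + L) - 1 / (((n + 1 : ℕ) : ℝ) + L) := by
      have e : 1 / ((n : ℝ) + L) - 1 / (((n + 1 : ℕ) : ℝ) + L) =
          1 / (((n : ℝ) + L) * ((n : ℝ) + L + 1)) := by
        push_cast
        have h2 : (n : ℝ) + L ≠ 0 := by positivity
        have h3 : (n : ℝ) + 1 + L ≠ 0 := by positivity
        have h4 : (n : ℝ) + L + 1 ≠ 0 := by positivity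
        field_simp
        ring
      rw [e]
      apply one_div_le_one_div_of_le
      · positivity
      · nlinarith
    linarith

lemma tail_summable (L : ℕ) (hL : 1 ≤ L) :
    Summable (fun n : ℕ => 1 / ((n : ℝ) + L + 1) ^ 2) := by
  refine summable_of_sum_range_le (c := 1 / (L : ℝ)) (fun n => by positivity) (fun n => ?_)
  have h1 := sum_range_le L hL n
  have h2 : 0 ≤ 1 / ((n : ℝ) + L) := by positivity
  linarith

lemma tail_le (L : ℕ) (hL : 1 ≤ L) :
    ∑' n : ℕ, 1 / ((n : ℝ) + L + 1) ^ 2 ≤ 1 / (L : ℝ) := by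
  refine Real.tsum_le_of_sum_range_le (fun n => by positivity) (fun n => ?_)
  have h1 := sum_range_le L hL n
  have h2 : 0 ≤ 1 / ((n : ℝ) + L) := by positivity
  linarith

/-- the tail majorant on the integers -/
def G (L : ℕ) (c : ℝ) (m : ℤ) : ℝ :=
  if m ∈ Finset.Icc (-(L : ℤ)) L then 0 else c / (m : ℝ) ^ 2

lemma G_hasSum (L : ℕ) (hL : 1 ≤ L) (c : ℝ) :
    HasSum (G L c) (c * ∑' n : ℕ, 1 / ((n : ℝ) + L + 1) ^ 2 +
      c * ∑' n : ℕ, 1 / ((n : ℝ) + L + 1) ^ 2) := by
  have hT : HasSum (fun n : ℕ => c * (1 / ((n : ℝ) + L + 1) ^ 2))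
      (c * ∑' n : ℕ, 1 / ((n : ℝ) + L + 1) ^ 2) := (tail_summable L hL).hasSum.mul_left c
  have h1 : HasSum (fun n : ℕ => G L c (n : ℤ)) (c * ∑' n : ℕ, 1 / ((n : ℝ) + L + 1) ^ 2) := by
    have h := (hasSum_nat_add_iff (f := fun n : ℕ => G L c (n : ℤ)) (L + 1)
      (g := c * ∑' n : ℕ, 1 / ((n : ℝ) + L + 1) ^ 2)).1 (by
        have e : (fun n : ℕ => G L c ((n + (L + 1) : ℕ) : ℤ)) =
            fun n : ℕ => c * (1 / ((n : ℝ) + L + 1) ^ 2) := by
          funext n
          unfold G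
          rw [if_neg]
          · push_cast
            ring
          · rw [Finset.mem_Icc]
            push_cast
            omega
        rw [e]
        exact hT)
    have hz : ∑ i ∈ Finset.range (L + 1), G L c (i : ℤ) = 0 := by
      refine Finset.sum_eq_zero fun i hi => ?_
      rw [Finset.mem_range] at hi
      unfold G
      rw [if_pos]
      rw [Finset.mem_Icc]
      omega
    rw [hz, add_zero] at h
    exact h
  have h2 : HasSum (fun n : ℕ => G L c (-((n : ℤ) + 1)))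
      (c * ∑' n : ℕ, 1 / ((n : ℝ) + L + 1) ^ 2) := by
    have h := (hasSum_nat_add_iff (f := fun n : ℕ => G L c (-((n : ℤ) + 1))) L
      (g := c * ∑' n : ℕ, 1 / ((n : ℝ) + L + 1) ^ 2)).1 (by
        have e : (fun n : ℕ => G L c (-(((n + L : ℕ) : ℤ) + 1))) =
            fun n : ℕ => c * (1 / ((n : ℝ) + L + 1) ^ 2) := by
          funext n
          unfold G
          rw [if_neg]
          · push_cast
            ring
          · rw [Finset.mem_Icc]
            push_cast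
            omega
        rw [e]
        exact hT)
    have hz : ∑ i ∈ Finset.range L, G L c (-((i : ℤ) + 1)) = 0 := by
      refine Finset.sum_eq_zero fun i hi => ?_
      rw [Finset.mem_range] at hi
      unfold G
      rw [if_pos]
      rw [Finset.mem_Icc]
      omega
    rw [hz, add_zero] at h
    exact h
  exact HasSum.of_nat_of_neg_add_one h1 h2

lemma norm_ee (y : ℝ) : ‖ee y‖ = 1 := by
  unfold ee
  exact Complex.norm_exp_ofReal_mul_I _

/-- trivial bound for the kernel -/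
lemma KS_le (X N z : ℝ) (hN : 1 ≤ N) : ‖KS X N z‖ ≤ 4 * N := by
  have hN0 : (0 : ℝ) < N := by linarith
  have hom0 : ∀ u, 0 ≤ om u := fun u => omB.nonneg
  have hom1 : ∀ u, om u ≤ 1 := fun u => omB.le_one
  have hsupp : ∀ n ∉ Finset.range (⌊5 / 2 * N⌋₊ + 1),
      (om ((n : ℝ) / N) : ℂ) * ee (z * vv X n) = 0 := by
    intro n hn
    rw [Finset.mem_range, not_lt] at hn
    have h1 : 5 / 2 * N < (n : ℝ) := by
      have := Nat.lt_floor_add_one (5 / 2 * N)
      have h2 : ((⌊5 / 2 * N⌋₊ + 1 : ℕ) : ℝ) ≤ n := by exact_mod_cast hn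
      push_cast at h2
      linarith
    have h2 : om ((n : ℝ) / N) = 0 := by
      unfold om
      apply omB.zero_of_le_dist
      have h3 : (5 / 2 : ℝ) ≤ (n : ℝ) / N := by
        rw [le_div_iff₀ hN0]
        linarith
      rw [Real.dist_eq, abs_of_nonneg (by linarith)]
      show (1 : ℝ) ≤ _
      linarith
    rw [h2]
    simp
  unfold KS
  rw [tsum_eq_sum hsupp]
  refine (norm_sum_le _ _).trans ?_
  have hterm : ∀ n ∈ Finset.range (⌊5 / 2 * N⌋₊ + 1),
      ‖(om ((n : ℝ) / N) : ℂ) * ee (z * vv X n)‖ ≤ 1 := by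
    intro n _
    rw [norm_mul, norm_ee, mul_one, Complex.norm_real, Real.norm_eq_abs, abs_of_nonneg (hom0 _)]
    exact hom1 _
  refine (Finset.sum_le_sum hterm).trans ?_
  rw [Finset.sum_const, Finset.card_range, nsmul_eq_mul, mul_one]
  push_cast
  have := Nat.floor_le (show (0 : ℝ) ≤ 5 / 2 * N by positivity)
  linarith

end Qc_aux

open Qc_aux in
theorem iQc (hKP : UB.StKP) (hK2 : UB.StK2) : StQc := by
  obtain ⟨C1, hC1, h1⟩ := hKP
  obtain ⟨C2, hC2, h2⟩ := hK2
  refine ⟨C1 + C2 + C2 * (8 + C2), by nlinarith, ?_⟩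
  intro X N M z hN hX hM hCN hz
  have hN0 : (0 : ℝ) < N := by linarith
  have hM0 : (0 : ℝ) < M := by linarith
  have hCC : 0 ≤ C2 * (8 + C2) := by positivity
  have hc1 : C1 * N ≤ X ^ 2 := by nlinarith
  have hc2 : C2 * N ≤ X ^ 2 := by nlinarith
  obtain ⟨hsum, hKS⟩ := h1 X N z hN hX hc1
  obtain ⟨-, h3⟩ := h2 X N hN hX hc2
  have hs : 0 < Real.sqrt N := Real.sqrt_pos.2 hN0
  -- the truncation point
  have hfl : (0 : ℤ) ≤ ⌊100 * M⌋ := Int.floor_nonneg.2 (by positivity)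
  obtain ⟨L, hL⟩ := Int.eq_ofNat_of_zero_le hfl
  have hLr : (L : ℝ) = (⌊100 * M⌋ : ℤ) := by rw [hL]; simp
  have hL1 : 99 * M ≤ (L : ℝ) := by
    rw [hLr]
    have := Int.lt_floor_add_one (100 * M)
    linarith
  have hL1' : 1 ≤ L := by
    have : (1 : ℝ) ≤ L := by linarith
    exact_mod_cast this
  have hL0 : (0 : ℝ) < L := by linarith
  have hfar : ∀ m : ℤ, m ∉ Finset.Icc (-(L : ℤ)) L → 100 * M < |(m : ℝ)| := by
    intro m hm
    rw [Finset.mem_Icc] at hm
    have h4 : (L : ℤ) + 1 ≤ |m| := by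
      rcases le_or_gt 0 m with h | h
      · rw [abs_of_nonneg h]; omega
      · rw [abs_of_neg h]; omega
    have h5 : (L : ℝ) + 1 ≤ |(m : ℝ)| := by
      have : (((L : ℤ) + 1 : ℤ) : ℝ) ≤ ((|m| : ℤ) : ℝ) := by exact_mod_cast h4
      push_cast at this
      exact this
    have h6 := Int.lt_floor_add_one (100 * M)
    rw [← hLr] at h6
    linarith
  have hKsum : HasSum (fun m : ℤ => KK X N m z) (KS X N z) := by
    rw [hKS]
    exact hsum.of_norm.hasSum
  have hT : HasSum (fun m : ℤ => if m ∈ Finset.Icc (-(L : ℤ)) L then KK X N m z else 0)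
      (KT X N M z) := by
    have h4 : HasSum (fun m : ℤ => if m ∈ Finset.Icc (-(L : ℤ)) L then KK X N m z else 0)
        (∑ m ∈ Finset.Icc (-(L : ℤ)) L,
          if m ∈ Finset.Icc (-(L : ℤ)) L then KK X N m z else 0) :=
      hasSum_sum_of_ne_finset_zero fun m hm => if_neg hm
    have h5 : (∑ m ∈ Finset.Icc (-(L : ℤ)) L,
          if m ∈ Finset.Icc (-(L : ℤ)) L then KK X N m z else 0) = KT X N M z := by
      unfold KT
      rw [hL]
      exact Finset.sum_congr rfl fun m hm => if_pos hm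
    rw [← h5]
    exact h4
  have hd := hKsum.sub hT
  have hb : ∀ m : ℤ, ‖KK X N m z - (if m ∈ Finset.Icc (-(L : ℤ)) L then KK X N m z else 0)‖ ≤
      G L (C2 / N) m := by
    intro m
    unfold G
    by_cases hm : m ∈ Finset.Icc (-(L : ℤ)) L
    · rw [if_pos hm, if_pos hm, sub_self, norm_zero]
    · rw [if_neg hm, if_neg hm, sub_zero]
      have hm' := hfar m hm
      have hmpos : 0 < |(m : ℝ)| := by linarith [mul_pos (by norm_num : (0 : ℝ) < 100) hM0]
      have hm0 : m ≠ 0 := by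
        rintro rfl
        simp at hmpos
      have hnot : ¬ (Real.sqrt N / 2 ≤ z / m ∧ z / m ≤ 2 * Real.sqrt N) := by
        rintro ⟨h6, -⟩
        have h7 : Real.sqrt N / 2 ≤ |z| / |(m : ℝ)| := by
          rw [← abs_div]
          exact h6.trans (le_abs_self _)
        rw [le_div_iff₀ hmpos] at h7
        have h8 : Real.sqrt N * (100 * M) < Real.sqrt N * |(m : ℝ)| :=
          mul_lt_mul_of_pos_left hm' hs
        have h9 : 0 < M * Real.sqrt N := mul_pos hM0 hs
        nlinarith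
      refine (h3 m hm0 z hnot).trans (le_of_eq ?_)
      have hmr : (m : ℝ) ≠ 0 := by exact_mod_cast hm0
      field_simp
  have hdiff : ‖KS X N z - KT X N M z‖ ≤ C2 / (M * N) := by
    rw [← hd.tsum_eq]
    refine (tsum_of_norm_bounded (G_hasSum L hL1' (C2 / N)) hb).trans ?_
    have h4 := tail_le L hL1'
    have h5 : (0 : ℝ) ≤ C2 / N := by positivity
    have h6 : 1 / (L : ℝ) ≤ 1 / (99 * M) := one_div_le_one_div_of_le (by positivity) hL1
    have h7 : ∑' n : ℕ, 1 / ((n : ℝ) + L + 1) ^ 2 ≤ 1 / (99 * M) := h4.trans h6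
    have h8 := mul_le_mul_of_nonneg_left h7 h5
    have e : C2 / (M * N) = 99 * (C2 / N * (1 / (99 * M))) := by
      field_simp
    have h9 : 0 ≤ C2 / N * (1 / (99 * M)) := by positivity
    rw [e]
    linarith
  have hKSle := KS_le X N z hN
  have hKTle : ‖KT X N M z‖ ≤ ‖KS X N z‖ + C2 / (M * N) := by
    have h4 : ‖KT X N M z‖ ≤ ‖KS X N z‖ + ‖KS X N z - KT X N M z‖ := by
      have h5 := norm_sub_norm_le (KT X N M z) (KS X N z)
      rw [norm_sub_rev] at h5
      linarith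
    linarith
  have hab : |‖KS X N z‖ - ‖KT X N M z‖| ≤ C2 / (M * N) :=
    (abs_norm_sub_norm_le _ _).trans hdiff
  have e2 : ‖KS X N z‖ ^ 2 - ‖KT X N M z‖ ^ 2 =
      (‖KS X N z‖ - ‖KT X N M z‖) * (‖KS X N z‖ + ‖KT X N M z‖) := by ring
  rw [e2, abs_mul]
  have hnn : 0 ≤ ‖KS X N z‖ + ‖KT X N M z‖ := by positivity
  rw [abs_of_nonneg hnn]
  have hMN : 1 ≤ M * N := by nlinarith
  have hq : C2 / (M * N) ≤ C2 := div_le_self (by linarith) hMN
  have hq2 : C2 / (M * N) ≤ C2 * N := by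
    refine hq.trans ?_
    nlinarith
  have hsumle : ‖KS X N z‖ + ‖KT X N M z‖ ≤ (8 + C2) * N := by nlinarith
  have hprod : |‖KS X N z‖ - ‖KT X N M z‖| * (‖KS X N z‖ + ‖KT X N M z‖) ≤
      C2 / (M * N) * ((8 + C2) * N) :=
    mul_le_mul hab hsumle hnn (by positivity)
  refine hprod.trans ?_
  have e3 : C2 / (M * N) * ((8 + C2) * N) = C2 * (8 + C2) / M := by
    field_simp
  rw [e3]
  apply div_le_div_of_nonneg_right _ hM0.le
  linarith

end Pool.Agent.Work.MP_56b8f5_nt.UV
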