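import Pool.Agent.Work.MP_56b8f5_nt.UV.Stmts

/-!
MP_56b8f5_nt, block UV, item Qd: insertion of the smooth weights.
Statement: helper2.  Proof: helper64.
-/

open MeasureTheory Set Filter Topology

noncomputable section

namespace Pool.Agent.Work.MP_56b8f5_nt.UV

open Pool.Agent.Work.MP_56b8f5_nt.UB

namespace Qd_aux

theorem ee_add (x y : ℝ) : ee (x + y) = ee x * ee y := by
  unfold ee
  rw [← Complex.exp_add]
  congr 1
  push_cast
  ring

theorem ee_neg (x : ℝ) : ee (-x) = (starRingEnd ℂ) (ee x) := by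
  unfold ee
  rw [← Complex.exp_conj]
  congr 1
  rw [map_mul, Complex.conj_ofReal, Complex.conj_I]
  push_cast
  ring

theorem cont_ee : Continuous ee := by
  unfold ee
  fun_prop

theorem norm_ee (x : ℝ) : ‖ee x‖ = 1 := by
  unfold ee
  exact Complex.norm_exp_ofReal_mul_I _

/-- finite sums of exponentials -/
def ES {ι : Type} (Q : Finset ι) (b : ι → ℂ) (ξ : ι → ℝ) (u : ℝ) : ℂ :=
  ∑ q ∈ Q, b q * ee (u * ξ q)

/-- the integral of the exponential over `[0, S]` -/
def AA (S ν : ℝ) : ℂ := ∫ p in (0 : ℝ)..S, ee (p * ν)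

theorem AA_conj {S : ℝ} (hS : 0 ≤ S) (ν : ℝ) :
    ∫ q in (0 : ℝ)..S, (starRingEnd ℂ) (ee (q * ν)) = (starRingEnd ℂ) (AA S ν) := by
  unfold AA
  rw [intervalIntegral.integral_of_le hS, intervalIntegral.integral_of_le hS, integral_conj]

theorem AA_sq {N : ℝ} (hN : 0 < N) (ν : ℝ) :
    (1 / N) * ‖AA (Real.sqrt N) ν‖ ^ 2 = ps (ν * Real.sqrt N) := by
  have hS : 0 < Real.sqrt N := Real.sqrt_pos.2 hN
  have h1 := intervalIntegral.integral_comp_mul_left (a := (0 : ℝ)) (b := 1)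
    (fun x => ee (x * ν)) hS.ne'
  rw [mul_zero, mul_one] at h1
  have h2 : ∫ h in (0 : ℝ)..1, ee (ν * Real.sqrt N * h) =
      (Real.sqrt N)⁻¹ • AA (Real.sqrt N) ν := by
    unfold AA
    rw [← h1]
    congr 1
    ext h
    congr 1
    ring
  unfold ps
  rw [h2, norm_smul, mul_pow, Real.norm_eq_abs, abs_of_pos (inv_pos.2 hS), inv_pow,
    Real.sq_sqrt hN.le]
  ring

theorem Av_ES {ι : Type} (Q : Finset ι) (b : ι → ℂ) (ξ : ι → ℝ) {N : ℝ} (hN : 0 < N) (z : ℝ) :
    Av N (ES Q b ξ) z =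
      ES Q (fun q => b q * ((1 - ps (ξ q * Real.sqrt N) : ℝ) : ℂ)) ξ z := by
  have hS : 0 ≤ Real.sqrt N := Real.sqrt_nonneg N
  set S := Real.sqrt N with hSdef
  have h1 : ∀ p : ℝ, ∫ q in (0 : ℝ)..S, ES Q b ξ (z + p - q) =
      ES Q (fun i => b i * (starRingEnd ℂ) (AA S (ξ i))) ξ (z + p) := by
    intro p
    unfold ES
    rw [intervalIntegral.integral_finsetSum]
    · refine Finset.sum_congr rfl fun i _ => ?_
      have h : ∀ q : ℝ, b i * ee ((z + p - q) * ξ i) =
          (b i * ee ((z + p) * ξ i)) * (starRingEnd ℂ) (ee (q * ξ i)) := by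
        intro q
        rw [← ee_neg, mul_assoc, ← ee_add]
        congr 2
        ring
      simp only [h]
      rw [intervalIntegral.integral_const_mul, AA_conj hS]
      ring
    · intro i _
      apply Continuous.intervalIntegrable
      exact continuous_const.mul (cont_ee.comp ((continuous_const.sub continuous_id).mul
        continuous_const))
  have h2 : ∫ p in (0 : ℝ)..S, ES Q (fun i => b i * (starRingEnd ℂ) (AA S (ξ i))) ξ (z + p) =
      ES Q (fun i => b i * (starRingEnd ℂ) (AA S (ξ i)) * AA S (ξ i)) ξ z := by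
    unfold ES
    rw [intervalIntegral.integral_finsetSum]
    · refine Finset.sum_congr rfl fun i _ => ?_
      have h : ∀ p : ℝ, b i * (starRingEnd ℂ) (AA S (ξ i)) * ee ((z + p) * ξ i) =
          (b i * (starRingEnd ℂ) (AA S (ξ i)) * ee (z * ξ i)) * ee (p * ξ i) := by
        intro p
        rw [mul_assoc _ (ee (z * ξ i)), ← ee_add]
        congr 2
        ring
      simp only [h]
      rw [intervalIntegral.integral_const_mul]
      unfold AA
      ring
    · intro i _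
      apply Continuous.intervalIntegrable
      exact continuous_const.mul (cont_ee.comp ((continuous_const.add continuous_id).mul
        continuous_const))
  unfold Av
  rw [← hSdef]
  simp only [h1]
  rw [h2]
  unfold ES
  rw [Finset.mul_sum, ← Finset.sum_sub_distrib]
  refine Finset.sum_congr rfl fun i _ => ?_
  have h4 := AA_sq hN (ξ i)
  rw [← hSdef] at h4
  simp only
  rw [← h4]
  have h3 : (starRingEnd ℂ) (AA S (ξ i)) * AA S (ξ i) = ((‖AA S (ξ i)‖ ^ 2 : ℝ) : ℂ) := by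
    rw [mul_comm, Complex.mul_conj, Complex.normSq_eq_norm_sq]
  rw [mul_assoc (b i) _ (AA S (ξ i)), h3]
  push_cast
  ring

theorem int_F {F : ℝ → ℝ} {L B : ℝ} (hFm : Measurable F) (hB : ∀ x, |F x| ≤ B)
    (hL : ∀ x, L < |x| → F x = 0) : Integrable F := by
  have h1 : IntegrableOn F (Icc (-L) L) := by
    refine Measure.integrableOn_of_bounded (M := B) ?_ hFm.aestronglyMeasurable
      (Eventually.of_forall fun x => by rw [Real.norm_eq_abs]; exact hB x)
    rw [Real.volume_Icc]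
    exact ENNReal.ofReal_ne_top
  rw [integrableOn_iff_integrable_of_support_subset] at h1
  · exact h1
  · intro x hx
    rw [Function.mem_support] at hx
    by_contra h
    apply hx
    apply hL
    rw [mem_Icc, ← abs_le, not_le] at h
    exact h

theorem int_Fe {F : ℝ → ℝ} (hF : Integrable F) (ν : ℝ) :
    Integrable fun x => (F x : ℂ) * ee (x * ν) := by
  refine hF.ofReal.mul_bdd (c := 1) ?_ (Eventually.of_forall fun x => ?_)
  · exact (cont_ee.comp (continuous_id.mul continuous_const)).aestronglyMeasurable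
  · exact (norm_ee _).le

theorem dbl {ι : Type} {F : ℝ → ℝ} (hF : Integrable F) (Q : Finset ι) (b : ι → ℂ)
    (ξ : ι → ℝ) :
    ∫ x, ∫ y, ((F x * F y : ℝ) : ℂ) * ES Q b ξ (x - y) =
      ∑ q ∈ Q, b q * ((‖FT (fun x => (F x : ℂ)) (ξ q)‖ ^ 2 : ℝ) : ℂ) := by
  have hFT : ∀ ν : ℝ, FT (fun x => (F x : ℂ)) ν = ∫ x, (F x : ℂ) * ee (x * ν) := by
    intro ν
    unfold FT
    congr 1
    ext x
    rw [mul_comm ν x]
  have hFTc : ∀ ν : ℝ, ∫ y, (F y : ℂ) * ee (-(y * ν)) =
      (starRingEnd ℂ) (FT (fun x => (F x : ℂ)) ν) := by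
    intro ν
    rw [hFT, ← integral_conj]
    congr 1
    ext y
    rw [map_mul, Complex.conj_ofReal, ee_neg]
  have hin : ∀ x : ℝ, ∫ y, ((F x * F y : ℝ) : ℂ) * ES Q b ξ (x - y) =
      ∑ q ∈ Q, (b q * (starRingEnd ℂ) (FT (fun x => (F x : ℂ)) (ξ q))) *
        ((F x : ℂ) * ee (x * ξ q)) := by
    intro x
    have h1 : ∀ y : ℝ, ((F x * F y : ℝ) : ℂ) * ES Q b ξ (x - y) =
        ∑ q ∈ Q, (b q * ((F x : ℂ) * ee (x * ξ q))) * ((F y : ℂ) * ee (-(y * ξ q))) := by
      intro y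
      unfold ES
      rw [Finset.mul_sum]
      refine Finset.sum_congr rfl fun q _ => ?_
      have h2 : ee ((x - y) * ξ q) = ee (x * ξ q) * ee (-(y * ξ q)) := by
        rw [← ee_add]
        congr 1
        ring
      rw [h2]
      push_cast
      ring
    simp only [h1]
    rw [integral_finsetSum]
    · refine Finset.sum_congr rfl fun q _ => ?_
      rw [integral_const_mul, hFTc]
      ring
    · intro q _
      apply Integrable.const_mul
      have h3 := int_Fe hF (-ξ q)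
      refine h3.congr (Eventually.of_forall fun y => ?_)
      simp only [mul_neg]
  simp only [hin]
  rw [integral_finsetSum]
  · refine Finset.sum_congr rfl fun q _ => ?_
    rw [integral_const_mul, ← hFT, mul_assoc]
    congr 1
    rw [mul_comm, Complex.mul_conj, Complex.normSq_eq_norm_sq]
  · intro q _
    exact (int_Fe hF (ξ q)).const_mul _

theorem om_nonneg (u : ℝ) : 0 ≤ om u := omB.nonneg

theorem om_zero {u : ℝ} (h : 5 / 2 ≤ u) : om u = 0 := by
  refine omB.zero_of_le_dist ?_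
  have h1 : omB.rOut = 1 := rfl
  rw [h1, Real.dist_eq, abs_of_nonneg (by linarith)]
  linarith

theorem om_one {u : ℝ} (h1 : 1 ≤ u) (h2 : u ≤ 2) : om u = 1 := by
  refine omB.one_of_mem_closedBall ?_
  have h3 : omB.rIn = 1 / 2 := rfl
  rw [h3, Metric.mem_closedBall, Real.dist_eq, abs_le]
  constructor <;> linarith

theorem KS_eq {X N : ℝ} (hN : 1 ≤ N) (x : ℝ) :
    KS X N x = ∑ n ∈ Finset.range ⌈3 * N⌉₊, (om ((n : ℝ) / N) : ℂ) * ee (x * vv X n) := by
  unfold KS
  refine tsum_eq_sum fun n hn => ?_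
  rw [Finset.mem_range, not_lt] at hn
  have h1 : 3 * N ≤ n := (Nat.le_ceil _).trans (by exact_mod_cast hn)
  have h2 : 5 / 2 ≤ (n : ℝ) / N := by
    rw [le_div_iff₀ (by linarith)]
    linarith
  rw [om_zero h2, Complex.ofReal_zero, zero_mul]

theorem KS_sq {X N : ℝ} (hN : 1 ≤ N) :
    (fun z => ((‖KS X N z‖ ^ 2 : ℝ) : ℂ)) =
      ES (Finset.range ⌈3 * N⌉₊ ×ˢ Finset.range ⌈3 * N⌉₊)
        (fun q => ((om ((q.1 : ℝ) / N) * om ((q.2 : ℝ) / N) : ℝ) : ℂ))
        (fun q => vv X q.1 - vv X q.2) := by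
  ext z
  have h1 : ((‖KS X N z‖ ^ 2 : ℝ) : ℂ) = KS X N z * (starRingEnd ℂ) (KS X N z) := by
    rw [Complex.mul_conj, Complex.normSq_eq_norm_sq]
  rw [h1, KS_eq hN, map_sum, Finset.sum_mul_sum]
  unfold ES
  rw [Finset.sum_product]
  refine Finset.sum_congr rfl fun n _ => Finset.sum_congr rfl fun n' _ => ?_
  simp only
  rw [map_mul, ← ee_neg, Complex.conj_ofReal]
  have h2 : ee (z * (vv X n - vv X n')) = ee (z * vv X n) * ee (-(z * vv X n')) := by
    rw [← ee_add]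
    congr 1
    ring
  rw [h2]
  push_cast
  ring

/-- separation of the frequencies -/
theorem sep_aux (hKa : UB.StKa) {X N a b : ℝ} (hN : 1 ≤ N) (hX : 0 < X) (hNX : 10 * N ≤ X ^ 2)
    (ha : N < a) (hab : a + 1 ≤ b) (hb : b ≤ 2 * N) :
    6 / 10 ≤ (vv X b - vv X a) * Real.sqrt N := by
  obtain ⟨-, -, -, -, hd, -, -⟩ := hKa X hX
  have hab' : a < b := by linarith
  obtain ⟨c, hc, hc2⟩ := exists_hasDerivAt_eq_slope (vv X)
    (fun y => 1 / (Real.sqrt y * Real.sqrt (1 + y / (4 * X ^ 2)))) hab'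
    (fun y hy => (hd y (by linarith [hy.1])).continuousAt.continuousWithinAt)
    (fun y hy => hd y (by linarith [hy.1]))
  have hc0 : 0 < c := by linarith [hc.1]
  have hcN : c ≤ 2 * N := by linarith [hc.2]
  have h1 : Real.sqrt c ≤ Real.sqrt 2 * Real.sqrt N := by
    rw [← Real.sqrt_mul (by norm_num)]
    exact Real.sqrt_le_sqrt hcN
  have h2 : Real.sqrt (1 + c / (4 * X ^ 2)) ≤ 21 / 20 := by
    rw [Real.sqrt_le_left (by norm_num)]
    have h3 : c / (4 * X ^ 2) ≤ 1 / 20 := by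
      rw [div_le_iff₀ (by positivity)]
      nlinarith
    linarith
  have h4 : Real.sqrt 2 ≤ 3 / 2 := by
    rw [Real.sqrt_le_left (by norm_num)]
    norm_num
  have h4' : Real.sqrt 2 ≤ 142 / 100 := by
    rw [Real.sqrt_le_left (by norm_num)]
    norm_num
  have hSN : 0 < Real.sqrt N := Real.sqrt_pos.2 (by linarith)
  have h5 : Real.sqrt c * Real.sqrt (1 + c / (4 * X ^ 2)) ≤
      (142 / 100 * Real.sqrt N) * (21 / 20) := by
    apply mul_le_mul (h1.trans (by gcongr)) h2 (Real.sqrt_nonneg _) (by positivity)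
  have h6 : 0 < Real.sqrt c * Real.sqrt (1 + c / (4 * X ^ 2)) := by
    have : 0 < Real.sqrt c := Real.sqrt_pos.2 hc0
    positivity
  have h7 : 1 / ((142 / 100 * Real.sqrt N) * (21 / 20)) ≤
      1 / (Real.sqrt c * Real.sqrt (1 + c / (4 * X ^ 2))) :=
    one_div_le_one_div_of_le h6 h5
  have h8 : 1 / ((142 / 100 * Real.sqrt N) * (21 / 20)) ≤ vv X b - vv X a := by
    have h9 : (vv X b - vv X a) = (b - a) *
        (1 / (Real.sqrt c * Real.sqrt (1 + c / (4 * X ^ 2)))) := by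
      rw [hc2]
      have hba : b - a ≠ 0 := (sub_pos.2 hab').ne'
      field_simp
    rw [h9]
    have h10 : 0 ≤ 1 / (Real.sqrt c * Real.sqrt (1 + c / (4 * X ^ 2))) := by positivity
    nlinarith
  calc (6 / 10 : ℝ) ≤ 1 / ((142 / 100 * Real.sqrt N) * (21 / 20)) * Real.sqrt N := by
        rw [div_mul_eq_mul_div, le_div_iff₀ (by positivity)]
        nlinarith
    _ ≤ _ := mul_le_mul_of_nonneg_right h8 hSN.le

theorem sep (hKa : UB.StKa) {X N : ℝ} (hN : 1 ≤ N) (hX : 0 < X) (hNX : 10 * N ≤ X ^ 2) {n n' : ℕ}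
    (hn : n ∈ Finset.Ioc ⌊N⌋₊ ⌊2 * N⌋₊) (hn' : n' ∈ Finset.Ioc ⌊N⌋₊ ⌊2 * N⌋₊) (hne : n ≠ n') :
    6 / 10 ≤ |(vv X n - vv X n') * Real.sqrt N| := by
  rw [Finset.mem_Ioc] at hn hn'
  have h1 : N < n := (Nat.lt_floor_add_one N).trans_le (by exact_mod_cast hn.1)
  have h1' : N < n' := (Nat.lt_floor_add_one N).trans_le (by exact_mod_cast hn'.1)
  have h2 : (n : ℝ) ≤ 2 * N := (Nat.le_floor_iff (by linarith)).1 hn.2
  have h2' : (n' : ℝ) ≤ 2 * N := (Nat.le_floor_iff (by linarith)).1 hn'.2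
  rcases lt_or_gt_of_ne hne with h | h
  · have h3 : (n : ℝ) + 1 ≤ n' := by exact_mod_cast h
    have h4 := sep_aux hKa hN hX hNX h1 h3 h2'
    rw [← abs_neg]
    refine h4.trans (le_trans (le_of_eq ?_) (le_abs_self _))
    ring
  · have h3 : (n' : ℝ) + 1 ≤ n := by exact_mod_cast h
    exact (sep_aux hKa hN hX hNX h1' h3 h2).trans (le_abs_self _)

end Qd_aux

open Qd_aux in
theorem iQd (hKa : UB.StKa) (hPs : StPs) : StQd := by
  refine ⟨10, by norm_num, ?_⟩
  intro X N L B F hN hX hNX hFm hB hL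
  have hF := int_F hFm hB hL
  have hN0 : 0 < N := by linarith
  set J := Finset.range ⌈3 * N⌉₊ with hJ
  set φ : ℝ → ℝ := fun ν => ‖FT (fun x => (F x : ℂ)) ν‖ ^ 2 with hφ
  have hφ0 : ∀ ν, 0 ≤ φ ν := fun ν => by positivity
  -- the double integral
  have h1 : ∫ x, ∫ y, ((F x * F y : ℝ) : ℂ) *
      Av N (fun z => ((‖KS X N z‖ ^ 2 : ℝ) : ℂ)) (x - y) =
      ((∑ q ∈ J ×ˢ J, om ((q.1 : ℝ) / N) * om ((q.2 : ℝ) / N) *
        (1 - ps ((vv X q.1 - vv X q.2) * Real.sqrt N)) * φ (vv X q.1 - vv X q.2) : ℝ) : ℂ) := by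
    rw [KS_sq hN]
    simp only [Av_ES _ _ _ hN0]
    rw [dbl hF]
    push_cast
    refine Finset.sum_congr rfl fun q _ => ?_
    rw [hφ]
    push_cast
    ring
  have hterm : ∀ q ∈ J ×ˢ J, 0 ≤ om ((q.1 : ℝ) / N) * om ((q.2 : ℝ) / N) *
        (1 - ps ((vv X q.1 - vv X q.2) * Real.sqrt N)) * φ (vv X q.1 - vv X q.2) := by
    intro q _
    have h2 := (hPs ((vv X q.1 - vv X q.2) * Real.sqrt N)).2.1
    have h3 : 0 ≤ 1 - ps ((vv X q.1 - vv X q.2) * Real.sqrt N) := by linarith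
    exact mul_nonneg (mul_nonneg (mul_nonneg (om_nonneg _) (om_nonneg _)) h3) (hφ0 _)
  rw [h1, Complex.norm_real, Real.norm_of_nonneg (Finset.sum_nonneg hterm)]
  -- comparison
  set I := Finset.Ioc ⌊N⌋₊ ⌊2 * N⌋₊ with hI
  have hIJ : I ⊆ J := by
    intro n hn
    rw [hI, Finset.mem_Ioc] at hn
    rw [hJ, Finset.mem_range]
    have h2 : (n : ℝ) ≤ 2 * N := (Nat.le_floor_iff (by linarith)).1 hn.2
    rw [Nat.lt_ceil]
    linarith
  have hom : ∀ n ∈ I, om ((n : ℝ) / N) = 1 := by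
    intro n hn
    rw [hI, Finset.mem_Ioc] at hn
    have h2 : (n : ℝ) ≤ 2 * N := (Nat.le_floor_iff (by linarith)).1 hn.2
    have h3 : N < n := (Nat.lt_floor_add_one N).trans_le (by exact_mod_cast hn.1)
    apply om_one
    · rw [le_div_iff₀ hN0]
      linarith
    · rw [div_le_iff₀ hN0]
      linarith
  calc ∑ n ∈ I, ∑ n' ∈ I, (if n = n' then 0 else
        ‖FT (fun x => (F x : ℂ)) (vv X n - vv X n')‖ ^ 2)
      = ∑ q ∈ I ×ˢ I, (if q.1 = q.2 then 0 else φ (vv X q.1 - vv X q.2)) := by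
        rw [Finset.sum_product]
    _ ≤ ∑ q ∈ I ×ˢ I, 2 * (om ((q.1 : ℝ) / N) * om ((q.2 : ℝ) / N) *
        (1 - ps ((vv X q.1 - vv X q.2) * Real.sqrt N)) * φ (vv X q.1 - vv X q.2)) := by
        refine Finset.sum_le_sum fun q hq => ?_
        have hqJ : q ∈ J ×ˢ J := Finset.product_subset_product hIJ hIJ hq
        rw [Finset.mem_product] at hq
        split_ifs with he
        · have := hterm q hqJ
          linarith
        · have h4 := (hPs ((vv X q.1 - vv X q.2) * Real.sqrt N)).2.2.2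
            (sep hKa hN hX hNX hq.1 hq.2 he)
          rw [hom _ hq.1, hom _ hq.2, one_mul, one_mul]
          have h5 := hφ0 (vv X q.1 - vv X q.2)
          nlinarith
    _ = 2 * ∑ q ∈ I ×ˢ I, (om ((q.1 : ℝ) / N) * om ((q.2 : ℝ) / N) *
        (1 - ps ((vv X q.1 - vv X q.2) * Real.sqrt N)) * φ (vv X q.1 - vv X q.2)) := by
        rw [Finset.mul_sum]
    _ ≤ _ := by
        apply mul_le_mul_of_nonneg_left _ (by norm_num)
        exact Finset.sum_le_sum_of_subset_of_nonneg (Finset.product_subset_product hIJ hIJ)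
          fun q hq _ => hterm q hq

end Pool.Agent.Work.MP_56b8f5_nt.UV
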