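import Pool.Agent.Work.MP_56b8f5_nt.UV.Stmts

/-!
MP_56b8f5_nt, block UV, item Qe (a finite sum).
-/

set_option autoImplicit false

open Finset

noncomputable section

namespace Pool.Agent.Work.MP_56b8f5_nt.UV

namespace Qe_aux

/-- sums of nonnegative even functions over a symmetric interval -/
theorem sum_sym (g : ℕ → ℝ) (hg : ∀ i, 0 ≤ g i) (n : ℕ) :
    ∑ j ∈ Finset.Icc (-(n : ℤ)) n, g j.natAbs ≤ 2 * ∑ i ∈ Finset.range (n + 1), g i := by
  classical
  have hsub : Finset.Icc (-(n : ℤ)) n ⊆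
      (Finset.range (n + 1)).image (fun i : ℕ => (i : ℤ)) ∪
        (Finset.range (n + 1)).image (fun i : ℕ => -(i : ℤ)) := by
    intro j hj
    rw [Finset.mem_Icc] at hj
    rw [Finset.mem_union, Finset.mem_image, Finset.mem_image]
    rcases le_total 0 j with h | h
    · left
      exact ⟨j.natAbs, by rw [Finset.mem_range]; omega, by omega⟩
    · right
      exact ⟨j.natAbs, by rw [Finset.mem_range]; omega, by omega⟩
  calc ∑ j ∈ Finset.Icc (-(n : ℤ)) n, g j.natAbs
      ≤ ∑ j ∈ (Finset.range (n + 1)).image (fun i : ℕ => (i : ℤ)) ∪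
        (Finset.range (n + 1)).image (fun i : ℕ => -(i : ℤ)), g j.natAbs :=
        Finset.sum_le_sum_of_subset_of_nonneg hsub (fun i _ _ => hg _)
    _ ≤ ∑ j ∈ (Finset.range (n + 1)).image (fun i : ℕ => (i : ℤ)), g j.natAbs +
        ∑ j ∈ (Finset.range (n + 1)).image (fun i : ℕ => -(i : ℤ)), g j.natAbs := by
        rw [← Finset.sum_union_inter]
        have : 0 ≤ ∑ j ∈ (Finset.range (n + 1)).image (fun i : ℕ => (i : ℤ)) ∩
          (Finset.range (n + 1)).image (fun i : ℕ => -(i : ℤ)), g j.natAbs :=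
          Finset.sum_nonneg (fun i _ => hg _)
        linarith
    _ = 2 * ∑ i ∈ Finset.range (n + 1), g i := by
        rw [Finset.sum_image, Finset.sum_image]
        · have h1 : ∀ i : ℕ, ((i : ℤ)).natAbs = i := fun i => Int.natAbs_natCast i
          have h2 : ∀ i : ℕ, (-(i : ℤ)).natAbs = i := fun i => by
            rw [Int.natAbs_neg, Int.natAbs_natCast]
          simp only [h1, h2]
          ring
        · intro a _ b _ h
          simpa using h
        · intro a _ b _ h
          simpa using h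

theorem sum_inv (n : ℕ) :
    ∑ i ∈ Finset.range (n + 1), 1 / (1 + (i : ℝ)) ≤ 1 + Real.log ((n : ℝ) + 1) := by
  have h := harmonic_le_one_add_log (n + 1)
  have h2 : ((harmonic (n + 1) : ℚ) : ℝ) = ∑ i ∈ Finset.range (n + 1), 1 / (1 + (i : ℝ)) := by
    unfold harmonic
    push_cast
    refine Finset.sum_congr rfl (fun i _ => ?_)
    rw [one_div, add_comm]
  rw [h2] at h
  push_cast at h
  exact h

theorem sum_sqrt (n : ℕ) :
    ∑ i ∈ Finset.range (n + 1), (if i = 0 then (0 : ℝ) else 1 / Real.sqrt (i : ℝ)) ≤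
      2 * Real.sqrt (n : ℝ) := by
  induction n with
  | zero => simp
  | succ n ih =>
    rw [Finset.sum_range_succ]
    have h1 : (0 : ℝ) ≤ (n : ℝ) := Nat.cast_nonneg n
    have hs : 0 < Real.sqrt ((n : ℝ) + 1) := Real.sqrt_pos.mpr (by linarith)
    have hs0 : 0 ≤ Real.sqrt (n : ℝ) := Real.sqrt_nonneg _
    have e1 : Real.sqrt ((n : ℝ) + 1) ^ 2 = (n : ℝ) + 1 := Real.sq_sqrt (by linarith)
    have e0 : Real.sqrt (n : ℝ) ^ 2 = (n : ℝ) := Real.sq_sqrt h1
    have hle : Real.sqrt (n : ℝ) ≤ Real.sqrt ((n : ℝ) + 1) := Real.sqrt_le_sqrt (by linarith)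
    have key : 1 / Real.sqrt ((n : ℝ) + 1) ≤ 2 * Real.sqrt ((n : ℝ) + 1) - 2 * Real.sqrt (n : ℝ) := by
      rw [div_le_iff₀ hs]
      nlinarith
    have h3 : (if n + 1 = 0 then (0 : ℝ) else 1 / Real.sqrt (((n + 1 : ℕ) : ℝ))) =
        1 / Real.sqrt ((n : ℝ) + 1) := by
      rw [if_neg (Nat.succ_ne_zero n)]
      push_cast
      rfl
    rw [h3]
    push_cast
    linarith

end Qe_aux

open Qe_aux in
theorem iQe : StQe := by
  classical
  refine ⟨13000, by norm_num, ?_⟩
  intro M N hM hN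
  have hM0 : (0 : ℝ) < M := by linarith
  have hK0 : (0 : ℤ) ≤ ⌊100 * M⌋ := Int.floor_nonneg.mpr (by linarith)
  obtain ⟨n, hn⟩ := Int.eq_ofNat_of_zero_le hK0
  have hnM : (n : ℝ) ≤ 100 * M := by
    have := Int.floor_le (100 * M)
    rw [hn] at this
    simpa using this
  rw [hn]
  have hsN : 0 ≤ Real.sqrt N := Real.sqrt_nonneg _
  have hA : 0 ≤ N * Real.sqrt N := mul_nonneg (by linarith) hsN
  set A : ℝ := N * Real.sqrt N with hAdef
  let g1 : ℕ → ℝ := fun i => 1 / (1 + (i : ℝ))
  let g2 : ℕ → ℝ := fun i => if i = 0 then (0 : ℝ) else 1 / Real.sqrt (i : ℝ)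
  have hg1 : ∀ i, 0 ≤ g1 i := fun i => by
    have : (0 : ℝ) ≤ (i : ℝ) := Nat.cast_nonneg i
    exact div_nonneg zero_le_one (by linarith)
  have hg2 : ∀ i, 0 ≤ g2 i := fun i => by
    show (0 : ℝ) ≤ if i = 0 then (0 : ℝ) else 1 / Real.sqrt (i : ℝ)
    split_ifs
    · exact le_refl _
    · exact div_nonneg zero_le_one (Real.sqrt_nonneg _)
  have hin : ∀ m ∈ Finset.Icc (-(n : ℤ)) n,
      ∑ m' ∈ Finset.Icc (-(n : ℤ)) n,
        (if m = m' then A / (1 + |(m : ℝ)|) else N / Real.sqrt |(m : ℝ) - (m' : ℝ)|) ≤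
      A * g1 m.natAbs + N * (8 * Real.sqrt (50 * M)) := by
    intro m hm
    have hm' := Finset.mem_Icc.mp hm
    have e1 : ∀ m' : ℤ, (if m = m' then A / (1 + |(m : ℝ)|) else N / Real.sqrt |(m : ℝ) - (m' : ℝ)|) =
        (if m = m' then A * g1 m.natAbs else 0) + N * g2 (m' - m).natAbs := by
      intro m'
      by_cases h : m = m'
      · subst h
        simp only [if_true, sub_self, Int.natAbs_zero]
        show A / (1 + |(m : ℝ)|) = A * (1 / (1 + ((m.natAbs : ℕ) : ℝ))) + N * (if (0 : ℕ) = 0 then (0 : ℝ) else _)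
        rw [if_pos rfl, Nat.cast_natAbs]
        push_cast
        ring
      · rw [if_neg h, if_neg h, zero_add]
        show N / Real.sqrt |(m : ℝ) - (m' : ℝ)| =
          N * (if (m' - m).natAbs = 0 then (0 : ℝ) else 1 / Real.sqrt (((m' - m).natAbs : ℕ) : ℝ))
        rw [if_neg (by omega), Nat.cast_natAbs]
        push_cast
        rw [abs_sub_comm, mul_one_div]
    rw [Finset.sum_congr rfl (fun m' _ => e1 m'), Finset.sum_add_distrib, Finset.sum_ite_eq,
      if_pos hm, ← Finset.mul_sum]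
    have h2 : ∑ m' ∈ Finset.Icc (-(n : ℤ)) n, g2 (m' - m).natAbs ≤ 8 * Real.sqrt (50 * M) := by
      have hinj : Set.InjOn (fun x : ℤ => x - m) ((Finset.Icc (-(n : ℤ)) n : Finset ℤ) : Set ℤ) := by
        intro a _ b _ h
        simpa using h
      have h3 : ∑ m' ∈ Finset.Icc (-(n : ℤ)) n, g2 (m' - m).natAbs =
          ∑ j ∈ (Finset.Icc (-(n : ℤ)) n).image (fun x : ℤ => x - m), g2 j.natAbs := by
        rw [Finset.sum_image hinj]
      have hsub : (Finset.Icc (-(n : ℤ)) n).image (fun x : ℤ => x - m) ⊆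
          Finset.Icc (-((2 * n : ℕ) : ℤ)) ((2 * n : ℕ) : ℤ) := by
        intro j hj
        rw [Finset.mem_image] at hj
        obtain ⟨x, hx, rfl⟩ := hj
        rw [Finset.mem_Icc] at hx ⊢
        push_cast
        constructor <;> linarith [hx.1, hx.2, hm'.1, hm'.2]
      rw [h3]
      calc ∑ j ∈ (Finset.Icc (-(n : ℤ)) n).image (fun x : ℤ => x - m), g2 j.natAbs
          ≤ ∑ j ∈ Finset.Icc (-((2 * n : ℕ) : ℤ)) ((2 * n : ℕ) : ℤ), g2 j.natAbs :=
            Finset.sum_le_sum_of_subset_of_nonneg hsub (fun i _ _ => hg2 _)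
        _ ≤ 2 * ∑ i ∈ Finset.range (2 * n + 1), g2 i := sum_sym g2 hg2 (2 * n)
        _ ≤ 2 * (2 * Real.sqrt ((2 * n : ℕ) : ℝ)) := by
            have := sum_sqrt (2 * n)
            exact mul_le_mul_of_nonneg_left this (by norm_num)
        _ ≤ 2 * (2 * Real.sqrt (2 ^ 2 * (50 * M))) := by
            have : Real.sqrt ((2 * n : ℕ) : ℝ) ≤ Real.sqrt (2 ^ 2 * (50 * M)) := by
              apply Real.sqrt_le_sqrt
              push_cast
              linarith
            linarith
        _ = 8 * Real.sqrt (50 * M) := by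
            rw [Real.sqrt_mul (by norm_num), Real.sqrt_sq (by norm_num)]
            ring
    have := mul_le_mul_of_nonneg_left h2 (by linarith : (0 : ℝ) ≤ N)
    linarith
  have hlogM : 0 ≤ Real.log M := Real.log_nonneg hM
  calc ∑ m ∈ Finset.Icc (-(n : ℤ)) n, ∑ m' ∈ Finset.Icc (-(n : ℤ)) n,
        (if m = m' then A / (1 + |(m : ℝ)|) else N / Real.sqrt |(m : ℝ) - (m' : ℝ)|)
      ≤ ∑ m ∈ Finset.Icc (-(n : ℤ)) n, (A * g1 m.natAbs + N * (8 * Real.sqrt (50 * M))) :=
        Finset.sum_le_sum hin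
    _ = A * ∑ m ∈ Finset.Icc (-(n : ℤ)) n, g1 m.natAbs +
        (2 * (n : ℝ) + 1) * (N * (8 * Real.sqrt (50 * M))) := by
        rw [Finset.sum_add_distrib, ← Finset.mul_sum, Finset.sum_const, Int.card_Icc, nsmul_eq_mul]
        congr 2
        have : ((n : ℤ) + 1 - -(n : ℤ)).toNat = 2 * n + 1 := by omega
        rw [this]
        push_cast
        ring
    _ ≤ A * (2 * (1 + Real.log (101 * M))) + (201 * M) * (N * (8 * (8 * Real.sqrt M))) := by
        have hh1 : ∑ m ∈ Finset.Icc (-(n : ℤ)) n, g1 m.natAbs ≤ 2 * (1 + Real.log (101 * M)) := by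
          have a1 := sum_sym g1 hg1 n
          have a2 := sum_inv n
          have a3 : Real.log ((n : ℝ) + 1) ≤ Real.log (101 * M) := by
            apply Real.log_le_log
            · have : (0 : ℝ) ≤ (n : ℝ) := Nat.cast_nonneg n
              linarith
            · linarith
          have a4 : ∑ i ∈ Finset.range (n + 1), g1 i ≤ 1 + Real.log ((n : ℝ) + 1) := a2
          linarith
        have hh2 : Real.sqrt (50 * M) ≤ 8 * Real.sqrt M := by
          rw [Real.sqrt_mul (by norm_num)]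
          have : Real.sqrt 50 ≤ 8 := by
            rw [show (8 : ℝ) = Real.sqrt (8 ^ 2) from (Real.sqrt_sq (by norm_num)).symm]
            exact Real.sqrt_le_sqrt (by norm_num)
          exact mul_le_mul_of_nonneg_right this (Real.sqrt_nonneg _)
        have hh3 : (2 * (n : ℝ) + 1) ≤ 201 * M := by linarith
        have hN0 : (0 : ℝ) ≤ N := by linarith
        have hh4 : N * (8 * Real.sqrt (50 * M)) ≤ N * (8 * (8 * Real.sqrt M)) :=
          mul_le_mul_of_nonneg_left (by linarith) hN0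
        have hh5 : 0 ≤ N * (8 * Real.sqrt (50 * M)) :=
          mul_nonneg hN0 (mul_nonneg (by norm_num) (Real.sqrt_nonneg _))
        have hh6 := mul_le_mul hh3 hh4 hh5 (by linarith)
        have hh7 := mul_le_mul_of_nonneg_left hh1 hA
        linarith
    _ ≤ 13000 * (A * (1 + Real.log M) + N * (M * Real.sqrt M)) := by
        have l1 : Real.log (101 * M) ≤ 101 + Real.log M := by
          rw [Real.log_mul (by norm_num) (by linarith)]
          have := Real.log_le_sub_one_of_pos (show (0 : ℝ) < 101 by norm_num)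
          linarith
        have l2 : A * (2 * (1 + Real.log (101 * M))) ≤ A * (204 * (1 + Real.log M)) :=
          mul_le_mul_of_nonneg_left (by linarith) hA
        have l3 : 0 ≤ A * (1 + Real.log M) := mul_nonneg hA (by linarith)
        have l4 : 0 ≤ N * (M * Real.sqrt M) :=
          mul_nonneg (by linarith) (mul_nonneg hM0.le (Real.sqrt_nonneg _))
        nlinarith

end Pool.Agent.Work.MP_56b8f5_nt.UV
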