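import Mathlib
import Pool.Agent.Work.MP_56b8f5_nt.UV.Stmts

/-!
MP_56b8f5_nt, block UV, item UL: upper bound for the smoothed energy.
-/

open MeasureTheory Set Filter Topology

noncomputable section

namespace Pool.Agent.Work.MP_56b8f5_nt.UV

open Pool.Agent.Work.MP_56b8f5_nt.UB

namespace UL_aux

lemma ee_norm (x : ℝ) : ‖ee x‖ = 1 := by
  unfold ee
  exact Complex.norm_exp_ofReal_mul_I _

lemma ee_zero : ee 0 = 1 := by
  unfold ee
  simp

/-- the trivial bound for the integral over `W` -/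
lemma normW_le (W : Set ℝ) (L : ℝ) (hW : W ⊆ Icc 0 L) (ν : ℝ) :
    ‖∫ x in W, ee (ν * x)‖ ≤ Rr W := by
  have hfin : volume W < ⊤ := lt_of_le_of_lt (measure_mono hW) (by simp)
  have h := norm_setIntegral_le_of_norm_le_const (μ := volume) (s := W) (f := fun x => ee (ν * x))
    (C := 1) hfin (fun x _ => by rw [ee_norm])
  simpa [Rr, Measure.real] using h

lemma normJ_le (Δ : ℝ) (hΔ : 0 < Δ) (ν : ℝ) :
    ‖∫ h in (0 : ℝ)..Δ, ee (ν * h)‖ ≤ Δ := by
  have h := intervalIntegral.norm_integral_le_of_norm_le_const (a := (0 : ℝ)) (b := Δ)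
    (f := fun h => ee (ν * h)) (C := 1) (fun x _ => by rw [ee_norm])
  simpa [abs_of_pos hΔ] using h

lemma card_le (N : ℝ) (hN : 1 ≤ N) : ((Finset.Ioc ⌊N⌋₊ ⌊2 * N⌋₊).card : ℝ) ≤ 2 * N := by
  rw [Nat.card_Ioc]
  have h1 : ((⌊2 * N⌋₊ - ⌊N⌋₊ : ℕ) : ℝ) ≤ (⌊2 * N⌋₊ : ℝ) := by
    exact_mod_cast Nat.sub_le _ _
  have h2 : (⌊2 * N⌋₊ : ℝ) ≤ 2 * N := Nat.floor_le (by linarith)
  linarith

/-- weighted Cauchy-Schwarz for one term -/
lemma amgm (a b t : ℝ) (ht : 0 < t) : a * b ≤ (t * a ^ 2 + b ^ 2 / t) / 2 := by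
  have h : 0 ≤ (t * a - b) ^ 2 / t := by positivity
  have h2 : (t * a - b) ^ 2 / t = t * a ^ 2 - 2 * (a * b) + b ^ 2 / t := by
    field_simp
    ring
  rw [h2] at h
  linarith

/-- the final inequality -/
lemma final (G V D K : ℝ) (hV : 0 < V) (h : V ^ 2 * G ≤ D + (K / V ^ 2 + V ^ 2 * G) / 2) :
    G ≤ 2 * D / V ^ 2 + K / V ^ 4 := by
  have hV2 : (0 : ℝ) < V ^ 2 := by positivity
  have h1 : V ^ 2 * G ≤ 2 * D + K / V ^ 2 := by linarith
  have h2 : G ≤ (2 * D + K / V ^ 2) / V ^ 2 := by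
    rw [le_div_iff₀ hV2]
    linarith
  have h3 : (2 * D + K / V ^ 2) / V ^ 2 = 2 * D / V ^ 2 + K / V ^ 4 := by
    field_simp
  linarith

end UL_aux

open UL_aux in
theorem iUL (hQ : StQ) (hULa : StULa) (hULb : StULb) : StUL := by
  obtain ⟨C, hC1, hQ⟩ := hQ
  have hC2 : C ≤ 4 * C ^ 2 := by nlinarith
  refine ⟨4 * C ^ 2, by nlinarith, ?_⟩
  intro X N M V Δ τ a W hN hX hM hXM hMN hV hΔ hΔ2 hτ ha hW hWs hSV hloc
  have hN0 : 0 < N := by linarith
  have hsN : 0 < Real.sqrt N := Real.sqrt_pos.mpr hN0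
  have hMN0 : 0 < M * N := by positivity
  have hL0 : 0 ≤ M * Real.sqrt N := by positivity
  have hXM' : C * (M * N) ≤ X ^ 2 := by
    refine le_trans ?_ hXM
    exact mul_le_mul_of_nonneg_right hC2 hMN0.le
  have hUa := hULa X N V Δ (M * Real.sqrt N) a W hN hX hV.le hΔ ha hW hWs hSV
  obtain ⟨F1, F2, hm1, hm2, ⟨B, hB⟩, hsup, hF1, hF2, hI1, hI2⟩ :=
    hULb Δ (M * Real.sqrt N) τ W hW hWs hΔ hL0 hτ hloc
  have hsup' : ∀ x, x ∉ Icc 0 (40 * (M * Real.sqrt N)) → F1 x = 0 ∧ F2 x = 0 := by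
    intro x hx
    apply hsup
    intro hx2
    apply hx
    refine ⟨hx2.1, hx2.2.trans ?_⟩
    linarith
  have hS1 := hQ X N M B F1 hN hX hM hXM' hMN hm1 (fun x => (hB x).1) (fun x hx => (hsup' x hx).1)
  have hS2 := hQ X N M B F2 hN hX hM hXM' hMN hm2 (fun x => (hB x).2) (fun x hx => (hsup' x hx).2)
  rw [hI2] at hS2
  have hLq : 0 < Lq N := Real.log_pos (by linarith)
  set G := GG W Δ with hG
  set R := Rr W with hR
  have hR0 : 0 ≤ R := ENNReal.toReal_nonneg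
  set c := C * (N * Real.sqrt N * Lq N) with hc
  have hc0 : 0 < c := by positivity
  set s := Finset.Ioc ⌊N⌋₊ ⌊2 * N⌋₊ with hs
  set t := c / V ^ 2 with ht
  have ht0 : 0 < t := by positivity
  -- the termwise bound
  have hterm : ∀ n ∈ s, ∀ n' ∈ s,
      ‖∫ x in W, ee ((vv X n - vv X n') * x)‖ ^ 3 * ‖∫ h in (0 : ℝ)..Δ, ee ((vv X n - vv X n') * h)‖ ^ 2 ≤
      (if n = n' then R ^ 3 * Δ ^ 2 else 0) +
        (t / 2 * (if n = n' then 0 else ‖FT (fun x => (F1 x : ℂ)) (vv X n - vv X n')‖ ^ 2) +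
        1 / (2 * t) * (if n = n' then 0 else ‖FT (fun x => (F2 x : ℂ)) (vv X n - vv X n')‖ ^ 2)) := by
    intro n _ n' _
    by_cases hnn : n = n'
    · simp only [hnn, if_true]
      have h1 := normW_le W (M * Real.sqrt N) hWs (vv X n' - vv X n')
      have h2 := normJ_le Δ hΔ (vv X n' - vv X n')
      have h3 : ‖∫ x in W, ee ((vv X n' - vv X n') * x)‖ ^ 3 ≤ R ^ 3 :=
        pow_le_pow_left₀ (norm_nonneg _) h1 3
      have h4 : ‖∫ h in (0 : ℝ)..Δ, ee ((vv X n' - vv X n') * h)‖ ^ 2 ≤ Δ ^ 2 :=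
        pow_le_pow_left₀ (norm_nonneg _) h2 2
      have := mul_le_mul h3 h4 (by positivity) (by positivity)
      linarith
    · simp only [hnn, if_false]
      rw [hF1, hF2]
      set w := ‖∫ x in W, ee ((vv X n - vv X n') * x)‖
      set j := ‖∫ h in (0 : ℝ)..Δ, ee ((vv X n - vv X n') * h)‖
      have h1 := amgm (w * j) (w ^ 2 * j) t ht0
      have h2 : w ^ 3 * j ^ 2 = (w * j) * (w ^ 2 * j) := by ring
      rw [h2]
      refine h1.trans (le_of_eq ?_)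
      field_simp
      ring
  have hsum : V ^ 2 * G ≤ (s.card : ℝ) * (R ^ 3 * Δ ^ 2) + (t / 2 * (c * (τ * R * Δ)) + 1 / (2 * t) * (c * G)) := by
    refine hUa.trans ?_
    refine (Finset.sum_le_sum fun n hn => Finset.sum_le_sum fun n' hn' => hterm n hn n' hn').trans ?_
    simp only [Finset.sum_add_distrib]
    refine add_le_add ?_ (add_le_add ?_ ?_)
    · apply le_of_eq
      have : ∀ n ∈ s, (∑ n' ∈ s, (if n = n' then R ^ 3 * Δ ^ 2 else 0)) = R ^ 3 * Δ ^ 2 := by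
        intro n hn
        rw [Finset.sum_ite_eq]
        simp [hn]
      rw [Finset.sum_congr rfl this, Finset.sum_const, nsmul_eq_mul]
    · simp only [← Finset.mul_sum]
      apply mul_le_mul_of_nonneg_left _ (by positivity)
      refine hS1.trans ?_
      exact mul_le_mul_of_nonneg_left hI1 hc0.le
    · simp only [← Finset.mul_sum]
      apply mul_le_mul_of_nonneg_left _ (by positivity)
      exact hS2
  have hcard : (s.card : ℝ) ≤ 2 * N := card_le N hN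
  have hmain : V ^ 2 * G ≤ 2 * N * (R ^ 3 * Δ ^ 2) + ((c ^ 2 * (τ * R * Δ)) / V ^ 2 + V ^ 2 * G) / 2 := by
    refine hsum.trans ?_
    have h1 : (s.card : ℝ) * (R ^ 3 * Δ ^ 2) ≤ 2 * N * (R ^ 3 * Δ ^ 2) :=
      mul_le_mul_of_nonneg_right hcard (by positivity)
    have h2 : t / 2 * (c * (τ * R * Δ)) = ((c ^ 2 * (τ * R * Δ)) / V ^ 2) / 2 := by
      rw [ht]
      ring
    have h3 : 1 / (2 * t) * (c * G) = (V ^ 2 * G) / 2 := by
      rw [ht]
      field_simp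
    rw [h2, h3]
    linarith
  have hfin := final G V (2 * N * (R ^ 3 * Δ ^ 2)) (c ^ 2 * (τ * R * Δ)) hV hmain
  refine hfin.trans ?_
  have hsq : c ^ 2 = C ^ 2 * (Lq N ^ 2 * N ^ 3) := by
    rw [hc]
    have : Real.sqrt N ^ 2 = N := Real.sq_sqrt hN0.le
    calc (C * (N * Real.sqrt N * Lq N)) ^ 2 = C ^ 2 * (N ^ 2 * Real.sqrt N ^ 2 * Lq N ^ 2) := by ring
      _ = C ^ 2 * (Lq N ^ 2 * N ^ 3) := by rw [this]; ring
  rw [hsq, mul_add]
  have hC4 : (4 : ℝ) ≤ 4 * C ^ 2 := by nlinarith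
  refine add_le_add ?_ ?_
  · have : 2 * (2 * N * (R ^ 3 * Δ ^ 2)) / V ^ 2 = 4 * (N * R ^ 3 * Δ ^ 2 / V ^ 2) := by ring
    rw [this]
    exact mul_le_mul_of_nonneg_right hC4 (by positivity)
  · have : C ^ 2 * (Lq N ^ 2 * N ^ 3) * (τ * R * Δ) / V ^ 4 = C ^ 2 * (Lq N ^ 2 * N ^ 3 * τ * R * Δ / V ^ 4) := by
      ring
    rw [this]
    apply mul_le_mul_of_nonneg_right _ (by positivity)
    nlinarith

end Pool.Agent.Work.MP_56b8f5_nt.UV
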