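import Mathlib
import Pool.Agent.Work.MP_56b8f5_nt.UV.Stmts
import Pool.Agent.Work.MP_56b8f5_nt.UB.I_E2a

/-!
MP_56b8f5_nt, block UV, item ULa: the energy at scale `Δ` and the mean value of `|S|²`.
-/

open MeasureTheory Set Filter Topology

noncomputable section

namespace Pool.Agent.Work.MP_56b8f5_nt.UV

open Pool.Agent.Work.MP_56b8f5_nt.UB

namespace ULa_aux

open Pool.Agent.Work.MP_56b8f5_nt.UB.E2a_aux

/-- the hat function as a measure -/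
theorem hat {Δ : ℝ} (t : ℝ) :
    ENNReal.ofReal (Δ - |t|) ≤ volume (Icc (0 : ℝ) Δ ∩ {h | h - t ∈ Icc (0 : ℝ) Δ}) := by
  have h1 : Icc (0 : ℝ) Δ ∩ {h | h - t ∈ Icc (0 : ℝ) Δ} = Icc (max 0 t) (min Δ (Δ + t)) := by
    ext h
    simp only [mem_inter_iff, mem_Icc, mem_ofPred_eq, max_le_iff, le_min_iff]
    constructor
    · rintro ⟨⟨a, b⟩, c, d⟩
      exact ⟨⟨a, by linarith⟩, b, by linarith⟩
    · rintro ⟨⟨a, b⟩, c, d⟩
      exact ⟨⟨a, c⟩, by linarith, by linarith⟩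
  rw [h1, Real.volume_Icc]
  apply ENNReal.ofReal_le_ofReal
  rcases le_total 0 t with h | h
  · rw [abs_of_nonneg h, max_eq_right h, min_eq_left (by linarith)]
  · rw [abs_of_nonpos h, max_eq_left h, min_eq_right (by linarith)]
    linarith

/-- the main inequality, in `ℝ≥0∞` -/
theorem main_lint {Δ V : ℝ} {W : Set ℝ} (hWm : MeasurableSet W) {g : ℝ → ℝ} (hg : Continuous g)
    (hV : ∀ x ∈ W, V ^ 2 ≤ g x) (u : ℝ) :
    ENNReal.ofReal (V ^ 2) * ∫⁻ x in W, ENNReal.ofReal (max (Δ - |u - x|) 0) ≤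
      ∫⁻ h in Icc (0 : ℝ) Δ, ∫⁻ h' in Icc (0 : ℝ) Δ, ENNReal.ofReal (g (u + h - h')) := by
  have c1 : ENNReal.ofReal (V ^ 2) ≠ ⊤ := ENNReal.ofReal_ne_top
  rw [← lintegral_const_mul' _ _ c1]
  -- the set of pairs
  have hset : MeasurableSet {p : ℝ × ℝ | u + p.2 - p.1 ∈ Icc (0 : ℝ) Δ} := by
    apply IsClosed.measurableSet
    exact isClosed_Icc.preimage ((continuous_const.add continuous_snd).sub continuous_fst)
  have hset2 : ∀ x : ℝ, MeasurableSet {h : ℝ | u + h - x ∈ Icc (0 : ℝ) Δ} := by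
    intro x
    apply IsClosed.measurableSet
    exact isClosed_Icc.preimage ((continuous_const.add continuous_id).sub continuous_const)
  have s1 : ∫⁻ x in W, ENNReal.ofReal (V ^ 2) * ENNReal.ofReal (max (Δ - |u - x|) 0) ≤
      ∫⁻ x in W, ∫⁻ h in Icc (0 : ℝ) Δ,
        ({h : ℝ | u + h - x ∈ Icc (0 : ℝ) Δ}.indicator (fun _ => ENNReal.ofReal (g x))) h := by
    apply setLIntegral_mono' hWm
    intro x hx
    rw [lintegral_indicator (hset2 x), Measure.restrict_restrict (hset2 x), setLIntegral_const,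
      Set.inter_comm]
    apply mul_le_mul'
    · exact ENNReal.ofReal_le_ofReal (hV x hx)
    · have h1 : ENNReal.ofReal (max (Δ - |u - x|) 0) = ENNReal.ofReal (Δ - |x - u|) := by
        rw [abs_sub_comm u x]
        rcases le_total 0 (Δ - |x - u|) with h | h
        · rw [max_eq_left h]
        · rw [max_eq_right h, ENNReal.ofReal_zero, ENNReal.ofReal_of_nonpos h]
      rw [h1]
      refine (hat (x - u)).trans (le_of_eq ?_)
      congr 1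
      ext h
      simp only [mem_inter_iff, mem_ofPred_eq]
      rw [show h - (x - u) = u + h - x by ring]
  refine s1.trans ?_
  rw [lintegral_lintegral_swap]
  · apply lintegral_mono
    intro h
    have e1 : ∫⁻ x in W, ({h : ℝ | u + h - x ∈ Icc (0 : ℝ) Δ}.indicator
        (fun _ => ENNReal.ofReal (g x))) h ≤
        ∫⁻ x, ({h' : ℝ | h' ∈ Icc (0 : ℝ) Δ}.indicator
          (fun h' => ENNReal.ofReal (g (u + h - h')))) (u + h - x) := by
      refine (setLIntegral_le_lintegral _ _).trans (lintegral_mono fun x => ?_)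
      by_cases hx : u + h - x ∈ Icc (0 : ℝ) Δ
      · rw [indicator_of_mem (by exact hx), indicator_of_mem (by exact hx)]
        rw [show u + h - (u + h - x) = x by ring]
      · rw [indicator_of_notMem (by exact hx)]
        exact bot_le
    refine e1.trans ?_
    rw [lintegral_sub_left_eq_self (fun y => ({h' : ℝ | h' ∈ Icc (0 : ℝ) Δ}.indicator
          (fun h' => ENNReal.ofReal (g (u + h - h')))) y) (u + h)]
    have hm : MeasurableSet {h' : ℝ | h' ∈ Icc (0 : ℝ) Δ} := measurableSet_Icc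
    rw [lintegral_indicator hm]
    exact le_of_eq rfl
  · apply Measurable.aemeasurable
    have : (Function.uncurry fun x h => ({h : ℝ | u + h - x ∈ Icc (0 : ℝ) Δ}.indicator
        (fun _ => ENNReal.ofReal (g x))) h) =
        {p : ℝ × ℝ | u + p.2 - p.1 ∈ Icc (0 : ℝ) Δ}.indicator
          (fun p => ENNReal.ofReal (g p.1)) := by
      ext p
      rcases p with ⟨x, h⟩
      by_cases hx : u + h - x ∈ Icc (0 : ℝ) Δ
      · rw [indicator_of_mem (by exact hx)]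
        simp only [Function.uncurry_apply_pair]
        rw [indicator_of_mem (by exact hx)]
      · rw [indicator_of_notMem (by exact hx)]
        simp only [Function.uncurry_apply_pair]
        rw [indicator_of_notMem (by exact hx)]
    rw [this]
    exact (ENNReal.measurable_ofReal.comp (hg.measurable.comp measurable_fst)).indicator hset

/-- the function `f(u) = ∫_0^Δ ∫_0^Δ g(u+h-h') dh' dh` -/
def ff (Δ : ℝ) (g : ℝ → ℝ) (u : ℝ) : ℝ :=
  ∫ h in Icc (0 : ℝ) Δ, ∫ h' in Icc (0 : ℝ) Δ, g (u + h - h')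

theorem main_real {Δ V L : ℝ} {W : Set ℝ} (hWm : MeasurableSet W) (hW : W ⊆ Icc 0 L) {g : ℝ → ℝ}
    (hg : IsES g) (h0 : ∀ x, 0 ≤ g x) (hV : ∀ x ∈ W, V ^ 2 ≤ g x) (u : ℝ) :
    V ^ 2 * ∫ x in W, max (Δ - |u - x|) 0 ≤ ff Δ g u := by
  have hI : Icc (0 : ℝ) Δ ⊆ Icc 0 Δ := Subset.rfl
  have hg1 := hg.minus hI
  have hc : Continuous fun x : ℝ => max (Δ - |u - x|) 0 := by fun_prop
  have k := main_lint (Δ := Δ) hWm hg.cont hV u
  rw [lint hW hc (fun x => le_max_right _ _)] at k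
  have e1 : ∀ v, ∫⁻ h' in Icc (0 : ℝ) Δ, ENNReal.ofReal (g (v - h')) =
      ENNReal.ofReal (∫ h' in Icc (0 : ℝ) Δ, g (v - h')) := fun v =>
    lint hI (hg.cont.comp (continuous_const.sub continuous_id)) (fun x => h0 _)
  have e2 : ∫⁻ h in Icc (0 : ℝ) Δ, ENNReal.ofReal (∫ h' in Icc (0 : ℝ) Δ, g (u + h - h')) =
      ENNReal.ofReal (ff Δ g u) :=
    lint hI (hg1.cont.comp (continuous_const.add continuous_id))
      (fun h => integral_nonneg fun x => h0 _)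
  simp only [e1] at k
  rw [e2, ← ENNReal.ofReal_mul (sq_nonneg V)] at k
  have hff : 0 ≤ ff Δ g u := integral_nonneg fun h => integral_nonneg fun x => h0 _
  exact (ENNReal.ofReal_le_ofReal_iff hff).1 k

theorem GG_le {Δ V L : ℝ} {W : Set ℝ} (hWm : MeasurableSet W) (hW : W ⊆ Icc 0 L) {g : ℝ → ℝ}
    (hg : IsES g) (h0 : ∀ x, 0 ≤ g x) (hV : ∀ x ∈ W, V ^ 2 ≤ g x) :
    V ^ 2 * GG W Δ ≤ ∫ x1 in W, ∫ x2 in W, ∫ x3 in W, ff Δ g (x1 + x2 - x3) := by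
  have hI : Icc (0 : ℝ) Δ ⊆ Icc 0 Δ := Subset.rfl
  have hf : IsES (ff Δ g) := (hg.minus hI).plus hI
  have hf1 := hf.minus hW
  have hf2 := hf1.plus hW
  have hV2 : 0 ≤ V ^ 2 := sq_nonneg V
  have p0 : ∀ u, 0 ≤ ∫ x in W, max (Δ - |u - x|) 0 := fun u =>
    integral_nonneg fun x => le_max_right _ _
  have a1 : ∀ u, V ^ 2 * ∫ x3 in W, ∫ x in W, max (Δ - |u - x3 - x|) 0 ≤
      ∫ x3 in W, ff Δ g (u - x3) := by
    intro u
    rw [← integral_const_mul]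
    apply integral_mono_of_nonneg
    · exact Filter.Eventually.of_forall fun x3 => mul_nonneg hV2 (p0 _)
    · exact intR hW (hf.cont.comp (continuous_const.sub continuous_id))
    · exact Filter.Eventually.of_forall fun x3 => main_real hWm hW hg h0 hV (u - x3)
  have p1 : ∀ u, 0 ≤ ∫ x3 in W, ∫ x in W, max (Δ - |u - x3 - x|) 0 := fun u =>
    integral_nonneg fun x3 => p0 _
  have a2 : ∀ u, V ^ 2 * ∫ x2 in W, ∫ x3 in W, ∫ x in W, max (Δ - |u + x2 - x3 - x|) 0 ≤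
      ∫ x2 in W, ∫ x3 in W, ff Δ g (u + x2 - x3) := by
    intro u
    rw [← integral_const_mul]
    apply integral_mono_of_nonneg
    · exact Filter.Eventually.of_forall fun x2 => mul_nonneg hV2 (p1 _)
    · exact intR hW (hf1.cont.comp (continuous_const.add continuous_id))
    · exact Filter.Eventually.of_forall fun x2 => a1 (u + x2)
  have p2 : ∀ u, 0 ≤ ∫ x2 in W, ∫ x3 in W, ∫ x in W, max (Δ - |u + x2 - x3 - x|) 0 := fun u =>
    integral_nonneg fun x2 => p1 _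
  unfold GG
  rw [← integral_const_mul]
  apply integral_mono_of_nonneg
  · exact Filter.Eventually.of_forall fun x1 => mul_nonneg hV2 (p2 _)
  · exact intR hW hf2.cont
  · exact Filter.Eventually.of_forall fun x1 => a2 x1

theorem five_fold {Δ L : ℝ} {W : Set ℝ} (hW : W ⊆ Icc 0 L) {P : ℝ → ℂ} {J : Finset ℕ} {c : ℕ → ℂ}
    {ν : ℕ → ℝ} (hP : ∀ u, P u = ∑ n ∈ J, c n * ee (u * ν n)) (hc : ∀ n, ‖c n‖ ≤ 1) :
    ∫ x1 in W, ∫ x2 in W, ∫ x3 in W, ff Δ (fun u => ‖P u‖ ^ 2) (x1 + x2 - x3) ≤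
      ∑ q ∈ J ×ˢ J, ‖Rh W (ν q.1 - ν q.2)‖ ^ 3 * ‖Rh (Icc 0 Δ) (ν q.1 - ν q.2)‖ ^ 2 := by
  have hI : Icc (0 : ℝ) Δ ⊆ Icc 0 Δ := Subset.rfl
  unfold ff
  have h1 : ((∫ x1 in W, ∫ x2 in W, ∫ x3 in W, ∫ h in Icc (0 : ℝ) Δ, ∫ h' in Icc (0 : ℝ) Δ,
      ‖P (x1 + x2 - x3 + h - h')‖ ^ 2 : ℝ) : ℂ) =
      ∫ x1 in W, ∫ x2 in W, ∫ x3 in W, ∫ h in Icc (0 : ℝ) Δ, ∫ h' in Icc (0 : ℝ) Δ,
        ((‖P (x1 + x2 - x3 + h - h')‖ ^ 2 : ℝ) : ℂ) := by
    simp only [integral_complex_ofReal]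
  have h2 : ∫ x1 in W, ∫ x2 in W, ∫ x3 in W, ∫ h in Icc (0 : ℝ) Δ, ∫ h' in Icc (0 : ℝ) Δ,
        ((‖P (x1 + x2 - x3 + h - h')‖ ^ 2 : ℝ) : ℂ) =
      ∑ q ∈ J ×ˢ J, c q.1 * (starRingEnd ℂ) (c q.2) *
        (starRingEnd ℂ) (Rh (Icc 0 Δ) (ν q.1 - ν q.2)) * Rh (Icc 0 Δ) (ν q.1 - ν q.2) *
        (starRingEnd ℂ) (Rh W (ν q.1 - ν q.2)) * Rh W (ν q.1 - ν q.2) *
        Rh W (ν q.1 - ν q.2) := by
    simp only [norm_sq hP]
    simp only [ES_minus hI]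
    simp only [ES_plus hI]
    simp only [ES_minus hW]
    simp only [ES_plus hW]
    rw [ES_zero hW]
  calc ∫ x1 in W, ∫ x2 in W, ∫ x3 in W, ∫ h in Icc (0 : ℝ) Δ, ∫ h' in Icc (0 : ℝ) Δ,
        ‖P (x1 + x2 - x3 + h - h')‖ ^ 2
      ≤ ‖((∫ x1 in W, ∫ x2 in W, ∫ x3 in W, ∫ h in Icc (0 : ℝ) Δ, ∫ h' in Icc (0 : ℝ) Δ,
          ‖P (x1 + x2 - x3 + h - h')‖ ^ 2 : ℝ) : ℂ)‖ := by
        rw [Complex.norm_real]
        exact le_abs_self _
    _ ≤ ∑ q ∈ J ×ˢ J, ‖Rh W (ν q.1 - ν q.2)‖ ^ 3 * ‖Rh (Icc 0 Δ) (ν q.1 - ν q.2)‖ ^ 2 := by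
        rw [h1, h2]
        refine (norm_sum_le _ _).trans (Finset.sum_le_sum fun q _ => ?_)
        rw [norm_mul, norm_mul, norm_mul, norm_mul, norm_mul, norm_mul, RCLike.norm_conj,
          RCLike.norm_conj, RCLike.norm_conj]
        have h3 := hc q.1
        have h4 := hc q.2
        have h5 : ‖c q.1‖ * ‖c q.2‖ ≤ 1 := mul_le_one₀ h3 (norm_nonneg _) h4
        have h6 : 0 ≤ ‖Rh W (ν q.1 - ν q.2)‖ ^ 3 * ‖Rh (Icc 0 Δ) (ν q.1 - ν q.2)‖ ^ 2 := by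
          positivity
        calc ‖c q.1‖ * ‖c q.2‖ * ‖Rh (Icc 0 Δ) (ν q.1 - ν q.2)‖ *
              ‖Rh (Icc 0 Δ) (ν q.1 - ν q.2)‖ * ‖Rh W (ν q.1 - ν q.2)‖ *
              ‖Rh W (ν q.1 - ν q.2)‖ * ‖Rh W (ν q.1 - ν q.2)‖
            = (‖c q.1‖ * ‖c q.2‖) * (‖Rh W (ν q.1 - ν q.2)‖ ^ 3 *
                ‖Rh (Icc 0 Δ) (ν q.1 - ν q.2)‖ ^ 2) := by ring
          _ ≤ 1 * (‖Rh W (ν q.1 - ν q.2)‖ ^ 3 * ‖Rh (Icc 0 Δ) (ν q.1 - ν q.2)‖ ^ 2) :=
              mul_le_mul_of_nonneg_right h5 h6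
          _ = ‖Rh W (ν q.1 - ν q.2)‖ ^ 3 * ‖Rh (Icc 0 Δ) (ν q.1 - ν q.2)‖ ^ 2 := one_mul _

end ULa_aux

open ULa_aux Pool.Agent.Work.MP_56b8f5_nt.UB.E2a_aux in
/-- ITEM ULa. -/
theorem iULa : StULa := by
  intro X N V Δ L a W hN hX hV hΔ ha hWm hW hS
  set I : Finset ℕ := Finset.Ioc ⌊N⌋₊ ⌊2 * N⌋₊ with hI
  have hSP : ∀ u, SS X N a u = ∑ n ∈ I, a n * ee (u * vv X n) := fun u => rfl
  have h1 : V ^ 2 * GG W Δ ≤
      ∫ x1 in W, ∫ x2 in W, ∫ x3 in W, ff Δ (fun u => ‖SS X N a u‖ ^ 2) (x1 + x2 - x3) := by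
    refine GG_le hWm hW (g := fun u => ‖SS X N a u‖ ^ 2) ?_ (fun x => sq_nonneg _) ?_
    · exact ⟨_, _, _, norm_sq (ν := fun n => vv X n) hSP⟩
    · intro x hx
      exact pow_le_pow_left₀ hV (hS x hx) 2
  have h2 := five_fold (Δ := Δ) hW (ν := fun n => vv X n) hSP ha
  refine h1.trans (h2.trans (le_of_eq ?_))
  rw [Finset.sum_product]
  refine Finset.sum_congr rfl fun n _ => Finset.sum_congr rfl fun n' _ => ?_
  simp only
  have e1 : Rh W (vv X n - vv X n') = ∫ x in W, ee ((vv X n - vv X n') * x) := by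
    unfold Rh
    simp only [mul_comm]
  have e2 : Rh (Icc 0 Δ) (vv X n - vv X n') = ∫ h in (0 : ℝ)..Δ, ee ((vv X n - vv X n') * h) := by
    unfold Rh
    rw [intervalIntegral.integral_of_le hΔ.le, ← integral_Icc_eq_integral_Ioc]
    simp only [mul_comm]
  rw [e1, e2]

end Pool.Agent.Work.MP_56b8f5_nt.UV
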