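import Pool.Agent.Work.MP_56b8f5_nt.UV.Stmts

/-! MP_56b8f5_nt, block UV, item ULb: the two auxiliary functions `F1`, `F2`. -/

open MeasureTheory Set Filter Topology

noncomputable section

namespace Pool.Agent.Work.MP_56b8f5_nt.UV

open Pool.Agent.Work.MP_56b8f5_nt.UB

namespace ULb_aux

theorem cont_ee : Continuous ee := by
  unfold ee
  fun_prop

theorem ee_add (x y : ℝ) : ee (x + y) = ee x * ee y := by
  unfold ee
  rw [← Complex.exp_add]
  congr 1
  push_cast
  ring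

theorem ee_norm (x : ℝ) : ‖ee x‖ = 1 := by
  unfold ee
  exact Complex.norm_exp_ofReal_mul_I _

theorem ee_zero : ee 0 = 1 := by simp [ee]

/-- the indicator of `[0,Δ]` -/
def kk (Δ u : ℝ) : ℝ := (Icc 0 Δ).indicator (fun _ => (1 : ℝ)) u

theorem kk_meas (Δ : ℝ) : Measurable (kk Δ) := measurable_const.indicator measurableSet_Icc

theorem kk_of_mem {Δ u : ℝ} (h : u ∈ Icc 0 Δ) : kk Δ u = 1 := indicator_of_mem h _

theorem kk_of_notMem {Δ u : ℝ} (h : u ∉ Icc 0 Δ) : kk Δ u = 0 := indicator_of_notMem h _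

theorem kk_nonneg (Δ u : ℝ) : 0 ≤ kk Δ u := by
  by_cases h : u ∈ Icc 0 Δ
  · rw [kk_of_mem h]; exact zero_le_one
  · rw [kk_of_notMem h]

theorem kk_le (Δ u : ℝ) : kk Δ u ≤ 1 := by
  by_cases h : u ∈ Icc 0 Δ
  · rw [kk_of_mem h]
  · rw [kk_of_notMem h]; exact zero_le_one

/-- `∫ 1[0≤u-s≤Δ] 1[0≤u-t≤Δ] du = (Δ-|s-t|)_+` -/
theorem kk_int2 (Δ s t : ℝ) : ∫ u : ℝ, kk Δ (u - s) * kk Δ (u - t) = max (Δ - |s - t|) 0 := by
  have h1 : (fun u : ℝ => kk Δ (u - s) * kk Δ (u - t)) =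
      (Icc (max s t) (min s t + Δ)).indicator (fun _ => (1 : ℝ)) := by
    funext u
    by_cases h : u ∈ Icc (max s t) (min s t + Δ)
    · rw [indicator_of_mem h]
      obtain ⟨h2, h3⟩ := h
      have h4 := le_max_left s t
      have h5 := le_max_right s t
      have h6 := min_le_left s t
      have h7 := min_le_right s t
      rw [kk_of_mem ⟨by linarith, by linarith⟩, kk_of_mem ⟨by linarith, by linarith⟩, mul_one]
    · rw [indicator_of_notMem h]
      by_cases h2 : u - s ∈ Icc 0 Δ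
      · by_cases h3 : u - t ∈ Icc 0 Δ
        · exfalso
          apply h
          obtain ⟨h4, h5⟩ := h2
          obtain ⟨h6, h7⟩ := h3
          refine ⟨max_le (by linarith) (by linarith), ?_⟩
          rcases min_choice s t with h8 | h8
          · rw [h8]; linarith
          · rw [h8]; linarith
        · rw [kk_of_notMem h3, mul_zero]
      · rw [kk_of_notMem h2, zero_mul]
  rw [h1, integral_indicator measurableSet_Icc, integral_const, smul_eq_mul, mul_one]
  simp only [measureReal_restrict_apply_univ, Real.volume_real_Icc]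
  congr 1
  have := max_sub_min_eq_abs s t
  have h3 : |t - s| = |s - t| := abs_sub_comm t s
  linarith

theorem kk_FT (Δ ν : ℝ) (hΔ : 0 ≤ Δ) : ∫ u : ℝ, (kk Δ u : ℂ) * ee (ν * u) = ∫ h in (0 : ℝ)..Δ, ee (ν * h) := by
  rw [intervalIntegral.integral_of_le hΔ, ← integral_Icc_eq_integral_Ioc,
    ← integral_indicator measurableSet_Icc]
  congr 1
  funext u
  by_cases h : u ∈ Icc 0 Δ
  · rw [kk_of_mem h, indicator_of_mem h]; simp
  · rw [kk_of_notMem h, indicator_of_notMem h]; simp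

section gen

variable {Ω : Type} [MeasurableSpace Ω] (ρ : Measure Ω) [IsFiniteMeasure ρ] (s : Ω → ℝ)

/-- `F(u) = ∫ 1[0 ≤ u - s ≤ Δ] dρ` -/
def FU (Δ u : ℝ) : ℝ := ∫ ω, kk Δ (u - s ω) ∂ρ

theorem dom_int {E : Type} [NormedAddCommGroup E] (M : ℝ) (H : ℝ × Ω → E)
    (hH : AEStronglyMeasurable H ((volume : Measure ℝ).prod ρ))
    (hb : ∀ᵐ z ∂((volume : Measure ℝ).prod ρ), ‖H z‖ ≤ (Icc 0 M).indicator (fun _ => (1 : ℝ)) z.1) :
    Integrable H ((volume : Measure ℝ).prod ρ) := by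
  have h1 : Integrable ((Icc 0 M).indicator (fun _ => (1 : ℝ))) (volume : Measure ℝ) := by
    rw [integrable_indicator_iff measurableSet_Icc]
    exact continuous_const.integrableOn_Icc
  have h2 : Integrable (fun _ : Ω => (1 : ℝ)) ρ := integrable_const _
  have h3 := h1.mul_prod h2
  refine h3.mono' hH ?_
  filter_upwards [hb] with z hz
  simpa using hz

variable {ρ s}

theorem FU_meas (hs : Measurable s) (Δ : ℝ) : Measurable (FU ρ s Δ) := by
  have h1 : StronglyMeasurable (Function.uncurry (fun (u : ℝ) (ω : Ω) => kk Δ (u - s ω))) := by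
    apply Measurable.stronglyMeasurable
    exact (kk_meas Δ).comp (measurable_fst.sub (hs.comp measurable_snd))
  exact h1.integral_prod_right.measurable

theorem kk_integrable (hs : Measurable s) (Δ u : ℝ) : Integrable (fun ω => kk Δ (u - s ω)) ρ := by
  refine Integrable.of_bound ?_ 1 ?_
  · exact ((kk_meas Δ).comp (measurable_const.sub hs)).aestronglyMeasurable
  · refine Eventually.of_forall fun ω => ?_
    rw [Real.norm_eq_abs, abs_of_nonneg (kk_nonneg _ _)]
    exact kk_le _ _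

theorem FU_nonneg (Δ u : ℝ) : 0 ≤ FU ρ s Δ u := integral_nonneg fun ω => kk_nonneg _ _

theorem FU_le (hs : Measurable s) (Δ u : ℝ) : FU ρ s Δ u ≤ ρ.real univ := by
  have h1 : FU ρ s Δ u ≤ ∫ _ω : Ω, (1 : ℝ) ∂ρ :=
    integral_mono (kk_integrable hs Δ u) (integrable_const _) fun ω => kk_le _ _
  simpa using h1

theorem FU_zero {B Δ u : ℝ} (hB : ∀ᵐ ω ∂ρ, s ω ∈ Icc 0 B) (hu : u ∉ Icc 0 (B + Δ)) :
    FU ρ s Δ u = 0 := by
  unfold FU
  rw [integral_eq_zero_of_ae]
  filter_upwards [hB] with ω hω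
  refine kk_of_notMem fun h => hu ?_
  obtain ⟨h1, h2⟩ := h
  obtain ⟨h3, h4⟩ := hω
  exact ⟨by linarith, by linarith⟩

theorem ker_bound {B Δ u x : ℝ} (hx : x ∈ Icc 0 B) :
    kk Δ (u - x) ≤ (Icc 0 (B + Δ)).indicator (fun _ => (1 : ℝ)) u := by
  by_cases h : u - x ∈ Icc 0 Δ
  · obtain ⟨h1, h2⟩ := h
    obtain ⟨h3, h4⟩ := hx
    rw [indicator_of_mem (show u ∈ Icc 0 (B + Δ) from ⟨by linarith, by linarith⟩)]
    exact kk_le _ _
  · rw [kk_of_notMem h]
    exact indicator_nonneg (fun _ _ => zero_le_one) _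

theorem FU_FT (hs : Measurable s) {B Δ : ℝ} (hB : ∀ᵐ ω ∂ρ, s ω ∈ Icc 0 B) (hΔ : 0 ≤ Δ) (ν : ℝ) :
    FT (fun x => (FU ρ s Δ x : ℂ)) ν = (∫ ω, ee (ν * s ω) ∂ρ) * ∫ h in (0 : ℝ)..Δ, ee (ν * h) := by
  unfold FT
  have h1 : ∀ u : ℝ, (FU ρ s Δ u : ℂ) * ee (ν * u) = ∫ ω, (kk Δ (u - s ω) : ℂ) * ee (ν * u) ∂ρ := by
    intro u
    rw [integral_mul_const]
    congr 1
    unfold FU
    exact integral_ofReal.symm
  simp_rw [h1]
  rw [integral_integral_swap]
  · have h2 : ∀ ω : Ω, ∫ u : ℝ, (kk Δ (u - s ω) : ℂ) * ee (ν * u) =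
        ee (ν * s ω) * ∫ h in (0 : ℝ)..Δ, ee (ν * h) := by
      intro ω
      rw [← kk_FT Δ ν hΔ, ← integral_const_mul,
        ← integral_sub_right_eq_self (fun u : ℝ => ee (ν * s ω) * ((kk Δ u : ℂ) * ee (ν * u))) (s ω)]
      congr 1
      funext u
      have h3 : ee (ν * u) = ee (ν * s ω) * ee (ν * (u - s ω)) := by
        rw [← ee_add]; congr 1; ring
      rw [h3]
      ring
    simp_rw [h2]
    exact integral_mul_const _ _
  · refine dom_int ρ (B + Δ) _ ?_ ?_
    · apply Measurable.aestronglyMeasurable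
      refine Measurable.mul ?_ ?_
      · exact Complex.measurable_ofReal.comp
          ((kk_meas Δ).comp (measurable_fst.sub (hs.comp measurable_snd)))
      · exact cont_ee.measurable.comp (measurable_const.mul measurable_fst)
    · have h4 : ∀ᵐ z ∂((volume : Measure ℝ).prod ρ), s z.2 ∈ Icc 0 B :=
        Measure.quasiMeasurePreserving_snd.ae hB
      filter_upwards [h4] with z hz
      simp only [Function.uncurry]
      rw [norm_mul, ee_norm, mul_one, Complex.norm_real, Real.norm_eq_abs,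
        abs_of_nonneg (kk_nonneg _ _)]
      exact ker_bound hz

theorem FU_int (hs : Measurable s) {B Δ : ℝ} (hB : ∀ᵐ ω ∂ρ, s ω ∈ Icc 0 B) (hΔ : 0 ≤ Δ) :
    ∫ u, FU ρ s Δ u = ρ.real univ * Δ := by
  have h1 := FU_FT hs hB hΔ 0
  unfold FT at h1
  simp only [zero_mul, ee_zero, mul_one, integral_const, intervalIntegral.integral_const, sub_zero] at h1
  rw [integral_complex_ofReal] at h1
  have h2 := congrArg Complex.re h1
  simpa using h2

theorem FU_integrable (hs : Measurable s) {B Δ : ℝ} (hB : ∀ᵐ ω ∂ρ, s ω ∈ Icc 0 B) :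
    Integrable (FU ρ s Δ) := by
  have h1 : Integrable ((Icc 0 (B + Δ)).indicator (fun _ => ρ.real univ)) (volume : Measure ℝ) := by
    rw [integrable_indicator_iff measurableSet_Icc]
    exact continuous_const.integrableOn_Icc
  refine h1.mono' (FU_meas hs Δ).aestronglyMeasurable (Eventually.of_forall fun u => ?_)
  rw [Real.norm_eq_abs, abs_of_nonneg (FU_nonneg _ _)]
  by_cases h : u ∈ Icc 0 (B + Δ)
  · rw [indicator_of_mem h]; exact FU_le hs Δ u
  · rw [FU_zero hB h]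
    exact indicator_nonneg (fun _ _ => measureReal_nonneg) _

theorem FU_sq (hs : Measurable s) {B Δ : ℝ} (hB : ∀ᵐ ω ∂ρ, s ω ∈ Icc 0 B) :
    ∫ u, FU ρ s Δ u ^ 2 = ∫ z : Ω × Ω, max (Δ - |s z.1 - s z.2|) 0 ∂(ρ.prod ρ) := by
  have h1 : ∀ u : ℝ, FU ρ s Δ u ^ 2 =
      ∫ z : Ω × Ω, kk Δ (u - s z.1) * kk Δ (u - s z.2) ∂(ρ.prod ρ) := by
    intro u
    rw [integral_prod_mul (fun ω => kk Δ (u - s ω)) (fun ω => kk Δ (u - s ω)), sq]
    rfl
  simp_rw [h1]
  rw [integral_integral_swap]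
  · congr 1
    funext z
    exact kk_int2 Δ (s z.1) (s z.2)
  · refine dom_int (ρ.prod ρ) (B + Δ) _ ?_ ?_
    · apply Measurable.aestronglyMeasurable
      refine Measurable.mul ?_ ?_
      · exact (kk_meas Δ).comp (measurable_fst.sub (hs.comp (measurable_fst.comp measurable_snd)))
      · exact (kk_meas Δ).comp (measurable_fst.sub (hs.comp (measurable_snd.comp measurable_snd)))
    · have h3 : ∀ᵐ z ∂(ρ.prod ρ), s z.1 ∈ Icc 0 B := Measure.quasiMeasurePreserving_fst.ae hB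
      have h4 : ∀ᵐ z ∂((volume : Measure ℝ).prod (ρ.prod ρ)), s z.2.1 ∈ Icc 0 B :=
        Measure.quasiMeasurePreserving_snd.ae h3
      filter_upwards [h4] with z hz
      simp only [Function.uncurry]
      rw [norm_mul, Real.norm_eq_abs, Real.norm_eq_abs, abs_of_nonneg (kk_nonneg _ _),
        abs_of_nonneg (kk_nonneg _ _)]
      calc kk Δ (z.1 - s z.2.1) * kk Δ (z.1 - s z.2.2) ≤ kk Δ (z.1 - s z.2.1) * 1 :=
            mul_le_mul_of_nonneg_left (kk_le _ _) (kk_nonneg _ _)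
        _ = kk Δ (z.1 - s z.2.1) := mul_one _
        _ ≤ _ := ker_bound hz

end gen

end ULb_aux

open ULb_aux in
theorem iULb : StULb := by
  intro Δ L τ W hW hWL hΔ hL hτ hwin
  have hvol : volume W < ⊤ := lt_of_le_of_lt (measure_mono hWL) (by rw [Real.volume_Icc]; exact ENNReal.ofReal_lt_top)
  haveI hfin : IsFiniteMeasure (volume.restrict W) := ⟨by rw [Measure.restrict_apply_univ]; exact hvol⟩
  set μ : Measure ℝ := volume.restrict W with hμ
  have hae : ∀ᵐ x ∂μ, x ∈ Icc 0 L := by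
    rw [hμ, ae_restrict_iff' hW]
    exact Eventually.of_forall fun x hx => hWL hx
  have hae2 : ∀ᵐ z ∂(μ.prod μ), z.1 + z.2 ∈ Icc 0 (2 * L) := by
    have h1 : ∀ᵐ z ∂(μ.prod μ), z.1 ∈ Icc 0 L := Measure.quasiMeasurePreserving_fst.ae hae
    have h2 : ∀ᵐ z ∂(μ.prod μ), z.2 ∈ Icc 0 L := Measure.quasiMeasurePreserving_snd.ae hae
    filter_upwards [h1, h2] with z hz1 hz2
    exact ⟨add_nonneg hz1.1 hz2.1, by linarith [hz1.2, hz2.2]⟩
  have hs1 : Measurable (fun x : ℝ => x) := measurable_id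
  have hs2 : Measurable (fun z : ℝ × ℝ => z.1 + z.2) := measurable_fst.add measurable_snd
  have hR : μ.real univ = Rr W := by
    rw [hμ, measureReal_restrict_apply_univ]; rfl
  have hF1 : ∀ u, FU μ (fun x : ℝ => x) Δ u ≤ τ := by
    intro u
    have h1 : FU μ (fun x : ℝ => x) Δ u = Rr (W ∩ Icc (u - Δ) (u - Δ + Δ)) := by
      unfold FU
      have h2 : (fun x : ℝ => kk Δ (u - x)) = (Icc (u - Δ) (u - Δ + Δ)).indicator (fun _ => (1 : ℝ)) := by
        funext x
        by_cases h : x ∈ Icc (u - Δ) (u - Δ + Δ)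
        · rw [indicator_of_mem h]
          exact kk_of_mem ⟨by linarith [h.2], by linarith [h.1]⟩
        · rw [indicator_of_notMem h]
          exact kk_of_notMem fun h3 => h ⟨by linarith [h3.2], by linarith [h3.1]⟩
      rw [h2, integral_indicator measurableSet_Icc, integral_const, smul_eq_mul, mul_one,
        measureReal_restrict_apply_univ, hμ, measureReal_restrict_apply measurableSet_Icc, inter_comm]
      rfl
    rw [h1]
    exact hwin _
  refine ⟨FU μ (fun x : ℝ => x) Δ, FU (μ.prod μ) (fun z : ℝ × ℝ => z.1 + z.2) Δ,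
    FU_meas hs1 Δ, FU_meas hs2 Δ, ⟨max (μ.real univ) ((μ.prod μ).real univ), fun x => ⟨?_, ?_⟩⟩,
    fun x hx => ⟨?_, ?_⟩, fun ν => ?_, fun ν => ?_, ?_, ?_⟩
  · rw [abs_of_nonneg (FU_nonneg _ _)]
    exact le_trans (FU_le hs1 Δ x) (le_max_left _ _)
  · rw [abs_of_nonneg (FU_nonneg _ _)]
    exact le_trans (FU_le hs2 Δ x) (le_max_right _ _)
  · refine FU_zero hae fun h => hx ⟨h.1, by linarith [h.2]⟩
  · exact FU_zero hae2 hx
  · rw [FU_FT hs1 hae hΔ.le ν, norm_mul]
  · rw [FU_FT hs2 hae2 hΔ.le ν, norm_mul]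
    congr 1
    have h1 : ∀ z : ℝ × ℝ, ee (ν * (z.1 + z.2)) = ee (ν * z.1) * ee (ν * z.2) := by
      intro z
      rw [← ee_add]; congr 1; ring
    simp_rw [h1]
    rw [integral_prod_mul (fun x => ee (ν * x)) (fun x => ee (ν * x)), norm_mul, sq]
  · have hI := FU_integrable (ρ := μ) (Δ := Δ) hs1 hae
    calc ∫ x, FU μ (fun x : ℝ => x) Δ x ^ 2 ≤ ∫ x, τ * FU μ (fun x : ℝ => x) Δ x := by
          refine integral_mono_of_nonneg (Eventually.of_forall fun x => sq_nonneg _) (hI.const_mul τ)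
            (Eventually.of_forall fun x => ?_)
          simp only
          rw [sq]
          exact mul_le_mul_of_nonneg_right (hF1 x) (FU_nonneg _ _)
      _ = τ * Rr W * Δ := by
          rw [integral_const_mul, FU_int hs1 hae hΔ.le, hR]; ring
  · rw [FU_sq hs2 hae2]
    have hcont : Continuous (fun w : (ℝ × ℝ) × (ℝ × ℝ) => max (Δ - |w.1.1 + w.1.2 - (w.2.1 + w.2.2)|) 0) := by
      fun_prop
    have hbd : ∀ w : (ℝ × ℝ) × (ℝ × ℝ), ‖max (Δ - |w.1.1 + w.1.2 - (w.2.1 + w.2.2)|) 0‖ ≤ Δ := by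
      intro w
      rw [Real.norm_eq_abs, abs_of_nonneg (le_max_right _ _)]
      exact max_le (by linarith [abs_nonneg (w.1.1 + w.1.2 - (w.2.1 + w.2.2))]) hΔ.le
    have hint : Integrable (fun w : (ℝ × ℝ) × (ℝ × ℝ) => max (Δ - |w.1.1 + w.1.2 - (w.2.1 + w.2.2)|) 0)
        ((μ.prod μ).prod (μ.prod μ)) :=
      Integrable.of_bound hcont.aestronglyMeasurable Δ (Eventually.of_forall hbd)
    rw [integral_prod _ hint]
    have hint2 := hint.integral_prod_left
    rw [integral_prod _ hint2]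
    unfold GG
    congr 1
    funext x1
    congr 1
    funext x2
    have hc3 : Continuous (fun z : ℝ × ℝ => max (Δ - |x1 + x2 - (z.1 + z.2)|) 0) := by fun_prop
    have hint3 : Integrable (fun z : ℝ × ℝ => max (Δ - |x1 + x2 - (z.1 + z.2)|) 0) (μ.prod μ) :=
      Integrable.of_bound hc3.aestronglyMeasurable Δ
        (Eventually.of_forall fun z => hbd ((x1, x2), z))
    simp only
    rw [integral_prod _ hint3]
    congr 1
    funext x3
    congr 1
    funext x4
    congr 3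
    ring

end Pool.Agent.Work.MP_56b8f5_nt.UV
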