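import Pool.Agent.Work.MP_56b8f5_nt.UV.Stmts

/-!
MP_56b8f5_nt, block UV, item VA (duality for the local mean squares).
-/

set_option autoImplicit false

open MeasureTheory Set Filter Topology

noncomputable section

namespace Pool.Agent.Work.MP_56b8f5_nt.UV

open Pool.Agent.Work.MP_56b8f5_nt.UB

namespace VA_aux

lemma norm_ee (x : ℝ) : ‖ee x‖ = 1 := by
  unfold ee
  exact Complex.norm_exp_ofReal_mul_I _

lemma cont_ee : Continuous ee := by
  unfold ee
  fun_prop

lemma ee_add (x y : ℝ) : ee (x + y) = ee x * ee y := by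
  unfold ee
  rw [← Complex.exp_add]
  congr 1
  push_cast
  ring

lemma ee_conj (x : ℝ) : (starRingEnd ℂ) (ee x) = ee (-x) := by
  unfold ee
  rw [← Complex.exp_conj, map_mul, Complex.conj_ofReal, Complex.conj_I]
  congr 1
  push_cast
  ring

lemma om_nonneg (u : ℝ) : 0 ≤ om u := omB.nonneg

lemma om_one {u : ℝ} (h1 : 1 ≤ u) (h2 : u ≤ 2) : om u = 1 := by
  apply omB.one_of_mem_closedBall
  rw [Metric.mem_closedBall, Real.dist_eq, abs_le]
  change -(1 / 2 : ℝ) ≤ u - 3 / 2 ∧ u - 3 / 2 ≤ 1 / 2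
  constructor <;> linarith

lemma om_zero {u : ℝ} (h : 5 / 2 ≤ u) : om u = 0 := by
  apply omB.zero_of_le_dist
  rw [Real.dist_eq]
  change (1 : ℝ) ≤ |u - 3 / 2|
  rw [le_abs]
  left
  linarith

/-- The range of summation in `KS`. -/
def FR (N : ℝ) : Finset ℕ := Finset.range (⌈5 / 2 * N⌉₊ + 1)

lemma KS_eq {X N : ℝ} (hN : 1 ≤ N) (x : ℝ) :
    KS X N x = ∑ n ∈ FR N, (om ((n : ℝ) / N) : ℂ) * ee (x * vv X n) := by
  unfold KS
  refine tsum_eq_sum fun n hn => ?_
  have h1 : ⌈5 / 2 * N⌉₊ + 1 ≤ n := by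
    by_contra h
    exact hn (Finset.mem_range.mpr (not_le.mp h))
  have h2 : 5 / 2 * N ≤ n := by
    refine (Nat.le_ceil _).trans ?_
    exact_mod_cast (Nat.le_succ _).trans h1
  rw [om_zero, Complex.ofReal_zero, zero_mul]
  rw [le_div_iff₀ (by linarith)]
  exact h2

lemma cont_SS (X N : ℝ) (a : ℕ → ℂ) : Continuous (SS X N a) := by
  unfold SS
  refine continuous_finsetSum _ fun n _ => continuous_const.mul ?_
  exact cont_ee.comp (continuous_id.mul continuous_const)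

/-- `g(x) e(x v)`. -/
def gg (g : ℝ → ℂ) (v x : ℝ) : ℂ := g x * ee (x * v)

lemma int_gg {g : ℝ → ℂ} (hg : Integrable g) (v : ℝ) : Integrable (gg g v) := by
  refine hg.norm.mono' ?_ (Eventually.of_forall fun x => ?_)
  · unfold gg
    exact hg.aestronglyMeasurable.mul
      (cont_ee.comp (continuous_id.mul continuous_const)).aestronglyMeasurable
  · unfold gg
    rw [norm_mul, norm_ee, mul_one]

/-- The Fourier coefficients. -/
def BB (g : ℝ → ℂ) (v : ℝ) : ℂ := ∫ x, gg g v x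

lemma double {X N : ℝ} (hN : 1 ≤ N) {g : ℝ → ℂ} (hg : Integrable g) :
    ∫ x, ∫ y, g x * (starRingEnd ℂ) (g y) * KS X N (x - y) =
      ((∑ n ∈ FR N, om ((n : ℝ) / N) * ‖BB g (vv X n)‖ ^ 2 : ℝ) : ℂ) := by
  have h1 : ∀ x y : ℝ, g x * (starRingEnd ℂ) (g y) * KS X N (x - y) =
      ∑ n ∈ FR N, ((om ((n : ℝ) / N) : ℂ) * gg g (vv X n) x) *
        (starRingEnd ℂ) (gg g (vv X n) y) := by
    intro x y
    rw [KS_eq hN, Finset.mul_sum]
    refine Finset.sum_congr rfl fun n _ => ?_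
    have e : ee ((x - y) * vv X n) = ee (x * vv X n) * ee (-(y * vv X n)) := by
      rw [← ee_add]
      congr 1
      ring
    unfold gg
    rw [e, map_mul, ee_conj]
    ring
  have h2 : ∀ x : ℝ, ∫ y, g x * (starRingEnd ℂ) (g y) * KS X N (x - y) =
      ∑ n ∈ FR N, ((om ((n : ℝ) / N) : ℂ) * (starRingEnd ℂ) (BB g (vv X n))) *
        gg g (vv X n) x := by
    intro x
    simp only [h1]
    rw [integral_finsetSum]
    · refine Finset.sum_congr rfl fun n _ => ?_
      rw [integral_const_mul, integral_conj]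
      unfold BB
      ring
    · intro n _
      have := (int_gg hg (vv X n))
      exact (Complex.conjLIE.toContinuousLinearEquiv.toContinuousLinearMap.integrable_comp
        this).const_mul _
  simp only [h2]
  rw [integral_finsetSum]
  · push_cast
    refine Finset.sum_congr rfl fun n _ => ?_
    rw [integral_const_mul]
    change (om ((n : ℝ) / N) : ℂ) * (starRingEnd ℂ) (BB g (vv X n)) * BB g (vv X n) = _
    rw [mul_assoc, Complex.conj_mul']
  · intro n _
    exact (int_gg hg (vv X n)).const_mul _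

/-- The local mass. -/
def rho (A : Set ℝ) (Δ y : ℝ) : ℝ := Rr (A ∩ Icc (y - Δ) (y + Δ))

lemma meas_rho {A : Set ℝ} (hA : MeasurableSet A) (Δ : ℝ) : Measurable (rho A Δ) := by
  have hs : MeasurableSet {p : ℝ × ℝ | p.2 ∈ A ∧ p.1 - Δ ≤ p.2 ∧ p.2 ≤ p.1 + Δ} := by
    refine (measurable_snd hA).inter ?_
    refine (measurableSet_le (measurable_fst.sub_const Δ) measurable_snd).inter ?_
    exact measurableSet_le measurable_snd (measurable_fst.add_const Δ)
  have h := measurable_measure_prodMk_left (ν := (volume : Measure ℝ)) hs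
  exact h.ennreal_toReal

lemma rho_nonneg (A : Set ℝ) (Δ y : ℝ) : 0 ≤ rho A Δ y := ENNReal.toReal_nonneg

lemma rho_le {A : Set ℝ} {Δ : ℝ} (hΔ : 0 < Δ) (y : ℝ) : rho A Δ y ≤ 2 * Δ := by
  unfold rho Rr
  have h1 : volume (A ∩ Icc (y - Δ) (y + Δ)) ≤ ENNReal.ofReal (2 * Δ) := by
    refine (measure_mono inter_subset_right).trans ?_
    rw [Real.volume_Icc]
    apply le_of_eq
    congr 1
    ring
  exact ENNReal.toReal_le_of_le_ofReal (by linarith) h1

lemma rho_zero {A : Set ℝ} {Δ b L y : ℝ} (hAs : A ⊆ Icc b (b + L))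
    (hy : y ∉ Icc (b - Δ) (b + L + Δ)) : rho A Δ y = 0 := by
  have : A ∩ Icc (y - Δ) (y + Δ) = ∅ := by
    rw [eq_empty_iff_forall_notMem]
    rintro x ⟨hx, hx2⟩
    have h1 := hAs hx
    rw [mem_Icc] at h1 hx2
    apply hy
    rw [mem_Icc]
    constructor <;> linarith [h1.1, h1.2, hx2.1, hx2.2]
  unfold rho Rr
  rw [this]
  simp

/-- The set of pairs. -/
def PS (A : Set ℝ) (Δ : ℝ) : Set (ℝ × ℝ) := {p | p.1 ∈ A ∧ p.2 - Δ ≤ p.1 ∧ p.1 ≤ p.2 + Δ}

lemma meas_PS {A : Set ℝ} (hA : MeasurableSet A) (Δ : ℝ) : MeasurableSet (PS A Δ) := by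
  refine (measurable_fst hA).inter ?_
  refine (measurableSet_le (measurable_snd.sub_const Δ) measurable_fst).inter ?_
  exact measurableSet_le measurable_fst (measurable_snd.add_const Δ)

lemma int_PS {A : Set ℝ} (hA : MeasurableSet A) {Δ b L : ℝ} (hAs : A ⊆ Icc b (b + L))
    {F : ℝ → ℝ} (hF : Continuous F) :
    Integrable ((PS A Δ).indicator fun p => F p.2) ((volume : Measure ℝ).prod volume) := by
  rw [integrable_indicator_iff (meas_PS hA Δ)]
  have hc : Continuous fun p : ℝ × ℝ => F p.2 := hF.comp continuous_snd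
  have hK : IsCompact ((Icc b (b + L) : Set ℝ) ×ˢ (Icc (b - Δ) (b + L + Δ) : Set ℝ)) :=
    isCompact_Icc.prod isCompact_Icc
  have h1 : IntegrableOn (fun p : ℝ × ℝ => F p.2)
      ((Icc b (b + L) : Set ℝ) ×ˢ (Icc (b - Δ) (b + L + Δ) : Set ℝ))
      ((volume : Measure ℝ).prod volume) := hc.continuousOn.integrableOn_compact hK
  refine h1.mono_set ?_
  rintro ⟨x, y⟩ ⟨hx, h2, h3⟩
  have h4 := hAs hx
  simp only [mem_Icc] at h4 h2 h3
  simp only [mem_prod, mem_Icc]
  refine ⟨h4, ?_, ?_⟩ <;> linarith [h4.1, h4.2]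

lemma sec1 {A : Set ℝ} {Δ : ℝ} (hΔ : 0 < Δ) (F : ℝ → ℝ) (x : ℝ) :
    ∫ y, (PS A Δ).indicator (fun p => F p.2) (x, y) =
      A.indicator (fun x => ∫ h in (-Δ)..Δ, F (x + h)) x := by
  by_cases hx : x ∈ A
  · rw [indicator_of_mem hx, intervalIntegral.integral_comp_add_left F x,
      intervalIntegral.integral_of_le (by linarith), ← integral_Icc_eq_integral_Ioc,
      ← integral_indicator measurableSet_Icc]
    congr 1
    funext y
    by_cases hy : y ∈ Icc (x + -Δ) (x + Δ)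
    · rw [indicator_of_mem hy, indicator_of_mem]
      rw [mem_Icc] at hy
      exact ⟨hx, by linarith [hy.2], by linarith [hy.1]⟩
    · rw [indicator_of_notMem hy, indicator_of_notMem]
      rintro ⟨_, h2, h3⟩
      apply hy
      rw [mem_Icc]
      simp only at h2 h3
      constructor <;> linarith
  · rw [indicator_of_notMem hx]
    have : ∀ y, (PS A Δ).indicator (fun p => F p.2) (x, y) = 0 := by
      intro y
      rw [indicator_of_notMem]
      rintro ⟨h1, _⟩
      exact hx h1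
    simp only [this, integral_zero]

lemma sec2 {A : Set ℝ} (hA : MeasurableSet A) (Δ : ℝ) (F : ℝ → ℝ) (y : ℝ) :
    ∫ x, (PS A Δ).indicator (fun p => F p.2) (x, y) = rho A Δ y * F y := by
  have h1 : ∀ x, (PS A Δ).indicator (fun p => F p.2) (x, y) =
      (A ∩ Icc (y - Δ) (y + Δ)).indicator (fun _ => F y) x := by
    intro x
    by_cases hx : x ∈ A ∩ Icc (y - Δ) (y + Δ)
    · rw [indicator_of_mem hx, indicator_of_mem]
      exact ⟨hx.1, hx.2.1, hx.2.2⟩
    · rw [indicator_of_notMem hx, indicator_of_notMem]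
      rintro ⟨h1, h2, h3⟩
      exact hx ⟨h1, h2, h3⟩
  simp only [h1]
  rw [integral_indicator (hA.inter measurableSet_Icc), setIntegral_const, smul_eq_mul]
  rfl

lemma tonelli {A : Set ℝ} (hA : MeasurableSet A) {Δ b L : ℝ} (hΔ : 0 < Δ)
    (hAs : A ⊆ Icc b (b + L)) {F : ℝ → ℝ} (hF : Continuous F) :
    IntegrableOn (fun x => ∫ h in (-Δ)..Δ, F (x + h)) A ∧
    ∫ x in A, (∫ h in (-Δ)..Δ, F (x + h)) = ∫ y, rho A Δ y * F y := by
  have h0 := int_PS hA (Δ := Δ) hAs hF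
  constructor
  · rw [← integrable_indicator_iff hA]
    have h1 := h0.integral_prod_left
    refine h1.congr (Eventually.of_forall fun x => ?_)
    exact sec1 hΔ F x
  · rw [← integral_indicator hA]
    have h2 := integral_integral_swap (f := fun x y => (PS A Δ).indicator (fun p => F p.2) (x, y))
      (by simpa [Function.uncurry_def] using h0)
    simp only [sec1 hΔ, sec2 hA] at h2
    exact h2

lemma int_g {A : Set ℝ} (hA : MeasurableSet A) {Δ b L : ℝ} (hΔ : 0 < Δ)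
    (hAs : A ⊆ Icc b (b + L)) (X N : ℝ) (a : ℕ → ℂ) :
    Integrable (fun x => (rho A Δ x : ℂ) * (starRingEnd ℂ) (SS X N a x)) := by
  have hc : Continuous (fun x => (starRingEnd ℂ) (SS X N a x)) :=
    Complex.continuous_conj.comp (cont_SS X N a)
  have h1 : IntegrableOn (fun x => (rho A Δ x : ℂ) * (starRingEnd ℂ) (SS X N a x))
      (Icc (b - Δ) (b + L + Δ)) := by
    have h2 : IntegrableOn (fun x => 2 * Δ * ‖(starRingEnd ℂ) (SS X N a x)‖)
        (Icc (b - Δ) (b + L + Δ)) := (continuous_const.mul hc.norm).integrableOn_Icc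
    refine h2.mono' ?_ (Eventually.of_forall fun x => ?_)
    · refine AEStronglyMeasurable.mul ?_ hc.aestronglyMeasurable
      exact (Complex.measurable_ofReal.comp (meas_rho hA Δ)).aestronglyMeasurable
    · rw [norm_mul, Complex.norm_real, Real.norm_of_nonneg (rho_nonneg _ _ _)]
      exact mul_le_mul_of_nonneg_right (rho_le hΔ x) (norm_nonneg _)
  rw [← integrableOn_iff_integrable_of_support_subset (s := Icc (b - Δ) (b + L + Δ))]
  · exact h1
  · intro x hx
    by_contra hx2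
    apply hx
    simp only
    rw [rho_zero hAs hx2]
    simp

end VA_aux

open VA_aux in
theorem iVA : StVA := by
  intro X N V Δ τ b L a A hN hX hV hΔ hτ ha hA hAs hms
  have hS := cont_SS X N a
  have hF : Continuous fun x => ‖SS X N a x‖ ^ 2 := hS.norm.pow 2
  have hfin : volume A ≠ ⊤ := ((measure_mono hAs).trans_lt (by simp)).ne
  obtain ⟨hT1, hT2⟩ := tonelli hA hΔ hAs hF
  change V ^ 2 * τ * Rr A ≤ ∫ y, rho A Δ y * ‖SS X N a y‖ ^ 2 ∧
    (∫ y, rho A Δ y * ‖SS X N a y‖ ^ 2) ^ 2 ≤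
    2 * N * ‖∫ x, ∫ y, ((rho A Δ x : ℂ) * (starRingEnd ℂ) (SS X N a x)) *
      (starRingEnd ℂ) ((rho A Δ y : ℂ) * (starRingEnd ℂ) (SS X N a y)) * KS X N (x - y)‖
  have hg := int_g hA hΔ hAs X N a
  constructor
  · rw [← hT2]
    have e2 : ∫ _x in A, V ^ 2 * τ = V ^ 2 * τ * Rr A := by
      rw [setIntegral_const, smul_eq_mul, mul_comm]
      rfl
    rw [← e2]
    exact setIntegral_mono_on (integrableOn_const hfin) hT1 hA hms
  · rw [double (g := fun x => (rho A Δ x : ℂ) * (starRingEnd ℂ) (SS X N a x)) hN hg]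
    set g : ℝ → ℂ := fun x => (rho A Δ x : ℂ) * (starRingEnd ℂ) (SS X N a x) with hgdef
    have hD0 : 0 ≤ ∫ y, rho A Δ y * ‖SS X N a y‖ ^ 2 :=
      integral_nonneg fun y => mul_nonneg (rho_nonneg _ _ _) (sq_nonneg _)
    have h1 : ∫ y, rho A Δ y * ‖SS X N a y‖ ^ 2 ≤
        ∑ n ∈ Finset.Ioc ⌊N⌋₊ ⌊2 * N⌋₊, ‖BB g (vv X n)‖ := by
      have e3 : ((∫ y, rho A Δ y * ‖SS X N a y‖ ^ 2 : ℝ) : ℂ) =
          ∑ n ∈ Finset.Ioc ⌊N⌋₊ ⌊2 * N⌋₊, a n * BB g (vv X n) := by
        rw [← integral_complex_ofReal]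
        have e4 : ∀ x, ((rho A Δ x * ‖SS X N a x‖ ^ 2 : ℝ) : ℂ) =
            ∑ n ∈ Finset.Ioc ⌊N⌋₊ ⌊2 * N⌋₊, a n * gg g (vv X n) x := by
          intro x
          have e5 : ((rho A Δ x * ‖SS X N a x‖ ^ 2 : ℝ) : ℂ) = g x * SS X N a x := by
            rw [hgdef]
            simp only
            rw [mul_assoc, Complex.conj_mul']
            push_cast
            ring
          rw [e5]
          conv_lhs => rw [SS]
          rw [Finset.mul_sum]
          refine Finset.sum_congr rfl fun n _ => ?_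
          unfold gg
          ring
        simp only [e4]
        rw [integral_finsetSum]
        · refine Finset.sum_congr rfl fun n _ => ?_
          rw [integral_const_mul]
          rfl
        · intro n _
          exact (int_gg hg (vv X n)).const_mul _
      have e5 : ∫ y, rho A Δ y * ‖SS X N a y‖ ^ 2 =
          ‖((∫ y, rho A Δ y * ‖SS X N a y‖ ^ 2 : ℝ) : ℂ)‖ := by
        rw [Complex.norm_real, Real.norm_of_nonneg hD0]
      rw [e5, e3]
      refine (norm_sum_le _ _).trans (Finset.sum_le_sum fun n _ => ?_)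
      rw [norm_mul]
      exact mul_le_of_le_one_left (norm_nonneg _) (ha n)
    have h2 : (∫ y, rho A Δ y * ‖SS X N a y‖ ^ 2) ^ 2 ≤
        (∑ n ∈ Finset.Ioc ⌊N⌋₊ ⌊2 * N⌋₊, ‖BB g (vv X n)‖) ^ 2 :=
      pow_le_pow_left₀ hD0 h1 2
    have h3 : (∑ n ∈ Finset.Ioc ⌊N⌋₊ ⌊2 * N⌋₊, ‖BB g (vv X n)‖) ^ 2 ≤
        ((Finset.Ioc ⌊N⌋₊ ⌊2 * N⌋₊).card : ℝ) *
          ∑ n ∈ Finset.Ioc ⌊N⌋₊ ⌊2 * N⌋₊, ‖BB g (vv X n)‖ ^ 2 :=
      sq_sum_le_card_mul_sum_sq
    have hN0 : 0 ≤ N := by linarith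
    have h4 : ((Finset.Ioc ⌊N⌋₊ ⌊2 * N⌋₊).card : ℝ) ≤ 2 * N := by
      rw [Nat.card_Ioc]
      refine le_trans ?_ (Nat.floor_le (by linarith : (0 : ℝ) ≤ 2 * N))
      exact_mod_cast Nat.sub_le _ _
    have h5 : ∑ n ∈ Finset.Ioc ⌊N⌋₊ ⌊2 * N⌋₊, ‖BB g (vv X n)‖ ^ 2 ≤
        ∑ n ∈ FR N, om ((n : ℝ) / N) * ‖BB g (vv X n)‖ ^ 2 := by
      calc ∑ n ∈ Finset.Ioc ⌊N⌋₊ ⌊2 * N⌋₊, ‖BB g (vv X n)‖ ^ 2
          = ∑ n ∈ Finset.Ioc ⌊N⌋₊ ⌊2 * N⌋₊, om ((n : ℝ) / N) * ‖BB g (vv X n)‖ ^ 2 := by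
            refine Finset.sum_congr rfl fun n hn => ?_
            rw [Finset.mem_Ioc] at hn
            have g1 : N < n := (Nat.floor_lt hN0).mp hn.1
            have g2 : (n : ℝ) ≤ 2 * N := (Nat.le_floor_iff (by linarith)).mp hn.2
            rw [om_one, one_mul]
            · rw [le_div_iff₀ (by linarith)]
              linarith
            · rw [div_le_iff₀ (by linarith)]
              exact g2
        _ ≤ ∑ n ∈ FR N, om ((n : ℝ) / N) * ‖BB g (vv X n)‖ ^ 2 := by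
            refine Finset.sum_le_sum_of_subset_of_nonneg ?_ fun n _ _ =>
              mul_nonneg (om_nonneg _) (sq_nonneg _)
            intro n hn
            rw [Finset.mem_Ioc] at hn
            rw [FR, Finset.mem_range, Nat.lt_succ_iff]
            have g2 : (n : ℝ) ≤ 2 * N := (Nat.le_floor_iff (by linarith)).mp hn.2
            have g3 : (n : ℝ) ≤ (⌈5 / 2 * N⌉₊ : ℝ) := by
              refine le_trans ?_ (Nat.le_ceil _)
              linarith
            exact_mod_cast g3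
    rw [Complex.norm_real, Real.norm_of_nonneg (Finset.sum_nonneg fun n _ =>
      mul_nonneg (om_nonneg _) (sq_nonneg _))]
    calc (∫ y, rho A Δ y * ‖SS X N a y‖ ^ 2) ^ 2 ≤ _ := h2
      _ ≤ _ := h3
      _ ≤ 2 * N * ∑ n ∈ Finset.Ioc ⌊N⌋₊ ⌊2 * N⌋₊, ‖BB g (vv X n)‖ ^ 2 :=
          mul_le_mul_of_nonneg_right h4 (Finset.sum_nonneg fun _ _ => sq_nonneg _)
      _ ≤ _ := mul_le_mul_of_nonneg_left h5 (by linarith)

end Pool.Agent.Work.MP_56b8f5_nt.UV
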