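import Pool.Agent.Work.MP_56b8f5_nt.UV.Stmts
import Pool.Agent.Work.MP_56b8f5_nt.UV.I_VA

/-!
MP_56b8f5_nt, block UV, item VH (points with large local mean square).
-/

set_option autoImplicit false

open MeasureTheory Set Filter Topology

noncomputable section

namespace Pool.Agent.Work.MP_56b8f5_nt.UV

open Pool.Agent.Work.MP_56b8f5_nt.UB

namespace VH_aux

open VA_aux

/-- sets of bounded multiplicity -/
lemma sum_mult (S : Finset ℕ) (E : ℕ → Set ℝ) (J : Set ℝ) (hE : ∀ k, MeasurableSet (E k))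
    (hJ : MeasurableSet J) (hfin : volume J ≠ ⊤) (hsub : ∀ k ∈ S, E k ⊆ J)
    (hm : ∀ x, ∑ k ∈ S, (E k).indicator (fun _ => (1 : ℝ)) x ≤ 4) :
    ∑ k ∈ S, Rr (E k) ≤ 4 * Rr J := by
  have e1 : ∀ k, Rr (E k) = ∫ x, (E k).indicator (fun _ => (1 : ℝ)) x := by
    intro k
    rw [integral_indicator_const _ (hE k)]
    simp [Rr, Measure.real]
  have e2 : Rr J = ∫ x, J.indicator (fun _ => (1 : ℝ)) x := by
    rw [integral_indicator_const _ hJ]
    simp [Rr, Measure.real]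
  have hint : ∀ k ∈ S, Integrable ((E k).indicator (fun _ => (1 : ℝ))) := by
    intro k hk
    rw [integrable_indicator_iff (hE k)]
    exact integrableOn_const ((measure_mono (hsub k hk)).trans_lt hfin.lt_top).ne
  have hintJ : Integrable (J.indicator (fun _ => (1 : ℝ))) := by
    rw [integrable_indicator_iff hJ]
    exact integrableOn_const hfin
  simp only [e1]
  rw [e2, ← integral_finsetSum _ hint, ← integral_const_mul]
  refine integral_mono (integrable_finsetSum _ hint) (hintJ.const_mul 4) fun x => ?_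
  by_cases hx : x ∈ J
  · simp only [indicator_of_mem hx, mul_one]
    exact hm x
  · simp only [indicator_of_notMem hx, mul_zero]
    apply le_of_eq
    refine Finset.sum_eq_zero fun k hk => ?_
    rw [indicator_of_notMem]
    exact fun h => hx (hsub k hk h)

lemma count (S : Finset ℕ) {Δ : ℝ} (hΔ : 0 < Δ) (c x : ℝ) :
    ((S.filter fun k : ℕ => x ∈ Icc (c + k * Δ - Δ) (c + (k + 1) * Δ + Δ)).card : ℝ) ≤ 4 := by
  have h1 : (S.filter fun k : ℕ => x ∈ Icc (c + k * Δ - Δ) (c + (k + 1) * Δ + Δ)).card ≤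
      (Finset.Icc ⌈(x - c) / Δ - 2⌉ (⌈(x - c) / Δ - 2⌉ + 3)).card := by
    refine Finset.card_le_card_of_injOn (fun k : ℕ => (k : ℤ)) ?_ ?_
    · intro k hk
      rw [Finset.mem_coe, Finset.mem_filter, mem_Icc] at hk
      obtain ⟨-, h2, h3⟩ := hk
      rw [Finset.mem_coe, Finset.mem_Icc]
      constructor
      · rw [Int.ceil_le]
        have : (x - c) / Δ ≤ k + 2 := by
          rw [div_le_iff₀ hΔ]; linarith
        push_cast
        linarith
      · have h4 : (k : ℝ) - 1 ≤ (x - c) / Δ := by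
          rw [le_div_iff₀ hΔ]; linarith
        have h5 := Int.le_ceil ((x - c) / Δ - 2)
        have : (k : ℝ) ≤ ((⌈(x - c) / Δ - 2⌉ + 3 : ℤ) : ℝ) := by
          push_cast
          linarith
        exact_mod_cast this
    · intro a _ b _ h
      exact Int.ofNat.inj h
  have h2 : (Finset.Icc ⌈(x - c) / Δ - 2⌉ (⌈(x - c) / Δ - 2⌉ + 3)).card = 4 := by
    rw [Int.card_Icc]
    have : ⌈(x - c) / Δ - 2⌉ + 3 + 1 - ⌈(x - c) / Δ - 2⌉ = 4 := by ring
    rw [this]
    rfl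
  rw [h2] at h1
  exact_mod_cast h1

/-- the local masses of the blocks -/
def rk (A : Set ℝ) (Δ c : ℝ) (k : ℕ) : ℝ :=
  Rr (A ∩ Icc (c + k * Δ - Δ) (c + (k + 1) * Δ + Δ))

lemma rk_nonneg (A : Set ℝ) (Δ c : ℝ) (k : ℕ) : 0 ≤ rk A Δ c k := ENNReal.toReal_nonneg

lemma Rr_mono {A B : Set ℝ} (h : A ⊆ B) (hB : volume B ≠ ⊤) : Rr A ≤ Rr B :=
  ENNReal.toReal_mono hB (measure_mono h)

lemma rk_sum (S : Finset ℕ) {A : Set ℝ} (hA : MeasurableSet A) {Δ : ℝ} (hΔ : 0 < Δ)
    (c lo hi : ℝ) (h : ∀ k ∈ S, lo ≤ c + k * Δ - Δ ∧ c + (k + 1) * Δ + Δ ≤ hi) :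
    ∑ k ∈ S, rk A Δ c k ≤ 4 * Rr (A ∩ Icc lo hi) := by
  refine sum_mult S (fun k => A ∩ Icc (c + k * Δ - Δ) (c + (k + 1) * Δ + Δ)) (A ∩ Icc lo hi)
    (fun k => hA.inter measurableSet_Icc) (hA.inter measurableSet_Icc) ?_ ?_ ?_
  · exact ((measure_mono inter_subset_right).trans_lt (by simp)).ne
  · intro k hk
    exact inter_subset_inter_right _ (Icc_subset_Icc (h k hk).1 (h k hk).2)
  · intro x
    refine le_trans ?_ (count S hΔ c x)
    rw [Finset.card_filter]
    push_cast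
    refine Finset.sum_le_sum fun k _ => ?_
    by_cases h : x ∈ Icc (c + k * Δ - Δ) (c + (k + 1) * Δ + Δ)
    · rw [if_pos h]
      exact indicator_le_self' (fun _ _ => zero_le_one) x
    · rw [if_neg h, indicator_of_notMem]
      exact fun h2 => h h2.2

/-- dyadic summation -/
lemma dyadic (S : Finset ℕ) (r u : ℕ → ℝ) (c A0 : ℝ) (hr : ∀ k, 0 ≤ r k) (hc : 0 ≤ c)
    (h1 : ∀ s : ℝ, 1 / 8 ≤ s → ∑ k ∈ S.filter (fun k => u k ≤ s), r k ≤ c * s)
    (h2 : ∑ k ∈ S, r k ≤ A0) (n : ℕ) :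
    ∑ k ∈ S, (if 1 / 8 < u k then Real.sqrt (1 / u k) * r k else 0) ≤
      2 * c * Real.sqrt (2 ^ n) + Real.sqrt (8 / 2 ^ n) * A0 := by
  have hstep : ∀ n : ℕ, ∑ k ∈ S.filter (fun k => u k ≤ 2 ^ n / 8),
      (if 1 / 8 < u k then Real.sqrt (1 / u k) * r k else 0) ≤ 2 * c * Real.sqrt (2 ^ n) := by
    intro n
    induction n with
    | zero =>
      rw [pow_zero]
      have : ∑ k ∈ S.filter (fun k => u k ≤ 1 / 8),
          (if 1 / 8 < u k then Real.sqrt (1 / u k) * r k else 0) = 0 := by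
        refine Finset.sum_eq_zero fun k hk => ?_
        rw [Finset.mem_filter] at hk
        rw [if_neg (not_lt.mpr hk.2)]
      rw [this]
      positivity
    | succ n ih =>
      have hp : (0 : ℝ) < 2 ^ n := by positivity
      have hsplit : ∑ k ∈ S.filter (fun k => u k ≤ 2 ^ (n + 1) / 8),
          (if 1 / 8 < u k then Real.sqrt (1 / u k) * r k else 0) ≤
          ∑ k ∈ S.filter (fun k => u k ≤ 2 ^ n / 8),
            (if 1 / 8 < u k then Real.sqrt (1 / u k) * r k else 0) +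
          ∑ k ∈ S.filter (fun k => u k ≤ 2 ^ (n + 1) / 8), Real.sqrt (8 / 2 ^ n) * r k := by
        rw [Finset.sum_filter, Finset.sum_filter, Finset.sum_filter, ← Finset.sum_add_distrib]
        refine Finset.sum_le_sum fun k _ => ?_
        have hrk := hr k
        have hs := Real.sqrt_nonneg (8 / 2 ^ n)
        have hs' := Real.sqrt_nonneg (1 / u k)
        have hnn : 0 ≤ (if 1 / 8 < u k then Real.sqrt (1 / u k) * r k else 0) := by
          split_ifs <;> positivity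
        by_cases a1 : u k ≤ 2 ^ n / 8
        · have a2 : u k ≤ 2 ^ (n + 1) / 8 := by
            refine a1.trans ?_
            rw [pow_succ]
            linarith
          rw [if_pos a1, if_pos a2, if_pos a2]
          have := mul_nonneg hs hrk
          linarith
        · rw [if_neg a1]
          by_cases a2 : u k ≤ 2 ^ (n + 1) / 8
          · rw [if_pos a2, if_pos a2, zero_add]
            push Not at a1
            split_ifs
            · refine mul_le_mul_of_nonneg_right (Real.sqrt_le_sqrt ?_) hrk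
              rw [div_le_div_iff₀ (by linarith) hp]
              linarith
            · positivity
          · rw [if_neg a2, if_neg a2]
            simp
      refine hsplit.trans ?_
      rw [← Finset.mul_sum]
      have b1 := h1 (2 ^ (n + 1) / 8) (by
        rw [pow_succ]
        have : (1 : ℝ) ≤ 2 ^ n := one_le_pow₀ (by norm_num)
        linarith)
      have b2 : Real.sqrt (8 / 2 ^ n) * ∑ k ∈ S.filter (fun k => u k ≤ 2 ^ (n + 1) / 8), r k ≤
          Real.sqrt (8 / 2 ^ n) * (c * (2 ^ (n + 1) / 8)) :=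
        mul_le_mul_of_nonneg_left b1 (Real.sqrt_nonneg _)
      set y : ℝ := Real.sqrt (2 ^ n) with hy
      have hy0 : 0 < y := Real.sqrt_pos.mpr hp
      have hy2 : y ^ 2 = 2 ^ n := Real.sq_sqrt hp.le
      have e1 : Real.sqrt (2 ^ (n + 1)) = y * Real.sqrt 2 := by
        rw [pow_succ, Real.sqrt_mul hp.le]
      have e2 : Real.sqrt (8 / 2 ^ n) = 2 * Real.sqrt 2 / y := by
        rw [Real.sqrt_div (by norm_num), show (8 : ℝ) = 2 ^ 2 * 2 by norm_num,
          Real.sqrt_mul (by norm_num), Real.sqrt_sq (by norm_num)]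
      rw [e2] at b2 ⊢
      rw [e1]
      have e3 : 2 * Real.sqrt 2 / y * (c * (2 ^ (n + 1) / 8)) = c * y * (Real.sqrt 2 / 2) := by
        rw [pow_succ, ← hy2]
        field_simp
        norm_num
        ring
      rw [e3] at b2
      have hq : (1.4 : ℝ) ≤ Real.sqrt 2 := Real.le_sqrt_of_sq_le (by norm_num)
      have hcy : 0 ≤ c * y := by positivity
      nlinarith
  have hp : (0 : ℝ) < 2 ^ n := by positivity
  have hsplit : ∑ k ∈ S, (if 1 / 8 < u k then Real.sqrt (1 / u k) * r k else 0) ≤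
      ∑ k ∈ S.filter (fun k => u k ≤ 2 ^ n / 8),
        (if 1 / 8 < u k then Real.sqrt (1 / u k) * r k else 0) +
      ∑ k ∈ S, Real.sqrt (8 / 2 ^ n) * r k := by
    rw [Finset.sum_filter, ← Finset.sum_add_distrib]
    refine Finset.sum_le_sum fun k _ => ?_
    have hrk := hr k
    have hs := Real.sqrt_nonneg (8 / 2 ^ n)
    by_cases a1 : u k ≤ 2 ^ n / 8
    · rw [if_pos a1]
      have := mul_nonneg hs hrk
      linarith
    · rw [if_neg a1, zero_add]
      push Not at a1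
      split_ifs
      · refine mul_le_mul_of_nonneg_right (Real.sqrt_le_sqrt ?_) hrk
        rw [div_le_div_iff₀ (by linarith) hp]
        linarith
      · positivity
  rw [← Finset.mul_sum] at hsplit
  have := hstep n
  have h3 := mul_le_mul_of_nonneg_left h2 (Real.sqrt_nonneg (8 / 2 ^ n))
  linarith

lemma norm_SS_le {X N : ℝ} (hN : 1 ≤ N) {a : ℕ → ℂ} (ha : ∀ n, ‖a n‖ ≤ 1) (x : ℝ) :
    ‖SS X N a x‖ ≤ 2 * N := by
  unfold SS
  refine (norm_sum_le _ _).trans ?_
  calc ∑ n ∈ Finset.Ioc ⌊N⌋₊ ⌊2 * N⌋₊, ‖a n * ee (x * vv X n)‖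
      ≤ ∑ _n ∈ Finset.Ioc ⌊N⌋₊ ⌊2 * N⌋₊, (1 : ℝ) := by
        refine Finset.sum_le_sum fun n _ => ?_
        rw [norm_mul, norm_ee, mul_one]
        exact ha n
    _ = ((Finset.Ioc ⌊N⌋₊ ⌊2 * N⌋₊).card : ℝ) := by simp
    _ ≤ 2 * N := by
        rw [Nat.card_Ioc]
        refine le_trans ?_ (Nat.floor_le (by linarith : (0 : ℝ) ≤ 2 * N))
        exact_mod_cast Nat.sub_le _ _

/-- the density `ρ |S| ^ 2` -/
def ff (X N : ℝ) (a : ℕ → ℂ) (A : Set ℝ) (Δ y : ℝ) : ℝ := rho A Δ y * ‖SS X N a y‖ ^ 2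

lemma ff_nonneg (X N : ℝ) (a : ℕ → ℂ) (A : Set ℝ) (Δ y : ℝ) : 0 ≤ ff X N a A Δ y :=
  mul_nonneg (rho_nonneg _ _ _) (sq_nonneg _)

lemma meas_ff {A : Set ℝ} (hA : MeasurableSet A) (X N : ℝ) (a : ℕ → ℂ) (Δ : ℝ) :
    Measurable (ff X N a A Δ) :=
  (meas_rho hA Δ).mul (((cont_SS X N a).norm.pow 2).measurable)

lemma int_ff {A : Set ℝ} (hA : MeasurableSet A) {Δ b L : ℝ} (hΔ : 0 < Δ)
    (hAs : A ⊆ Icc b (b + L)) (X N : ℝ) (a : ℕ → ℂ) : Integrable (ff X N a A Δ) := by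
  have hc : Continuous (fun x => ‖SS X N a x‖ ^ 2) := (cont_SS X N a).norm.pow 2
  have h1 : IntegrableOn (ff X N a A Δ) (Icc (b - Δ) (b + L + Δ)) := by
    have h2 : IntegrableOn (fun x => 2 * Δ * ‖SS X N a x‖ ^ 2)
        (Icc (b - Δ) (b + L + Δ)) := (continuous_const.mul hc).integrableOn_Icc
    refine h2.mono' (meas_ff hA X N a Δ).aestronglyMeasurable (Eventually.of_forall fun x => ?_)
    rw [Real.norm_of_nonneg (ff_nonneg _ _ _ _ _ _)]
    exact mul_le_mul_of_nonneg_right (rho_le hΔ x) (sq_nonneg _)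
  rw [← integrableOn_iff_integrable_of_support_subset (s := Icc (b - Δ) (b + L + Δ))]
  · exact h1
  · intro x hx
    by_contra hx2
    apply hx
    unfold ff
    rw [rho_zero hAs hx2, zero_mul]

/-- the function `g` -/
def g0 (X N : ℝ) (a : ℕ → ℂ) (A : Set ℝ) (Δ x : ℝ) : ℂ :=
  (rho A Δ x : ℂ) * (starRingEnd ℂ) (SS X N a x)

lemma norm_g0 (X N : ℝ) (a : ℕ → ℂ) (A : Set ℝ) (Δ x : ℝ) :
    ‖g0 X N a A Δ x‖ ^ 2 = rho A Δ x * ff X N a A Δ x := by
  unfold g0 ff
  rw [norm_mul, Complex.norm_real, Real.norm_of_nonneg (rho_nonneg _ _ _), RCLike.norm_conj]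
  ring

lemma meas_g0 {A : Set ℝ} (hA : MeasurableSet A) (X N : ℝ) (a : ℕ → ℂ) (Δ : ℝ) :
    Measurable (g0 X N a A Δ) :=
  (Complex.measurable_ofReal.comp (meas_rho hA Δ)).mul
    (Complex.continuous_conj.comp (cont_SS X N a)).measurable

/-- the blocks of `D` -/
def Dk (X N : ℝ) (a : ℕ → ℂ) (A : Set ℝ) (Δ c : ℝ) (k : ℕ) : ℝ :=
  ∫ y in (c + k * Δ)..(c + (k + 1) * Δ), ff X N a A Δ y

lemma Dk_nonneg (X N : ℝ) (a : ℕ → ℂ) (A : Set ℝ) {Δ : ℝ} (hΔ : 0 < Δ) (c : ℝ) (k : ℕ) :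
    0 ≤ Dk X N a A Δ c k := by
  unfold Dk
  refine intervalIntegral.integral_nonneg ?_ fun y _ => ff_nonneg _ _ _ _ _ _
  nlinarith

lemma GB_le {A : Set ℝ} (hA : MeasurableSet A) {Δ b L : ℝ} (hΔ : 0 < Δ)
    (hAs : A ⊆ Icc b (b + L)) (X N : ℝ) (a : ℕ → ℂ) (c : ℝ) (k : ℕ) :
    GB (g0 X N a A Δ) c Δ k ≤ Real.sqrt (rk A Δ c k) * Real.sqrt (Dk X N a A Δ c k) := by
  have hle : c + (k : ℝ) * Δ ≤ c + ((k : ℝ) + 1) * Δ := by nlinarith
  unfold GB
  rw [← Real.sqrt_mul (rk_nonneg _ _ _ _)]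
  refine Real.sqrt_le_sqrt ?_
  unfold Dk
  rw [← intervalIntegral.integral_const_mul]
  have hff := int_ff hA hΔ hAs X N a
  have hle2 : ∀ x, ‖g0 X N a A Δ x‖ ^ 2 ≤ 2 * Δ * ff X N a A Δ x := by
    intro x
    rw [norm_g0]
    exact mul_le_mul_of_nonneg_right (rho_le hΔ x) (ff_nonneg _ _ _ _ _ _)
  have hg : Integrable fun x => ‖g0 X N a A Δ x‖ ^ 2 := by
    refine (hff.const_mul (2 * Δ)).mono' ?_ (Eventually.of_forall fun x => ?_)
    · exact ((meas_g0 hA X N a Δ).norm.pow_const 2).aestronglyMeasurable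
    · rw [Real.norm_of_nonneg (sq_nonneg _)]
      exact hle2 x
  refine intervalIntegral.integral_mono_on hle hg.intervalIntegrable
    (hff.const_mul _).intervalIntegrable fun x hx => ?_
  rw [norm_g0]
  refine mul_le_mul_of_nonneg_right ?_ (ff_nonneg _ _ _ _ _ _)
  unfold rho rk
  refine Rr_mono ?_ ?_
  · refine inter_subset_inter_right _ (Icc_subset_Icc ?_ ?_) <;> linarith [hx.1, hx.2]
  · exact ((measure_mono inter_subset_right).trans_lt (by simp)).ne

lemma sum_Dk {A : Set ℝ} (hA : MeasurableSet A) {Δ b L : ℝ} (hΔ : 0 < Δ)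
    (hAs : A ⊆ Icc b (b + L)) (X N : ℝ) (a : ℕ → ℂ) (c : ℝ) (K : ℕ) :
    ∑ k ∈ Finset.range K, Dk X N a A Δ c k ≤ ∫ y, ff X N a A Δ y := by
  have hff := int_ff hA hΔ hAs X N a
  have h1 := intervalIntegral.sum_integral_adjacent_intervals (μ := volume)
    (f := ff X N a A Δ) (a := fun k : ℕ => c + k * Δ) (n := K)
    (fun k _ => hff.intervalIntegrable)
  have h2 : ∑ k ∈ Finset.range K, Dk X N a A Δ c k =
      ∫ y in (c + (0 : ℕ) * Δ)..(c + K * Δ), ff X N a A Δ y := by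
    rw [← h1]
    refine Finset.sum_congr rfl fun k _ => ?_
    unfold Dk
    push_cast
    rfl
  rw [h2, intervalIntegral.integral_of_le (by
    have : (0 : ℝ) ≤ K * Δ := by positivity
    push_cast
    linarith)]
  exact setIntegral_le_integral hff (Eventually.of_forall fun y => ff_nonneg _ _ _ _ _ _)

/-- the double sum -/
lemma dsum (K : ℕ) (G r D : ℕ → ℝ) (w : ℕ → ℕ → ℝ) (P : ℝ) (hG : ∀ k, 0 ≤ G k)
    (hr : ∀ k, 0 ≤ r k) (hD : ∀ k, 0 ≤ D k) (hw : ∀ k l, 0 ≤ w k l)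
    (hsym : ∀ k l, w k l = w l k) (hGr : ∀ k, G k ≤ Real.sqrt (r k) * Real.sqrt (D k))
    (hP : ∀ l ∈ Finset.range K, ∑ k ∈ Finset.range K, w k l * r k ≤ P) :
    ∑ k ∈ Finset.range K, ∑ l ∈ Finset.range K, w k l * (G k * G l) ≤
      (∑ l ∈ Finset.range K, D l) * P := by
  have h1 : ∀ k l, w k l * (G k * G l) ≤ 1 / 2 * (w k l * r k * D l) + 1 / 2 * (w l k * r l * D k) := by
    intro k l
    have a1 : G k * G l ≤ (Real.sqrt (r k) * Real.sqrt (D k)) * (Real.sqrt (r l) * Real.sqrt (D l)) :=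
      mul_le_mul (hGr k) (hGr l) (hG l) (by positivity)
    have a2 : (Real.sqrt (r k) * Real.sqrt (D k)) * (Real.sqrt (r l) * Real.sqrt (D l)) ≤
        1 / 2 * (r k * D l) + 1 / 2 * (r l * D k) := by
      have e1 := Real.sq_sqrt (hr k)
      have e2 := Real.sq_sqrt (hr l)
      have e3 := Real.sq_sqrt (hD k)
      have e4 := Real.sq_sqrt (hD l)
      have := sq_nonneg (Real.sqrt (r k) * Real.sqrt (D l) - Real.sqrt (r l) * Real.sqrt (D k))
      calc _ = (Real.sqrt (r k) * Real.sqrt (D l)) * (Real.sqrt (r l) * Real.sqrt (D k)) := by ring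
        _ ≤ 1 / 2 * (Real.sqrt (r k) * Real.sqrt (D l)) ^ 2 +
            1 / 2 * (Real.sqrt (r l) * Real.sqrt (D k)) ^ 2 := by nlinarith
        _ = _ := by rw [mul_pow, mul_pow, e1, e2, e3, e4]
    have a3 := mul_le_mul_of_nonneg_left (a1.trans a2) (hw k l)
    rw [hsym l k]
    linarith
  calc ∑ k ∈ Finset.range K, ∑ l ∈ Finset.range K, w k l * (G k * G l)
      ≤ ∑ k ∈ Finset.range K, ∑ l ∈ Finset.range K,
          (1 / 2 * (w k l * r k * D l) + 1 / 2 * (w l k * r l * D k)) :=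
        Finset.sum_le_sum fun k _ => Finset.sum_le_sum fun l _ => h1 k l
    _ = 1 / 2 * (∑ l ∈ Finset.range K, (∑ k ∈ Finset.range K, w k l * r k) * D l) +
        1 / 2 * (∑ k ∈ Finset.range K, (∑ l ∈ Finset.range K, w l k * r l) * D k) := by
        simp only [Finset.sum_add_distrib, ← Finset.mul_sum, ← Finset.sum_mul]
        congr 2
        rw [Finset.sum_comm]
        simp only [← Finset.sum_mul]
    _ ≤ 1 / 2 * (∑ l ∈ Finset.range K, P * D l) + 1 / 2 * (∑ k ∈ Finset.range K, P * D k) := by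
        have : ∑ l ∈ Finset.range K, (∑ k ∈ Finset.range K, w k l * r k) * D l ≤
            ∑ l ∈ Finset.range K, P * D l :=
          Finset.sum_le_sum fun l hl => mul_le_mul_of_nonneg_right (hP l hl) (hD l)
        linarith
    _ = _ := by rw [← Finset.mul_sum]; ring

/-- the weight in StBk -/
def ww (N Δ : ℝ) (k l : ℕ) : ℝ :=
  if Real.sqrt N / 8 < |(k : ℝ) - l| * Δ then Real.sqrt (Real.sqrt N / (|(k : ℝ) - l| * Δ)) else 0

lemma ww_nonneg (N Δ : ℝ) (k l : ℕ) : 0 ≤ ww N Δ k l := by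
  unfold ww
  split_ifs
  · exact Real.sqrt_nonneg _
  · exact le_rfl

lemma ww_symm (N Δ : ℝ) (k l : ℕ) : ww N Δ k l = ww N Δ l k := by
  unfold ww
  rw [abs_sub_comm]

/-- the bound for one row of the double sum -/
lemma row (CM N V Δ η c tA : ℝ) (A : Set ℝ) (hA : MeasurableSet A) (hN : 1 ≤ N)
    (hΔ : 0 < Δ) (hΔN : Δ ≤ Real.sqrt N / 64) (hη : 0 < η) (hCM : 1 ≤ CM) (K : ℕ)
    (hV : η = N * Real.sqrt N / V ^ 2)
    (hms : ∀ y j : ℝ, 1 / 8 ≤ j →
      Rr (A ∩ Icc y (y + j * Real.sqrt N)) ≤ CM * (N * Real.sqrt N / V ^ 2) * j)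
    (hfin : volume A ≠ ⊤) (htA : Rr A = tA) (hA1 : η ≤ tA) (l : ℕ) :
    ∑ k ∈ Finset.range K, ww N Δ k l * rk A Δ c k ≤ (24 * CM + 16) * Real.sqrt (η * tA) := by
  have hs : 0 < Real.sqrt N := Real.sqrt_pos.mpr (by linarith)
  have htA0 : 0 < tA := by linarith
  obtain ⟨n, hn1, hn2⟩ := exists_nat_pow_near (x := tA / η) (y := (2 : ℝ))
    (by rw [le_div_iff₀ hη]; linarith) (by norm_num)
  have hrow := dyadic (Finset.range K) (rk A Δ c) (fun k => |(k : ℝ) - l| * Δ / Real.sqrt N)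
    (12 * CM * η) (4 * tA) (rk_nonneg A Δ c) (by positivity) ?_ ?_ n
  · have e1 : ∀ k ∈ Finset.range K, ww N Δ k l * rk A Δ c k =
        (if 1 / 8 < |(k : ℝ) - l| * Δ / Real.sqrt N then
          Real.sqrt (1 / (|(k : ℝ) - l| * Δ / Real.sqrt N)) * rk A Δ c k else 0) := by
      intro k _
      unfold ww
      have : (Real.sqrt N / 8 < |(k : ℝ) - l| * Δ) ↔
          (1 / 8 < |(k : ℝ) - l| * Δ / Real.sqrt N) := by
        rw [lt_div_iff₀ hs]
        constructor <;> intro h <;> linarith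
      by_cases h : Real.sqrt N / 8 < |(k : ℝ) - l| * Δ
      · rw [if_pos h, if_pos (this.mp h), one_div_div]
      · rw [if_neg h, if_neg (fun h' => h (this.mpr h')), zero_mul]
    rw [Finset.sum_congr rfl e1]
    refine hrow.trans ?_
    have hp : (0 : ℝ) < 2 ^ n := by positivity
    have b1 : η * Real.sqrt (2 ^ n) ≤ Real.sqrt (η * tA) := by
      rw [show η * Real.sqrt (2 ^ n) = Real.sqrt (η ^ 2 * 2 ^ n) by
        rw [Real.sqrt_mul (by positivity), Real.sqrt_sq hη.le]]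
      refine Real.sqrt_le_sqrt ?_
      rw [le_div_iff₀ hη] at hn1
      nlinarith
    have b2 : Real.sqrt (8 / 2 ^ n) * tA ≤ 4 * Real.sqrt (η * tA) := by
      rw [show Real.sqrt (8 / 2 ^ n) * tA = Real.sqrt (8 / 2 ^ n * tA ^ 2) by
        rw [Real.sqrt_mul (by positivity), Real.sqrt_sq htA0.le],
        show 4 * Real.sqrt (η * tA) = Real.sqrt (4 ^ 2 * (η * tA)) by
        rw [Real.sqrt_mul (show (0 : ℝ) ≤ 4 ^ 2 by norm_num), Real.sqrt_sq (by norm_num)]]
      refine Real.sqrt_le_sqrt ?_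
      rw [div_mul_eq_mul_div, div_le_iff₀ hp]
      rw [div_lt_iff₀ hη, pow_succ] at hn2
      nlinarith
    calc 2 * (12 * CM * η) * Real.sqrt (2 ^ n) + Real.sqrt (8 / 2 ^ n) * (4 * tA)
        = 24 * CM * (η * Real.sqrt (2 ^ n)) + 4 * (Real.sqrt (8 / 2 ^ n) * tA) := by ring
      _ ≤ 24 * CM * Real.sqrt (η * tA) + 4 * (4 * Real.sqrt (η * tA)) := by gcongr
      _ = _ := by ring
  · intro s hs8
    have h1 := rk_sum ((Finset.range K).filter fun k => |(k : ℝ) - l| * Δ / Real.sqrt N ≤ s) hA hΔ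
      c (c + l * Δ - s * Real.sqrt N - Δ)
      (c + l * Δ - s * Real.sqrt N - Δ + (2 * s + 3 / 64) * Real.sqrt N) (by
        intro k hk
        rw [Finset.mem_filter, div_le_iff₀ hs] at hk
        have hk2 : |((k : ℝ) - l) * Δ| ≤ s * Real.sqrt N := by
          rw [abs_mul, abs_of_pos hΔ]
          exact hk.2
        rw [abs_le] at hk2
        constructor
        · linarith [hk2.1]
        · linarith [hk2.2])
    refine h1.trans ?_
    have h2 := hms (c + l * Δ - s * Real.sqrt N - Δ) (2 * s + 3 / 64) (by linarith)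
    rw [← hV] at h2
    have h3 : 4 * (CM * η * (2 * s + 3 / 64)) ≤ 12 * CM * η * s := by
      have : 0 < CM * η := by positivity
      nlinarith
    linarith
  · by_cases hK : K = 0
    · subst hK
      simp only [Finset.range_zero, Finset.sum_empty]
      positivity
    · have h1 := rk_sum (Finset.range K) hA hΔ c (c - Δ) (c + K * Δ + Δ) (by
        intro k hk
        rw [Finset.mem_range] at hk
        have h2 : ((k : ℝ) + 1) ≤ K := by exact_mod_cast hk
        have h3 : (0 : ℝ) ≤ k * Δ := by positivity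
        constructor
        · linarith
        · nlinarith)
      refine h1.trans ?_
      rw [← htA]
      exact mul_le_mul_of_nonneg_left (Rr_mono inter_subset_left hfin) (by norm_num)

end VH_aux

open VH_aux VA_aux in
theorem iVH (hVA : StVA) (hBk : StBk) (hMS : StMS) : StVH := by
  obtain ⟨CB, hCB, hBk⟩ := hBk
  obtain ⟨CM, hCM, hMS⟩ := hMS
  set CP : ℝ := 24 * CM + 16 with hCP
  have hCP0 : 0 < CP := by positivity
  refine ⟨32 * CB + 16 * CB ^ 2 * CP ^ 2 + CM, by nlinarith [sq_nonneg (CB * CP)], ?_⟩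
  intro X N M V Δ τ b η a A hN hX hCN hM hV hη hΔ1 hΔN hτ hCV ha hA hAs hVA' hms hρ
  have hCC : 0 ≤ 16 * CB ^ 2 * CP ^ 2 := by positivity
  have hN0 : 0 < N := by linarith
  have hs : 0 < Real.sqrt N := Real.sqrt_pos.mpr hN0
  have hs1 : 1 ≤ Real.sqrt N := by
    rw [Real.one_le_sqrt]; exact hN
  have hΔ : 0 < Δ := by
    by_contra h
    push Not at h
    nlinarith
  have hη0 : 0 < η := by rw [hη]; positivity
  have hfin : volume A ≠ ⊤ := ((measure_mono hAs).trans_lt (by simp)).ne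
  by_cases htriv : Rr A ≤ η
  · refine htriv.trans ?_
    have h1 : 0 ≤ η ^ 3 * Δ ^ 2 / τ ^ 2 := by positivity
    nlinarith
  push Not at htriv
  have htA0 : 0 < Rr A := by linarith
  -- the pieces
  obtain ⟨hD1, hD2⟩ := hVA X N V Δ τ b (M * Real.sqrt N) a A hN hX hV.le hΔ hτ.le ha hA hAs hms
  set D : ℝ := ∫ y, ff X N a A Δ y with hD
  have hD1' : V ^ 2 * τ * Rr A ≤ D := hD1
  have hDpos : 0 < D := lt_of_lt_of_le (by positivity) hD1'
  have hff := int_ff hA hΔ hAs X N a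
  have hMsq : Real.sqrt N ≤ M * Real.sqrt N := by nlinarith
  set K : ℕ := ⌊(M * Real.sqrt N + 2 * Δ) / Δ⌋₊ + 1 with hK
  have hK1 : M * Real.sqrt N + 2 * Δ < K * Δ := by
    rw [← div_lt_iff₀ hΔ, hK]
    push_cast
    exact Nat.lt_floor_add_one _
  have hK2 : K * Δ ≤ 4 * (M * Real.sqrt N) := by
    have : ((⌊(M * Real.sqrt N + 2 * Δ) / Δ⌋₊ : ℕ) : ℝ) ≤ (M * Real.sqrt N + 2 * Δ) / Δ :=
      Nat.floor_le (by positivity)
    rw [le_div_iff₀ hΔ] at this
    rw [hK]
    push_cast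
    nlinarith
  set c : ℝ := b - Δ with hc
  have hB := hBk X N M Δ c (2 * Δ * (2 * N)) K (g0 X N a A Δ) hN hX (by nlinarith) hM hΔ1 hΔN hK2
    (meas_g0 hA X N a Δ) (by
      intro x
      unfold g0
      rw [norm_mul, Complex.norm_real, Real.norm_of_nonneg (rho_nonneg _ _ _), RCLike.norm_conj]
      exact mul_le_mul (rho_le hΔ x) (norm_SS_le hN ha x) (norm_nonneg _) (by positivity)) (by
      intro x hx
      unfold g0
      rw [rho_zero hAs, Complex.ofReal_zero, zero_mul]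
      intro h
      apply hx
      rw [mem_Icc] at h
      rw [mem_Ico]
      constructor
      · exact h.1
      · rw [hc]; linarith [h.2])
  have hL2 : ∫ x, ‖g0 X N a A Δ x‖ ^ 2 ≤ 4 * τ * D := by
    rw [hD, ← integral_const_mul]
    refine integral_mono_of_nonneg (Eventually.of_forall fun x => sq_nonneg _)
      (hff.const_mul _) (Eventually.of_forall fun x => ?_)
    simp only
    rw [norm_g0]
    exact mul_le_mul_of_nonneg_right (hρ x) (ff_nonneg _ _ _ _ _ _)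
  have hGr := GB_le hA hΔ hAs X N a c
  have hsD := sum_Dk hA hΔ hAs X N a c K
  rw [← hD] at hsD
  have hrow : ∀ l ∈ Finset.range K, ∑ k ∈ Finset.range K, ww N Δ k l * rk A Δ c k ≤
      CP * Real.sqrt (η * Rr A) := fun l _ =>
    row CM N V Δ η c (Rr A) A hA hN hΔ hΔN hη0 hCM K hη
      (fun y j hj => (hMS X N a hN hX (by nlinarith) ha).2 V y j A hV hj hA hVA') hfin rfl
      htriv.le l
  have hGB0 : ∀ k, 0 ≤ GB (g0 X N a A Δ) c Δ k := fun k => Real.sqrt_nonneg _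
  have hdd := dsum K (GB (g0 X N a A Δ) c Δ) (rk A Δ c) (Dk X N a A Δ c) (ww N Δ)
    (CP * Real.sqrt (η * Rr A)) hGB0 (rk_nonneg A Δ c) (Dk_nonneg X N a A hΔ c)
    (ww_nonneg N Δ) (ww_symm N Δ) hGr hrow
  have hP0 : 0 ≤ CP * Real.sqrt (η * Rr A) := by positivity
  have hdd2 : ∑ k ∈ Finset.range K, ∑ l ∈ Finset.range K,
      (if Real.sqrt N / 8 < |(k : ℝ) - l| * Δ then
        Real.sqrt (Real.sqrt N / (|(k : ℝ) - l| * Δ)) *
          (GB (g0 X N a A Δ) c Δ k * GB (g0 X N a A Δ) c Δ l) else 0) ≤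
      D * (CP * Real.sqrt (η * Rr A)) := by
    calc _ = ∑ k ∈ Finset.range K, ∑ l ∈ Finset.range K, ww N Δ k l *
          (GB (g0 X N a A Δ) c Δ k * GB (g0 X N a A Δ) c Δ l) := by
          refine Finset.sum_congr rfl fun k _ => Finset.sum_congr rfl fun l _ => ?_
          unfold ww
          split_ifs <;> ring
      _ ≤ _ := hdd
      _ ≤ _ := mul_le_mul_of_nonneg_right hsD hP0
  -- the square of the sum
  have hsr : ∑ k ∈ Finset.range K, rk A Δ c k ≤ 4 * Rr A := by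
    have h1 := rk_sum (Finset.range K) hA hΔ c (c - Δ) (c + K * Δ + Δ) (by
      intro k hk
      rw [Finset.mem_range] at hk
      have h2 : ((k : ℝ) + 1) ≤ K := by exact_mod_cast hk
      have h3 : (0 : ℝ) ≤ k * Δ := by positivity
      constructor
      · linarith
      · nlinarith)
    refine h1.trans ?_
    exact mul_le_mul_of_nonneg_left (Rr_mono inter_subset_left hfin) (by norm_num)
  have hsq : (∑ k ∈ Finset.range K, GB (g0 X N a A Δ) c Δ k) ^ 2 ≤ 4 * Rr A * D := by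
    have h1 : ∑ k ∈ Finset.range K, GB (g0 X N a A Δ) c Δ k ≤
        ∑ k ∈ Finset.range K, Real.sqrt (rk A Δ c k) * Real.sqrt (Dk X N a A Δ c k) :=
      Finset.sum_le_sum fun k _ => hGr k
    have h0 : 0 ≤ ∑ k ∈ Finset.range K, GB (g0 X N a A Δ) c Δ k :=
      Finset.sum_nonneg fun k _ => hGB0 k
    have h2 := Finset.sum_mul_sq_le_sq_mul_sq (Finset.range K)
      (fun k => Real.sqrt (rk A Δ c k)) (fun k => Real.sqrt (Dk X N a A Δ c k))
    have h3 : ∑ k ∈ Finset.range K, Real.sqrt (rk A Δ c k) ^ 2 = ∑ k ∈ Finset.range K, rk A Δ c k :=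
      Finset.sum_congr rfl fun k _ => Real.sq_sqrt (rk_nonneg _ _ _ _)
    have h4 : ∑ k ∈ Finset.range K, Real.sqrt (Dk X N a A Δ c k) ^ 2 =
        ∑ k ∈ Finset.range K, Dk X N a A Δ c k :=
      Finset.sum_congr rfl fun k _ => Real.sq_sqrt (Dk_nonneg _ _ _ _ hΔ _ _)
    rw [h3, h4] at h2
    calc _ ≤ _ := pow_le_pow_left₀ h0 h1 2
      _ ≤ _ := h2
      _ ≤ 4 * Rr A * D := by
          refine mul_le_mul hsr hsD ?_ (by positivity)
          exact Finset.sum_nonneg fun k _ => Dk_nonneg _ _ _ _ hΔ _ _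
  -- put together
  set P : ℝ := CP * Real.sqrt (η * Rr A) with hP
  have hCB0 : 0 < CB := by linarith
  have hbig : D ^ 2 ≤ 2 * N * (CB * (Real.sqrt N * (4 * τ * D) + Real.sqrt M * (4 * Rr A * D) +
      Δ * Real.sqrt N * (D * P))) := by
    have hD2' : D ^ 2 ≤ 2 * N * ‖∫ x, ∫ y, g0 X N a A Δ x * (starRingEnd ℂ) (g0 X N a A Δ y) *
        KS X N (x - y)‖ := hD2
    refine hD2'.trans (mul_le_mul_of_nonneg_left (hB.trans ?_) (by positivity))
    refine mul_le_mul_of_nonneg_left ?_ hCB0.le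
    refine add_le_add (add_le_add ?_ ?_) ?_
    · exact mul_le_mul_of_nonneg_left hL2 hs.le
    · exact mul_le_mul_of_nonneg_left hsq (Real.sqrt_nonneg _)
    · exact mul_le_mul_of_nonneg_left hdd2 (by positivity)
  have hbig2 : D ≤ 2 * N * (CB * (Real.sqrt N * (4 * τ) + Real.sqrt M * (4 * Rr A) +
      Δ * Real.sqrt N * P)) := by
    have e : 2 * N * (CB * (Real.sqrt N * (4 * τ * D) + Real.sqrt M * (4 * Rr A * D) +
      Δ * Real.sqrt N * (D * P))) = D * (2 * N * (CB * (Real.sqrt N * (4 * τ) +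
      Real.sqrt M * (4 * Rr A) + Δ * Real.sqrt N * P))) := by ring
    rw [e, sq] at hbig
    exact le_of_mul_le_mul_left hbig hDpos
  have hCV2 : 16 * CB * (N * Real.sqrt M) ≤ V ^ 2 * τ := by
    refine le_trans ?_ hCV
    have : 0 ≤ N * Real.sqrt M := by positivity
    refine mul_le_mul_of_nonneg_right ?_ this
    linarith
  have hVt : 0 < V ^ 2 * τ := by positivity
  have hmid : V ^ 2 * τ * Rr A ≤ 16 * CB * (N * Real.sqrt N * τ) +
      4 * CB * (N * Real.sqrt N * Δ * P) := by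
    have h1 : 8 * CB * (N * Real.sqrt M) * Rr A ≤ V ^ 2 * τ * Rr A / 2 := by
      have := mul_le_mul_of_nonneg_right hCV2 htA0.le
      linarith
    have h2 : V ^ 2 * τ * Rr A ≤ 8 * CB * (N * Real.sqrt N * τ) +
        8 * CB * (N * Real.sqrt M) * Rr A + 2 * CB * (N * Real.sqrt N * Δ * P) := by
      refine (hD1'.trans hbig2).trans (le_of_eq ?_)
      ring
    linarith
  have hη2 : N * Real.sqrt N = η * V ^ 2 := by
    rw [hη]; field_simp
  have hfin2 : Rr A ≤ 16 * CB * η + 4 * CB * (η * (Δ / τ)) * P := by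
    rw [hη2] at hmid
    have e : 16 * CB * (η * V ^ 2 * τ) + 4 * CB * (η * V ^ 2 * Δ * P) =
        V ^ 2 * τ * (16 * CB * η + 4 * CB * (η * (Δ / τ)) * P) := by
      field_simp
    rw [e] at hmid
    exact le_of_mul_le_mul_left hmid hVt
  have hfin3 : 4 * CB * (η * (Δ / τ)) * P ≤
      1 / 2 * (16 * CB ^ 2 * CP ^ 2 * (η ^ 3 * Δ ^ 2 / τ ^ 2)) + 1 / 2 * Rr A := by
    have e1 : 4 * CB * (η * (Δ / τ)) * P =
        (4 * CB * CP * (η * (Δ / τ)) * Real.sqrt η) * Real.sqrt (Rr A) := by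
      rw [hP, Real.sqrt_mul hη0.le]; ring
    have e2 : (4 * CB * CP * (η * (Δ / τ)) * Real.sqrt η) ^ 2 =
        16 * CB ^ 2 * CP ^ 2 * (η ^ 3 * Δ ^ 2 / τ ^ 2) := by
      rw [mul_pow, Real.sq_sqrt hη0.le]
      field_simp
      ring
    rw [e1, ← e2]
    have e3 := Real.sq_sqrt htA0.le
    have := sq_nonneg ((4 * CB * CP * (η * (Δ / τ)) * Real.sqrt η) - Real.sqrt (Rr A))
    nlinarith
  have hfin4 : Rr A ≤ 32 * CB * η + 16 * CB ^ 2 * CP ^ 2 * (η ^ 3 * Δ ^ 2 / τ ^ 2) := by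
    linarith
  refine hfin4.trans ?_
  have h1 : 0 ≤ η ^ 3 * Δ ^ 2 / τ ^ 2 := by positivity
  rw [mul_add]
  refine add_le_add ?_ ?_
  · refine mul_le_mul_of_nonneg_right ?_ hη0.le
    linarith
  · refine mul_le_mul_of_nonneg_right ?_ h1
    linarith

end Pool.Agent.Work.MP_56b8f5_nt.UV
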