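import Pool.Agent.Work.MP_56b8f5_nt.UV.Stmts

/-!
MP_56b8f5_nt, block UV, item VS: block sums.  Author of this file: helper95.
-/

set_option autoImplicit false

open MeasureTheory Set Filter Topology

noncomputable section

namespace Pool.Agent.Work.MP_56b8f5_nt.UV

open Pool.Agent.Work.MP_56b8f5_nt.UB

namespace VS_aux

theorem ee_neg (x : ℝ) : ee (-x) = (starRingEnd ℂ) (ee x) := by
  unfold ee
  rw [← Complex.exp_conj]
  congr 1
  simp
  exact Or.inl (map_ofNat _ 2).symm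

/-- the tower of derivatives -/
def TW (X N w : ℝ) (G : ℕ → ℝ → ℝ) : ℕ → ℝ → ℝ
  | 0, y => -(w * vv X y)
  | i + 1, y => -(w / (Real.sqrt N * N ^ i) * G i (y / N))

/-- the norm of the sum does not depend on the sign -/
theorem norm_sum (X z0 : ℝ) (c d : ℕ) :
    ‖∑ n ∈ Finset.Ico c d, ee (z0 * vv X n)‖ =
      ‖∑ n ∈ Finset.Ico c d, ee (-(|z0| * vv X n))‖ := by
  rcases le_total 0 z0 with h | h
  · rw [abs_of_nonneg h]
    simp only [ee_neg]
    rw [← map_sum, RCLike.norm_conj]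
  · rw [abs_of_nonpos h]
    simp only [neg_mul, neg_neg]

theorem pow_eq (X N y : ℝ) (hX : 0 < X) (hN : 0 < N) (hy : 0 < y) :
    (y / N) ^ (-(1 / 2) : ℝ) * (1 + N / (4 * X ^ 2) * (y / N) ^ (1 : ℝ)) ^ (-(1 / 2) : ℝ) =
      Real.sqrt N * (1 / (Real.sqrt y * Real.sqrt (1 + y / (4 * X ^ 2)))) := by
  have h1 : 0 < y / N := by positivity
  have h2 : 1 + N / (4 * X ^ 2) * (y / N) ^ (1 : ℝ) = 1 + y / (4 * X ^ 2) := by
    rw [Real.rpow_one]
    field_simp
  have h3 : 0 < 1 + y / (4 * X ^ 2) := by positivity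
  rw [h2, Real.rpow_neg h1.le, Real.rpow_neg h3.le, ← Real.sqrt_eq_rpow, ← Real.sqrt_eq_rpow,
    Real.sqrt_div hy.le]
  have h4 : 0 < Real.sqrt N := Real.sqrt_pos.2 hN
  have h5 : 0 < Real.sqrt y := Real.sqrt_pos.2 hy
  have h6 : 0 < Real.sqrt (1 + y / (4 * X ^ 2)) := Real.sqrt_pos.2 h3
  field_simp

end VS_aux

open VS_aux in
/-- ITEM VS. -/
theorem iVS (hVB : UT.StVB) (hMD : UT.StMD) (hTW : UT.StTW) (hKa : UB.StKa) : StVS := by
  obtain ⟨ε0, c0, C0, hε0, hc0, hcC, hG⟩ := hTW (1 / 2) 1 (by norm_num) 1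
  have hC0 : 0 < C0 := by linarith
  obtain ⟨C1, hC1, hVB'⟩ := hVB (C0 / c0) (by rw [le_div_iff₀ hc0]; linarith)
  have hsc : 0 < Real.sqrt c0 := Real.sqrt_pos.2 hc0
  refine ⟨max (max 1 (1 / ε0)) (C1 * (Real.sqrt c0 + 1 / Real.sqrt c0)),
    (le_max_left _ _).trans (le_max_left _ _), ?_⟩
  intro X N z0 L c d hN hX hCN hz hc hd hcd hL hL1
  have hN0 : 0 < N := by linarith
  have hX2 : 0 < X ^ 2 := by positivity
  have hsN : 0 < Real.sqrt N := Real.sqrt_pos.2 hN0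
  set w : ℝ := |z0| with hw
  have hw0 : 0 < w := abs_pos.2 hz
  have hε : 0 ≤ N / (4 * X ^ 2) := by positivity
  have hε1 : N / (4 * X ^ 2) ≤ ε0 := by
    rw [div_le_iff₀ (by positivity)]
    have h1 : 1 / ε0 * N ≤ X ^ 2 := by
      refine le_trans (mul_le_mul_of_nonneg_right ?_ hN0.le) hCN
      exact (le_max_right _ _).trans (le_max_left _ _)
    calc N = ε0 * (1 / ε0 * N) := by field_simp
      _ ≤ ε0 * X ^ 2 := mul_le_mul_of_nonneg_left h1 hε0.le
      _ ≤ ε0 * (4 * X ^ 2) := by nlinarith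
  obtain ⟨G, hG0, hGd, hGb⟩ := hG (N / (4 * X ^ 2)) hε hε1
  have hu : ∀ y ∈ Icc (N / 2) (4 * N), y / N ∈ Icc (1 / 4 : ℝ) 4 := by
    intro y hy
    constructor
    · rw [le_div_iff₀ hN0]; linarith [hy.1]
    · rw [div_le_iff₀ hN0]; linarith [hy.2]
  have hy0 : ∀ y ∈ Icc (N / 2) (4 * N), 0 < y := fun y hy => by linarith [hy.1]
  have hder : ∀ i < 2, ∀ y ∈ Icc (N / 2) (4 * N),
      HasDerivAt (TW X N w G i) (TW X N w G (i + 1) y) y := by
    intro i hi y hy
    have hyp := hy0 y hy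
    match i, hi with
    | 0, _ =>
      have h1 := (((hKa X hX).2.2.2.2.1 y hyp).const_mul w).neg
      have h2 : TW X N w G (0 + 1) y =
          -(w * (1 / (Real.sqrt y * Real.sqrt (1 + y / (4 * X ^ 2))))) := by
        show -(w / (Real.sqrt N * N ^ 0) * G 0 (y / N)) = _
        rw [hG0 _ (hu y hy), pow_eq X N y hX hN0 hyp, pow_zero, mul_one]
        field_simp
      rw [h2]
      exact h1
    | 1, _ =>
      have h4 := hGd 0 (by norm_num) (y / N) (hu y hy)
      have h5 : HasDerivAt (fun z : ℝ => z / N) (1 / N) y := by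
        simpa using (hasDerivAt_id y).div_const N
      have h6 : HasDerivAt (fun z => G 0 (z / N)) (G 1 (y / N) * (1 / N)) y :=
        HasDerivAt.comp y h4 h5
      have h7 := (h6.const_mul (w / (Real.sqrt N * N ^ 0))).neg
      have h8 : TW X N w G (1 + 1) y =
          -(w / (Real.sqrt N * N ^ 0) * (G 1 (y / N) * (1 / N))) := by
        show -(w / (Real.sqrt N * N ^ 1) * G 1 (y / N)) = _
        rw [pow_zero, pow_one]
        field_simp
      rw [h8]
      exact h7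
  set q : ℝ := w / (N * Real.sqrt N) with hq
  have hq0 : 0 < q := by positivity
  have hbd : ∀ y ∈ Icc (N / 2) (4 * N),
      c0 * q ≤ TW X N w G 2 y ∧ TW X N w G 2 y ≤ C0 * q := by
    intro y hy
    have h8 := hGb (y / N) (hu y hy)
    have e9 : TW X N w G 2 y = q * ((-1) ^ 1 * G 1 (y / N)) := by
      show -(w / (Real.sqrt N * N ^ 1) * G 1 (y / N)) = _
      rw [hq]
      field_simp
    rw [e9, mul_comm c0, mul_comm C0]
    exact ⟨mul_le_mul_of_nonneg_left h8.1 hq0.le, mul_le_mul_of_nonneg_left h8.2 hq0.le⟩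
  have key := hMD 2 (TW X N w G) (N / 2) (4 * N) (c0 * q) (C0 * q) hder hbd
  have hV := hVB' (fun n => -(w * vv X n)) c d L (c0 * q) hcd hL hL1 (by positivity) (by
    intro n hn1 hn2
    have h1 : (c : ℝ) ≤ n := by exact_mod_cast hn1
    have h2 : ((n + 2 : ℕ) : ℝ) ≤ d := by exact_mod_cast hn2.le
    push_cast at h2
    obtain ⟨h3, h4⟩ := key n (by linarith) (by push_cast; linarith)
    refine ⟨h3, h4.trans (le_of_eq ?_)⟩
    field_simp)
  rw [norm_sum]
  refine hV.trans ?_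
  have hsq : 0 < Real.sqrt q := Real.sqrt_pos.2 hq0
  rw [Real.sqrt_mul hc0.le]
  have hL0 : 0 < L := by linarith
  have e1 : L * (Real.sqrt c0 * Real.sqrt q) ≤
      (Real.sqrt c0 + 1 / Real.sqrt c0) * (L * Real.sqrt q) := by
    have : 0 ≤ 1 / Real.sqrt c0 * (L * Real.sqrt q) := by positivity
    nlinarith
  have e2 : 1 / (Real.sqrt c0 * Real.sqrt q) ≤
      (Real.sqrt c0 + 1 / Real.sqrt c0) * (1 / Real.sqrt q) := by
    have h1 : 1 / (Real.sqrt c0 * Real.sqrt q) = 1 / Real.sqrt c0 * (1 / Real.sqrt q) := by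
      field_simp
    rw [h1]
    have : 0 ≤ Real.sqrt c0 * (1 / Real.sqrt q) := by positivity
    nlinarith
  calc C1 * (L * (Real.sqrt c0 * Real.sqrt q) + 1 / (Real.sqrt c0 * Real.sqrt q))
      ≤ C1 * ((Real.sqrt c0 + 1 / Real.sqrt c0) * (L * Real.sqrt q) +
        (Real.sqrt c0 + 1 / Real.sqrt c0) * (1 / Real.sqrt q)) := by gcongr
    _ = C1 * (Real.sqrt c0 + 1 / Real.sqrt c0) * (L * Real.sqrt q + 1 / Real.sqrt q) := by ring
    _ ≤ _ := by
        gcongr
        exact le_max_right _ _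

end Pool.Agent.Work.MP_56b8f5_nt.UV
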