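import Pool.Agent.Work.MP_56b8f5_nt.UT.All
import Pool.Agent.Work.MP_56b8f5_nt.UV.I_Bd
import Pool.Agent.Work.MP_56b8f5_nt.UV.I_Bk
import Pool.Agent.Work.MP_56b8f5_nt.UV.I_D1
import Pool.Agent.Work.MP_56b8f5_nt.UV.I_D2
import Pool.Agent.Work.MP_56b8f5_nt.UV.I_E5
import Pool.Agent.Work.MP_56b8f5_nt.UV.I_En
import Pool.Agent.Work.MP_56b8f5_nt.UV.I_Fb2
import Pool.Agent.Work.MP_56b8f5_nt.UV.I_Fin2
import Pool.Agent.Work.MP_56b8f5_nt.UV.I_Fx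
import Pool.Agent.Work.MP_56b8f5_nt.UV.I_Gs
import Pool.Agent.Work.MP_56b8f5_nt.UV.I_H2
import Pool.Agent.Work.MP_56b8f5_nt.UV.I_JB2
import Pool.Agent.Work.MP_56b8f5_nt.UV.I_Kp
import Pool.Agent.Work.MP_56b8f5_nt.UV.I_L2
import Pool.Agent.Work.MP_56b8f5_nt.UV.I_Lx
import Pool.Agent.Work.MP_56b8f5_nt.UV.I_MA2
import Pool.Agent.Work.MP_56b8f5_nt.UV.I_MS
import Pool.Agent.Work.MP_56b8f5_nt.UV.I_Nr
import Pool.Agent.Work.MP_56b8f5_nt.UV.I_Op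
import Pool.Agent.Work.MP_56b8f5_nt.UV.I_Pl
import Pool.Agent.Work.MP_56b8f5_nt.UV.I_Pr
import Pool.Agent.Work.MP_56b8f5_nt.UV.I_Ps
import Pool.Agent.Work.MP_56b8f5_nt.UV.I_Q
import Pool.Agent.Work.MP_56b8f5_nt.UV.I_Qa
import Pool.Agent.Work.MP_56b8f5_nt.UV.I_Qb
import Pool.Agent.Work.MP_56b8f5_nt.UV.I_Qc
import Pool.Agent.Work.MP_56b8f5_nt.UV.I_Qd
import Pool.Agent.Work.MP_56b8f5_nt.UV.I_Qe
import Pool.Agent.Work.MP_56b8f5_nt.UV.I_SB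
import Pool.Agent.Work.MP_56b8f5_nt.UV.I_UL
import Pool.Agent.Work.MP_56b8f5_nt.UV.I_ULa
import Pool.Agent.Work.MP_56b8f5_nt.UV.I_ULb
import Pool.Agent.Work.MP_56b8f5_nt.UV.I_VA
import Pool.Agent.Work.MP_56b8f5_nt.UV.I_VH
import Pool.Agent.Work.MP_56b8f5_nt.UV.I_VS

/-!
MP_56b8f5_nt, block UV: everything together.
-/

namespace Pool.Agent.Work.MP_56b8f5_nt.UV

theorem all_Ps : StPs := iPs
theorem all_Pl : StPl := iPl
theorem all_Kp : StKp := iKp UB.all_Ka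
theorem all_Qa : StQa := iQa all_Kp UB.all_Ka UB.all_Vp UB.all_V1 UB.all_V2
theorem all_Qb : StQb := iQb all_Pl all_Kp all_Ps
theorem all_Qc : StQc := iQc UB.all_KP UB.all_K2
theorem all_Qd : StQd := iQd UB.all_Ka all_Ps
theorem all_Qe : StQe := iQe
theorem all_Q : StQ := iQ all_Qa all_Qb all_Qc all_Qd all_Qe all_Ps
theorem all_ULa : StULa := iULa
theorem all_ULb : StULb := iULb
theorem all_UL : StUL := iUL all_Q all_ULa all_ULb
theorem all_H2 : StH2 := iH2 UB.all_Vp UB.all_K3 UB.all_Hp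
theorem all_E5 : StE5 := iE5
theorem all_D1 : StD1 := iD1
theorem all_D2 : StD2 := iD2 UB.all_E3 UB.all_KD UB.all_K2 UB.all_K3 all_H2 all_E5 all_D1
theorem all_Nr : StNr := iNr UB.all_KD UB.all_K2
theorem all_MS : StMS := iMS all_Nr
theorem all_VS : StVS := iVS UT.all_VB UT.all_MD UT.all_TW UB.all_Ka
theorem all_SB : StSB := iSB
theorem all_Op : StOp := iOp all_Pl all_VS all_SB UB.all_Ka
theorem all_Bk : StBk := iBk all_Nr all_Op
theorem all_VA : StVA := iVA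
theorem all_VH : StVH := iVH all_VA all_Bk all_MS
theorem all_Bd : StBd := iBd all_VH
theorem all_En : StEn := iEn all_UL
theorem all_Gs : StGs := iGs all_Bd
theorem all_L2 : StL2 := iL2 all_D2 all_En all_Gs
theorem all_Lx : StLx := iLx
theorem all_Fx : StFx := iFx UB.all_AM all_Lx
theorem all_Pr : StPr := iPr
theorem all_Fb2 : StFb2 := iFb2 all_Fx all_L2 all_Pr UB.all_Wc UB.all_Mb
theorem all_JB2 : StJB2 := iJB2 UB.all_Phi UB.all_MV UB.all_Mb UB.all_Fc all_Fb2 UB.all_FJ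
theorem all_MA2 : StMA2 := iMA2 UB.all_JB all_JB2 UB.all_Sup EM.all_Z EM.all_Pc
theorem all_Fin2 : StFin2 := iFin2 all_MA2 UT.all_MU

end Pool.Agent.Work.MP_56b8f5_nt.UV
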