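import Pool.Agent.Work.MP_56b8f5_nt.UV.Stmts
import Pool.Agent.Work.MP_56b8f5_nt.UB.I_Fw

/-!
Block UV of MP_56b8f5_nt, item Fx: a block of the dual sum on a longer window is a combination of `J` sums `SS`.
-/

open MeasureTheory Set Filter Topology

noncomputable section

namespace Pool.Agent.Work.MP_56b8f5_nt.UV

open Pool.Agent.Work.MP_56b8f5_nt.UB

namespace Fx_aux

open Pool.Agent.Work.MP_56b8f5_nt.UB.Fw_aux

lemma exp_two_le : Real.exp 2 ≤ 8 := by
  have h : Real.exp 2 = Real.exp 1 * Real.exp 1 := by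
    rw [← Real.exp_add]
    norm_num
  have h1 : Real.exp 1 ≤ 2.7182818286 := Real.exp_one_lt_d9.le
  have h0 : 0 ≤ Real.exp 1 := (Real.exp_pos 1).le
  rw [h]
  nlinarith

/-- Taylor bound for `e(w)`. -/
lemma taylor (w : ℝ) (J : ℕ) (hw0 : 0 ≤ w) (hw : 2 * Real.pi * w ≤ 2) :
    ‖ee w - ∑ j ∈ Finset.range J, (((2 * Real.pi * w : ℝ) : ℂ) * Complex.I) ^ j / (j.factorial : ℂ)‖ ≤
      8 * (2 * Real.pi * w) ^ J := by
  have hn : ‖((2 * Real.pi * w : ℝ) : ℂ) * Complex.I‖ = 2 * Real.pi * w := by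
    rw [norm_mul, Complex.norm_I, mul_one, Complex.norm_real, Real.norm_eq_abs,
      abs_of_nonneg (by positivity)]
  have h := Complex.norm_exp_sub_sum_le_norm_mul_exp (((2 * Real.pi * w : ℝ) : ℂ) * Complex.I) J
  rw [hn] at h
  unfold ee
  refine h.trans ?_
  have h2 : Real.exp (2 * Real.pi * w) ≤ 8 := (Real.exp_le_exp.2 hw).trans exp_two_le
  have h3 : 0 ≤ (2 * Real.pi * w) ^ J := by positivity
  nlinarith [mul_le_mul_of_nonneg_left h2 h3]

lemma term_bound2 (C1 q x X E D w : ℝ) (J0 J1 P : ℂ) (F0 F1 v : ℝ) (hC1 : 0 ≤ C1) (hq : 0 < q)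
    (hJ : ‖J0‖ ≤ C1 / q)
    (hA : ‖ee (-F1) * J1 - ee (-F0) * J0‖ ≤ C1 / q * (2 * (x / X)))
    (hL : |F1 - F0 - (x * v + w)| ≤ E) (hP : ‖ee w - P‖ ≤ D) :
    ‖J1 - J0 * ee (x * v) * P‖ ≤ C1 / q * (2 * (x / X) + 2 * Real.pi * E + D) := by
  have h1 := term_bound C1 q x X E J0 J1 F0 F1 v hC1 hq hJ hA
  have hpos : 0 ≤ C1 / q := by positivity
  have key : ‖J1 - J0 * ee (x * v + w)‖ ≤ C1 / q * (2 * (x / X) + 2 * Real.pi * E) := by
    have h2 := term_bound C1 q 1 (X / x) E J0 J1 F0 F1 (x * v + w) hC1 hq hJ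
      (by
        rw [one_div_div]
        exact hA) (by rw [one_mul]; exact hL)
    rw [one_div_div, one_mul] at h2
    exact h2
  have e : J1 - J0 * ee (x * v) * P = (J1 - J0 * ee (x * v + w)) + J0 * ee (x * v) * (ee w - P) := by
    rw [ee_add]
    ring
  rw [e]
  calc ‖(J1 - J0 * ee (x * v + w)) + J0 * ee (x * v) * (ee w - P)‖
      ≤ ‖J1 - J0 * ee (x * v + w)‖ + ‖J0 * ee (x * v) * (ee w - P)‖ := norm_add_le _ _
    _ = ‖J1 - J0 * ee (x * v + w)‖ + ‖J0‖ * ‖ee w - P‖ := by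
        rw [norm_mul, norm_mul, norm_ee, mul_one]
    _ ≤ C1 / q * (2 * (x / X) + 2 * Real.pi * E) + C1 / q * D :=
        add_le_add key (mul_le_mul hJ hP (norm_nonneg _) hpos)
    _ = C1 / q * (2 * (x / X) + 2 * Real.pi * E + D) := by ring

lemma sqrt_le_of (n N : ℝ) (hN : 0 ≤ N) (h : n ≤ 2 * N) : Real.sqrt n ≤ 3 / 2 * Real.sqrt N := by
  rw [show (3 / 2 : ℝ) * Real.sqrt N = Real.sqrt ((9 / 4) * N) by
    rw [Real.sqrt_mul (by norm_num), show (9 / 4 : ℝ) = (3 / 2) ^ 2 by norm_num,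
      Real.sqrt_sq (by norm_num)]]
  exact Real.sqrt_le_sqrt (by linarith)

lemma r_bound (X x N : ℝ) (hX : 0 < X) (hx : 0 ≤ x) (hN : 0 < N) (n : ℝ) (hn0 : 0 ≤ n)
    (hn : n ≤ 2 * N) :
    0 ≤ n * Real.sqrt n * (x ^ 2 / (12 * X ^ 2 * (X + x))) ∧
    2 * Real.pi * (n * Real.sqrt n * (x ^ 2 / (12 * X ^ 2 * (X + x)))) ≤
      2 * (x ^ 2 * (N * Real.sqrt N) / X ^ 3) := by
  refine ⟨by positivity, ?_⟩
  have h1 : n * Real.sqrt n ≤ 3 * (N * Real.sqrt N) := by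
    calc n * Real.sqrt n ≤ (2 * N) * (3 / 2 * Real.sqrt N) := by
          have := sqrt_le_of n N hN.le hn
          gcongr
      _ = 3 * (N * Real.sqrt N) := by ring
  have h2 : x ^ 2 / (12 * X ^ 2 * (X + x)) ≤ x ^ 2 / (12 * X ^ 3) := by
    refine div_le_div_of_nonneg_left (by positivity) (by positivity) ?_
    have : X ^ 2 * X ≤ X ^ 2 * (X + x) := mul_le_mul_of_nonneg_left (by linarith) (by positivity)
    nlinarith
  have hpi : Real.pi ≤ 4 := Real.pi_le_four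
  calc 2 * Real.pi * (n * Real.sqrt n * (x ^ 2 / (12 * X ^ 2 * (X + x))))
      ≤ 2 * 4 * (3 * (N * Real.sqrt N) * (x ^ 2 / (12 * X ^ 3))) := by gcongr
    _ = 2 * (x ^ 2 * (N * Real.sqrt N) / X ^ 3) := by
        field_simp
        ring

end Fx_aux

open Pool.Agent.Work.MP_56b8f5_nt.UB.Fw_aux Fx_aux in
theorem iFx (hAM : UB.StAM) (hLx : StLx) : StFx := by
  intro φ Θ hφ C' J hC' hJ
  obtain ⟨C1, hC1, hAM1⟩ := hAM φ Θ hφ C' hC'
  have h2J : (1 : ℝ) ≤ 2 ^ J := one_le_pow₀ (by norm_num)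
  obtain ⟨K, hK⟩ : ∃ K : ℝ, K = 100 * 2 ^ J := ⟨_, rfl⟩
  have hK100 : 100 ≤ K := by rw [hK]; linarith
  have hKC : C1 ≤ K * C1 := by nlinarith
  refine ⟨K * C1, by linarith, ?_⟩
  intro T G N X a hCT hCG hGT hN h2N ha hX hX2
  have hC10 : 0 < C1 := by linarith
  have hK0 : 0 < K := by linarith
  have hT1 : C1 ≤ T := by linarith
  have hG1 : C1 ≤ G := by linarith
  have hT0 : 0 < T := by linarith
  have hN0 : 0 < N := by linarith
  set q : ℝ := Real.sqrt (Real.sqrt (N * T)) with hqdef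
  have hq : 0 < q := by
    rw [hqdef]
    positivity
  have hmem : ∀ n ∈ Finset.Ioc ⌊N⌋₊ ⌊2 * N⌋₊, N < (n : ℝ) ∧ (n : ℝ) ≤ 2 * N ∧ 1 ≤ n := by
    intro n hn
    rw [Finset.mem_Ioc] at hn
    have h1 : N < (n : ℝ) := (Nat.floor_lt hN0.le).1 hn.1
    have h2 : (n : ℝ) ≤ 2 * N := (Nat.le_floor_iff (by linarith)).1 hn.2
    refine ⟨h1, h2, ?_⟩
    have h3 : (1 : ℝ) < n := by linarith
    have h4 : 1 < n := by exact_mod_cast h3
    omega
  have hJb : ∀ n ∈ Finset.Ioc ⌊N⌋₊ ⌊2 * N⌋₊, ∀ s ∈ sI T, ‖JJ Θ T G n s‖ ≤ C1 / q ∧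
      ∃ A' : ℂ, HasDerivAt (fun t => ee (-(FF n t)) * JJ Θ T G n t) A' s ∧ ‖A'‖ ≤ C1 / q / T := by
    intro n hn s hs
    obtain ⟨h1, h2, h3⟩ := hmem n hn
    obtain ⟨b1, _, A', b2, b3⟩ := hAM1 T G s n hT1 hG1 hGT hs h3 (by linarith)
    have hqn : q ≤ Real.sqrt (Real.sqrt (n * T)) := by
      rw [hqdef]
      exact Real.sqrt_le_sqrt (Real.sqrt_le_sqrt (mul_le_mul_of_nonneg_right h1.le hT0.le))
    have h5 : C1 / Real.sqrt (Real.sqrt (n * T)) ≤ C1 / q :=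
      div_le_div_of_nonneg_left hC10.le hq hqn
    refine ⟨b1.trans h5, A', b2, b3.trans ?_⟩
    rw [div_div]
    refine div_le_div_of_nonneg_left hC10.le (by positivity) ?_
    rw [mul_comm]
    exact mul_le_mul_of_nonneg_left hqn hT0.le
  refine ⟨fun j n => if n ∈ Finset.Ioc ⌊N⌋₊ ⌊2 * N⌋₊ then
    a n * JJ Θ T G n (X ^ 2) * ((q / (K * C1) : ℝ) : ℂ) *
      (((n / (2 * N) * Real.sqrt (n / (2 * N)) : ℝ) : ℂ)) ^ j else 0,
    fun j x => (((2 * Real.pi * (2 * N * Real.sqrt (2 * N) * (x ^ 2 / (12 * X ^ 2 * (X + x)))) : ℝ) : ℂ) *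
      Complex.I) ^ j / (j.factorial : ℂ), ?_, ?_, ?_⟩
  · intro j n
    dsimp only
    by_cases hn : n ∈ Finset.Ioc ⌊N⌋₊ ⌊2 * N⌋₊
    · rw [if_pos hn, norm_mul, norm_mul, norm_mul, Complex.norm_real, Real.norm_eq_abs,
        abs_of_pos (by positivity), norm_pow, Complex.norm_real, Real.norm_eq_abs]
      have hb := (hJb n hn _ hX2).1
      obtain ⟨h1, h2, h3⟩ := hmem n hn
      have hr1 : (n : ℝ) / (2 * N) ≤ 1 := by
        rw [div_le_one (by linarith)]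
        exact h2
      have hr0 : 0 ≤ (n : ℝ) / (2 * N) := by positivity
      have hr2 : Real.sqrt ((n : ℝ) / (2 * N)) ≤ 1 := by
        rw [Real.sqrt_le_one]
        exact hr1
      have hp0 : 0 ≤ (n : ℝ) / (2 * N) * Real.sqrt ((n : ℝ) / (2 * N)) := by positivity
      have hp1 : (n : ℝ) / (2 * N) * Real.sqrt ((n : ℝ) / (2 * N)) ≤ 1 :=
        mul_le_one₀ hr1 (Real.sqrt_nonneg _) hr2
      have hpj : |(n : ℝ) / (2 * N) * Real.sqrt ((n : ℝ) / (2 * N))| ^ j ≤ 1 := by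
        rw [abs_of_nonneg hp0]
        exact pow_le_one₀ hp0 hp1
      have hm : ‖a n‖ * ‖JJ Θ T G n (X ^ 2)‖ * (q / (K * C1)) ≤ 1 := by
        calc ‖a n‖ * ‖JJ Θ T G n (X ^ 2)‖ * (q / (K * C1)) ≤ 1 * (C1 / q) * (q / (K * C1)) := by
              gcongr
              exact ha n
          _ = 1 / K := by field_simp
          _ ≤ 1 := by
              rw [div_le_one hK0]
              linarith
      exact mul_le_one₀ hm (by positivity) hpj
    · rw [if_neg hn]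
      simp
  · intro j x hx hx3
    dsimp only
    obtain ⟨hr0, hr⟩ := r_bound X x N hX hx hN0 (2 * N) (by linarith) le_rfl
    have hy : x ^ 2 * (N * Real.sqrt N) / X ^ 3 ≤ 1 := by
      rw [div_le_one (by positivity)]
      exact hx3
    have hw0 : 0 ≤ 2 * Real.pi * (2 * N * Real.sqrt (2 * N) * (x ^ 2 / (12 * X ^ 2 * (X + x)))) := by
      have := Real.pi_pos
      positivity
    rw [norm_div, norm_pow, norm_mul, Complex.norm_I, mul_one, Complex.norm_real, Real.norm_eq_abs,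
      abs_of_nonneg hw0, Complex.norm_natCast]
    have h1 := Real.pow_div_factorial_le_exp _ hw0 j
    refine h1.trans ?_
    have h2 : Real.exp (2 * Real.pi * (2 * N * Real.sqrt (2 * N) * (x ^ 2 / (12 * X ^ 2 * (X + x))))) ≤ 8 :=
      (Real.exp_le_exp.2 (by linarith)).trans exp_two_le
    nlinarith
  · intro x hx hx3 hξ
    have hpi := Real.pi_gt_three
    have hpi0 := Real.pi_pos
    have hXb : X ^ 2 ≤ 2 * T / Real.pi := hX2.2
    have hξb : (X + x) ^ 2 ≤ 2 * T / Real.pi := hξ.2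
    have hsq : (X + x) ^ 2 - X ^ 2 = x * (2 * X + x) := by ring
    have hpT : 2 * T / Real.pi ≤ T * (2 / 3) := by
      rw [div_le_iff₀ (by linarith)]
      nlinarith
    have hdiff : (X + x) ^ 2 - X ^ 2 ≤ 2 * (x / X) * T := by
      have h1 : X * (2 * X + x) ≤ 2 * T := by
        nlinarith [sq_nonneg x, mul_nonneg hX.le hx]
      rw [hsq]
      have h2 : x * (2 * X + x) = x / X * (X * (2 * X + x)) := by
        field_simp
      rw [h2]
      have h3 : 0 ≤ x / X := by positivity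
      nlinarith [mul_le_mul_of_nonneg_left h1 h3]
    obtain ⟨y, hy⟩ : ∃ y : ℝ, y = x ^ 2 * (N * Real.sqrt N) / X ^ 3 := ⟨_, rfl⟩
    have hy0 : 0 ≤ y := by rw [hy]; positivity
    have hy1 : y ≤ 1 := by
      rw [hy, div_le_one (by positivity)]
      exact hx3
    obtain ⟨z, hz⟩ : ∃ z : ℝ, z = x ^ 2 * (N ^ 2 * Real.sqrt N) / X ^ 5 := ⟨_, rfl⟩
    have hz0 : 0 ≤ z := by rw [hz]; positivity
    have hterm : ∀ n ∈ Finset.Ioc ⌊N⌋₊ ⌊2 * N⌋₊,
        ‖JJ Θ T G n ((X + x) ^ 2) - JJ Θ T G n (X ^ 2) * ee (x * vv X n) *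
          ∑ j ∈ Finset.range J, (((2 * Real.pi *
            ((n : ℝ) * Real.sqrt n * (x ^ 2 / (12 * X ^ 2 * (X + x)))) : ℝ) : ℂ) * Complex.I) ^ j /
              (j.factorial : ℂ)‖ ≤
        C1 / q * (2 * (x / X) + 2 * Real.pi * (6 * z) + 8 * (2 * y) ^ J) := by
      intro n hn
      obtain ⟨h1, h2, h3⟩ := hmem n hn
      have hn0 : (0 : ℝ) < n := by linarith
      obtain ⟨hr0, hr⟩ := r_bound X x N hX hx hN0 (n : ℝ) hn0.le h2
      rw [← hy] at hr
      refine term_bound2 C1 q x X _ _ ((n : ℝ) * Real.sqrt n * (x ^ 2 / (12 * X ^ 2 * (X + x))))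
        _ _ _ (FF n (X ^ 2)) (FF n ((X + x) ^ 2)) _ hC10.le hq
        (hJb n hn _ hX2).1 ?_ ?_ ?_
      · choose! D hD1 hD2 using fun s hs => (hJb n hn s hs).2
        have hmv := Convex.norm_image_sub_le_of_norm_hasDerivWithin_le
          (f := fun t => ee (-(FF n t)) * JJ Θ T G n t) (f' := D) (s := sI T) (C := C1 / q / T)
          (fun s hs => (hD1 s hs).hasDerivWithinAt) (fun s hs => hD2 s hs) (convex_Icc _ _) hX2 hξ
        refine hmv.trans ?_
        rw [Real.norm_eq_abs, abs_of_nonneg (by rw [hsq]; positivity)]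
        calc C1 / q / T * ((X + x) ^ 2 - X ^ 2) ≤ C1 / q / T * (2 * (x / X) * T) := by
              gcongr
          _ = C1 / q * (2 * (x / X)) := by field_simp
      · have h4 := hLx X x n hX hx hn0
        rw [← sub_sub]
        refine h4.trans ?_
        have h5 : (n : ℝ) ^ 2 * Real.sqrt n ≤ 6 * (N ^ 2 * Real.sqrt N) := by
          calc (n : ℝ) ^ 2 * Real.sqrt n ≤ (2 * N) ^ 2 * (3 / 2 * Real.sqrt N) := by
                have := sqrt_le_of (n : ℝ) N hN0.le h2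
                gcongr
            _ = 6 * (N ^ 2 * Real.sqrt N) := by ring
        calc x ^ 2 * ((n : ℝ) ^ 2 * Real.sqrt n) / X ^ 5 ≤ x ^ 2 * (6 * (N ^ 2 * Real.sqrt N)) / X ^ 5 := by
              gcongr
          _ = 6 * z := by rw [hz]; ring
      · refine (taylor _ J hr0 (by linarith)).trans ?_
        gcongr
    have hsum : SJ Θ T G a N ((X + x) ^ 2) - ((K * C1 / q : ℝ) : ℂ) *
        ∑ j ∈ Finset.range J,
          ((((2 * Real.pi * (2 * N * Real.sqrt (2 * N) * (x ^ 2 / (12 * X ^ 2 * (X + x)))) : ℝ) : ℂ) *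
            Complex.I) ^ j / (j.factorial : ℂ)) *
        SS X N (fun n => if n ∈ Finset.Ioc ⌊N⌋₊ ⌊2 * N⌋₊ then
          a n * JJ Θ T G n (X ^ 2) * ((q / (K * C1) : ℝ) : ℂ) *
            (((n / (2 * N) * Real.sqrt (n / (2 * N)) : ℝ) : ℂ)) ^ j else 0) x =
        ∑ n ∈ Finset.Ioc ⌊N⌋₊ ⌊2 * N⌋₊,
          a n * (JJ Θ T G n ((X + x) ^ 2) - JJ Θ T G n (X ^ 2) * ee (x * vv X n) *
            ∑ j ∈ Finset.range J, (((2 * Real.pi *
            ((n : ℝ) * Real.sqrt n * (x ^ 2 / (12 * X ^ 2 * (X + x)))) : ℝ) : ℂ) * Complex.I) ^ j /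
              (j.factorial : ℂ)) := by
      have e1 : ∀ j ∈ Finset.range J,
          ((((2 * Real.pi * (2 * N * Real.sqrt (2 * N) * (x ^ 2 / (12 * X ^ 2 * (X + x)))) : ℝ) : ℂ) *
            Complex.I) ^ j / (j.factorial : ℂ)) *
          SS X N (fun n => if n ∈ Finset.Ioc ⌊N⌋₊ ⌊2 * N⌋₊ then
            a n * JJ Θ T G n (X ^ 2) * ((q / (K * C1) : ℝ) : ℂ) *
              (((n / (2 * N) * Real.sqrt (n / (2 * N)) : ℝ) : ℂ)) ^ j else 0) x =
          ∑ n ∈ Finset.Ioc ⌊N⌋₊ ⌊2 * N⌋₊,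
            a n * JJ Θ T G n (X ^ 2) * ((q / (K * C1) : ℝ) : ℂ) * ee (x * vv X n) *
              ((((2 * Real.pi * ((n : ℝ) * Real.sqrt n * (x ^ 2 / (12 * X ^ 2 * (X + x)))) : ℝ) : ℂ) *
                Complex.I) ^ j / (j.factorial : ℂ)) := by
        intro j _
        unfold SS
        rw [Finset.mul_sum]
        refine Finset.sum_congr rfl fun n hn => ?_
        dsimp only
        rw [if_pos hn]
        have h2N0 : (0 : ℝ) < Real.sqrt (2 * N) := Real.sqrt_pos.2 (by linarith)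
        have hreal : 2 * Real.pi * ((n : ℝ) * Real.sqrt n * (x ^ 2 / (12 * X ^ 2 * (X + x)))) =
            2 * Real.pi * (2 * N * Real.sqrt (2 * N) * (x ^ 2 / (12 * X ^ 2 * (X + x)))) *
              ((n : ℝ) / (2 * N) * Real.sqrt ((n : ℝ) / (2 * N))) := by
          rw [Real.sqrt_div (Nat.cast_nonneg n)]
          field_simp
        rw [hreal, Complex.ofReal_mul
          (2 * Real.pi * (2 * N * Real.sqrt (2 * N) * (x ^ 2 / (12 * X ^ 2 * (X + x)))))
          ((n : ℝ) / (2 * N) * Real.sqrt ((n : ℝ) / (2 * N)))]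
        rw [show (((2 * Real.pi * (2 * N * Real.sqrt (2 * N) * (x ^ 2 / (12 * X ^ 2 * (X + x)))) : ℝ) : ℂ) *
          (((n : ℝ) / (2 * N) * Real.sqrt ((n : ℝ) / (2 * N)) : ℝ) : ℂ) * Complex.I) =
          (((2 * Real.pi * (2 * N * Real.sqrt (2 * N) * (x ^ 2 / (12 * X ^ 2 * (X + x)))) : ℝ) : ℂ) *
          Complex.I) * (((n : ℝ) / (2 * N) * Real.sqrt ((n : ℝ) / (2 * N)) : ℝ) : ℂ) by ring]
        rw [mul_pow _ (((n : ℝ) / (2 * N) * Real.sqrt ((n : ℝ) / (2 * N)) : ℝ) : ℂ) j]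
        ring
      rw [Finset.sum_congr rfl e1, Finset.sum_comm]
      unfold SJ
      rw [Finset.mul_sum, ← Finset.sum_sub_distrib]
      refine Finset.sum_congr rfl fun n hn => ?_
      rw [← Finset.mul_sum]
      have hc : ((K * C1 / q : ℝ) : ℂ) * ((q / (K * C1) : ℝ) : ℂ) = 1 := by
        rw [← Complex.ofReal_mul]
        have : K * C1 / q * (q / (K * C1)) = 1 := by field_simp
        rw [this]
        simp
      generalize (∑ j ∈ Finset.range J, (((2 * Real.pi *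
            ((n : ℝ) * Real.sqrt n * (x ^ 2 / (12 * X ^ 2 * (X + x)))) : ℝ) : ℂ) * Complex.I) ^ j /
              (j.factorial : ℂ)) = S
      calc a n * JJ Θ T G n ((X + x) ^ 2) - ((K * C1 / q : ℝ) : ℂ) *
            (a n * JJ Θ T G n (X ^ 2) * ((q / (K * C1) : ℝ) : ℂ) * ee (x * vv X n) * S)
          = a n * JJ Θ T G n ((X + x) ^ 2) - (((K * C1 / q : ℝ) : ℂ) * ((q / (K * C1) : ℝ) : ℂ)) *
            (a n * JJ Θ T G n (X ^ 2) * ee (x * vv X n) * S) := by ring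
        _ = _ := by
            rw [hc]
            ring
    rw [hsum, ← hy, ← hz]
    have hcard : ((Finset.Ioc ⌊N⌋₊ ⌊2 * N⌋₊).card : ℝ) ≤ 2 * N := by
      rw [Nat.card_Ioc]
      have h1 : ((⌊2 * N⌋₊ - ⌊N⌋₊ : ℕ) : ℝ) ≤ (⌊2 * N⌋₊ : ℝ) := by
        exact_mod_cast Nat.sub_le _ _
      exact h1.trans (Nat.floor_le (by linarith))
    have hB : 0 ≤ C1 / q * (2 * (x / X) + 2 * Real.pi * (6 * z) + 8 * (2 * y) ^ J) := by
      positivity
    calc ‖∑ n ∈ Finset.Ioc ⌊N⌋₊ ⌊2 * N⌋₊,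
          a n * (JJ Θ T G n ((X + x) ^ 2) - JJ Θ T G n (X ^ 2) * ee (x * vv X n) *
            ∑ j ∈ Finset.range J, (((2 * Real.pi *
            ((n : ℝ) * Real.sqrt n * (x ^ 2 / (12 * X ^ 2 * (X + x)))) : ℝ) : ℂ) * Complex.I) ^ j /
              (j.factorial : ℂ))‖
        ≤ ∑ n ∈ Finset.Ioc ⌊N⌋₊ ⌊2 * N⌋₊,
          ‖a n * (JJ Θ T G n ((X + x) ^ 2) - JJ Θ T G n (X ^ 2) * ee (x * vv X n) *
            ∑ j ∈ Finset.range J, (((2 * Real.pi *
            ((n : ℝ) * Real.sqrt n * (x ^ 2 / (12 * X ^ 2 * (X + x)))) : ℝ) : ℂ) * Complex.I) ^ j /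
              (j.factorial : ℂ))‖ :=
          norm_sum_le _ _
      _ ≤ ∑ n ∈ Finset.Ioc ⌊N⌋₊ ⌊2 * N⌋₊,
          C1 / q * (2 * (x / X) + 2 * Real.pi * (6 * z) + 8 * (2 * y) ^ J) := by
          refine Finset.sum_le_sum fun n hn => ?_
          rw [norm_mul]
          refine (mul_le_mul (ha n) (hterm n hn) (norm_nonneg _) zero_le_one).trans ?_
          rw [one_mul]
      _ = (Finset.Ioc ⌊N⌋₊ ⌊2 * N⌋₊).card *
          (C1 / q * (2 * (x / X) + 2 * Real.pi * (6 * z) + 8 * (2 * y) ^ J)) := by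
          rw [Finset.sum_const, nsmul_eq_mul]
      _ ≤ (2 * N) * (C1 / q * (2 * (x / X) + 2 * Real.pi * (6 * z) + 8 * (2 * y) ^ J)) :=
          mul_le_mul_of_nonneg_right hcard hB
      _ = 4 * (C1 * (N / q) * (x / X)) + 24 * Real.pi * (C1 * (N / q) * z) +
          16 * 2 ^ J * (C1 * (N / q) * y ^ J) := by
          rw [mul_pow]
          ring
      _ ≤ K * (C1 * (N / q) * (x / X)) + K * (C1 * (N / q) * z) + K * (C1 * (N / q) * y ^ J) := by
          have hpi2 : 24 * Real.pi ≤ K := by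
            have := Real.pi_le_four
            linarith
          have h16 : 16 * 2 ^ J ≤ K := by
            rw [hK]
            linarith
          have h1 : 0 ≤ C1 * (N / q) * (x / X) := by positivity
          have h2 : 0 ≤ C1 * (N / q) * z := by positivity
          have h3 : 0 ≤ C1 * (N / q) * y ^ J := by positivity
          have t1 := mul_le_mul_of_nonneg_right (show (4 : ℝ) ≤ K by linarith) h1
          have t2 := mul_le_mul_of_nonneg_right hpi2 h2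
          have t3 := mul_le_mul_of_nonneg_right h16 h3
          linarith
      _ = K * C1 * (N / q) * (y ^ J + x / X + z) := by ring

end Pool.Agent.Work.MP_56b8f5_nt.UV
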