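import Pool.Agent.Work.MP_56b8f5_nt.UV.Stmts

/-!
MP_56b8f5_nt, block UV, item Op: bilinear form of the kernel far from the diagonal.
-/

set_option autoImplicit false

open MeasureTheory Set Filter Topology

noncomputable section

namespace Pool.Agent.Work.MP_56b8f5_nt.UV

open Pool.Agent.Work.MP_56b8f5_nt.UB

namespace Op_aux

/-! ### elementary facts -/

lemma ee_add (x y : ℝ) : ee (x + y) = ee x * ee y := by
  unfold ee
  rw [← Complex.exp_add]
  congr 1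
  push_cast
  ring

lemma ee_conj (x : ℝ) : (starRingEnd ℂ) (ee x) = ee (-x) := by
  unfold ee
  rw [← Complex.exp_conj]
  congr 1
  rw [map_mul, Complex.conj_I, Complex.conj_ofReal]
  push_cast
  ring

lemma norm_ee (x : ℝ) : ‖ee x‖ = 1 := Complex.norm_exp_ofReal_mul_I _

lemma ee_cont {f : ℝ → ℝ} (hf : Continuous f) : Continuous fun x => ee (f x) := by
  unfold ee
  fun_prop

lemma om_cd : ContDiff ℝ 2 om := omB.contDiff

lemma om_hd (u : ℝ) : HasDerivAt om (deriv om u) u :=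
  ((om_cd.differentiable (by norm_num)) u).hasDerivAt

lemma om_dcont : Continuous (deriv om) := om_cd.continuous_deriv (by norm_num)

lemma om_cont : Continuous om := om_cd.continuous

lemma om_nonneg (u : ℝ) : 0 ≤ om u := omB.nonneg

lemma om_le_one (u : ℝ) : om u ≤ 1 := omB.le_one

lemma om_supp {u : ℝ} (h : om u ≠ 0) : 1 / 2 < u ∧ u < 5 / 2 := by
  have h1 : u ∈ Function.support (omB : ℝ → ℝ) := h
  rw [omB.support_eq, Metric.mem_ball, Real.dist_eq] at h1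
  have h2 : |u - 3 / 2| < 1 := h1
  rw [abs_lt] at h2
  constructor <;> linarith [h2.1, h2.2]

lemma om_bd : ∃ C1 : ℝ, 0 ≤ C1 ∧ ∀ u, |deriv om u| ≤ C1 := by
  have hs : HasCompactSupport om := omB.hasCompactSupport
  obtain ⟨C, hC⟩ := hs.deriv.exists_bound_of_continuous om_dcont
  exact ⟨C, (norm_nonneg _).trans (hC 0), fun u => hC u⟩

/-- Cauchy-Schwarz -/
lemma cs {μ : Measure ℝ} {f g : ℝ → ℝ} (hf : Integrable (fun u => f u ^ 2) μ)
    (hg : Integrable (fun u => g u ^ 2) μ) (hfg : Integrable (fun u => f u * g u) μ) :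
    (∫ u, f u * g u ∂μ) ^ 2 ≤ (∫ u, f u ^ 2 ∂μ) * ∫ u, g u ^ 2 ∂μ := by
  have h : ∀ x : ℝ, 0 ≤ (∫ u, f u ^ 2 ∂μ) * (x * x) + (2 * ∫ u, f u * g u ∂μ) * x + ∫ u, g u ^ 2 ∂μ := by
    intro x
    have e : (∫ u, f u ^ 2 ∂μ) * (x * x) + (2 * ∫ u, f u * g u ∂μ) * x + ∫ u, g u ^ 2 ∂μ =
        ∫ u, (x * f u + g u) ^ 2 ∂μ := by
      have e1 : (fun u => (x * f u + g u) ^ 2) =
          fun u => (x ^ 2 * f u ^ 2 + (2 * x) * (f u * g u)) + g u ^ 2 := by
        funext u; ring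
      have i1 : Integrable (fun u => x ^ 2 * f u ^ 2) μ := hf.const_mul _
      have i2 : Integrable (fun u => (2 * x) * (f u * g u)) μ := hfg.const_mul _
      have i3 : Integrable (fun u => x ^ 2 * f u ^ 2 + (2 * x) * (f u * g u)) μ := i1.add i2
      rw [e1, integral_add i3 hg, integral_add i1 i2, integral_const_mul, integral_const_mul]
      ring
    rw [e]
    exact integral_nonneg fun u => sq_nonneg _
  have h2 := discrim_le_zero h
  unfold discrim at h2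
  nlinarith

/-- bounded measurable with compact support -/
def BM (F : ℝ → ℂ) (L : ℝ) : Prop := Measurable F ∧ (∃ B, ∀ x, ‖F x‖ ≤ B) ∧ ∀ x, L < |x| → F x = 0

lemma BM.intg {F : ℝ → ℂ} {L : ℝ} (h : BM F L) (hL : 0 ≤ L) (ν : ℝ) :
    Integrable (fun x => F x * ee (ν * x)) := by
  obtain ⟨hm, ⟨B, hB⟩, hs⟩ := h
  have hB0 : 0 ≤ B := (norm_nonneg _).trans (hB 0)
  have h1 : Integrable (fun x => (Icc (-L) L).indicator (fun _ => B) x) := by
    rw [integrable_indicator_iff measurableSet_Icc]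
    exact integrableOn_const (by simp [Real.volume_Icc])
  refine h1.mono' ?_ (Eventually.of_forall fun x => ?_)
  · exact (hm.mul (ee_cont (continuous_const.mul continuous_id)).measurable).aestronglyMeasurable
  · rw [norm_mul, norm_ee, mul_one]
    by_cases hx : x ∈ Icc (-L) L
    · rw [indicator_of_mem hx]; exact hB x
    · rw [indicator_of_notMem hx, hs x, norm_zero]
      by_contra h
      exact hx (abs_le.1 (not_lt.1 h))

/-- the `L²` norm -/
def nrm (F : ℝ → ℂ) : ℝ := Real.sqrt (∫ x, ‖F x‖ ^ 2)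

lemma nrm_nonneg (F : ℝ → ℂ) : 0 ≤ nrm F := Real.sqrt_nonneg _

/-- `2πi x F` -/
def xF (F : ℝ → ℂ) (x : ℝ) : ℂ := ((2 * Real.pi * x : ℝ) : ℂ) * Complex.I * F x

lemma norm_xF (F : ℝ → ℂ) (x : ℝ) : ‖xF F x‖ = 2 * Real.pi * |x| * ‖F x‖ := by
  unfold xF
  rw [norm_mul, norm_mul, Complex.norm_I, mul_one, Complex.norm_real, Real.norm_eq_abs, abs_mul,
    abs_of_pos (by positivity : 0 < 2 * Real.pi)]

lemma BM.xF {F : ℝ → ℂ} {L : ℝ} (h : BM F L) (hL : 0 ≤ L) : BM (xF F) L := by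
  obtain ⟨hm, ⟨B, hB⟩, hs⟩ := h
  have hB0 : 0 ≤ B := (norm_nonneg _).trans (hB 0)
  refine ⟨?_, ⟨2 * Real.pi * L * B, fun x => ?_⟩, fun x hx => ?_⟩
  · unfold Op_aux.xF
    exact ((Complex.measurable_ofReal.comp (measurable_const.mul measurable_id)).mul_const _).mul hm
  · rw [norm_xF]
    by_cases hx : L < |x|
    · rw [hs x hx, norm_zero, mul_zero]; positivity
    · have := not_lt.1 hx
      gcongr
      exact hB x
  · unfold Op_aux.xF
    rw [hs x hx, mul_zero]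

lemma sq_intg {F : ℝ → ℂ} {L : ℝ} (h : BM F L) (hL : 0 ≤ L) : Integrable (fun x => ‖F x‖ ^ 2) := by
  obtain ⟨hm, ⟨B, hB⟩, hs⟩ := h
  have hB0 : 0 ≤ B := (norm_nonneg _).trans (hB 0)
  have h1 : Integrable (fun x => (Icc (-L) L).indicator (fun _ => B ^ 2) x) := by
    rw [integrable_indicator_iff measurableSet_Icc]
    exact integrableOn_const (by simp [Real.volume_Icc])
  refine h1.mono' ?_ (Eventually.of_forall fun x => ?_)
  · exact (hm.norm.pow_const 2).aestronglyMeasurable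
  · rw [Real.norm_eq_abs, abs_of_nonneg (by positivity)]
    by_cases hx : x ∈ Icc (-L) L
    · rw [indicator_of_mem hx]; exact pow_le_pow_left₀ (norm_nonneg _) (hB x) 2
    · rw [indicator_of_notMem hx, hs x, norm_zero]
      · norm_num
      · by_contra h
        exact hx (abs_le.1 (not_lt.1 h))

lemma nrm_xF {F : ℝ → ℂ} {L : ℝ} (h : BM F L) (hL : 0 ≤ L) :
    nrm (xF F) ≤ 2 * Real.pi * L * nrm F := by
  unfold nrm
  have h1 : ∫ x, ‖xF F x‖ ^ 2 ≤ (2 * Real.pi * L) ^ 2 * ∫ x, ‖F x‖ ^ 2 := by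
    rw [← integral_const_mul]
    refine integral_mono (sq_intg (h.xF hL) hL) ((sq_intg h hL).const_mul _) fun x => ?_
    show ‖xF F x‖ ^ 2 ≤ (2 * Real.pi * L) ^ 2 * ‖F x‖ ^ 2
    rw [norm_xF, ← mul_pow]
    by_cases hx : L < |x|
    · rw [h.2.2 x hx, norm_zero, mul_zero, mul_zero]
    · have := not_lt.1 hx
      gcongr
  calc Real.sqrt (∫ x, ‖xF F x‖ ^ 2) ≤ Real.sqrt ((2 * Real.pi * L) ^ 2 * ∫ x, ‖F x‖ ^ 2) :=
        Real.sqrt_le_sqrt h1
    _ = 2 * Real.pi * L * Real.sqrt (∫ x, ‖F x‖ ^ 2) := by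
        rw [Real.sqrt_mul (by positivity), Real.sqrt_sq (by positivity)]

/-- products of Fourier transforms -/
lemma FT_prod (hPl : StPl) {F G : ℝ → ℂ} {L : ℝ} (hF : BM F L) (hG : BM G L) :
    Integrable (fun ν => ‖FT F ν‖ * ‖FT G ν‖) ∧
      ∫ ν, ‖FT F ν‖ * ‖FT G ν‖ ≤ nrm F * nrm G := by
  obtain ⟨BF, hBF⟩ := hF.2.1
  obtain ⟨BG, hBG⟩ := hG.2.1
  obtain ⟨c1, i1, e1, -⟩ := hPl F L BF hF.1 hBF hF.2.2
  obtain ⟨c2, i2, e2, -⟩ := hPl G L BG hG.1 hBG hG.2.2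
  have hi : Integrable (fun ν => ‖FT F ν‖ * ‖FT G ν‖) := by
    refine (i1.add i2).mono' (c1.norm.mul c2.norm).aestronglyMeasurable
      (Eventually.of_forall fun ν => ?_)
    rw [Real.norm_eq_abs, abs_of_nonneg (by positivity)]
    show ‖FT F ν‖ * ‖FT G ν‖ ≤ ‖FT F ν‖ ^ 2 + ‖FT G ν‖ ^ 2
    nlinarith [sq_nonneg (‖FT F ν‖ - ‖FT G ν‖), sq_nonneg (‖FT F ν‖), sq_nonneg (‖FT G ν‖)]
  refine ⟨hi, ?_⟩
  have h := cs i1 i2 hi
  rw [e1, e2] at h
  unfold nrm
  rw [← Real.sqrt_mul (integral_nonneg fun x => by positivity)]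
  exact Real.le_sqrt_of_sq_le h

lemma FT_cont (hPl : StPl) {F : ℝ → ℂ} {L : ℝ} (hF : BM F L) : Continuous (FT F) := by
  obtain ⟨B, hB⟩ := hF.2.1
  exact (hPl F L B hF.1 hB hF.2.2).1

lemma FT_hd (hPl : StPl) {F : ℝ → ℂ} {L : ℝ} (hF : BM F L) (ν : ℝ) :
    HasDerivAt (FT F) (FT (xF F) ν) ν := by
  obtain ⟨B, hB⟩ := hF.2.1
  exact (hPl F L B hF.1 hB hF.2.2).2.2.2 ν

/-! ### the substitution -/

/-- derivative of `vv X` -/
def wd (X y : ℝ) : ℝ := 1 / (Real.sqrt y * Real.sqrt (1 + y / (4 * X ^ 2)))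

lemma wd_pos {X y : ℝ} (hy : 0 < y) : 0 < wd X y := by
  unfold wd
  have : 0 ≤ y / (4 * X ^ 2) := by positivity
  have h2 : 0 < 1 + y / (4 * X ^ 2) := by linarith
  positivity

lemma wd_cont {X α β : ℝ} (hα : 0 < α) : ContinuousOn (wd X) (Icc α β) := by
  unfold wd
  have h0 : ∀ y ∈ Icc α β, 0 < 1 + y / (4 * X ^ 2) := by
    intro y hy
    have : 0 ≤ y / (4 * X ^ 2) := div_nonneg (by linarith [hy.1]) (by positivity)
    linarith
  apply ContinuousOn.div continuousOn_const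
  · fun_prop
  · intro y hy
    have h1 : 0 < Real.sqrt y := Real.sqrt_pos.2 (by linarith [hy.1])
    have h2 : 0 < Real.sqrt (1 + y / (4 * X ^ 2)) := Real.sqrt_pos.2 (h0 y hy)
    positivity

lemma vv_hd (hKa : UB.StKa) {X y : ℝ} (hX : 0 < X) (hy : 0 < y) : HasDerivAt (vv X) (wd X y) y :=
  (hKa X hX).2.2.2.2.1 y hy

lemma vv_contOn (hKa : UB.StKa) {X α β : ℝ} (hX : 0 < X) (hα : 0 < α) :
    ContinuousOn (vv X) (Icc α β) := fun y hy =>
  (vv_hd hKa hX (by linarith [hy.1])).continuousAt.continuousWithinAt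

lemma subst (hKa : UB.StKa) {X α β : ℝ} (hX : 0 < X) (hα : 0 < α) (hαβ : α ≤ β) {G : ℝ → ℝ}
    (hGc : Continuous G) (hG0 : ∀ v, 0 ≤ G v) (hGi : Integrable G) :
    ∫ y in α..β, G (vv X y) * wd X y ≤ ∫ v, G v := by
  have h1 : ∫ y in α..β, (G ∘ vv X) y * wd X y = ∫ v in (vv X α)..(vv X β), G v := by
    apply intervalIntegral.integral_comp_mul_deriv
    · intro y hy
      rw [uIcc_of_le hαβ] at hy
      exact vv_hd hKa hX (by linarith [hy.1])
    · rw [uIcc_of_le hαβ]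
      exact wd_cont hα
    · exact hGc
  have h2 : vv X α ≤ vv X β := by
    unfold vv
    apply mul_le_mul_of_nonneg_left _ (by positivity)
    rw [Real.arsinh_le_arsinh]
    apply div_le_div_of_nonneg_right _ (by positivity)
    exact Real.sqrt_le_sqrt hαβ
  have h3 : ∫ v in (vv X α)..(vv X β), G v ≤ ∫ v, G v := by
    rw [intervalIntegral.integral_of_le h2]
    exact setIntegral_le_integral hGi (Eventually.of_forall hG0)
  calc _ = ∫ y in α..β, (G ∘ vv X) y * wd X y := rfl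
    _ ≤ _ := by rw [h1]; exact h3

/-- lower bound for `vv'` -/
lemma wd_lower {X N y : ℝ} (hN : 1 ≤ N) (hX : 0 < X) (hNX : N ≤ X ^ 2) (hy0 : 0 < y)
    (hy : y ≤ 4 * N) : 1 ≤ 3 * Real.sqrt N * wd X y := by
  unfold wd
  have hX2 : 0 < X ^ 2 := by positivity
  have h1 : Real.sqrt y ≤ 2 * Real.sqrt N := by
    have : (2 * Real.sqrt N) = Real.sqrt (4 * N) := by
      rw [Real.sqrt_mul (by norm_num), show Real.sqrt 4 = 2 by
        rw [show (4 : ℝ) = 2 ^ 2 by norm_num, Real.sqrt_sq (by norm_num)]]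
    rw [this]
    exact Real.sqrt_le_sqrt hy
  have h2 : Real.sqrt (1 + y / (4 * X ^ 2)) ≤ 3 / 2 := by
    have h3 : y / (4 * X ^ 2) ≤ 1 := by
      rw [div_le_one (by positivity)]
      linarith
    rw [Real.sqrt_le_left (by norm_num)]
    linarith
  have h4 : 0 < Real.sqrt y := Real.sqrt_pos.2 hy0
  have h5 : 0 < Real.sqrt (1 + y / (4 * X ^ 2)) := Real.sqrt_pos.2 (by positivity)
  have h6 : Real.sqrt y * Real.sqrt (1 + y / (4 * X ^ 2)) ≤ 3 * Real.sqrt N := by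
    calc _ ≤ (2 * Real.sqrt N) * (3 / 2) := mul_le_mul h1 h2 h5.le (by positivity)
      _ = _ := by ring
  rw [mul_one_div, le_div_iff₀ (by positivity), one_mul]
  exact h6

/-! ### the function `f` -/

/-- the amplitude -/
def Fn (X N : ℝ) (φ ψ : ℝ → ℂ) (y : ℝ) : ℂ :=
  ((om (y / N) : ℝ) : ℂ) * (FT φ (vv X y) * (starRingEnd ℂ) (FT ψ (vv X y)))

/-- its derivative -/
def Fd (X N : ℝ) (φ ψ : ℝ → ℂ) (y : ℝ) : ℂ :=
  ((deriv om (y / N) / N : ℝ) : ℂ) * (FT φ (vv X y) * (starRingEnd ℂ) (FT ψ (vv X y))) +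
    ((om (y / N) : ℝ) : ℂ) * (((wd X y : ℝ) : ℂ) * (FT (xF φ) (vv X y) * (starRingEnd ℂ) (FT ψ (vv X y)) +
      FT φ (vv X y) * (starRingEnd ℂ) (FT (xF ψ) (vv X y))))

lemma Fn_hd (hPl : StPl) (hKa : UB.StKa) {X N L y : ℝ} {φ ψ : ℝ → ℂ} (hX : 0 < X) (hy : 0 < y)
    (hφ : BM φ L) (hψ : BM ψ L) : HasDerivAt (Fn X N φ ψ) (Fd X N φ ψ y) y := by
  have h0 : HasDerivAt (fun y : ℝ => om (y / N)) (deriv om (y / N) / N) y := by
    have := (om_hd (y / N)).comp y ((hasDerivAt_id y).div_const N)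
    simpa [Function.comp_def, div_eq_mul_inv] using this
  have h1 : HasDerivAt (fun y : ℝ => ((om (y / N) : ℝ) : ℂ)) ((deriv om (y / N) / N : ℝ) : ℂ) y :=
    h0.ofReal_comp
  have h2 : HasDerivAt (fun y => FT φ (vv X y)) (wd X y • FT (xF φ) (vv X y)) y :=
    (FT_hd hPl hφ (vv X y)).scomp y (vv_hd hKa hX hy)
  have h3 : HasDerivAt (fun y => FT ψ (vv X y)) (wd X y • FT (xF ψ) (vv X y)) y :=
    (FT_hd hPl hψ (vv X y)).scomp y (vv_hd hKa hX hy)
  have h4 : HasDerivAt (fun y => (starRingEnd ℂ) (FT ψ (vv X y)))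
      ((starRingEnd ℂ) (wd X y • FT (xF ψ) (vv X y))) y := h3.star
  have h5 := h1.mul (h2.mul h4)
  refine h5.congr_deriv ?_
  unfold Fd
  simp only [Complex.real_smul, map_mul, Complex.conj_ofReal, Pi.mul_apply]
  ring

lemma Fd_cont (hPl : StPl) (hKa : UB.StKa) {X N L α β : ℝ} {φ ψ : ℝ → ℂ} (hX : 0 < X) (hα : 0 < α)
    (hL : 0 ≤ L) (hφ : BM φ L) (hψ : BM ψ L) : ContinuousOn (Fd X N φ ψ) (Icc α β) := by
  have hv : ContinuousOn (vv X) (Icc α β) := vv_contOn hKa hX hα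
  have c1 : ContinuousOn (fun y => FT φ (vv X y)) (Icc α β) := (FT_cont hPl hφ).comp_continuousOn hv
  have c2 : ContinuousOn (fun y => (starRingEnd ℂ) (FT ψ (vv X y))) (Icc α β) :=
    Complex.continuous_conj.comp_continuousOn ((FT_cont hPl hψ).comp_continuousOn hv)
  have c3 : ContinuousOn (fun y => FT (xF φ) (vv X y)) (Icc α β) :=
    (FT_cont hPl (hφ.xF hL)).comp_continuousOn hv
  have c4 : ContinuousOn (fun y => (starRingEnd ℂ) (FT (xF ψ) (vv X y))) (Icc α β) :=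
    Complex.continuous_conj.comp_continuousOn ((FT_cont hPl (hψ.xF hL)).comp_continuousOn hv)
  have c5 : ContinuousOn (fun y : ℝ => ((om (y / N) : ℝ) : ℂ)) (Icc α β) :=
    (Complex.continuous_ofReal.comp (om_cont.comp (continuous_id.div_const N))).continuousOn
  have c6 : ContinuousOn (fun y : ℝ => ((deriv om (y / N) / N : ℝ) : ℂ)) (Icc α β) :=
    (Complex.continuous_ofReal.comp
      ((om_dcont.comp (continuous_id.div_const N)).div_const N)).continuousOn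
  have c7 : ContinuousOn (fun y : ℝ => ((wd X y : ℝ) : ℂ)) (Icc α β) :=
    Complex.continuous_ofReal.comp_continuousOn (wd_cont hα)
  unfold Fd
  exact (c6.mul (c1.mul c2)).add (c5.mul (c7.mul ((c3.mul c2).add (c1.mul c4))))

/-- the bound for one product -/
lemma one_int (hPl : StPl) (hKa : UB.StKa) {X L α β : ℝ} {F G : ℝ → ℂ} (hX : 0 < X) (hα : 0 < α)
    (hαβ : α ≤ β) (hF : BM F L) (hG : BM G L) :
    IntervalIntegrable (fun y => ‖FT F (vv X y)‖ * ‖FT G (vv X y)‖ * wd X y) volume α β ∧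
    ∫ y in α..β, ‖FT F (vv X y)‖ * ‖FT G (vv X y)‖ * wd X y ≤ nrm F * nrm G := by
  have cF := FT_cont hPl hF
  have cG := FT_cont hPl hG
  have hv : ContinuousOn (vv X) (Icc α β) := vv_contOn hKa hX hα
  obtain ⟨h1, h2⟩ := FT_prod hPl hF hG
  constructor
  · apply ContinuousOn.intervalIntegrable
    rw [uIcc_of_le hαβ]
    exact ((cF.comp_continuousOn hv).norm.mul (cG.comp_continuousOn hv).norm).mul (wd_cont hα)
  · have h3 := subst hKa hX hα hαβ (G := fun v => ‖FT F v‖ * ‖FT G v‖) (cF.norm.mul cG.norm)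
      (fun v => by positivity) h1
    exact h3.trans h2

lemma norm_conj' (z : ℂ) : ‖(starRingEnd ℂ) z‖ = ‖z‖ := Complex.norm_conj z

/-- integral of `|f|` -/
lemma int_Fn (hPl : StPl) (hKa : UB.StKa) {X N L α β : ℝ} {φ ψ : ℝ → ℂ} (hN : 1 ≤ N) (hX : 0 < X)
    (hNX : N ≤ X ^ 2) (hα : 0 < α) (hαβ : α ≤ β) (hβ : β ≤ 4 * N) (hφ : BM φ L) (hψ : BM ψ L) :
    ∫ y in α..β, ‖Fn X N φ ψ y‖ ≤ 3 * Real.sqrt N * (nrm φ * nrm ψ) := by
  obtain ⟨h1, h2⟩ := one_int hPl hKa hX hα hαβ hφ hψ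
  have hv : ContinuousOn (vv X) (Icc α β) := vv_contOn hKa hX hα
  have hc : ContinuousOn (fun y => ‖Fn X N φ ψ y‖) (Icc α β) := by
    unfold Fn
    exact ((Complex.continuous_ofReal.comp (om_cont.comp (continuous_id.div_const N))).continuousOn.mul
      (((FT_cont hPl hφ).comp_continuousOn hv).mul
        (Complex.continuous_conj.comp_continuousOn ((FT_cont hPl hψ).comp_continuousOn hv)))).norm
  have h3 : ∫ y in α..β, ‖Fn X N φ ψ y‖ ≤
      ∫ y in α..β, 3 * Real.sqrt N * (‖FT φ (vv X y)‖ * ‖FT ψ (vv X y)‖ * wd X y) := by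
    apply intervalIntegral.integral_mono_on hαβ
    · apply ContinuousOn.intervalIntegrable
      rw [uIcc_of_le hαβ]
      exact hc
    · exact h1.const_mul _
    · intro y hy
      have hy0 : 0 < y := by linarith [hy.1]
      have h4 := wd_lower hN hX hNX hy0 (hy.2.trans hβ)
      unfold Fn
      rw [norm_mul, norm_mul, norm_conj', Complex.norm_real, Real.norm_eq_abs,
        abs_of_nonneg (om_nonneg _)]
      have h5 : 0 ≤ ‖FT φ (vv X y)‖ * ‖FT ψ (vv X y)‖ := by positivity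
      calc om (y / N) * (‖FT φ (vv X y)‖ * ‖FT ψ (vv X y)‖) ≤
            1 * (‖FT φ (vv X y)‖ * ‖FT ψ (vv X y)‖) := mul_le_mul_of_nonneg_right (om_le_one _) h5
        _ ≤ (3 * Real.sqrt N * wd X y) * (‖FT φ (vv X y)‖ * ‖FT ψ (vv X y)‖) :=
            mul_le_mul_of_nonneg_right h4 h5
        _ = _ := by ring
  refine h3.trans ?_
  rw [intervalIntegral.integral_const_mul]
  exact mul_le_mul_of_nonneg_left h2 (by positivity)

/-- integral of `|f'|` -/
lemma int_Fd (hPl : StPl) (hKa : UB.StKa) {X N L α β C1 : ℝ} {φ ψ : ℝ → ℂ} (hN : 1 ≤ N) (hX : 0 < X)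
    (hNX : N ≤ X ^ 2) (hα : 0 < α) (hαβ : α ≤ β) (hβ : β ≤ 4 * N) (hL : 0 ≤ L) (hφ : BM φ L)
    (hψ : BM ψ L) (hC1 : 0 ≤ C1) (hom : ∀ u, |deriv om u| ≤ C1) :
    ∫ y in α..β, ‖Fd X N φ ψ y‖ ≤
      (3 * C1 * Real.sqrt N / N + 4 * Real.pi * L) * (nrm φ * nrm ψ) := by
  obtain ⟨i0, h0⟩ := one_int hPl hKa hX hα hαβ hφ hψ
  obtain ⟨i1, h1⟩ := one_int hPl hKa hX hα hαβ (hφ.xF hL) hψ
  obtain ⟨i2, h2⟩ := one_int hPl hKa hX hα hαβ hφ (hψ.xF hL)
  have hN0 : 0 < N := by linarith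
  have h3 : ∫ y in α..β, ‖Fd X N φ ψ y‖ ≤
      ∫ y in α..β, (((3 * C1 * Real.sqrt N / N) * (‖FT φ (vv X y)‖ * ‖FT ψ (vv X y)‖ * wd X y) +
        ‖FT (xF φ) (vv X y)‖ * ‖FT ψ (vv X y)‖ * wd X y) +
        ‖FT φ (vv X y)‖ * ‖FT (xF ψ) (vv X y)‖ * wd X y) := by
    apply intervalIntegral.integral_mono_on hαβ
    · apply ContinuousOn.intervalIntegrable
      rw [uIcc_of_le hαβ]
      exact (Fd_cont hPl hKa hX hα hL hφ hψ).norm
    · exact ((i0.const_mul _).add i1).add i2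
    · intro y hy
      have hy0 : 0 < y := by linarith [hy.1]
      have h4 := wd_lower hN hX hNX hy0 (hy.2.trans hβ)
      have hw : 0 < wd X y := wd_pos hy0
      set P0 := ‖FT φ (vv X y)‖ * ‖FT ψ (vv X y)‖ with hP0
      set P1 := ‖FT (xF φ) (vv X y)‖ * ‖FT ψ (vv X y)‖ with hP1
      set P2 := ‖FT φ (vv X y)‖ * ‖FT (xF ψ) (vv X y)‖ with hP2
      have p0 : 0 ≤ P0 := by positivity
      have p1 : 0 ≤ P1 := by positivity
      have p2 : 0 ≤ P2 := by positivity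
      have t1 : ‖((deriv om (y / N) / N : ℝ) : ℂ) * (FT φ (vv X y) * (starRingEnd ℂ) (FT ψ (vv X y)))‖ ≤
          (3 * C1 * Real.sqrt N / N) * (P0 * wd X y) := by
        rw [norm_mul, norm_mul, norm_conj', Complex.norm_real, Real.norm_eq_abs, abs_div,
          abs_of_pos hN0, ← hP0]
        have e1 : |deriv om (y / N)| / N ≤ C1 / N := div_le_div_of_nonneg_right (hom _) hN0.le
        calc |deriv om (y / N)| / N * P0 ≤ C1 / N * P0 := mul_le_mul_of_nonneg_right e1 p0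
          _ ≤ C1 / N * P0 * (3 * Real.sqrt N * wd X y) :=
              le_mul_of_one_le_right (by positivity) h4
          _ = _ := by ring
      have t2 : ‖((om (y / N) : ℝ) : ℂ) * (((wd X y : ℝ) : ℂ) *
          (FT (xF φ) (vv X y) * (starRingEnd ℂ) (FT ψ (vv X y)) +
            FT φ (vv X y) * (starRingEnd ℂ) (FT (xF ψ) (vv X y))))‖ ≤ P1 * wd X y + P2 * wd X y := by
        rw [norm_mul, norm_mul, Complex.norm_real, Complex.norm_real, Real.norm_eq_abs,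
          Real.norm_eq_abs, abs_of_nonneg (om_nonneg _), abs_of_pos hw]
        have e1 : ‖FT (xF φ) (vv X y) * (starRingEnd ℂ) (FT ψ (vv X y)) +
            FT φ (vv X y) * (starRingEnd ℂ) (FT (xF ψ) (vv X y))‖ ≤ P1 + P2 := by
          refine (norm_add_le _ _).trans (le_of_eq ?_)
          rw [norm_mul, norm_mul, norm_conj', norm_conj']
        calc om (y / N) * (wd X y * ‖FT (xF φ) (vv X y) * (starRingEnd ℂ) (FT ψ (vv X y)) +
              FT φ (vv X y) * (starRingEnd ℂ) (FT (xF ψ) (vv X y))‖) ≤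
              1 * (wd X y * (P1 + P2)) := by
                apply mul_le_mul (om_le_one _) _ (by positivity) (by norm_num)
                exact mul_le_mul_of_nonneg_left e1 hw.le
          _ = _ := by ring
      have t3 : ‖Fd X N φ ψ y‖ ≤ _ + _ := (norm_add_le _ _).trans (add_le_add t1 t2)
      linarith
  refine h3.trans ?_
  rw [intervalIntegral.integral_add ((i0.const_mul _).add i1) i2,
    intervalIntegral.integral_add (i0.const_mul _) i1, intervalIntegral.integral_const_mul]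
  have n1 := nrm_xF hφ hL
  have n2 := nrm_xF hψ hL
  have q1 : nrm (xF φ) * nrm ψ ≤ 2 * Real.pi * L * nrm φ * nrm ψ :=
    mul_le_mul_of_nonneg_right n1 (nrm_nonneg _)
  have q2 : nrm φ * nrm (xF ψ) ≤ nrm φ * (2 * Real.pi * L * nrm ψ) :=
    mul_le_mul_of_nonneg_left n2 (nrm_nonneg _)
  have q0 : (3 * C1 * Real.sqrt N / N) * (∫ y in α..β, ‖FT φ (vv X y)‖ * ‖FT ψ (vv X y)‖ * wd X y) ≤
      (3 * C1 * Real.sqrt N / N) * (nrm φ * nrm ψ) := mul_le_mul_of_nonneg_left h0 (by positivity)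
  nlinarith [q0, q1, q2, h1, h2]

/-! ### the double integral -/

lemma kernel_sum {X N : ℝ} {a b : ℕ} (hcov : ∀ n : ℕ, om ((n : ℝ) / N) ≠ 0 → a ≤ n ∧ n < b) (z : ℝ) :
    KS X N z = ∑ n ∈ Finset.Ico a b, ((om ((n : ℝ) / N) : ℝ) : ℂ) * ee (z * vv X n) := by
  unfold KS
  apply tsum_eq_sum
  intro n hn
  by_cases h : om ((n : ℝ) / N) = 0
  · rw [h]; simp
  · exact absurd (Finset.mem_Ico.2 (hcov n h)) hn

lemma dbl {X N L z0 : ℝ} {φ ψ : ℝ → ℂ} {a b : ℕ} (hL : 0 ≤ L)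
    (hcov : ∀ n : ℕ, om ((n : ℝ) / N) ≠ 0 → a ≤ n ∧ n < b) (hφ : BM φ L) (hψ : BM ψ L) :
    ∫ x, ∫ y, φ x * (starRingEnd ℂ) (ψ y) * KS X N (z0 + x - y) =
      ∑ n ∈ Finset.Ico a b, Fn X N φ ψ n * ee (z0 * vv X n) := by
  have h1 : ∀ x, ∫ y, φ x * (starRingEnd ℂ) (ψ y) * KS X N (z0 + x - y) =
      ∑ n ∈ Finset.Ico a b, (((om ((n : ℝ) / N) : ℝ) : ℂ) * ee (z0 * vv X n) *
        (starRingEnd ℂ) (FT ψ (vv X n))) * (φ x * ee (vv X n * x)) := by
    intro x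
    have e1 : (fun y => φ x * (starRingEnd ℂ) (ψ y) * KS X N (z0 + x - y)) =
        fun y => ∑ n ∈ Finset.Ico a b, (((om ((n : ℝ) / N) : ℝ) : ℂ) * ee (z0 * vv X n) *
          (φ x * ee (vv X n * x))) * (starRingEnd ℂ) (ψ y * ee (vv X n * y)) := by
      funext y
      rw [kernel_sum hcov, Finset.mul_sum]
      apply Finset.sum_congr rfl
      intro n _
      have e2 : (z0 + x - y) * vv X n = z0 * vv X n + (vv X n * x + -(vv X n * y)) := by ring
      rw [e2, ee_add, ee_add, map_mul, ee_conj]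
      ring
    rw [e1, integral_finsetSum]
    · apply Finset.sum_congr rfl
      intro n _
      rw [integral_const_mul, integral_conj]
      unfold FT
      ring
    · intro n _
      apply Integrable.const_mul
      exact Complex.conjCLE.toContinuousLinearMap.integrable_comp (hψ.intg hL (vv X n))
  simp only [h1]
  rw [integral_finsetSum]
  · apply Finset.sum_congr rfl
    intro n _
    rw [integral_const_mul]
    unfold Fn FT
    ring
  · intro n _
    exact (hφ.intg hL (vv X n)).const_mul _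

end Op_aux

open Op_aux in
/-- item Op -/
theorem iOp (hPl : StPl) (hVS : StVS) (hSB : StSB) (hKa : UB.StKa) : StOp := by
  obtain ⟨C0, hC0, hVS⟩ := hVS
  obtain ⟨C1, hC1, hom⟩ := om_bd
  have hpi := Real.pi_pos
  have hD : 3 ≤ 3 + 6 * C1 + 8 * Real.pi := by linarith [hpi]
  have hCC : C0 ≤ 2 * C0 * (3 + 6 * C1 + 8 * Real.pi) := by nlinarith
  refine ⟨2 * C0 * (3 + 6 * C1 + 8 * Real.pi), hC0.trans hCC, ?_⟩
  intro X N Δ z0 B φ ψ hN hX hNX hΔN hΔ hz hmφ hmψ hB hsupp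
  set D := 3 + 6 * C1 + 8 * Real.pi with hDdef
  have hN0 : 0 < N := by linarith
  set s := Real.sqrt N with hs
  have hs0 : 0 < s := Real.sqrt_pos.2 hN0
  have hss : s * s = N := Real.mul_self_sqrt hN0.le
  have hΔ0 : 0 < Δ := by
    by_contra h
    have h' := not_lt.1 h
    nlinarith
  have hN64 : 64 ≤ N := by
    have : Δ * s ≤ s / 64 * s := mul_le_mul_of_nonneg_right hΔ hs0.le
    nlinarith
  have hz0 : 0 < |z0| := by linarith [div_pos hs0 (by norm_num : (0 : ℝ) < 16)]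
  have hz0' : z0 ≠ 0 := abs_pos.1 hz0
  have hC0N : C0 * N ≤ X ^ 2 := (mul_le_mul_of_nonneg_right hCC hN0.le).trans hNX
  have hNX1 : N ≤ X ^ 2 := by nlinarith
  have hφ : BM φ Δ := ⟨hmφ, ⟨B, fun x => (hB x).1⟩, fun x hx => (hsupp x hx).1⟩
  have hψ : BM ψ Δ := ⟨hmψ, ⟨B, fun x => (hB x).2⟩, fun x hx => (hsupp x hx).2⟩
  -- the parameters
  have hr1 : 1 ≤ s / Δ := by
    rw [le_div_iff₀ hΔ0]
    linarith
  have hr2 : s / Δ ≤ N := by
    rw [div_le_iff₀ hΔ0, ← hss]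
    nlinarith
  set a : ℕ := ⌈N / 2⌉₊ with ha
  have ha1 : N / 2 ≤ a := Nat.le_ceil _
  have ha2 : (a : ℝ) < N / 2 + 1 := Nat.ceil_lt_add_one (by positivity)
  set q : ℕ := ⌈s / Δ⌉₊ with hq
  have hq1 : s / Δ ≤ q := Nat.le_ceil _
  have hq2 : (q : ℝ) < s / Δ + 1 := Nat.ceil_lt_add_one (by positivity)
  have hq0 : (1 : ℝ) ≤ q := hr1.trans hq1
  have hq0' : 1 ≤ q := by exact_mod_cast hq0
  have hq3 : (q : ℝ) ≤ 2 * (s / Δ) := by linarith
  set K : ℕ := ⌈2 * N / q⌉₊ with hK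
  have hK1 : 2 * N / q ≤ K := Nat.le_ceil _
  have hK2 : (K : ℝ) < 2 * N / q + 1 := Nat.ceil_lt_add_one (by positivity)
  have hqpos : (0 : ℝ) < q := by linarith
  have hK3 : 2 * N ≤ K * q := by
    rw [div_le_iff₀ hqpos] at hK1
    exact hK1
  have hK4 : (K : ℝ) * q < 2 * N + q := by
    have : (K : ℝ) * q < (2 * N / q + 1) * q := mul_lt_mul_of_pos_right hK2 hqpos
    have e : (2 * N / q + 1) * q = 2 * N + q := by field_simp
    linarith
  have hend : (a : ℝ) + K * q ≤ 4 * N := by linarith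
  have hend' : 5 * N / 2 ≤ (a : ℝ) + K * q := by linarith
  have ha0 : (0 : ℝ) < a := by linarith
  have hcov : ∀ n : ℕ, om ((n : ℝ) / N) ≠ 0 → a ≤ n ∧ n < a + K * q := by
    intro n hn
    obtain ⟨h1, h2⟩ := om_supp hn
    rw [lt_div_iff₀ hN0] at h1
    rw [div_lt_iff₀ hN0] at h2
    constructor
    · rw [ha, Nat.ceil_le]
      linarith
    · have : (n : ℝ) < ((a + K * q : ℕ) : ℝ) := by
        push_cast
        linarith
      exact_mod_cast this
  have hab : (a : ℝ) ≤ a + K * q := by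
    have : (0 : ℝ) ≤ K * q := by positivity
    linarith
  rw [dbl hΔ0.le hcov hφ hψ]
  set P := nrm φ * nrm ψ with hP
  have hP0 : 0 ≤ P := mul_nonneg (nrm_nonneg _) (nrm_nonneg _)
  set E := C0 * (q * Real.sqrt (|z0| / (N * s)) + 1 / Real.sqrt (|z0| / (N * s))) with hE
  have hSB1 := hSB q K a (fun n => ee (z0 * vv X n)) (Fn X N φ ψ) (Fd X N φ ψ) E hq0'
    (fun y hy => Fn_hd hPl hKa hX (by linarith [hy.1]) hφ hψ)
    (Fd_cont hPl hKa hX ha0 hΔ0.le hφ hψ) (by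
      intro c d h1 h2 h3 h4
      have h1' : (a : ℝ) ≤ c := by exact_mod_cast h1
      have h3' : (d : ℝ) ≤ c + q := by exact_mod_cast h3
      have h4' : (d : ℝ) ≤ a + K * q := by exact_mod_cast h4
      exact hVS X N z0 q c d hN hX hC0N hz0' (by linarith) (by linarith) h2 (by linarith) hq0)
  have hI1 := int_Fn hPl hKa hN hX hNX1 ha0 hab hend hφ hψ
  have hI2 := int_Fd hPl hKa hN hX hNX1 ha0 hab hend hΔ0.le hφ hψ hC1 hom
  rw [← hs, ← hP] at hI1 hI2
  -- the value of `E`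
  set u := Real.sqrt (|z0| / s) with hu
  have hu0 : 0 < u := Real.sqrt_pos.2 (by positivity)
  have e1 : Real.sqrt (|z0| / (N * s)) = u / s := by
    rw [mul_comm N s, ← div_div, Real.sqrt_div (by positivity), ← hs]
  have e2 : Real.sqrt (s / |z0|) = 1 / u := by
    rw [hu, show s / |z0| = (|z0| / s)⁻¹ by rw [inv_div], Real.sqrt_inv, one_div]
  have hE1 : E * Δ ≤ 2 * C0 * (Δ * s * (1 / u) + u) := by
    rw [hE, e1]
    have h1 : (q : ℝ) * (u / s) ≤ 2 * (s / Δ) * (u / s) :=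
      mul_le_mul_of_nonneg_right hq3 (by positivity)
    have h2 : 2 * (s / Δ) * (u / s) = 2 * u / Δ := by field_simp
    have h3 : 1 / (u / s) = s / u := by rw [one_div_div]
    rw [h3]
    have h4 : C0 * (q * (u / s) + s / u) * Δ ≤ C0 * (2 * u / Δ + s / u) * Δ := by
      apply mul_le_mul_of_nonneg_right _ hΔ0.le
      apply mul_le_mul_of_nonneg_left _ (by linarith)
      linarith
    have h5 : C0 * (2 * u / Δ + s / u) * Δ = C0 * (2 * u + Δ * s * (1 / u)) := by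
      field_simp
    have h6 : 0 ≤ C0 * (Δ * s * (1 / u)) := by positivity
    calc _ ≤ _ := h4
      _ = C0 * (2 * u + Δ * s * (1 / u)) := h5
      _ ≤ _ := by nlinarith
  have hE0 : 0 ≤ E := by
    rw [hE]
    have : 0 ≤ C0 := by linarith
    positivity
  have hq4 : 1 / (q : ℝ) ≤ Δ / s := by
    rw [div_le_div_iff₀ hqpos hs0, one_mul]
    rw [div_le_iff₀ hΔ0] at hq1
    linarith
  have hIn1 : (1 / (q : ℝ)) * (∫ y in (a : ℝ)..(a + K * q), ‖Fn X N φ ψ y‖) ≤ 3 * Δ * P := by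
    have i0 : 0 ≤ ∫ y in (a : ℝ)..(a + K * q), ‖Fn X N φ ψ y‖ :=
      intervalIntegral.integral_nonneg hab fun y _ => norm_nonneg _
    calc _ ≤ (Δ / s) * (3 * s * P) := mul_le_mul hq4 hI1 i0 (by positivity)
      _ = 3 * Δ * P := by field_simp
  have hIn2 : 2 * (∫ y in (a : ℝ)..(a + K * q), ‖Fd X N φ ψ y‖) ≤ (6 * C1 + 8 * Real.pi) * Δ * P := by
    have h1 : 3 * C1 * s / N ≤ 3 * C1 * Δ := by
      rw [← hss, mul_div_mul_right _ _ hs0.ne']
      have h2 : 1 / s ≤ Δ := by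
        rw [div_le_iff₀ hs0]
        exact hΔN
      calc 3 * C1 / s = 3 * C1 * (1 / s) := by ring
        _ ≤ _ := mul_le_mul_of_nonneg_left h2 (by positivity)
    have h2 : (3 * C1 * s / N + 4 * Real.pi * Δ) * P ≤ (3 * C1 * Δ + 4 * Real.pi * Δ) * P :=
      mul_le_mul_of_nonneg_right (by linarith) hP0
    linarith [hI2.trans h2]
  have hfin : (1 / (q : ℝ)) * (∫ y in (a : ℝ)..(a + K * q), ‖Fn X N φ ψ y‖) +
      2 * (∫ y in (a : ℝ)..(a + K * q), ‖Fd X N φ ψ y‖) ≤ Δ * (D * P) := by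
    rw [hDdef]
    linarith
  refine hSB1.trans ?_
  rw [e2]
  change _ ≤ 2 * C0 * D * (Δ * s * (1 / u) + u) * P
  calc _ ≤ E * (Δ * (D * P)) := mul_le_mul_of_nonneg_left hfin hE0
    _ = (E * Δ) * (D * P) := by ring
    _ ≤ (2 * C0 * (Δ * s * (1 / u) + u)) * (D * P) :=
        mul_le_mul_of_nonneg_right hE1 (mul_nonneg (by linarith) hP0)
    _ = _ := by ring

end Pool.Agent.Work.MP_56b8f5_nt.UV
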