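import Pool.Agent.Work.MP_56b8f5_nt.UV.Stmts

/-!
MP_56b8f5_nt, block UV, item SB: summation by parts in blocks.
-/

set_option autoImplicit false

open MeasureTheory Set Filter Topology

noncomputable section

namespace Pool.Agent.Work.MP_56b8f5_nt.UV

namespace SB_aux

/-- summation by parts -/
lemma parts (c m : ℕ) (f z : ℕ → ℂ) :
    ∑ n ∈ Finset.Ico c (c + m + 1), f n * z n =
      f (c + m) * (∑ n ∈ Finset.Ico c (c + m + 1), z n) -
        ∑ n ∈ Finset.Ico c (c + m), (f (n + 1) - f n) * ∑ j ∈ Finset.Ico c (n + 1), z j := by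
  induction m with
  | zero => simp
  | succ m ih =>
    have e1 : ∑ n ∈ Finset.Ico c (c + (m + 1) + 1), f n * z n =
        ∑ n ∈ Finset.Ico c (c + m + 1), f n * z n + f (c + m + 1) * z (c + m + 1) := by
      rw [show c + (m + 1) + 1 = (c + m + 1) + 1 by ring, Finset.sum_Ico_succ_top (by omega)]
    have e2 : ∑ n ∈ Finset.Ico c (c + (m + 1) + 1), z n =
        ∑ n ∈ Finset.Ico c (c + m + 1), z n + z (c + m + 1) := by
      rw [show c + (m + 1) + 1 = (c + m + 1) + 1 by ring, Finset.sum_Ico_succ_top (by omega)]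
    have e3 : ∑ n ∈ Finset.Ico c (c + (m + 1)), (f (n + 1) - f n) * ∑ j ∈ Finset.Ico c (n + 1), z j =
        ∑ n ∈ Finset.Ico c (c + m), (f (n + 1) - f n) * ∑ j ∈ Finset.Ico c (n + 1), z j +
          (f (c + m + 1) - f (c + m)) * ∑ j ∈ Finset.Ico c (c + m + 1), z j := by
      rw [show c + (m + 1) = (c + m) + 1 by ring, Finset.sum_Ico_succ_top (by omega)]
    rw [e1, e2, e3, ih, show c + (m + 1) = c + m + 1 by ring]
    ring

/-- differences of a `C¹` function -/
lemma diff_le (f f1 : ℝ → ℂ) (A B x y : ℝ) (hd : ∀ y ∈ Icc A B, HasDerivAt f (f1 y) y)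
    (hc : ContinuousOn f1 (Icc A B)) (hAx : A ≤ x) (hxy : x ≤ y) (hyB : y ≤ B) :
    ‖f y - f x‖ ≤ ∫ t in x..y, ‖f1 t‖ := by
  have hsub : uIcc x y ⊆ Icc A B := by
    rw [uIcc_of_le hxy]; exact Icc_subset_Icc hAx hyB
  have h1 : ∫ t in x..y, f1 t = f y - f x :=
    intervalIntegral.integral_eq_sub_of_hasDerivAt (fun t ht => hd t (hsub ht))
      ((hc.mono hsub).intervalIntegrable)
  rw [← h1]
  exact intervalIntegral.norm_integral_le_integral_norm hxy

lemma ii (g : ℝ → ℂ) (A B x y : ℝ) (hc : ContinuousOn g (Icc A B)) (hAx : A ≤ x) (hxy : x ≤ y)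
    (hyB : y ≤ B) : IntervalIntegrable (fun t => ‖g t‖) volume x y := by
  have hsub : uIcc x y ⊆ Icc A B := by
    rw [uIcc_of_le hxy]; exact Icc_subset_Icc hAx hyB
  exact ((hc.mono hsub).norm).intervalIntegrable

lemma sum_diff (f f1 : ℝ → ℂ) (c q : ℕ) (hd : ∀ y ∈ Icc (c : ℝ) (c + q), HasDerivAt f (f1 y) y)
    (hc : ContinuousOn f1 (Icc (c : ℝ) (c + q))) (m : ℕ) (hm : m ≤ q) :
    ∑ n ∈ Finset.Ico c (c + m), ‖f ((n + 1 : ℕ) : ℝ) - f (n : ℝ)‖ ≤ ∫ t in (c : ℝ)..(c + m), ‖f1 t‖ := by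
  induction m with
  | zero => simp
  | succ m ih =>
    have hm' : (m : ℝ) + 1 ≤ q := by exact_mod_cast hm
    have h0 : (0 : ℝ) ≤ m := Nat.cast_nonneg m
    rw [show c + (m + 1) = (c + m) + 1 by ring, Finset.sum_Ico_succ_top (by omega)]
    have h1 : ‖f ((c + m + 1 : ℕ) : ℝ) - f ((c + m : ℕ) : ℝ)‖ ≤ ∫ t in ((c : ℝ) + m)..(c + (m + 1)), ‖f1 t‖ := by
      have h := diff_le f f1 c (c + q) (c + m) (c + (m + 1)) hd hc (by linarith) (by linarith) (by linarith)
      have e1 : ((c + m + 1 : ℕ) : ℝ) = c + (m + 1) := by push_cast; ring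
      have e2 : ((c + m : ℕ) : ℝ) = c + m := by push_cast; ring
      rw [e1, e2]
      exact h
    have h2 : (∫ t in (c : ℝ)..(c + m), ‖f1 t‖) + (∫ t in ((c : ℝ) + m)..(c + (m + 1)), ‖f1 t‖) =
        ∫ t in (c : ℝ)..(c + (m + 1)), ‖f1 t‖ :=
      intervalIntegral.integral_add_adjacent_intervals
        (ii f1 c (c + q) _ _ hc (le_refl _) (by linarith) (by linarith))
        (ii f1 c (c + q) _ _ hc (by linarith) (by linarith) (by linarith))
    have h3 := ih (by omega)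
    push_cast
    push_cast at h1
    rw [← h2]
    push_cast at h3
    exact add_le_add h3 h1

lemma block (q c : ℕ) (z : ℕ → ℂ) (f f1 : ℝ → ℂ) (E : ℝ) (hq : 1 ≤ q)
    (hd : ∀ y ∈ Icc (c : ℝ) (c + q), HasDerivAt f (f1 y) y)
    (hc : ContinuousOn f1 (Icc (c : ℝ) (c + q)))
    (hE : ∀ d : ℕ, c ≤ d → d ≤ c + q → ‖∑ n ∈ Finset.Ico c d, z n‖ ≤ E) :
    ‖∑ n ∈ Finset.Ico c (c + q), f n * z n‖ ≤
      E * ((1 / q) * (∫ y in (c : ℝ)..(c + q), ‖f y‖) + 2 * ∫ y in (c : ℝ)..(c + q), ‖f1 y‖) := by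
  obtain ⟨m, rfl⟩ : ∃ m, q = m + 1 := ⟨q - 1, by omega⟩
  have hE0 : 0 ≤ E := by
    have := hE c (le_refl _) (by omega)
    simpa using this
  have hfc : ContinuousOn f (Icc (c : ℝ) (c + ((m + 1 : ℕ) : ℝ))) :=
    fun y hy => (hd y hy).continuousAt.continuousWithinAt
  set Q : ℝ := ((m + 1 : ℕ) : ℝ) with hQ
  have hQm : Q = m + 1 := by rw [hQ]; push_cast; ring
  have hm0 : (0 : ℝ) ≤ m := Nat.cast_nonneg m
  have hQ0 : 0 < Q := by linarith
  set I1 : ℝ := ∫ y in (c : ℝ)..(c + Q), ‖f1 y‖ with hI1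
  have hp := parts c m (fun n => f (n : ℝ)) z
  rw [show c + (m + 1) = c + m + 1 by ring, hp]
  have hb1 : ‖f ((c + m : ℕ) : ℝ) * ∑ n ∈ Finset.Ico c (c + m + 1), z n‖ ≤ ‖f ((c + m : ℕ) : ℝ)‖ * E := by
    rw [norm_mul]
    exact mul_le_mul_of_nonneg_left (hE _ (by omega) (by omega)) (norm_nonneg _)
  have hb2 : ‖∑ n ∈ Finset.Ico c (c + m), (f ((n + 1 : ℕ) : ℝ) - f (n : ℝ)) * ∑ j ∈ Finset.Ico c (n + 1), z j‖ ≤
      I1 * E := by
    calc ‖∑ n ∈ Finset.Ico c (c + m), (f ((n + 1 : ℕ) : ℝ) - f (n : ℝ)) * ∑ j ∈ Finset.Ico c (n + 1), z j‖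
        ≤ ∑ n ∈ Finset.Ico c (c + m), ‖(f ((n + 1 : ℕ) : ℝ) - f (n : ℝ)) * ∑ j ∈ Finset.Ico c (n + 1), z j‖ :=
          norm_sum_le _ _
      _ ≤ ∑ n ∈ Finset.Ico c (c + m), ‖f ((n + 1 : ℕ) : ℝ) - f (n : ℝ)‖ * E := by
          refine Finset.sum_le_sum (fun n hn => ?_)
          rw [Finset.mem_Ico] at hn
          rw [norm_mul]
          exact mul_le_mul_of_nonneg_left (hE _ (by omega) (by omega)) (norm_nonneg _)
      _ = (∑ n ∈ Finset.Ico c (c + m), ‖f ((n + 1 : ℕ) : ℝ) - f (n : ℝ)‖) * E := by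
          rw [Finset.sum_mul]
      _ ≤ I1 * E := by
          refine mul_le_mul_of_nonneg_right ?_ hE0
          have h1 := sum_diff f f1 c (m + 1) hd hc m (by omega)
          refine h1.trans ?_
          have h2 : (∫ t in (c : ℝ)..(c + m), ‖f1 t‖) + (∫ t in ((c : ℝ) + m)..(c + Q), ‖f1 t‖) = I1 :=
            intervalIntegral.integral_add_adjacent_intervals
              (ii f1 c (c + Q) _ _ hc (le_refl _) (by linarith) (by linarith))
              (ii f1 c (c + Q) _ _ hc (by linarith) (by linarith) (by linarith))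
          have h3 : 0 ≤ ∫ t in ((c : ℝ) + m)..(c + Q), ‖f1 t‖ :=
            intervalIntegral.integral_nonneg (by linarith) (fun t _ => norm_nonneg _)
          linarith
  have hpt : ∀ y ∈ Icc (c : ℝ) (c + Q), ‖f ((c + m : ℕ) : ℝ)‖ ≤ ‖f y‖ + I1 := by
    intro y hy
    have hx : ((c + m : ℕ) : ℝ) = c + m := by push_cast; ring
    rw [hx]
    have key : ‖f ((c : ℝ) + m) - f y‖ ≤ I1 := by
      rcases le_total y ((c : ℝ) + m) with h | h
      · have h1 := diff_le f f1 c (c + Q) y (c + m) hd hc hy.1 h (by linarith)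
        refine h1.trans ?_
        refine intervalIntegral.integral_mono_interval hy.1 h (by linarith) ?_
          (ii f1 c (c + Q) _ _ hc (le_refl _) (by linarith) (le_refl _))
        exact Filter.Eventually.of_forall (fun t => norm_nonneg _)
      · have h1 := diff_le f f1 c (c + Q) (c + m) y hd hc (by linarith) h hy.2
        rw [norm_sub_rev]
        refine h1.trans ?_
        refine intervalIntegral.integral_mono_interval (by linarith) h hy.2 ?_
          (ii f1 c (c + Q) _ _ hc (le_refl _) (by linarith) (le_refl _))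
        exact Filter.Eventually.of_forall (fun t => norm_nonneg _)
    have h2 : ‖f ((c : ℝ) + m)‖ ≤ ‖f ((c : ℝ) + m) - f y‖ + ‖f y‖ := by
      have := norm_add_le (f ((c : ℝ) + m) - f y) (f y)
      simpa using this
    linarith
  have hav : Q * ‖f ((c + m : ℕ) : ℝ)‖ ≤ (∫ y in (c : ℝ)..(c + Q), ‖f y‖) + Q * I1 := by
    have hif : IntervalIntegrable (fun t => ‖f t‖) volume (c : ℝ) (c + Q) :=
      ii f c (c + Q) _ _ hfc (le_refl _) (by linarith) (le_refl _)
    have h1 : (∫ y in (c : ℝ)..(c + Q), ‖f ((c + m : ℕ) : ℝ)‖) ≤ ∫ y in (c : ℝ)..(c + Q), (‖f y‖ + I1) := by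
      refine intervalIntegral.integral_mono_on (by linarith) (by simp) (hif.add (by simp)) ?_
      intro y hy
      exact hpt y hy
    rw [intervalIntegral.integral_add hif (by simp), intervalIntegral.integral_const,
      intervalIntegral.integral_const] at h1
    simpa using h1
  have hav2 : ‖f ((c + m : ℕ) : ℝ)‖ ≤ (1 / Q) * (∫ y in (c : ℝ)..(c + Q), ‖f y‖) + I1 := by
    have h1 : ‖f ((c + m : ℕ) : ℝ)‖ = (1 / Q) * (Q * ‖f ((c + m : ℕ) : ℝ)‖) := by
      field_simp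
    rw [h1]
    have h2 : (1 / Q) * (∫ y in (c : ℝ)..(c + Q), ‖f y‖) + I1 =
        (1 / Q) * ((∫ y in (c : ℝ)..(c + Q), ‖f y‖) + Q * I1) := by
      field_simp
    rw [h2]
    exact mul_le_mul_of_nonneg_left hav (by positivity)
  have htri := norm_sub_le (f ((c + m : ℕ) : ℝ) * ∑ n ∈ Finset.Ico c (c + m + 1), z n)
    (∑ n ∈ Finset.Ico c (c + m), (f ((n + 1 : ℕ) : ℝ) - f (n : ℝ)) * ∑ j ∈ Finset.Ico c (n + 1), z j)
  refine htri.trans ?_
  have h5 : ‖f ((c + m : ℕ) : ℝ)‖ * E ≤ ((1 / Q) * (∫ y in (c : ℝ)..(c + Q), ‖f y‖) + I1) * E :=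
    mul_le_mul_of_nonneg_right hav2 hE0
  nlinarith [hb1, hb2, h5]

end SB_aux

open SB_aux

theorem iSB : StSB := by
  intro q K a z f f1 E hq
  induction K with
  | zero =>
    intro hd hc hE
    simp
  | succ K ih =>
    intro hd hc hE
    have hcast : (a : ℝ) + ((K + 1 : ℕ) : ℝ) * q = (a + K * q) + q := by push_cast; ring
    have hq0 : (0 : ℝ) ≤ q := Nat.cast_nonneg q
    have hKq : (0 : ℝ) ≤ (K : ℝ) * q := by positivity
    rw [hcast] at hd hc ⊢
    have hle : (a : ℝ) + K * q ≤ (a + K * q) + q := by linarith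
    have hfc : ContinuousOn f (Icc (a : ℝ) ((a + K * q) + q)) :=
      fun y hy => (hd y hy).continuousAt.continuousWithinAt
    have h1 := ih (fun y hy => hd y ⟨hy.1, hy.2.trans hle⟩) (hc.mono (Icc_subset_Icc_right hle))
      (fun c d h1 h2 h3 h4 => hE c d h1 h2 h3 (by nlinarith))
    have hcc : ((a + K * q : ℕ) : ℝ) = a + K * q := by push_cast; ring
    have h2 := block q (a + K * q) z f f1 E hq
      (by
        rw [hcc]
        exact fun y hy => hd y ⟨by linarith [hy.1], hy.2⟩)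
      (by
        rw [hcc]
        exact hc.mono (Icc_subset_Icc_left (by linarith)))
      (fun d h1 h2 => hE (a + K * q) d (by omega) h1 h2 (by nlinarith))
    rw [hcc] at h2
    have hsum : ∑ n ∈ Finset.Ico a (a + (K + 1) * q), f n * z n =
        ∑ n ∈ Finset.Ico a (a + K * q), f n * z n +
          ∑ n ∈ Finset.Ico (a + K * q) (a + K * q + q), f n * z n := by
      rw [show a + (K + 1) * q = a + K * q + q by ring]
      exact (Finset.sum_Ico_consecutive _ (by omega) (by omega)).symm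
    rw [hsum]
    refine (norm_add_le _ _).trans ?_
    have i1 : (∫ y in (a : ℝ)..(a + K * q), ‖f y‖) + (∫ y in ((a : ℝ) + K * q)..((a + K * q) + q), ‖f y‖) =
        ∫ y in (a : ℝ)..((a + K * q) + q), ‖f y‖ :=
      intervalIntegral.integral_add_adjacent_intervals
        (ii f a ((a + K * q) + q) _ _ hfc (le_refl _) (by linarith) hle)
        (ii f a ((a + K * q) + q) _ _ hfc (by linarith) hle (le_refl _))
    have i2 : (∫ y in (a : ℝ)..(a + K * q), ‖f1 y‖) + (∫ y in ((a : ℝ) + K * q)..((a + K * q) + q), ‖f1 y‖) =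
        ∫ y in (a : ℝ)..((a + K * q) + q), ‖f1 y‖ :=
      intervalIntegral.integral_add_adjacent_intervals
        (ii f1 a ((a + K * q) + q) _ _ hc (le_refl _) (by linarith) hle)
        (ii f1 a ((a + K * q) + q) _ _ hc (by linarith) hle (le_refl _))
    rw [← i1, ← i2]
    linarith

end Pool.Agent.Work.MP_56b8f5_nt.UV
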